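import Pool.Agent.Helper32.PG.Stm
import Pool.Agent.Helper32.FG.Op
import Pool.Graph.R_seed8.TH369.MU.SM

/-!
Statements of the packages of the polynomial growth project, spectral part (helper32).
-/

set_option autoImplicit false

open scoped BigOperators InnerProductSpace Topology ENNReal

namespace Pool.Agent.Helper32.PG

open Finset MeasureTheory
open Pool.Agent.Y662.TR (LL dv Mw)
open Pool.Agent.TH369.MU (SpM)

/-- P7. The adjacency operator of a locally finite multigraph of bounded degree. -/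
def S_Adj : Prop := ∀ (V : Type) [Countable V] (a : V → V → ℕ) (D : ℕ), (∀ x y, a x y = a y x) →
    (∀ x, (Function.support (a x)).Finite) → (∀ x, ∑ᶠ y, a x y ≤ D) →
    ∃ L : LL V →L[ℂ] LL V, IsSelfAdjoint L ∧ ∀ (u : LL V) (x : V), L u x = ∑' y, (a x y : ℂ) * u y

/-- P8. No eigenvector, no atom. -/
def S_NoAtom : Prop := ∀ (V : Type) (T : LL V →L[ℂ] LL V), IsSelfAdjoint T → ∀ E : ℝ,
    (∀ u : LL V, T u = (E : ℂ) • u → u = 0) → ∀ (f : LL V) (m : Measure ℝ), SpM T f m → m {E} = 0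

/-- P9. The spectral measure of the root charges every window of the radial band. -/
def S_Pos : Prop := ∀ (X : Type) [DecidableEq X] [Countable X] (H : Horn X) (o : X)
    (L : LL X →L[ℂ] LL X), IsSelfAdjoint L → (∀ (u : LL X) (x : X), L u x = ∑' y, (H.a x y : ℂ) * u y) →
    H.sh o = 0 → ∀ E₁ E₂ : ℝ, 4 < E₁ → E₁ < E₂ → E₂ < 12 → ∀ b : ℝ, 0 < b → ∃ l0 > (0 : ℝ),
    ∀ l : ℝ, |l| ≤ l0 → ∀ (ω : X → ℝ) (m : Measure ℝ),
      SpM (L + ((l : ℝ) : ℂ) • Mw b ω) (dv o) m → 0 < m (Set.Ioo E₁ E₂)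

end Pool.Agent.Helper32.PG
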