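import Pool.Agent.Helper32.PG.Loc
import Pool.Agent.Helper32.PG.Stm2

/-!
The adjacency of a horn with integer multiplicities.
-/

set_option autoImplicit false
set_option linter.unusedSectionVars false

open scoped BigOperators InnerProductSpace Topology ENNReal

namespace Pool.Agent.Helper32.PG

open Finset

variable {X : Type} [DecidableEq X] (H : Horn X)

/-- the sum over the neighbours is finite -/
theorem Horn.tsum_eq {a : X → X → ℕ} (ha : ∀ x y, H.a x y = a x y) (u : X → ℂ) (x : X) :
    ∑' y, (a x y : ℂ) * u y = ∑ y ∈ H.B (H.sh x + 1), (a x y : ℂ) * u y := by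
  apply tsum_eq_sum
  intro y hy
  rw [H.mem_B] at hy
  have h1 : (a x y : ℝ) = 0 := by
    rw [← ha]
    exact H.a_zero (Or.inl (by omega))
  have h2 : a x y = 0 := by exact_mod_cast h1
  rw [h2]
  simp

theorem Horn.supp_fin {a : X → X → ℕ} (ha : ∀ x y, H.a x y = a x y) (x : X) :
    (Function.support (a x)).Finite := by
  apply Set.Finite.subset (H.B (H.sh x + 1)).finite_toSet
  intro y hy
  rw [Function.mem_support] at hy
  rw [mem_coe, H.mem_B]
  by_contra h
  apply hy
  have h1 : (a x y : ℝ) = 0 := by
    rw [← ha]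
    exact H.a_zero (Or.inl (by omega))
  exact_mod_cast h1

theorem Horn.deg_le {a : X → X → ℕ} (ha : ∀ x y, H.a x y = a x y) (x : X) :
    ∑ᶠ y, a x y ≤ 14 := by
  have h1 : Function.support (a x) ⊆ ↑(H.B (H.sh x + 1)) := by
    intro y hy
    rw [Function.mem_support] at hy
    rw [mem_coe, H.mem_B]
    by_contra h
    apply hy
    have h1 : (a x y : ℝ) = 0 := by
      rw [← ha]
      exact H.a_zero (Or.inl (by omega))
    exact_mod_cast h1
  rw [finsum_eq_sum_of_support_subset _ h1]
  have h2 := H.row_total' x (H.sh x + 1)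
  rw [sum_congr rfl fun y _ => ha x y] at h2
  exact_mod_cast h2

end Pool.Agent.Helper32.PG
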