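import Pool.Agent.Helper32.PG.Stm

/-!
Algebra on a horn: the adjacency operator, shell averages, quadratic forms.
-/

set_option autoImplicit false
set_option linter.unusedSectionVars false

namespace Pool.Agent.Helper32.PG

open Finset

variable {X : Type} [DecidableEq X] (H : Horn X)

/-- the sites of the shells `0, ..., R` -/
def Horn.B (R : ℕ) : Finset X := (range (R + 1)).biUnion H.Sh

theorem Horn.mem_B {R : ℕ} {x : X} : x ∈ H.B R ↔ H.sh x ≤ R := by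
  unfold Horn.B
  rw [mem_biUnion]
  constructor
  · rintro ⟨n, hn, hx⟩
    rw [mem_range] at hn
    rw [H.mem] at hx
    omega
  · intro h
    exact ⟨H.sh x, mem_range.2 (by omega), (H.mem _ _).2 rfl⟩

theorem Horn.sum_B (R : ℕ) (F : X → ℝ) :
    ∑ x ∈ H.B R, F x = ∑ n ∈ range (R + 1), ∑ x ∈ H.Sh n, F x := by
  unfold Horn.B
  rw [sum_biUnion]
  intro i _ j _ hij
  rw [Function.onFun, disjoint_left]
  intro x h1 h2
  rw [H.mem] at h1 h2
  exact hij (h1.symm.trans h2)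

/-- `f` vanishes beyond the shell `r` -/
def Horn.Van (f : X → ℝ) (r : ℕ) : Prop := ∀ x, r < H.sh x → f x = 0

/-- all shell averages of `f` are zero -/
def Horn.ZM (f : X → ℝ) : Prop := ∀ n, ∑ x ∈ H.Sh n, f x = 0

theorem Horn.Van.mono {H : Horn X} {f : X → ℝ} {r r' : ℕ} (h : H.Van f r) (hr : r ≤ r') :
    H.Van f r' := fun x hx => h x (lt_of_le_of_lt hr hx)

theorem Horn.sum_Van {f : X → ℝ} {r R : ℕ} (h : H.Van f r) (hR : r ≤ R) :
    ∑ x ∈ H.B R, f x = ∑ x ∈ H.B r, f x := by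
  symm
  apply sum_subset
  · intro x hx
    rw [H.mem_B] at hx ⊢
    omega
  · intro x _ hx
    rw [H.mem_B] at hx
    exact h x (by omega)

/-- adjacency operator -/
def Horn.L (f : X → ℝ) (x : X) : ℝ := ∑ y ∈ H.B (H.sh x + 1), H.a x y * f y

theorem Horn.a_zero {x y : X} (h : H.sh x + 1 < H.sh y ∨ H.sh y + 1 < H.sh x) : H.a x y = 0 := by
  rcases h with h | h
  · exact H.loc x y h
  · rw [H.symm]
    exact H.loc y x h

theorem Horn.L_eq (f : X → ℝ) (x : X) {R : ℕ} (hR : H.sh x + 1 ≤ R) :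
    H.L f x = ∑ y ∈ H.B R, H.a x y * f y := by
  unfold Horn.L
  apply sum_subset
  · intro y hy
    rw [H.mem_B] at hy ⊢
    omega
  · intro y _ hy
    rw [H.mem_B] at hy
    rw [H.a_zero (Or.inl (by omega)), zero_mul]

theorem Horn.L_eqv (f : X → ℝ) (x : X) {r R : ℕ} (hf : H.Van f r) (hR : r ≤ R) :
    H.L f x = ∑ y ∈ H.B R, H.a x y * f y := by
  rw [H.L_eq f x (R := R + (H.sh x + 1)) (by omega)]
  symm
  apply sum_subset
  · intro y hy
    rw [H.mem_B] at hy ⊢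
    omega
  · intro y _ hy
    rw [H.mem_B] at hy
    rw [hf y (by omega), mul_zero]

theorem Horn.L_van {f : X → ℝ} {r : ℕ} (hf : H.Van f r) : H.Van (H.L f) (r + 1) := by
  intro x hx
  rw [H.L_eqv f x hf le_rfl]
  apply sum_eq_zero
  intro y hy
  rw [H.mem_B] at hy
  rw [H.a_zero (Or.inr (by omega)), zero_mul]

theorem Horn.L_sym {f : X → ℝ} (g : X → ℝ) {r R : ℕ} (hf : H.Van f r) (hR : r + 1 ≤ R) :
    ∑ x ∈ H.B R, H.L f x * g x = ∑ x ∈ H.B R, f x * H.L g x := by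
  have h1 : ∑ x ∈ H.B R, H.L f x * g x = ∑ x ∈ H.B R, ∑ y ∈ H.B R, H.a x y * f y * g x := by
    apply sum_congr rfl
    intro x _
    rw [H.L_eqv f x (R := R) hf (by omega), sum_mul]
  have h2 : ∑ x ∈ H.B R, f x * H.L g x = ∑ x ∈ H.B R, ∑ y ∈ H.B R, H.a x y * f x * g y := by
    apply sum_congr rfl
    intro x _
    by_cases hx : r < H.sh x
    · rw [hf x hx, zero_mul]
      symm
      apply sum_eq_zero
      intro y _
      ring
    · rw [H.L_eq g x (R := R) (by omega), mul_sum]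
      apply sum_congr rfl
      intro y _
      ring
  rw [h1, h2, sum_comm]
  apply sum_congr rfl
  intro y _
  apply sum_congr rfl
  intro x _
  rw [H.symm]

theorem Horn.sum_shell_L (f : X → ℝ) (n : ℕ) :
    ∑ x ∈ H.Sh n, H.L f x = ∑ i ∈ range (n + 2), ∑ y ∈ H.Sh i, f y * ∑ x ∈ H.Sh n, H.a x y := by
  have h1 : ∑ x ∈ H.Sh n, H.L f x = ∑ x ∈ H.Sh n, ∑ y ∈ H.B (n + 1), H.a x y * f y := by
    apply sum_congr rfl
    intro x hx
    rw [H.mem] at hx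
    rw [H.L_eq f x (R := n + 1) (by omega)]
  rw [h1, sum_comm, H.sum_B]
  apply sum_congr rfl
  intro i _
  apply sum_congr rfl
  intro y _
  rw [mul_sum]
  apply sum_congr rfl
  intro x _
  ring

theorem Horn.row_diag {y : X} {n : ℕ} (hy : H.sh y = n) : ∑ x ∈ H.Sh n, H.a x y = 8 := by
  rw [← H.row0 y, hy]
  exact sum_congr rfl fun x _ => H.symm _ _

theorem Horn.row_up {y : X} {n : ℕ} (hy : H.sh y = n) :
    ∑ x ∈ H.Sh (n + 1), H.a x y = 2 * 2 ^ H.e (n + 1) / 2 ^ H.e n := by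
  have := H.rowup y
  rw [hy] at this
  rw [← this]
  exact sum_congr rfl fun x _ => H.symm _ _

theorem Horn.row_dn {y : X} {n : ℕ} (hy : H.sh y = n + 1) :
    ∑ x ∈ H.Sh n, H.a x y = 2 * 2 ^ H.e n / 2 ^ H.e (n + 1) := by
  rw [← H.rowdn y n hy]
  exact sum_congr rfl fun x _ => H.symm _ _

theorem Horn.row_far {y : X} {n : ℕ} (hy : H.sh y + 1 < n) : ∑ x ∈ H.Sh n, H.a x y = 0 := by
  apply sum_eq_zero
  intro x hx
  rw [H.mem] at hx
  exact H.a_zero (Or.inr (by omega))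

theorem Horn.sum_L_zero (f : X → ℝ) : ∑ x ∈ H.Sh 0, H.L f x =
    8 * ∑ x ∈ H.Sh 0, f x + 2 * 2 ^ H.e 0 / 2 ^ H.e 1 * ∑ x ∈ H.Sh 1, f x := by
  rw [H.sum_shell_L, sum_range_succ, sum_range_succ, sum_range_zero, zero_add, mul_sum, mul_sum]
  congr 1
  · apply sum_congr rfl
    intro y hy
    rw [H.row_diag ((H.mem _ _).1 hy)]
    ring
  · apply sum_congr rfl
    intro y hy
    rw [H.row_dn ((H.mem _ _).1 hy)]
    ring

theorem Horn.sum_L_succ (f : X → ℝ) (n : ℕ) : ∑ x ∈ H.Sh (n + 1), H.L f x =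
    8 * ∑ x ∈ H.Sh (n + 1), f x + 2 * 2 ^ H.e (n + 1) / 2 ^ H.e (n + 2) * ∑ x ∈ H.Sh (n + 2), f x +
      2 * 2 ^ H.e (n + 1) / 2 ^ H.e n * ∑ x ∈ H.Sh n, f x := by
  rw [H.sum_shell_L, sum_range_succ, sum_range_succ, sum_range_succ]
  have h0 : ∑ i ∈ range n, ∑ y ∈ H.Sh i, f y * ∑ x ∈ H.Sh (n + 1), H.a x y = 0 := by
    apply sum_eq_zero
    intro i hi
    apply sum_eq_zero
    intro y hy
    rw [mem_range] at hi
    rw [H.mem] at hy
    rw [H.row_far (by omega), mul_zero]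
  have h1 : ∑ y ∈ H.Sh n, f y * ∑ x ∈ H.Sh (n + 1), H.a x y =
      2 * 2 ^ H.e (n + 1) / 2 ^ H.e n * ∑ x ∈ H.Sh n, f x := by
    rw [mul_sum]
    apply sum_congr rfl
    intro y hy
    rw [H.row_up ((H.mem _ _).1 hy)]
    ring
  have h2 : ∑ y ∈ H.Sh (n + 1), f y * ∑ x ∈ H.Sh (n + 1), H.a x y =
      8 * ∑ x ∈ H.Sh (n + 1), f x := by
    rw [mul_sum]
    apply sum_congr rfl
    intro y hy
    rw [H.row_diag ((H.mem _ _).1 hy)]
    ring
  have h3 : ∑ y ∈ H.Sh (n + 1 + 1), f y * ∑ x ∈ H.Sh (n + 1), H.a x y =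
      2 * 2 ^ H.e (n + 1) / 2 ^ H.e (n + 2) * ∑ x ∈ H.Sh (n + 2), f x := by
    rw [mul_sum]
    apply sum_congr rfl
    intro y hy
    rw [H.row_dn ((H.mem _ _).1 hy)]
    ring
  rw [h0, h1, h2, h3]
  ring

theorem Horn.L_zm {f : X → ℝ} (hf : H.ZM f) : H.ZM (H.L f) := by
  intro n
  cases n with
  | zero => rw [H.sum_L_zero, hf 0, hf 1]; ring
  | succ n => rw [H.sum_L_succ, hf, hf, hf]; ring

/-- Schur test -/
theorem schur (a : X → X → ℝ) (ha : ∀ x y, 0 ≤ a x y) (S S' : Finset X) (f g : X → ℝ) (t r r' : ℝ)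
    (ht : 0 < t) (h1 : ∀ x ∈ S, ∑ y ∈ S', a x y ≤ r) (h2 : ∀ y ∈ S', ∑ x ∈ S, a x y ≤ r') :
    |∑ x ∈ S, ∑ y ∈ S', a x y * f x * g y| ≤
      (t * r * ∑ x ∈ S, f x ^ 2 + t⁻¹ * r' * ∑ y ∈ S', g y ^ 2) / 2 := by
  have e1 : |∑ x ∈ S, ∑ y ∈ S', a x y * f x * g y| ≤
      ∑ x ∈ S, ∑ y ∈ S', a x y * ((t * f x ^ 2 + t⁻¹ * g y ^ 2) / 2) := by
    refine (abs_sum_le_sum_abs _ _).trans (sum_le_sum fun x _ => ?_)
    refine (abs_sum_le_sum_abs _ _).trans (sum_le_sum fun y _ => ?_)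
    rw [mul_assoc, abs_mul, abs_of_nonneg (ha x y)]
    apply mul_le_mul_of_nonneg_left _ (ha x y)
    rw [abs_mul]
    have h : 0 ≤ (t * |f x| - |g y|) ^ 2 * t⁻¹ := by positivity
    have h' : (t * |f x| - |g y|) ^ 2 * t⁻¹ = t * |f x| ^ 2 - 2 * (|f x| * |g y|) +
        t⁻¹ * |g y| ^ 2 := by
      field_simp
      ring
    rw [h', sq_abs, sq_abs] at h
    linarith
  refine e1.trans ?_
  have e2 : ∑ x ∈ S, ∑ y ∈ S', a x y * ((t * f x ^ 2 + t⁻¹ * g y ^ 2) / 2) =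
      t / 2 * ∑ x ∈ S, f x ^ 2 * ∑ y ∈ S', a x y +
        t⁻¹ / 2 * ∑ y ∈ S', g y ^ 2 * ∑ x ∈ S, a x y := by
    have c1 : ∑ y ∈ S', g y ^ 2 * ∑ x ∈ S, a x y = ∑ x ∈ S, ∑ y ∈ S', g y ^ 2 * a x y := by
      rw [sum_comm]
      exact sum_congr rfl fun y _ => mul_sum _ _ _
    rw [c1, mul_sum, mul_sum, ← sum_add_distrib]
    apply sum_congr rfl
    intro x _
    rw [mul_sum, mul_sum, mul_sum, ← sum_add_distrib]
    apply sum_congr rfl
    intro y _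
    ring
  rw [e2]
  have e3 : ∑ x ∈ S, f x ^ 2 * ∑ y ∈ S', a x y ≤ r * ∑ x ∈ S, f x ^ 2 := by
    rw [mul_sum]
    apply sum_le_sum
    intro x hx
    have := mul_le_mul_of_nonneg_left (h1 x hx) (sq_nonneg (f x))
    linarith
  have e4 : ∑ y ∈ S', g y ^ 2 * ∑ x ∈ S, a x y ≤ r' * ∑ y ∈ S', g y ^ 2 := by
    rw [mul_sum]
    apply sum_le_sum
    intro y hy
    have := mul_le_mul_of_nonneg_left (h2 y hy) (sq_nonneg (g y))
    linarith
  have e5 := mul_le_mul_of_nonneg_left e3 (by positivity : (0 : ℝ) ≤ t / 2)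
  have e6 := mul_le_mul_of_nonneg_left e4 (by positivity : (0 : ℝ) ≤ t⁻¹ / 2)
  linarith

/-- the part of the form between two shells -/
noncomputable def Horn.c (f : X → ℝ) (i j : ℕ) : ℝ := ∑ x ∈ H.Sh i, ∑ y ∈ H.Sh j, H.a x y * f x * f y

theorem Horn.c_symm (f : X → ℝ) (i j : ℕ) : H.c f i j = H.c f j i := by
  unfold Horn.c
  rw [sum_comm]
  apply sum_congr rfl
  intro y _
  apply sum_congr rfl
  intro x _
  rw [H.symm]
  ring

theorem Horn.c_far (f : X → ℝ) {i j : ℕ} (h : i + 1 < j) : H.c f i j = 0 := by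
  unfold Horn.c
  apply sum_eq_zero
  intro x hx
  apply sum_eq_zero
  intro y hy
  rw [H.mem] at hx hy
  rw [H.a_zero (Or.inl (by omega))]
  ring

theorem Horn.c_next (f : X → ℝ) (i : ℕ) : |H.c f i (i + 1)| ≤
    ∑ x ∈ H.Sh i, f x ^ 2 + ∑ x ∈ H.Sh (i + 1), f x ^ 2 := by
  have h := schur H.a H.nn (H.Sh i) (H.Sh (i + 1)) f f (2 ^ H.e i / 2 ^ H.e (i + 1))
    (2 * 2 ^ H.e (i + 1) / 2 ^ H.e i) (2 * 2 ^ H.e i / 2 ^ H.e (i + 1)) (by positivity)
    (fun x hx => by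
      rw [H.mem] at hx
      have := H.rowup x
      rw [hx] at this
      exact this.le)
    (fun y hy => (H.row_dn ((H.mem _ _).1 hy)).le)
  refine h.trans (le_of_eq ?_)
  have h1 : (2 : ℝ) ^ H.e i / 2 ^ H.e (i + 1) * (2 * 2 ^ H.e (i + 1) / 2 ^ H.e i) = 2 := by
    field_simp
  have h2 : ((2 : ℝ) ^ H.e i / 2 ^ H.e (i + 1))⁻¹ * (2 * 2 ^ H.e i / 2 ^ H.e (i + 1)) = 2 := by
    field_simp
  rw [h1, h2]
  ring

theorem Horn.c_diag (f : X → ℝ) (i : ℕ) : |H.c f i i| ≤ 8 * ∑ x ∈ H.Sh i, f x ^ 2 := by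
  have h := schur H.a H.nn (H.Sh i) (H.Sh i) f f 1 8 8 one_pos
    (fun x hx => by
      rw [H.mem] at hx
      have := H.row0 x
      rw [hx] at this
      exact this.le)
    (fun y hy => (H.row_diag ((H.mem _ _).1 hy)).le)
  refine h.trans (le_of_eq ?_)
  ring

theorem Horn.form_split (f : X → ℝ) (R : ℕ) :
    ∑ x ∈ H.B R, ∑ y ∈ H.B R, H.a x y * f x * f y =
      ∑ i ∈ range (R + 1), ∑ j ∈ range (R + 1), H.c f i j := by
  rw [H.sum_B]
  apply sum_congr rfl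
  intro i _
  unfold Horn.c
  rw [sum_comm (s := range (R + 1))]
  apply sum_congr rfl
  intro x _
  rw [H.sum_B]

theorem Horn.form_succ (f : X → ℝ) (R : ℕ) :
    ∑ i ∈ range (R + 2), ∑ j ∈ range (R + 2), H.c f i j =
      ∑ i ∈ range (R + 1), ∑ j ∈ range (R + 1), H.c f i j + 2 * H.c f R (R + 1) +
        H.c f (R + 1) (R + 1) := by
  have h1 : ∀ i, ∑ j ∈ range (R + 2), H.c f i j = ∑ j ∈ range (R + 1), H.c f i j +
      H.c f i (R + 1) := fun i => sum_range_succ _ _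
  have h2 : ∑ i ∈ range (R + 1), H.c f i (R + 1) = H.c f R (R + 1) := by
    rw [sum_range_succ]
    rw [sum_eq_zero, zero_add]
    intro i hi
    rw [mem_range] at hi
    exact H.c_far f (by omega)
  have h3 : ∑ j ∈ range (R + 1), H.c f (R + 1) j = H.c f R (R + 1) := by
    rw [← h2]
    exact sum_congr rfl fun j _ => H.c_symm f _ _
  rw [sum_congr rfl fun i _ => h1 i, sum_add_distrib, sum_range_succ, h3,
    sum_range_succ (fun i => H.c f i (R + 1)), h2]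
  ring

theorem Horn.form_upper {f : X → ℝ} (hf : H.ZM f) (R : ℕ) :
    ∑ i ∈ range (R + 1), ∑ j ∈ range (R + 1), H.c f i j ≤
      (12 - 1 / 100) * ∑ i ∈ range (R + 1), ∑ x ∈ H.Sh i, f x ^ 2 - 2 * ∑ x ∈ H.Sh R, f x ^ 2 := by
  induction R with
  | zero =>
    simp only [zero_add, sum_range_one]
    have h := H.gap 0 f (hf 0)
    have h2 : 0 ≤ ∑ x ∈ H.Sh 0, f x ^ 2 := sum_nonneg fun x _ => sq_nonneg _
    unfold Horn.c
    linarith
  | succ R ih =>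
    rw [H.form_succ, sum_range_succ (fun i => ∑ x ∈ H.Sh i, f x ^ 2)]
    have h1 := (abs_le.1 (H.c_next f R)).2
    have h2 : H.c f (R + 1) (R + 1) ≤ (8 - 1 / 100) * ∑ x ∈ H.Sh (R + 1), f x ^ 2 :=
      H.gap (R + 1) f (hf (R + 1))
    linarith

theorem Horn.form_lower (f : X → ℝ) (R : ℕ) :
    - 12 * ∑ i ∈ range (R + 1), ∑ x ∈ H.Sh i, f x ^ 2 + 2 * ∑ x ∈ H.Sh R, f x ^ 2 ≤
    ∑ i ∈ range (R + 1), ∑ j ∈ range (R + 1), H.c f i j := by
  induction R with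
  | zero =>
    simp only [zero_add, sum_range_one]
    have h := (abs_le.1 (H.c_diag f 0)).1
    have h2 : 0 ≤ ∑ x ∈ H.Sh 0, f x ^ 2 := sum_nonneg fun x _ => sq_nonneg _
    linarith
  | succ R ih =>
    rw [H.form_succ, sum_range_succ (fun i => ∑ x ∈ H.Sh i, f x ^ 2)]
    have h1 := (abs_le.1 (H.c_next f R)).1
    have h2 := (abs_le.1 (H.c_diag f (R + 1))).1
    linarith

theorem Horn.form_eq {f : X → ℝ} {r R : ℕ} (hf : H.Van f r) (hR : r ≤ R) :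
    ∑ x ∈ H.B R, f x * H.L f x = ∑ i ∈ range (R + 1), ∑ j ∈ range (R + 1), H.c f i j := by
  rw [← H.form_split]
  apply sum_congr rfl
  intro x _
  rw [H.L_eqv f x hf hR, mul_sum]
  apply sum_congr rfl
  intro y _
  ring

theorem Horn.L_upper {f : X → ℝ} {r R : ℕ} (hf : H.Van f r) (hR : r ≤ R) (hz : H.ZM f) :
    ∑ x ∈ H.B R, f x * H.L f x ≤ (12 - 1 / 100) * ∑ x ∈ H.B R, f x ^ 2 := by
  rw [H.form_eq hf hR, H.sum_B]
  have h := H.form_upper hz R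
  have h2 : 0 ≤ ∑ x ∈ H.Sh R, f x ^ 2 := sum_nonneg fun x _ => sq_nonneg _
  linarith

theorem Horn.L_lower {f : X → ℝ} {r R : ℕ} (hf : H.Van f r) (hR : r ≤ R) :
    - 12 * ∑ x ∈ H.B R, f x ^ 2 ≤ ∑ x ∈ H.B R, f x * H.L f x := by
  rw [H.form_eq hf hR, H.sum_B]
  have h := H.form_lower f R
  have h2 : 0 ≤ ∑ x ∈ H.Sh R, f x ^ 2 := sum_nonneg fun x _ => sq_nonneg _
  linarith

end Pool.Agent.Helper32.PG
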