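import Pool.Agent.Helper32.PG.Stm7
import Pool.Graph.R_pool_sql_team_seeded_1acbe0a2.Y662.TR.Acs

/-!
A set which is null for the spectral measures of the unit vectors is null for all the spectral
measures.
-/

set_option autoImplicit false
set_option linter.unusedSectionVars false

open scoped BigOperators InnerProductSpace Topology ENNReal

namespace Pool.Agent.Helper32.PG

open MeasureTheory Filter
open Pool.Agent.Y662.TR (LL dv po_lint open_le approx qk_po spm_mass po_nonneg Po_P P_comm)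
open Pool.Agent.TH369.AN (Rz rz_eq rz_uniq rz_norm)
open Pool.Agent.TH369.MU (SpM ep zk qk Fk qk_sq qk_add qk_sum qk_nonneg spm_exists)
open Pool.Agent.TH369.MU.PO2 (ep_pos ep_tendsto)
open Pool.Agent.W883.LL (P P_nonneg P_cont P_integral P_integrable)
open Pool.Agent.TH794.LL2 (Po Po_int Po_im)

/-- total mass of the kernel -/
theorem P_lint_le (x η : ℝ) (hη : 0 < η) (U : Set ℝ) :
    ∫⁻ E in U, ENNReal.ofReal (P x η E) ≤ 4 := by
  refine (setLIntegral_le_lintegral _ _).trans ?_
  rw [← ofReal_integral_eq_lintegral_ofReal (P_integrable x η hη)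
    (Eventually.of_forall fun E => P_nonneg x η E hη), P_integral x η hη]
  have h1 : (4 : ℝ≥0∞) = ENNReal.ofReal 4 := by norm_num
  rw [h1]
  exact ENNReal.ofReal_le_ofReal Real.pi_lt_four.le

/-- mass of the kernel away from the pole -/
theorem P_lint_far (x η δ : ℝ) (hη : 0 < η) (hδ : 0 < δ) {U : Set ℝ} (hU : MeasurableSet U)
    (h : ∀ E ∈ U, δ ≤ |E - x|) :
    ∫⁻ E in U, ENNReal.ofReal (P x η E) ≤ ENNReal.ofReal (η / δ ^ 2) * volume U := by
  rw [← setLIntegral_const]
  refine setLIntegral_mono' hU fun E hE => ?_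
  apply ENNReal.ofReal_le_ofReal
  unfold P
  have h1 := h E hE
  have h2 : δ ^ 2 ≤ (E - x) ^ 2 := by
    rw [← sq_abs (E - x)]
    exact pow_le_pow_left₀ hδ.le h1 2
  apply div_le_div_of_nonneg_left hη.le (by positivity)
  nlinarith [sq_nonneg η]

/-- comparison of two measures through their Poisson integrals, compact and open sets -/
theorem compact_le {m1 m2 : Measure ℝ} [IsFiniteMeasure m1] [IsFiniteMeasure m2]
    (h : ∀ (k : ℕ) (E : ℝ), Po m1 E (ep k) ≤ Po m2 E (ep k)) {K V : Set ℝ} (hK : IsCompact K)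
    (hV : IsOpen V) (hKV : K ⊆ V) : m1 K ≤ 4 * m2 V := by
  obtain ⟨δ, hδ, hδV⟩ := hK.exists_thickening_subset_open hV hKV
  set U := Metric.thickening (δ / 2) K with hU
  have hUo : IsOpen U := Metric.isOpen_thickening
  have hKU : K ⊆ U := Metric.self_subset_thickening (by positivity) K
  have hUb : Bornology.IsBounded U := hK.isBounded.thickening
  have hUf : volume U ≠ ∞ := hUb.measure_lt_top.ne
  have hfar : ∀ x, x ∉ V → ∀ E ∈ U, δ / 2 ≤ |E - x| := by
    intro x hx E hE
    by_contra hc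
    push Not at hc
    apply hx
    apply hδV
    rw [hU, Metric.mem_thickening_iff] at hE
    obtain ⟨z, hz, hEz⟩ := hE
    rw [Metric.mem_thickening_iff]
    refine ⟨z, hz, ?_⟩
    have h1 := dist_triangle x E z
    rw [dist_comm x E, Real.dist_eq E x] at h1
    linarith
  have h1 : ∀ k, ∫⁻ E in U, ENNReal.ofReal (Po m1 E (ep k)) ≤
      4 * m2 V + ENNReal.ofReal (ep k / (δ / 2) ^ 2) * volume U * m2 Set.univ := by
    intro k
    refine (lintegral_mono fun E => ENNReal.ofReal_le_ofReal (h k E)).trans ?_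
    rw [po_lint m2 (ep k) (ep_pos k) U]
    have h2 : ∀ x, ∫⁻ E in U, ENNReal.ofReal (P x (ep k) E) ≤
        V.indicator (fun _ => (4 : ℝ≥0∞)) x + ENNReal.ofReal (ep k / (δ / 2) ^ 2) * volume U := by
      intro x
      by_cases hx : x ∈ V
      · rw [Set.indicator_of_mem hx]
        exact (P_lint_le x (ep k) (ep_pos k) U).trans le_self_add
      · rw [Set.indicator_of_notMem hx, zero_add]
        exact P_lint_far x (ep k) (δ / 2) (ep_pos k) (by positivity) hUo.measurableSet (hfar x hx)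
    refine (lintegral_mono h2).trans ?_
    rw [lintegral_add_right _ measurable_const, lintegral_indicator_const hV.measurableSet,
      lintegral_const]
  have h2 : Tendsto (fun k => 4 * m2 V + ENNReal.ofReal (ep k / (δ / 2) ^ 2) * volume U *
      m2 Set.univ) atTop (𝓝 (4 * m2 V + 0)) := by
    refine Tendsto.const_add _ ?_
    have h3 : Tendsto (fun k => ENNReal.ofReal (ep k / (δ / 2) ^ 2)) atTop (𝓝 0) := by
      have h4 : Tendsto ep atTop (𝓝 0) := (tendsto_nhdsWithin_iff.1 ep_tendsto).1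
      have h5 := ENNReal.tendsto_ofReal (h4.div_const ((δ / 2) ^ 2))
      rwa [zero_div, ENNReal.ofReal_zero] at h5
    have h4 : (fun k => ENNReal.ofReal (ep k / (δ / 2) ^ 2) * volume U * m2 Set.univ) =
        fun k => ENNReal.ofReal (ep k / (δ / 2) ^ 2) * (volume U * m2 Set.univ) := by
      funext k
      rw [mul_assoc]
    rw [h4]
    have h5 := ENNReal.Tendsto.mul_const (b := volume U * m2 Set.univ) h3
      (Or.inr (ENNReal.mul_ne_top hUf (measure_ne_top m2 _)))
    rwa [zero_mul] at h5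
  calc m1 K ≤ m1 U := measure_mono hKU
    _ ≤ liminf (fun k => ∫⁻ E in U, ENNReal.ofReal (Po m1 E (ep k))) atTop := open_le m1 U hUo
    _ ≤ liminf (fun k => 4 * m2 V + ENNReal.ofReal (ep k / (δ / 2) ^ 2) * volume U *
      m2 Set.univ) atTop := liminf_le_liminf (Eventually.of_forall h1)
    _ = 4 * m2 V := by rw [h2.liminf_eq, add_zero]

/-- comparison of two measures through their Poisson integrals -/
theorem meas_le {m1 m2 : Measure ℝ} [IsFiniteMeasure m1] [IsFiniteMeasure m2]
    (h : ∀ (k : ℕ) (E : ℝ), Po m1 E (ep k) ≤ Po m2 E (ep k)) (S : Set ℝ) : m1 S ≤ 4 * m2 S := by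
  have hc : ∀ K : Set ℝ, IsCompact K → m1 K ≤ 4 * m2 K := by
    intro K hK
    have h1 : 4 * m2 K = ⨅ V : {V : Set ℝ // K ⊆ V ∧ IsOpen V}, 4 * m2 V.1 := by
      rw [← ENNReal.mul_iInf_of_ne (by norm_num) (by norm_num), K.measure_eq_iInf_isOpen m2]
      congr 1
      rw [iInf_subtype]
      congr 1
      funext V
      rw [iInf_and]
    rw [h1]
    exact le_iInf fun V => compact_le h hK V.2.2 V.2.1
  have hm : ∀ S : Set ℝ, MeasurableSet S → m1 S ≤ 4 * m2 S := by
    intro S hS
    rw [hS.measure_eq_iSup_isCompact_of_ne_top (measure_ne_top m1 S)]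
    refine iSup₂_le fun K hKS => iSup_le fun hK => ?_
    exact (hc K hK).trans (mul_le_mul_right (measure_mono hKS) 4)
  calc m1 S ≤ m1 (toMeasurable m2 S) := measure_mono (subset_toMeasurable m2 S)
    _ ≤ 4 * m2 (toMeasurable m2 S) := hm _ (measurableSet_toMeasurable m2 S)
    _ = 4 * m2 S := by rw [measure_toMeasurable]

theorem Po_add {m1 m2 : Measure ℝ} [IsFiniteMeasure m1] [IsFiniteMeasure m2] (E : ℝ) {y : ℝ}
    (hy : 0 < y) : Po (m1 + m2) E y = Po m1 E y + Po m2 E y := by
  unfold Po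
  exact integral_add_measure (Po_int m1 E y hy) (Po_int m2 E y hy)

theorem Po_smul (m : Measure ℝ) (c : ℝ≥0∞) (E y : ℝ) : Po (c • m) E y = c.toReal * Po m E y := by
  unfold Po
  rw [integral_smul_measure, smul_eq_mul]

theorem all_vec' : S_AllVec := by
  intro V T hT S hS f m hm
  classical
  have := hm.1
  have key : ∀ δ : ℝ, 0 < δ → m S ≤ ENNReal.ofReal (8 * δ ^ 2) := by
    intro δ hδ
    obtain ⟨s, hs⟩ := approx f δ hδ
    obtain ⟨r, hr⟩ : ∃ r, r = f - ∑ x ∈ s, f x • dv x := ⟨_, rfl⟩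
    rw [← hr] at hs
    obtain ⟨N, hN⟩ : ∃ N, N = 2 * ∑ x ∈ s, ‖f x‖ ^ 2 := ⟨_, rfl⟩
    have hN0 : 0 ≤ N := by rw [hN]; positivity
    choose mv hmv hmv2 using fun v : V => spm_exists T hT (dv v)
    obtain ⟨mr, hmr, hmr2⟩ := spm_exists T hT r
    have : ∀ v, IsFiniteMeasure (mv v) := fun v => (hmv v).1
    have := hmr.1
    -- the sum over the vertices
    have hsum : ∀ t : Finset V, IsFiniteMeasure (∑ x ∈ t, mv x) ∧
        (∀ E y : ℝ, 0 < y → Po (∑ x ∈ t, mv x) E y = ∑ x ∈ t, Po (mv x) E y) ∧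
        (∑ x ∈ t, mv x) S = 0 := by
      intro t
      induction t using Finset.induction_on with
      | empty =>
        rw [Finset.sum_empty]
        refine ⟨inferInstance, fun E y _ => ?_, rfl⟩
        rw [Finset.sum_empty]
        unfold Po
        simp
      | insert a t ha ih =>
        obtain ⟨i1, i2, i3⟩ := ih
        rw [Finset.sum_insert ha]
        refine ⟨inferInstance, fun E y hy => ?_, ?_⟩
        · rw [Po_add E hy, i2 E y hy, Finset.sum_insert ha]
        · rw [Measure.add_apply, i3, hS a (mv a) (hmv a), add_zero]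
    obtain ⟨i1, i2, i3⟩ := hsum s
    set M : Measure ℝ := ENNReal.ofReal N • (∑ x ∈ s, mv x) + (2 : ℝ≥0∞) • mr with hM
    have j1 : IsFiniteMeasure (ENNReal.ofReal N • (∑ x ∈ s, mv x)) :=
      Measure.smul_finite _ ENNReal.ofReal_ne_top
    have j2 : IsFiniteMeasure ((2 : ℝ≥0∞) • mr) := Measure.smul_finite _ (by norm_num)
    have hle : ∀ (k : ℕ) (E : ℝ), Po m E (ep k) ≤ Po M E (ep k) := by
      intro k E
      rw [hM, Po_add E (ep_pos k), Po_smul, Po_smul, i2 E _ (ep_pos k),
        ENNReal.toReal_ofReal hN0, ← qk_po T hT f m hm E k, ← qk_po T hT r mr hmr E k]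
      have e1 : ∑ x ∈ s, Po (mv x) E (ep k) = ∑ x ∈ s, qk T E k (dv x) ^ 2 :=
        Finset.sum_congr rfl fun x _ => (qk_po T hT (dv x) (mv x) (hmv x) E k).symm
      rw [e1]
      have h1 : f = (∑ x ∈ s, f x • dv x) + r := by rw [hr]; abel
      have h2 := qk_add T E k (∑ x ∈ s, f x • dv x) r
      rw [← h1] at h2
      have h3 := qk_sum T E k s (fun x => f x) dv
      have h4 : qk T E k f ≤ (∑ x ∈ s, ‖f x‖ * qk T E k (dv x)) + qk T E k r := by linarith
      have h5 : qk T E k f ^ 2 ≤ ((∑ x ∈ s, ‖f x‖ * qk T E k (dv x)) + qk T E k r) ^ 2 :=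
        pow_le_pow_left₀ (qk_nonneg _ _ _ _) h4 2
      have h6 := Finset.sum_mul_sq_le_sq_mul_sq s (fun x => ‖f x‖) (fun x => qk T E k (dv x))
      have h7 : (2 : ℝ≥0∞).toReal = 2 := by norm_num
      rw [hN, h7]
      nlinarith [sq_nonneg ((∑ x ∈ s, ‖f x‖ * qk T E k (dv x)) - qk T E k r)]
    have h1 := meas_le hle S
    have h2 : M S ≤ ENNReal.ofReal (2 * δ ^ 2) := by
      rw [hM, Measure.add_apply, Measure.smul_apply, Measure.smul_apply, i3, smul_zero, zero_add,
        smul_eq_mul]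
      have h3 : mr S ≤ ENNReal.ofReal (δ ^ 2) := by
        refine (measure_mono (Set.subset_univ S)).trans ?_
        rw [hmr2]
        apply ENNReal.ofReal_le_ofReal
        exact pow_le_pow_left₀ (norm_nonneg _) hs 2
      rw [ENNReal.ofReal_mul (by norm_num)]
      have h4 : ENNReal.ofReal 2 = 2 := by norm_num
      rw [h4]
      exact mul_le_mul_right h3 2
    refine h1.trans ((mul_le_mul_right h2 4).trans (le_of_eq ?_))
    have h4 : (4 : ℝ≥0∞) = ENNReal.ofReal 4 := by norm_num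
    rw [h4, ← ENNReal.ofReal_mul (by norm_num)]
    congr 1
    ring
  have h2 : Tendsto (fun n : ℕ => ENNReal.ofReal (8 * (1 / ((n : ℝ) + 1)) ^ 2)) atTop (𝓝 0) := by
    have h3 : Tendsto (fun n : ℕ => 8 * (1 / ((n : ℝ) + 1)) ^ 2) atTop (𝓝 (8 * 0 ^ 2)) :=
      (tendsto_one_div_add_atTop_nhds_zero_nat.pow 2).const_mul 8
    have h4 := ENNReal.tendsto_ofReal h3
    simpa using h4
  exact le_antisymm (ge_of_tendsto' h2 fun n => key _ (by positivity)) zero_le

end Pool.Agent.Helper32.PG
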