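import Pool.Agent.Helper32.PG.Stm3

/-!
Slowly varying majorant of a summable sequence.
-/

set_option autoImplicit false

namespace Pool.Agent.Helper32.PG

open Finset

theorem conv : S_Conv := by
  intro r hr hr1 x hx0 hx
  have hri : 1 < r⁻¹ := (one_lt_inv₀ hr).2 hr1
  -- distance
  set D : ℕ → ℕ → ℕ := fun n i => (n - i) + (i - n) with hD
  have hle : ∀ n i, r ^ D n i * x i ≤ x i := fun n i =>
    mul_le_of_le_one_left (hx0 i) (pow_le_one₀ hr.le hr1.le)
  have hs : ∀ n, Summable fun i => r ^ D n i * x i := fun n =>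
    Summable.of_nonneg_of_le (fun i => mul_nonneg (by positivity) (hx0 i)) (hle n) hx
  have hslow : ∀ n m, (∀ i, D m i ≤ D n i + 1) → ∑' i, r ^ D n i * x i ≤
      r⁻¹ * ∑' i, r ^ D m i * x i := by
    intro n m h
    rw [← tsum_mul_left]
    apply (hs n).tsum_le_tsum _ ((hs m).mul_left _)
    intro i
    rw [← mul_assoc]
    apply mul_le_mul_of_nonneg_right _ (hx0 i)
    have h1 : r ^ (D n i + 1) ≤ r ^ D m i := pow_le_pow_of_le_one hr.le hr1.le (h i)
    rw [pow_succ] at h1
    rw [← mul_le_mul_iff_right₀ hr, ← mul_assoc, mul_inv_cancel₀ hr.ne', one_mul]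
    linarith
  refine ⟨fun n => ∑' i, r ^ D n i * x i, 2 / (1 - r) * ∑' i, x i, fun n => ?_, fun n => ?_,
    fun n => ?_, fun n => ?_, fun N => ?_⟩
  · have h1 := (hs n).le_tsum n (fun i _ => mul_nonneg (by positivity) (hx0 i))
    have h2 : D n n = 0 := by simp [hD]
    rw [h2, pow_zero, one_mul] at h1
    exact h1
  · exact tsum_nonneg fun i => mul_nonneg (by positivity) (hx0 i)
  · exact hslow (n + 1) n fun i => by simp only [hD]; omega
  · exact hslow n (n + 1) fun i => by simp only [hD]; omega
  · rw [← Summable.tsum_finsetSum fun n _ => hs n, ← tsum_mul_left]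
    have hgeo : Summable fun k : ℕ => r ^ k := summable_geometric_of_lt_one hr.le hr1
    have hT : ∑' k : ℕ, r ^ k = 1 / (1 - r) := by
      rw [tsum_geometric_of_lt_one hr.le hr1, one_div]
    have key : ∀ i, ∑ n ∈ range N, r ^ D n i ≤ 2 / (1 - r) := by
      intro i
      have h1 : ∑ n ∈ range N, r ^ D n i ≤ ∑ n ∈ range (i + N), r ^ D n i := by
        apply sum_le_sum_of_subset_of_nonneg
        · intro k hk
          rw [mem_range] at hk ⊢
          omega
        · intro k _ _
          positivity
      refine h1.trans ?_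
      rw [sum_range_add]
      have h2 : ∑ n ∈ range i, r ^ D n i ≤ 1 / (1 - r) := by
        rw [← sum_range_reflect]
        rw [← hT]
        refine le_trans (sum_le_sum fun k hk => ?_) (hgeo.sum_le_tsum (range i)
          (fun k _ => by positivity))
        rw [mem_range] at hk
        apply pow_le_pow_of_le_one hr.le hr1.le
        simp only [hD]
        omega
      have h3 : ∑ n ∈ range N, r ^ D (i + n) i ≤ 1 / (1 - r) := by
        rw [← hT]
        refine le_trans (sum_le_sum fun k hk => ?_) (hgeo.sum_le_tsum (range N)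
          (fun k _ => by positivity))
        apply pow_le_pow_of_le_one hr.le hr1.le
        simp only [hD]
        omega
      have h4 : 2 / (1 - r) = 1 / (1 - r) + 1 / (1 - r) := by ring
      linarith
    have hsum : Summable fun i => ∑ n ∈ range N, r ^ D n i * x i := summable_sum fun n _ => hs n
    apply hsum.tsum_le_tsum _ (hx.mul_left _)
    intro i
    rw [← sum_mul]
    exact mul_le_mul_of_nonneg_right (key i) (hx0 i)

end Pool.Agent.Helper32.PG
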