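import Pool.Agent.Helper32.PG.MainW
import Pool.Agent.Helper32.PG.AdjH
import Pool.Agent.Helper32.PG.Conv
import Pool.Agent.Helper32.PG.Stm2
import Pool.Agent.Helper34.PG.Virial
import Pool.Agent.Helper36.PG.Sum
import Pool.Agent.Helper56.PG.Mean
import Pool.Agent.Helper56.PG.NoAtom
import Pool.Agent.Helper68.PG.Pos
import Pool.Agent.Helper68.PG.ExpR
import Pool.Agent.Helper68.PG.Ball
import Pool.Agent.Helper72.PG.Gap
import Pool.Agent.Helper72.PG.Model
import Pool.Agent.Helper82.PG.Adj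

/-!
Assembly: complex square summable functions.
-/

set_option autoImplicit false
set_option linter.unusedSectionVars false

open scoped BigOperators InnerProductSpace Topology ENNReal

namespace Pool.Agent.Helper32.PG

open Finset MeasureTheory
open Pool.Agent.Y662.TR (LL lmk lmk_apply ll_inner ll_ext ll_summable ll_sum dv dv_apply sub_coord
  smul_coord add_coord clp_eq Mw Mw_apply Mw_sa)
open Pool.Agent.TH369.MU (SpM)

variable {X : Type} [DecidableEq X] (H : Horn X)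

theorem Horn.re_im {a : X → X → ℕ} (ha : ∀ x y, H.a x y = a x y) {l E : ℝ} {ω : X → ℝ} {u : X → ℂ}
    (hu : ∀ x, ∑' y, (a x y : ℂ) * u y + ((l * ω x : ℝ) : ℂ) * u x = (E : ℂ) * u x) :
    H.Sol l E ω (fun x => (u x).re) ∧ H.Sol l E ω (fun x => (u x).im) := by
  constructor
  · intro x
    have h1 := congrArg Complex.re (hu x)
    rw [H.tsum_eq ha, Complex.add_re, Complex.re_sum, Complex.re_ofReal_mul,
      Complex.re_ofReal_mul] at h1
    unfold Horn.L
    rw [← h1]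
    congr 1
    apply sum_congr rfl
    intro y _
    rw [ha, ← Complex.ofReal_natCast, Complex.re_ofReal_mul]
  · intro x
    have h1 := congrArg Complex.im (hu x)
    rw [H.tsum_eq ha, Complex.add_im, Complex.im_sum, Complex.im_ofReal_mul,
      Complex.im_ofReal_mul] at h1
    unfold Horn.L
    rw [← h1]
    congr 1
    apply sum_congr rfl
    intro y _
    rw [ha, ← Complex.ofReal_natCast, Complex.im_ofReal_mul]

/-- The theorem for the operators of the proof. -/
theorem main (D : ℝ) (hD : 3 < D) : ∃ (V : Type) (_ : DecidableEq V) (_ : Countable V)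
    (a : V → V → ℕ) (o : V) (L : LL V →L[ℂ] LL V) (E₁ E₂ : ℝ),
    (∀ x y, a x y = a y x) ∧ (∀ x, (Function.support (a x)).Finite) ∧ (∀ x, ∑ᶠ y, a x y ≤ 14) ∧
    (SimpleGraph.fromRel fun x y => 0 < a x y).Connected ∧
    (∃ c C : ℝ, 0 < c ∧ ∀ n : ℕ, 1 ≤ n →
      {x | (SimpleGraph.fromRel fun x y => 0 < a x y).dist o x ≤ n}.Finite ∧
      c * (n : ℝ) ^ D ≤
        ({x | (SimpleGraph.fromRel fun x y => 0 < a x y).dist o x ≤ n}.ncard : ℝ) ∧
      ({x | (SimpleGraph.fromRel fun x y => 0 < a x y).dist o x ≤ n}.ncard : ℝ) ≤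
        C * (n : ℝ) ^ D) ∧
    IsSelfAdjoint L ∧ (∀ (u : LL V) (x : V), L u x = ∑' y, (a x y : ℂ) * u y) ∧ E₁ < E₂ ∧
    ∀ b : ℝ, 0 < b → ∃ l0 > (0 : ℝ), ∀ l : ℝ, |l| ≤ l0 →
      ∀ (μ : Measure ℝ) [IsProbabilityMeasure μ], (∀ᵐ s ∂μ, |s| ≤ b) →
      ∀ᵐ ω ∂(Measure.infinitePi fun _ : V => μ), (∀ x, |ω x| ≤ b) ∧
        (∀ E, E₁ < E → E < E₂ → ∀ u : LL V,
          (L + ((l : ℝ) : ℂ) • Mw b ω) u = (E : ℂ) • u → u = 0) ∧
        ∀ m : Measure ℝ, SpM (L + ((l : ℝ) : ℂ) • Mw b ω) (dv o) m → 0 < m (Set.Ioo E₁ E₂) := by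
  have hσ : 2 < D - 1 := by linarith
  obtain ⟨e, C0, hC0, he0, hes, he1, he2⟩ := Pool.Agent.Helper68.PG.expR (D - 1) (by linarith)
  obtain ⟨V, hdec, hcount, H, o, hHe, ho, hint, -⟩ :=
    Pool.Agent.Helper72.PG.model Pool.Agent.Helper72.PG.gap e he0 hes
  choose a ha using hint
  have hsymm : ∀ x y, a x y = a y x := by
    intro x y
    have h := H.symm x y
    rw [ha, ha] at h
    exact_mod_cast h
  obtain ⟨L, hLsa, hL⟩ := Pool.Agent.Helper82.PG.adj V a 14 hsymm (H.supp_fin ha) (H.deg_le ha)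
  obtain ⟨P⟩ := exists_parW hσ
  have hrel : (fun x y => 0 < H.a x y) = fun x y => 0 < a x y := by
    funext x y
    rw [ha]
    exact propext Nat.cast_pos
  obtain ⟨hconn, hball, hvol⟩ := Pool.Agent.Helper68.PG.ball V H o ho
  rw [hrel] at hconn hball
  rw [← hHe] at he1 he2
  obtain ⟨c, hc, C, hcC⟩ := hvol (D - 1) C0 (by linarith) hC0 he1 he2
  refine ⟨V, hdec, hcount, a, o, L, P.E₁, P.E₂, hsymm, H.supp_fin ha, H.deg_le ha, hconn,
    ⟨c, C, hc, fun n hn => ?_⟩, hLsa, hL, P.hE12, fun b hb => ?_⟩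
  · rw [hball n]
    refine ⟨finite_toSet _, ?_⟩
    rw [Set.ncard_coe_finset]
    have h := hcC n hn
    rw [sub_add_cancel] at h
    exact h
  · obtain ⟨l1, hl1, h1⟩ := H.no_eigW Pool.Agent.Helper34.PG.virial Pool.Agent.Helper56.PG.mean
      Pool.Agent.Helper36.PG.sum_weights conv hσ P hC0 he1 he2 hb
    obtain ⟨l2, hl2, h2⟩ := Pool.Agent.Helper68.PG.pos V H o L hLsa (fun u x => by
      rw [hL]
      refine tsum_congr fun y => ?_
      rw [ha, Complex.ofReal_natCast]) ho P.E₁ P.E₂ (by linarith [P.hE1]) P.hE12 P.hE2 b hb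
    refine ⟨min l1 l2, lt_min hl1 hl2, fun l hl μ _ hμ => ?_⟩
    have hμ' : μ (Set.Icc (-b) b)ᶜ = 0 := by
      rw [ae_iff] at hμ
      refine measure_mono_null ?_ hμ
      intro t ht
      rw [Set.mem_ofPred_eq]
      intro h
      exact ht (abs_le.1 h)
    have hbd : ∀ᵐ ω ∂(Measure.infinitePi fun _ : V => μ), ∀ x, |ω x| ≤ b := by
      rw [ae_all_iff]
      intro x
      have h3 := (measurePreserving_eval_infinitePi
        (fun _ : V => μ) x).quasiMeasurePreserving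
      exact h3.ae hμ
    have h3 := h1 l (hl.trans (min_le_left _ _)) μ hμ'
    filter_upwards [hbd, h3] with ω hω hmain
    refine ⟨hω, fun E hE1 hE2 u hu => ?_, fun m hm => h2 l (hl.trans (min_le_right _ _)) ω m hm⟩
    have hu2 : ∀ x, ∑' y, (a x y : ℂ) * u y + ((l * ω x : ℝ) : ℂ) * u x = (E : ℂ) * u x := by
      intro x
      have h4 : ((L + ((l : ℝ) : ℂ) • Mw b ω) u : LL V) x = ((E : ℂ) • u : LL V) x := by rw [hu]
      rw [ContinuousLinearMap.add_apply, add_coord, ContinuousLinearMap.smul_apply, smul_coord,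
        smul_coord, hL, Mw_apply, clp_eq ((hω x).trans (le_abs_self b))] at h4
      rw [← h4]
      push_cast
      ring
    obtain ⟨s1, s2⟩ := H.re_im ha hu2
    have hsum := ll_summable u
    have hU : ∀ (f : V → ℝ), (∀ x, f x ^ 2 ≤ ‖u x‖ ^ 2) →
        ∀ R, ∑ x ∈ H.B R, f x ^ 2 ≤ ∑' x, ‖u x‖ ^ 2 := by
      intro f hf R
      refine (sum_le_sum fun x _ => hf x).trans ?_
      exact hsum.sum_le_tsum _ (fun x _ => sq_nonneg _)
    have r1 := hmain hω E hE1 hE2 _ _ (hU (fun x => (u x).re) fun x => by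
      have := Complex.abs_re_le_norm (u x)
      rw [← sq_abs]
      exact pow_le_pow_left₀ (abs_nonneg _) this 2) s1
    have r2 := hmain hω E hE1 hE2 _ _ (hU (fun x => (u x).im) fun x => by
      have := Complex.abs_im_le_norm (u x)
      rw [← sq_abs]
      exact pow_le_pow_left₀ (abs_nonneg _) this 2) s2
    apply ll_ext
    intro x
    exact Complex.ext (r1 x) (r2 x)

end Pool.Agent.Helper32.PG
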