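import Pool.Agent.Helper32.PG.MainC

/-!
Bounds of the Green function at complex energies.
-/

set_option autoImplicit false
set_option linter.unusedSectionVars false

namespace Pool.Agent.Helper32.PG

open Finset MeasureTheory Filter Topology

/-- elementary: `t^2 <= q w t + Q` gives `t <= (q + Q + 1) w` -/
theorem quad_le {t q w Q : ℝ} (hq : 0 ≤ q) (hQ : 0 ≤ Q) (hw : 1 ≤ w) (h : t ^ 2 ≤ q * w * t + Q) :
    t ≤ (q + Q + 1) * w := by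
  by_contra hc
  push Not at hc
  have h1 : 1 ≤ (q + Q + 1) * w := by nlinarith
  have h2 : 1 < t := by linarith
  have h3 : (q + Q + 1) * w * t < t * t := mul_lt_mul_of_pos_right hc (by linarith)
  have h4 : 1 * 1 ≤ w * t := mul_le_mul hw h2.le zero_le_one (by linarith)
  have h5 : (Q + 1) * 1 ≤ (Q + 1) * (w * t) := mul_le_mul_of_nonneg_left (by linarith) (by linarith)
  nlinarith

/-- the choice of the radius -/
theorem radius {y : ℝ} (hy : 0 < y) (hy1 : y ≤ 1) : ∃ R : ℕ, 1 ≤ R ∧ 1 / (R : ℝ) ≤ y ∧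
    (R : ℝ) ≤ 2 / y := by
  refine ⟨⌈1 / y⌉₊, ?_, ?_, ?_⟩
  · rw [Nat.one_le_ceil_iff]
    positivity
  · have h := Nat.le_ceil (1 / y)
    have h2 : 0 < 1 / y := by positivity
    rw [div_le_iff₀ (by linarith)]
    rw [div_le_iff₀ hy] at h
    linarith
  · have h := Nat.ceil_lt_add_one (a := 1 / y) (by positivity)
    have h2 : 1 ≤ 1 / y := by
      rw [le_div_iff₀ hy]
      linarith
    have h3 : 2 / y = 1 / y + 1 / y := by ring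
    linarith

/-- power of the radius -/
theorem radius_pow {y ε : ℝ} (hy : 0 < y) (hy1 : y ≤ 1) (hε : 0 ≤ ε) (n0 R : ℕ)
    (hR : (R : ℝ) ≤ 2 / y) :
    (2 * ((n0 + R : ℕ) : ℝ) + 1) ^ ε ≤ (2 * (n0 : ℝ) + 5) ^ ε * y ^ (-ε) := by
  have hn : (0 : ℝ) ≤ n0 := Nat.cast_nonneg n0
  have h1 : 2 * ((n0 + R : ℕ) : ℝ) + 1 ≤ (2 * (n0 : ℝ) + 5) * y⁻¹ := by
    push_cast
    have h2 : 1 ≤ y⁻¹ := (one_le_inv₀ hy).2 hy1
    have h3 : 2 / y = 2 * y⁻¹ := by ring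
    rw [h3] at hR
    nlinarith
  have h2 : (2 * ((n0 + R : ℕ) : ℝ) + 1) ^ ε ≤ ((2 * (n0 : ℝ) + 5) * y⁻¹) ^ ε :=
    Real.rpow_le_rpow (by positivity) h1 hε
  refine h2.trans (le_of_eq ?_)
  rw [Real.mul_rpow (by positivity) (by positivity), Real.inv_rpow hy.le, Real.rpow_neg hy.le]

variable {X : Type} [DecidableEq X] (H : Horn X)

theorem sum_pow_le {s : ℝ} (hs : 0 < s) (hs1 : s < 1) (N : ℕ) :
    ∑ m ∈ range N, s ^ m ≤ 1 / (1 - s) := by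
  have h := geo_tail (t := fun k => s ^ k) (K := 1) (i := 0) hs hs1 zero_le_one
    (fun k hk => absurd hk (Nat.not_lt_zero k)) (fun k _ => by
      rw [abs_of_pos (by positivity), one_mul]) N
  rw [pow_zero, mul_one] at h
  exact (le_abs_self _).trans h

/-- upper bound at a vertex, deterministic part -/
theorem Horn.upC {l b E y q s ε K C3 U G : ℝ} (hE : 0 < E) (hb : 0 ≤ b) (hl : |l| * b ≤ 1)
    {ω : X → ℝ} (hω : ∀ x, |ω x| ≤ b) (hzs : (27 - 1 / 100 + |l| * b) / (E + 15) ≤ q) (hqs : q ≤ s)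
    (hs : 0 < s) (hs1 : s < 1) (hy : 0 < y) (hy1 : y ≤ 1) (hε : 0 < ε) (hK : 0 < K) (hC3 : 0 < C3)
    {x0 : X} {a' b' : X → ℝ} (hu : H.SolC l E y ω a' b' (dl x0))
    (hU : ∀ R, ∑ x ∈ H.B R, (a' x ^ 2 + b' x ^ 2) ≤ U) (hyU : y * U = b' x0)
    (hest : ∀ R : ℕ, 1 ≤ R → ∑ n ∈ range R, s ^ n * ‖H.phC a' b' n‖ ^ 2 ≤
          C3 * (K * (2 * (R : ℝ) + 1) ^ ε * (1 / R + y) * U + G ^ 2)) :
    ‖(a' x0 : ℂ) + (b' x0 : ℂ) * Complex.I‖ ≤
      ((3 * (1 + |l| * (b / (1 - s))) ^ 2 * ((1 / (s ^ H.sh x0) ^ 2) * (1 / (1 - s)) *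
        (C3 * (2 * K * (2 * (H.sh x0 : ℝ) + 5) ^ ε))) + 3 / (1 - s)) +
      (3 * (1 + |l| * (b / (1 - s))) ^ 2 * ((1 / (s ^ H.sh x0) ^ 2) * (1 / (1 - s)) *
        (C3 * G ^ 2)) + 3 / (1 - s) ^ 2) + 1) * y ^ (-ε) := by
  have hs2 : 0 < 1 - s := by linarith
  obtain ⟨R, hR1, hR2, hR3⟩ := radius hy hy1
  set n0 := H.sh x0 with hn0
  have hU0 : 0 ≤ U := (sum_nonneg fun x _ => by positivity).trans (hU 0)
  have hw1 : 1 ≤ y ^ (-ε) := Real.one_le_rpow_of_pos_of_le_one_of_nonpos hy hy1 (by linarith)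
  have hmain := H.u_bound hE hb hl hω hzs hqs hs hs1 hu hU R hR1
  set t := ‖(a' x0 : ℂ) + (b' x0 : ℂ) * Complex.I‖ with ht
  set T := ∑ m ∈ range (n0 + R), s ^ (m - n0) * ‖H.phC a' b' m‖ with hT
  set A2 := ∑ n ∈ range (n0 + R), s ^ n * ‖H.phC a' b' n‖ ^ 2 with hA2
  set C1 := 1 + |l| * (b / (1 - s)) with hC1
  have hC10 : 0 < C1 := by positivity
  have hbt : b' x0 ≤ t := by
    have h1 := Complex.abs_im_le_norm ((a' x0 : ℂ) + (b' x0 : ℂ) * Complex.I)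
    have h2 : ((a' x0 : ℂ) + (b' x0 : ℂ) * Complex.I).im = b' x0 := by simp
    rw [h2] at h1
    exact (le_abs_self _).trans h1
  have hb0 : 0 ≤ b' x0 := by
    rw [← hyU]
    positivity
  have ht0 : 0 ≤ t := norm_nonneg _
  -- `A2`
  have hRn : (1 : ℝ) ≤ R := by exact_mod_cast hR1
  have a1 : A2 ≤ C3 * (2 * K * (2 * (n0 : ℝ) + 5) ^ ε * y ^ (-ε) * b' x0 + G ^ 2) := by
    refine (hest (n0 + R) (by omega)).trans ?_
    apply mul_le_mul_of_nonneg_left _ hC3.le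
    have h1 := radius_pow hy hy1 hε.le n0 R hR3
    have h2 : 1 / ((n0 + R : ℕ) : ℝ) + y ≤ 2 * y := by
      have h3 : 1 / ((n0 + R : ℕ) : ℝ) ≤ 1 / (R : ℝ) := by
        apply one_div_le_one_div_of_le (by linarith)
        push_cast
        linarith [Nat.cast_nonneg (α := ℝ) n0]
      linarith
    have h3 : K * (2 * ((n0 + R : ℕ) : ℝ) + 1) ^ ε * (1 / ((n0 + R : ℕ) : ℝ) + y) * U ≤
        K * ((2 * (n0 : ℝ) + 5) ^ ε * y ^ (-ε)) * (2 * y) * U := by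
      have : 0 ≤ 1 / ((n0 + R : ℕ) : ℝ) + y := by positivity
      gcongr
    have h4 : K * ((2 * (n0 : ℝ) + 5) ^ ε * y ^ (-ε)) * (2 * y) * U =
        2 * K * (2 * (n0 : ℝ) + 5) ^ ε * y ^ (-ε) * b' x0 := by
      rw [← hyU]
      ring
    linarith
  -- `T`
  have t1 : T ^ 2 ≤ (1 / (s ^ n0) ^ 2) * (1 / (1 - s)) * A2 := by
    have h1 : T ≤ 1 / s ^ n0 * ∑ m ∈ range (n0 + R), s ^ m * ‖H.phC a' b' m‖ := by
      rw [hT, mul_sum]
      apply sum_le_sum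
      intro m _
      rw [← mul_assoc]
      apply mul_le_mul_of_nonneg_right _ (norm_nonneg _)
      rw [one_div, ← div_eq_inv_mul, le_div_iff₀ (by positivity), ← pow_add]
      exact pow_le_pow_of_le_one hs.le hs1.le (by omega)
    have h2 := sum_mul_sq_le_sq_mul_sq (range (n0 + R)) (fun m => √(s ^ m))
      (fun m => √(s ^ m) * ‖H.phC a' b' m‖)
    have h3 : ∑ m ∈ range (n0 + R), √(s ^ m) * (√(s ^ m) * ‖H.phC a' b' m‖) =
        ∑ m ∈ range (n0 + R), s ^ m * ‖H.phC a' b' m‖ := sum_congr rfl fun m _ => by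
      rw [← mul_assoc, Real.mul_self_sqrt (by positivity)]
    have h4 : ∑ m ∈ range (n0 + R), √(s ^ m) ^ 2 = ∑ m ∈ range (n0 + R), s ^ m :=
      sum_congr rfl fun m _ => Real.sq_sqrt (by positivity)
    have h5 : ∑ m ∈ range (n0 + R), (√(s ^ m) * ‖H.phC a' b' m‖) ^ 2 = A2 :=
      sum_congr rfl fun m _ => by rw [mul_pow, Real.sq_sqrt (by positivity)]
    rw [h3, h4, h5] at h2
    have h6 : T ^ 2 ≤ (1 / s ^ n0 * ∑ m ∈ range (n0 + R), s ^ m * ‖H.phC a' b' m‖) ^ 2 :=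
      pow_le_pow_left₀ (sum_nonneg fun m _ => by positivity) h1 2
    have hA20 : 0 ≤ A2 := sum_nonneg fun m _ => by positivity
    have h7 : (∑ m ∈ range (n0 + R), s ^ m * ‖H.phC a' b' m‖) ^ 2 ≤ 1 / (1 - s) * A2 :=
      h2.trans (mul_le_mul_of_nonneg_right (sum_pow_le hs hs1 _) hA20)
    rw [mul_pow, one_div_pow] at h6
    refine h6.trans ?_
    rw [mul_assoc]
    exact mul_le_mul_of_nonneg_left h7 (by positivity)
  -- the tail
  have s1 : (s ^ R * √U) ^ 2 ≤ 1 / (1 - s) * b' x0 := by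
    rw [mul_pow, Real.sq_sqrt hU0]
    have h1 := succ_mul_pow_le hs hs1 R
    have hsR : 0 < s ^ R := by positivity
    have h2 : s ^ R ≤ 1 / (1 - s) * y := by
      have h3 : (R : ℝ) * s ^ R ≤ 1 / (1 - s) := by linarith
      have h4 : s ^ R ≤ 1 / (1 - s) * (1 / R) := by
        rw [mul_one_div, le_div_iff₀ (by linarith)]
        linarith
      exact h4.trans (mul_le_mul_of_nonneg_left hR2 (by positivity))
    have h3 : (s ^ R) ^ 2 ≤ s ^ R := by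
      rw [sq]
      have : s ^ R ≤ 1 := pow_le_one₀ hs.le hs1.le
      nlinarith
    have h4 : (s ^ R) ^ 2 * U ≤ (1 / (1 - s) * y) * U :=
      mul_le_mul_of_nonneg_right (h3.trans h2) hU0
    rw [mul_assoc, hyU] at h4
    exact h4
  -- combination
  have hT0 : 0 ≤ T := sum_nonneg fun m _ => by positivity
  have k1 : t ^ 2 ≤ 3 * C1 ^ 2 * T ^ 2 + 3 / (1 - s) ^ 2 + 3 * (s ^ R * √U) ^ 2 := by
    have h1 : t ^ 2 ≤ (C1 * T + 1 / (1 - s) + s ^ R * √U) ^ 2 := pow_le_pow_left₀ ht0 hmain 2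
    have h2 : (C1 * T + 1 / (1 - s) + s ^ R * √U) ^ 2 ≤
        3 * ((C1 * T) ^ 2 + (1 / (1 - s)) ^ 2 + (s ^ R * √U) ^ 2) := by
      nlinarith [sq_nonneg (C1 * T - 1 / (1 - s)), sq_nonneg (C1 * T - s ^ R * √U),
        sq_nonneg (1 / (1 - s) - s ^ R * √U)]
    refine (h1.trans h2).trans (le_of_eq ?_)
    rw [mul_pow, one_div_pow]
    ring
  set D : ℝ := 3 * C1 ^ 2 * ((1 / (s ^ n0) ^ 2) * (1 / (1 - s))) with hD
  have hD0 : 0 ≤ D := by positivity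
  have k2 : 3 * C1 ^ 2 * T ^ 2 ≤ D * (C3 * (2 * K * (2 * (n0 : ℝ) + 5) ^ ε * y ^ (-ε) * b' x0 + G ^ 2)) := by
    have h1 : 3 * C1 ^ 2 * T ^ 2 ≤ 3 * C1 ^ 2 * ((1 / (s ^ n0) ^ 2) * (1 / (1 - s)) * A2) :=
      mul_le_mul_of_nonneg_left t1 (by positivity)
    have h2 : 3 * C1 ^ 2 * ((1 / (s ^ n0) ^ 2) * (1 / (1 - s)) * A2) = D * A2 := by
      rw [hD]
      ring
    rw [h2] at h1
    exact h1.trans (mul_le_mul_of_nonneg_left a1 hD0)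
  set P1 : ℝ := D * (C3 * (2 * K * (2 * (n0 : ℝ) + 5) ^ ε)) with hP1
  set P2 : ℝ := D * (C3 * G ^ 2) with hP2
  have hP10 : 0 ≤ P1 := by positivity
  have hP20 : 0 ≤ P2 := by positivity
  have k3 : t ^ 2 ≤ (P1 + 3 / (1 - s)) * y ^ (-ε) * t + (P2 + 3 / (1 - s) ^ 2) := by
    have e1 : D * (C3 * (2 * K * (2 * (n0 : ℝ) + 5) ^ ε * y ^ (-ε) * b' x0 + G ^ 2)) =
        P1 * y ^ (-ε) * b' x0 + P2 := by
      rw [hP1, hP2]
      ring
    rw [e1] at k2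
    have e2 : P1 * y ^ (-ε) * b' x0 ≤ P1 * y ^ (-ε) * t :=
      mul_le_mul_of_nonneg_left hbt (by positivity)
    have e3 : 3 * (s ^ R * √U) ^ 2 ≤ 3 / (1 - s) * y ^ (-ε) * t := by
      have f1 : 3 * (1 / (1 - s) * b' x0) = 3 / (1 - s) * b' x0 := by ring
      have f2 : 3 / (1 - s) * b' x0 ≤ 3 / (1 - s) * (y ^ (-ε) * t) := by
        apply mul_le_mul_of_nonneg_left _ (by positivity)
        nlinarith
      rw [mul_assoc]
      linarith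
    have e4 : (P1 + 3 / (1 - s)) * y ^ (-ε) * t = P1 * y ^ (-ε) * t + 3 / (1 - s) * y ^ (-ε) * t := by
      ring
    linarith
  have k4 := quad_le (by positivity) (by positivity) hw1 k3
  refine k4.trans (le_of_eq ?_)
  rw [hP1, hP2, hD]
  ring

/-- lower bound at the root, deterministic part -/
theorem Horn.loC {l b E y ε K C3 U : ℝ} (hE1 : 11 < E) (hE2 : E < 12) (hl : |l| * b ≤ 1)
    {ω : X → ℝ} (hω : ∀ x, |ω x| ≤ b) (hy : 0 < y) (hy1 : y ≤ 1) (hε : 0 < ε) (hK : 0 < K)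
    (hC3 : 0 < C3) {x0 : X} (h0 : H.sh x0 = 0) {a' b' : X → ℝ} (hu : H.SolC l E y ω a' b' (dl x0))
    (hU : ∀ R, ∑ x ∈ H.B R, (a' x ^ 2 + b' x ^ 2) ≤ U) (hyU : y * U = b' x0)
    (hest : ∀ R : ℕ, 1 ≤ R → ‖H.phC a' b' 0‖ ^ 2 + ‖H.phC a' b' 1‖ ^ 2 ≤
          C3 * (K * (2 * (R : ℝ) + 1) ^ ε * (1 / R + y) * U)) :
    1 / (80 * (C3 * K * 5 ^ ε)) * y ^ ε ≤ b' x0 := by
  have hU0 : 0 ≤ U := (sum_nonneg fun x _ => by positivity).trans (hU 0)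
  obtain ⟨R, hR1, hR2, hR3⟩ := radius hy hy1
  -- the equation at the origin
  have hS : H.Sh 0 = {x0} := by
    have h1 := H.card 0
    rw [H.e0, pow_zero, card_eq_one] at h1
    obtain ⟨a, ha⟩ := h1
    have h3 : x0 ∈ H.Sh 0 := (H.mem _ _).2 h0
    rw [ha, mem_singleton] at h3
    rw [ha, h3]
  have gen : ∀ f : X → ℝ, H.L f x0 = 8 * H.ph f 0 + 2 * H.ph f 1 ∧ H.ph f 0 = f x0 := by
    intro f
    have h1 := H.sum_L_zero f
    rw [hS, sum_singleton, sum_singleton, H.e0] at h1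
    have h2 : H.ph f 0 = f x0 := by
      unfold Horn.ph
      rw [hS, sum_singleton, H.e0, pow_zero, div_one]
    refine ⟨?_, h2⟩
    rw [h1, h2]
    unfold Horn.ph
    ring
  obtain ⟨ga1, ga2⟩ := gen a'
  obtain ⟨gb1, gb2⟩ := gen b'
  have ea := hu.1 x0
  have eb := hu.2 x0
  have hd : dl x0 x0 = 1 := by
    unfold dl
    rw [if_pos rfl]
  rw [ga1, hd, ← ga2, ← gb2] at ea
  rw [gb1, ← ga2, ← gb2] at eb
  have e0 : (((8 + l * ω x0 - E : ℝ) : ℂ) - (y : ℂ) * Complex.I) * H.phC a' b' 0 +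
      2 * H.phC a' b' 1 = 1 := by
    have c1 := congrArg (fun t : ℝ => (t : ℂ)) ea
    have c2 := congrArg (fun t : ℝ => (t : ℂ)) eb
    push_cast at c1 c2 ⊢
    unfold Horn.phC
    linear_combination c1 + Complex.I * c2 - (y : ℂ) * (H.ph b' 0 : ℂ) * Complex.I_sq
  have n1 : ‖((8 + l * ω x0 - E : ℝ) : ℂ) - (y : ℂ) * Complex.I‖ ≤ 6 := by
    refine (norm_sub_le _ _).trans ?_
    rw [norm_mul, Complex.norm_I, mul_one, Complex.norm_real, Complex.norm_real, Real.norm_eq_abs,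
      Real.norm_eq_abs, abs_of_pos hy]
    have h1 : |l * ω x0| ≤ 1 := by
      rw [abs_mul]
      exact (mul_le_mul_of_nonneg_left (hω x0) (abs_nonneg _)).trans hl
    have h2 := abs_le.1 h1
    have h3 : |8 + l * ω x0 - E| ≤ 5 := by
      rw [abs_le]
      constructor <;> linarith [h2.1, h2.2]
    linarith
  have n2 : 1 ≤ 6 * ‖H.phC a' b' 0‖ + 2 * ‖H.phC a' b' 1‖ := by
    have h1 := norm_add_le ((((8 + l * ω x0 - E : ℝ) : ℂ) - (y : ℂ) * Complex.I) * H.phC a' b' 0)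
      (2 * H.phC a' b' 1)
    rw [e0, norm_one, norm_mul, norm_mul, RCLike.norm_ofNat] at h1
    have h2 := mul_le_mul_of_nonneg_right n1 (norm_nonneg (H.phC a' b' 0))
    linarith
  have n3 : 1 ≤ 40 * (‖H.phC a' b' 0‖ ^ 2 + ‖H.phC a' b' 1‖ ^ 2) := by
    nlinarith [sq_nonneg (2 * ‖H.phC a' b' 0‖ - 6 * ‖H.phC a' b' 1‖)]
  have n4 := hest R hR1
  have h1 := radius_pow hy hy1 hε.le 0 R hR3
  rw [zero_add, Nat.cast_zero, mul_zero, zero_add] at h1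
  have hRn : (1 : ℝ) ≤ R := by exact_mod_cast hR1
  have n5 : C3 * (K * (2 * (R : ℝ) + 1) ^ ε * (1 / R + y) * U) ≤
      C3 * (K * (5 ^ ε * y ^ (-ε)) * (2 * y) * U) := by
    have : 0 ≤ 1 / (R : ℝ) + y := by positivity
    have h2 : 1 / (R : ℝ) + y ≤ 2 * y := by linarith
    gcongr
  have n6 : C3 * (K * (5 ^ ε * y ^ (-ε)) * (2 * y) * U) = 2 * (C3 * K * 5 ^ ε) * y ^ (-ε) * b' x0 := by
    rw [← hyU]
    ring
  have n7 : 1 ≤ 80 * (C3 * K * 5 ^ ε) * y ^ (-ε) * b' x0 := by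
    rw [n6] at n5
    linarith
  have hy5 : 0 < (5 : ℝ) ^ ε := by positivity
  have hye : y ^ (-ε) * y ^ ε = 1 := by
    rw [← Real.rpow_add hy, neg_add_cancel, Real.rpow_zero]
  have hyp : 0 < y ^ ε := by positivity
  have hQ : 0 < 80 * (C3 * K * 5 ^ ε) := by positivity
  rw [one_div, ← div_eq_inv_mul, div_le_iff₀ hQ]
  calc y ^ ε = y ^ ε * 1 := (mul_one _).symm
    _ ≤ y ^ ε * (80 * (C3 * K * 5 ^ ε) * y ^ (-ε) * b' x0) := mul_le_mul_of_nonneg_left n7 hyp.le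
    _ = (y ^ (-ε) * y ^ ε) * (80 * (C3 * K * 5 ^ ε) * b' x0) := by ring
    _ = b' x0 * (80 * (C3 * K * 5 ^ ε)) := by rw [hye]; ring

/-- **bounds of the Green function** -/
theorem Horn.greenC [Countable X] (hV : S_Virial4) (hMean : S_Mean) (hSum : S_Sum) (hConv : S_Conv)
    {σ : ℝ} (hσ : 2 < σ) (P : ParW σ) {C0 : ℝ} (hC0 : 1 ≤ C0)
    (hj1 : ∀ n : ℕ, (4 : ℝ) ^ H.e n ≤ C0 * ((n : ℝ) + 1) ^ σ)
    (hj2 : ∀ n : ℕ, ((n : ℝ) + 1) ^ σ ≤ C0 * 4 ^ H.e n)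
    {b : ℝ} (hb : 0 < b) {ε : ℝ} (hε : 0 < ε) : ∃ l0 > (0 : ℝ), ∀ l : ℝ, |l| ≤ l0 →
      ∀ (μ : Measure ℝ) [IsProbabilityMeasure μ], μ (Set.Icc (-b) b)ᶜ = 0 →
      ∀ᵐ ω ∂(PX X μ), (∀ x, |ω x| ≤ b) →
        (∀ x0 : X, ∃ C > (0 : ℝ), ∀ E y : ℝ, P.E₁ < E → E < P.E₂ → 0 < y → y ≤ 1 →
          ∀ (a' b' : X → ℝ) (U : ℝ), (∀ R, ∑ x ∈ H.B R, (a' x ^ 2 + b' x ^ 2) ≤ U) →
          H.SolC l E y ω a' b' (dl x0) → y * U = b' x0 →
          ‖(a' x0 : ℂ) + (b' x0 : ℂ) * Complex.I‖ ≤ C * y ^ (-ε)) ∧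
        (∀ x0 : X, H.sh x0 = 0 → ∃ c > (0 : ℝ), ∀ E y : ℝ, P.E₁ < E → E < P.E₂ → 0 < y → y ≤ 1 →
          ∀ (a' b' : X → ℝ) (U : ℝ), (∀ R, ∑ x ∈ H.B R, (a' x ^ 2 + b' x ^ 2) ≤ U) →
          H.SolC l E y ω a' b' (dl x0) → y * U = b' x0 → c * y ^ ε ≤ b' x0) := by
  obtain ⟨l0, hl0, C3, hC3, h1⟩ := H.estC hV hMean hSum hConv hσ P hC0 hj1 hj2 hb hε
  refine ⟨l0, hl0, fun l hl μ _ hμ => ?_⟩
  obtain ⟨hβ, h2⟩ := h1 l hl
  filter_upwards [h2 μ hμ] with ω h3 hω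
  obtain ⟨K, hK, h4⟩ := h3 hω
  have hlb1 : |l| * b ≤ 1 := hβ.trans P.hβ1
  have hlb0 : 0 ≤ |l| * b := by positivity
  have hqs : P.q ≤ P.s := nx6 P.hqw P.hs P.hw1
  have hs0 := P.hs
  have hs1 := P.hs1
  have hs2 : 0 < 1 - P.s := by linarith
  constructor
  · intro x0
    set G := (1 + |l| * (b / (1 - P.s))) / P.s ^ H.sh x0 with hG
    have hG0 : 0 ≤ G := by positivity
    refine ⟨_, ?_, fun E y hE1 hE2 hy hy1 a' b' U hU hu hyU =>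
      H.upC (b := b) (q := P.q) (s := P.s) (K := K) (C3 := C3) (G := G) (by linarith [P.hE1]) hb.le
        hlb1 hω (P.hzs _ E hlb0 hβ hE1) hqs hs0 hs1 hy hy1 hε hK hC3 hu hU hyU fun R hR => ?_⟩
    · positivity
    · have h5 := h4 E y hE1 hE2 hy.le hy1 x0 a' b' U G hG0 hU hu (fun n =>
        H.gs_bound (by linarith [P.hE1]) hb.le hlb1 hω (P.hzs _ E hlb0 hβ hE1) hqs hs0 hs1 y x0 n) R hR
      have h6 : 0 ≤ ‖H.phC a' b' 0‖ ^ 2 + ‖H.phC a' b' 1‖ ^ 2 := by positivity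
      linarith
  · intro x0 h0
    refine ⟨1 / (80 * (C3 * K * 5 ^ ε)), by positivity,
      fun E y hE1 hE2 hy hy1 a' b' U hU hu hyU =>
      H.loC (by linarith [P.hE1]) (by linarith [P.hE2]) hlb1 hω hy hy1 hε hK hC3 h0 hu hU hyU
        fun R hR => ?_⟩
    have h5 := h4 E y hE1 hE2 hy.le hy1 x0 a' b' U 0 le_rfl hU hu (fun n => by
      rw [H.gs_root h0, norm_zero, zero_mul]) R hR
    have h6 : 0 ≤ ∑ n ∈ range R, P.s ^ n * ‖H.phC a' b' n‖ ^ 2 :=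
      sum_nonneg fun n _ => by positivity
    have h7 : (0 : ℝ) ^ 2 = 0 := by norm_num
    rw [h7, add_zero] at h5
    linarith

end Pool.Agent.Helper32.PG
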