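import Pool.Agent.Helper32.PG.AdjH
import Pool.Agent.Helper32.PG.Conv
import Pool.Agent.Helper36.PG.Sum
import Pool.Agent.Helper56.PG.Mean
import Pool.Agent.Helper68.PG.Pos
import Pool.Agent.Helper68.PG.ExpR
import Pool.Agent.Helper68.PG.Ball
import Pool.Agent.Helper72.PG.Gap
import Pool.Agent.Helper72.PG.Model
import Pool.Agent.Helper82.PG.Adj
import Pool.Agent.Helper32.PG.GreenC
import Pool.Agent.Helper32.PG.AllV
import Pool.Agent.Helper34.PG.Virial4
import Pool.Agent.Helper70.PG.Meas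
import Pool.Agent.Helper70.PG.Dim

/-!
Assembly of the second version: two-sided bounds of the spectral measures of intervals.
-/

set_option autoImplicit false
set_option linter.unusedSectionVars false

open scoped BigOperators InnerProductSpace Topology ENNReal

namespace Pool.Agent.Helper32.PG

open Finset MeasureTheory
open Pool.Agent.Y662.TR (LL lmk lmk_apply ll_inner ll_ext ll_summable ll_sum dv dv_apply sub_coord
  smul_coord add_coord clp_eq Mw Mw_apply Mw_sa inner_dv)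
open Pool.Agent.TH369.MU (SpM)
open Pool.Agent.TH369.AN (Rz rz_eq rz_uniq rz_norm)

section growth

variable {V : Type}

/-- the growth does not depend on the centre -/
theorem growth_all (Γ : SimpleGraph V) (hc : Γ.Connected) {D : ℝ} (hD : 0 < D) (o : V) {c C : ℝ}
    (hc0 : 0 < c) (h : ∀ n : ℕ, 1 ≤ n → {y | Γ.dist o y ≤ n}.Finite ∧
      c * (n : ℝ) ^ D ≤ ({y | Γ.dist o y ≤ n}.ncard : ℝ) ∧
      ({y | Γ.dist o y ≤ n}.ncard : ℝ) ≤ C * (n : ℝ) ^ D) (x : V) :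
    ∃ c' C' : ℝ, 0 < c' ∧ ∀ n : ℕ, 1 ≤ n → {y | Γ.dist x y ≤ n}.Finite ∧
      c' * (n : ℝ) ^ D ≤ ({y | Γ.dist x y ≤ n}.ncard : ℝ) ∧
      ({y | Γ.dist x y ≤ n}.ncard : ℝ) ≤ C' * (n : ℝ) ^ D := by
  set d := Γ.dist o x with hd
  have s1 : ∀ n, {y | Γ.dist x y ≤ n} ⊆ {y | Γ.dist o y ≤ n + d} := by
    intro n y hy
    have h1 := hc.dist_triangle (u := o) (v := x) (w := y)
    have h2 : Γ.dist x y ≤ n := hy
    show Γ.dist o y ≤ n + d
    omega
  have s2 : ∀ n, {y | Γ.dist o y ≤ n} ⊆ {y | Γ.dist x y ≤ n + d} := by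
    intro n y hy
    have h1 := hc.dist_triangle (u := x) (v := o) (w := y)
    have h2 : Γ.dist o y ≤ n := hy
    have h3 : Γ.dist x o = d := Γ.dist_comm
    show Γ.dist x y ≤ n + d
    omega
  have hfin : ∀ n, 1 ≤ n → {y | Γ.dist x y ≤ n}.Finite := fun n hn =>
    (h (n + d) (by omega)).1.subset (s1 n)
  have hC0 : 0 ≤ C := by
    have h1 := h 1 le_rfl
    rw [Nat.cast_one, Real.one_rpow, mul_one, mul_one] at h1
    linarith
  refine ⟨min (c / 2 ^ D) (1 / (2 * (d : ℝ) + 2) ^ D), C * (1 + d) ^ D, lt_min (by positivity)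
    (by positivity), fun n hn => ⟨hfin n hn, ?_, ?_⟩⟩
  · have hn0 : (1 : ℝ) ≤ n := by exact_mod_cast hn
    by_cases hnd : 2 * d + 1 ≤ n
    · obtain ⟨m, hm⟩ : ∃ m, n = m + d := ⟨n - d, by omega⟩
      have h1 := (h m (by omega)).2.1
      have h2 := Set.ncard_le_ncard (s2 m) (by rw [← hm]; exact hfin n hn)
      rw [← hm] at h2
      have h3 : ({y | Γ.dist o y ≤ m}.ncard : ℝ) ≤ ({y | Γ.dist x y ≤ n}.ncard : ℝ) := by
        exact_mod_cast h2
      have h4 : (n : ℝ) ≤ 2 * m := by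
        have : n ≤ 2 * m := by omega
        exact_mod_cast this
      have h5 : (n : ℝ) ^ D ≤ 2 ^ D * (m : ℝ) ^ D := by
        rw [← Real.mul_rpow (by norm_num) (by positivity)]
        exact Real.rpow_le_rpow (by positivity) h4 hD.le
      calc min (c / 2 ^ D) (1 / (2 * (d : ℝ) + 2) ^ D) * (n : ℝ) ^ D ≤
            c / 2 ^ D * (n : ℝ) ^ D := mul_le_mul_of_nonneg_right (min_le_left _ _) (by positivity)
        _ ≤ c / 2 ^ D * (2 ^ D * (m : ℝ) ^ D) := mul_le_mul_of_nonneg_left h5 (by positivity)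
        _ = c * (m : ℝ) ^ D := by field_simp
        _ ≤ _ := h1.trans h3
    · have h1 : 1 ≤ {y | Γ.dist x y ≤ n}.ncard := by
        rw [Nat.one_le_iff_ne_zero]
        intro h0
        rw [Set.ncard_eq_zero (hfin n hn)] at h0
        have h2 : x ∈ {y | Γ.dist x y ≤ n} := by
          show Γ.dist x x ≤ n
          rw [SimpleGraph.dist_self]
          omega
        rw [h0] at h2
        exact h2
      have h2 : (1 : ℝ) ≤ ({y | Γ.dist x y ≤ n}.ncard : ℝ) := by exact_mod_cast h1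
      refine le_trans ?_ h2
      have h3 : (n : ℝ) ≤ 2 * (d : ℝ) + 2 := by
        have : n ≤ 2 * d + 2 := by omega
        exact_mod_cast this
      calc min (c / 2 ^ D) (1 / (2 * (d : ℝ) + 2) ^ D) * (n : ℝ) ^ D ≤
            1 / (2 * (d : ℝ) + 2) ^ D * (n : ℝ) ^ D :=
              mul_le_mul_of_nonneg_right (min_le_right _ _) (by positivity)
        _ ≤ 1 / (2 * (d : ℝ) + 2) ^ D * (2 * (d : ℝ) + 2) ^ D :=
              mul_le_mul_of_nonneg_left (Real.rpow_le_rpow (by positivity) h3 hD.le) (by positivity)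
        _ = 1 := by field_simp
  · have h1 := (h (n + d) (by omega)).2.2
    have h2 := Set.ncard_le_ncard (s1 n) (h (n + d) (by omega)).1
    have h3 : ({y | Γ.dist x y ≤ n}.ncard : ℝ) ≤ ({y | Γ.dist o y ≤ n + d}.ncard : ℝ) := by
      exact_mod_cast h2
    refine h3.trans (h1.trans ?_)
    rw [mul_assoc]
    apply mul_le_mul_of_nonneg_left _ hC0
    rw [← Real.mul_rpow (by positivity) (by positivity)]
    apply Real.rpow_le_rpow (by positivity) _ hD.le
    push_cast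
    have hn0 : (1 : ℝ) ≤ n := by exact_mod_cast hn
    have hd0 : (0 : ℝ) ≤ d := Nat.cast_nonneg d
    nlinarith

end growth

section link

variable {V : Type}

theorem im_res {T : LL V →L[ℂ] LL V} (hT : IsSelfAdjoint T) (z : ℂ) (hz : z.im ≠ 0) (f : LL V) :
    (⟪f, Rz T z f⟫_ℂ).im = z.im * ‖Rz T z f‖ ^ 2 := by
  set u := Rz T z f with hu
  have h1 : T u - z • u = f := rz_eq T hT z hz f
  have h2 : ⟪f, u⟫_ℂ = ⟪T u, u⟫_ℂ - (starRingEnd ℂ) z * ⟪u, u⟫_ℂ := by
    rw [← h1, inner_sub_left, inner_smul_left]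
  have h3 : (⟪T u, u⟫_ℂ).im = 0 := by
    rw [← Complex.conj_eq_iff_im, inner_conj_symm]
    exact (hT.isSymmetric u u).symm
  have h4 : ⟪u, u⟫_ℂ = ((‖u‖ ^ 2 : ℝ) : ℂ) := by
    rw [inner_self_eq_norm_sq_to_K]
    push_cast
    rfl
  rw [h2, h4, Complex.sub_im, h3, Complex.im_mul_ofReal, Complex.conj_im]
  ring

theorem poisson {T : LL V →L[ℂ] LL V} {f : LL V} {m : Measure ℝ}
    (hm : SpM T f m) {E y : ℝ} (hy : 0 < y) :
    ∫ x : ℝ, y / ((x - E) ^ 2 + y ^ 2) ∂m = (⟪f, Rz T ⟨E, y⟩ f⟫_ℂ).im := by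
  have hfin := hm.1
  have hz : 0 < (⟨E, y⟩ : ℂ).im := hy
  rw [hm.2 ⟨E, y⟩ hz.ne', Pool.Agent.Helper68.PG.im_int hz]
  congr 1
  funext x
  rw [Pool.Agent.Helper68.PG.im_inv]

variable [DecidableEq V] (H : Horn V)

/-- the resolvent in coordinates -/
theorem Horn.solC {a : V → V → ℕ} (ha : ∀ x y, H.a x y = a x y) {L : LL V →L[ℂ] LL V}
    (hL : ∀ (u : LL V) (x : V), L u x = ∑' y, (a x y : ℂ) * u y) {l b : ℝ} {ω : V → ℝ}
    (hω : ∀ x, |ω x| ≤ b) {E y : ℝ} {x0 : V} {u : LL V}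
    (hu : (L + ((l : ℝ) : ℂ) • Mw b ω) u - (⟨E, y⟩ : ℂ) • u = dv x0) :
    H.SolC l E y ω (fun x => (u x).re) (fun x => (u x).im) (dl x0) := by
  have h1 : ∀ x, ∑ z ∈ H.B (H.sh x + 1), (a x z : ℂ) * u z + ((l * ω x : ℝ) : ℂ) * u x =
      (⟨E, y⟩ : ℂ) * u x + ((dl x0 x : ℝ) : ℂ) := by
    intro x
    have h4 : ((L + ((l : ℝ) : ℂ) • Mw b ω) u - (⟨E, y⟩ : ℂ) • u : LL V) x = dv x0 x := by rw [hu]
    rw [sub_coord, ContinuousLinearMap.add_apply, add_coord, ContinuousLinearMap.smul_apply,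
      smul_coord, smul_coord, hL, H.tsum_eq ha, Mw_apply, clp_eq ((hω x).trans (le_abs_self b))] at h4
    have h5 : ((dl x0 x : ℝ) : ℂ) = dv x0 x := by
      rw [dv_apply]
      unfold dl
      by_cases h : x = x0
      · rw [if_pos h, if_pos h, Complex.ofReal_one]
      · rw [if_neg h, if_neg h, Complex.ofReal_zero]
    rw [h5, Complex.ofReal_mul]
    linear_combination h4
  constructor
  · intro x
    have h2 := congrArg Complex.re (h1 x)
    rw [Complex.add_re, Complex.re_sum, Complex.re_ofReal_mul, Complex.add_re, Complex.mul_re,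
      Complex.ofReal_re] at h2
    unfold Horn.L
    have h3 : ∑ z ∈ H.B (H.sh x + 1), H.a x z * (u z).re =
        ∑ z ∈ H.B (H.sh x + 1), ((a x z : ℂ) * u z).re := by
      apply sum_congr rfl
      intro z _
      rw [ha, ← Complex.ofReal_natCast, Complex.re_ofReal_mul]
    rw [h3]
    exact h2
  · intro x
    have h2 := congrArg Complex.im (h1 x)
    rw [Complex.add_im, Complex.im_sum, Complex.im_ofReal_mul, Complex.add_im, Complex.mul_im,
      Complex.ofReal_im, add_zero] at h2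
    unfold Horn.L
    have h3 : ∑ z ∈ H.B (H.sh x + 1), H.a x z * (u z).im =
        ∑ z ∈ H.B (H.sh x + 1), ((a x z : ℂ) * u z).im := by
      apply sum_congr rfl
      intro z _
      rw [ha, ← Complex.ofReal_natCast, Complex.im_ofReal_mul]
    rw [h3, h2]

end link

theorem toReal_le {m : Measure ℝ} [IsFiniteMeasure m] {S : Set ℝ} {t : ℝ}
    (h : (m S).toReal ≤ t) : m S ≤ ENNReal.ofReal t := by
  rw [← ENNReal.ofReal_toReal (measure_ne_top m S)]
  exact ENNReal.ofReal_le_ofReal h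

theorem le_toReal {m : Measure ℝ} [IsFiniteMeasure m] {S : Set ℝ} {t : ℝ}
    (h : t ≤ (m S).toReal) : ENNReal.ofReal t ≤ m S := by
  rw [← ENNReal.ofReal_toReal (measure_ne_top m S)]
  exact ENNReal.ofReal_le_ofReal h

/-- The theorem for the operators of the proof, second version. -/
theorem mainC (D : ℝ) (hD : 3 < D) : ∃ (V : Type) (_ : DecidableEq V) (_ : Countable V)
    (a : V → V → ℕ) (o : V) (L : LL V →L[ℂ] LL V) (E₁ E₂ : ℝ),
    (∀ x y, a x y = a y x) ∧ (∀ x, (Function.support (a x)).Finite) ∧ (∀ x, ∑ᶠ y, a x y ≤ 14) ∧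
    (SimpleGraph.fromRel fun x y => 0 < a x y).Connected ∧
    (∀ x, ∃ c C : ℝ, 0 < c ∧ ∀ n : ℕ, 1 ≤ n →
      {y | (SimpleGraph.fromRel fun x y => 0 < a x y).dist x y ≤ n}.Finite ∧
      c * (n : ℝ) ^ D ≤
        ({y | (SimpleGraph.fromRel fun x y => 0 < a x y).dist x y ≤ n}.ncard : ℝ) ∧
      ({y | (SimpleGraph.fromRel fun x y => 0 < a x y).dist x y ≤ n}.ncard : ℝ) ≤
        C * (n : ℝ) ^ D) ∧
    IsSelfAdjoint L ∧ (∀ (u : LL V) (x : V), L u x = ∑' y, (a x y : ℂ) * u y) ∧ E₁ < E₂ ∧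
    ∀ b : ℝ, 0 < b → ∀ ε : ℝ, 0 < ε → ε < 1 → ∃ l0 > (0 : ℝ), ∀ l : ℝ, |l| ≤ l0 →
      ∀ (μ : Measure ℝ) [IsProbabilityMeasure μ], (∀ᵐ s ∂μ, |s| ≤ b) →
      ∀ᵐ ω ∂(Measure.infinitePi fun _ : V => μ), (∀ x, |ω x| ≤ b) ∧
        (∀ (f : LL V) (m : Measure ℝ), SpM (L + ((l : ℝ) : ℂ) • Mw b ω) f m →
          ∀ S ⊆ Set.Ioo E₁ E₂, dimH S < ENNReal.ofReal (1 - ε) → m S = 0) ∧
        (∀ (x : V) (m : Measure ℝ), SpM (L + ((l : ℝ) : ℂ) • Mw b ω) (dv x) m →
          ∃ C > (0 : ℝ), ∀ s t, E₁ < s → s < t → t < E₂ →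
            m (Set.Ioo s t) ≤ ENNReal.ofReal (C * (t - s) ^ (1 - ε))) ∧
        (∀ m : Measure ℝ, SpM (L + ((l : ℝ) : ℂ) • Mw b ω) (dv o) m →
          ∃ c > (0 : ℝ), ∀ s t, E₁ < s → s < t → t < E₂ →
            ENNReal.ofReal (c * (t - s) ^ (1 + ε)) ≤ m (Set.Ioo s t)) := by
  have hσ : 2 < D - 1 := by linarith
  obtain ⟨e, C0, hC0, he0, hes, he1, he2⟩ := Pool.Agent.Helper68.PG.expR (D - 1) (by linarith)
  obtain ⟨V, hdec, hcount, H, o, hHe, ho, hint, -⟩ :=
    Pool.Agent.Helper72.PG.model Pool.Agent.Helper72.PG.gap e he0 hes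
  choose a ha using hint
  have hsymm : ∀ x y, a x y = a y x := by
    intro x y
    have h := H.symm x y
    rw [ha, ha] at h
    exact_mod_cast h
  obtain ⟨L, hLsa, hL⟩ := Pool.Agent.Helper82.PG.adj V a 14 hsymm (H.supp_fin ha) (H.deg_le ha)
  obtain ⟨P⟩ := exists_parW hσ
  have hrel : (fun x y => 0 < H.a x y) = fun x y => 0 < a x y := by
    funext x y
    rw [ha]
    exact propext Nat.cast_pos
  obtain ⟨hconn, hball, hvol⟩ := Pool.Agent.Helper68.PG.ball V H o ho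
  rw [hrel] at hconn hball
  rw [← hHe] at he1 he2
  obtain ⟨c, hc, C, hcC⟩ := hvol (D - 1) C0 (by linarith) hC0 he1 he2
  refine ⟨V, hdec, hcount, a, o, L, P.E₁, P.E₂, hsymm, H.supp_fin ha, H.deg_le ha, hconn,
    growth_all _ hconn (by linarith) o hc (C := C) fun n hn => ?_, hLsa, hL, P.hE12,
    fun b hb ε hε hε1 => ?_⟩
  · rw [hball n]
    refine ⟨finite_toSet _, ?_⟩
    rw [Set.ncard_coe_finset]
    have h := hcC n hn
    rw [sub_add_cancel] at h
    exact h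
  · obtain ⟨l2, hl2, h2⟩ := H.greenC Pool.Agent.Helper34.PG.virial4 Pool.Agent.Helper56.PG.mean
      Pool.Agent.Helper36.PG.sum_weights conv hσ P hC0 he1 he2 hb
      (ε := ε / 8) (by positivity)
    refine ⟨l2, hl2, fun l hl μ _ hμ => ?_⟩
    have hμ' : μ (Set.Icc (-b) b)ᶜ = 0 := by
      rw [ae_iff] at hμ
      refine measure_mono_null ?_ hμ
      intro t ht
      rw [Set.mem_ofPred_eq]
      intro h
      exact ht (abs_le.1 h)
    have hbd : ∀ᵐ ω ∂(Measure.infinitePi fun _ : V => μ), ∀ x, |ω x| ≤ b := by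
      rw [ae_all_iff]
      intro x
      have h3 := (measurePreserving_eval_infinitePi
        (fun _ : V => μ) x).quasiMeasurePreserving
      exact h3.ae hμ
    have h4 := h2 l hl μ hμ'
    filter_upwards [hbd, h4] with ω hω hgreen
    obtain ⟨hg1, hg2⟩ := hgreen hω
    set T : LL V →L[ℂ] LL V := L + ((l : ℝ) : ℂ) • Mw b ω with hT
    have hTsa : IsSelfAdjoint T :=
      hLsa.add (Pool.Agent.Helper32.BS.real_smul_sa l _ (Mw_sa b ω))
    have hE1 := P.hE1
    have hE2 := P.hE2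
    have hlen : P.E₂ - P.E₁ ≤ 1 := by linarith
    -- the Poisson integrals
    have hP : ∀ (x : V) (m : Measure ℝ), SpM T (dv x) m → ∀ E y : ℝ, 0 < y →
        ∃ (a' b' : V → ℝ) (U : ℝ), (∀ R, ∑ x ∈ H.B R, (a' x ^ 2 + b' x ^ 2) ≤ U) ∧
          H.SolC l E y ω a' b' (dl x) ∧ y * U = b' x ∧
          ∫ t : ℝ, y / ((t - E) ^ 2 + y ^ 2) ∂m = b' x := by
      intro x m hm E y hy
      have hz : (⟨E, y⟩ : ℂ).im ≠ 0 := hy.ne'
      obtain ⟨u, hu⟩ : ∃ u, u = Rz T ⟨E, y⟩ (dv x) := ⟨_, rfl⟩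
      have h5 := rz_eq T hTsa ⟨E, y⟩ hz (dv x)
      rw [← hu] at h5
      have h6 := im_res hTsa ⟨E, y⟩ hz (dv x)
      rw [← hu, inner_dv] at h6
      have h7 := poisson hm (E := E) hy
      rw [← hu, inner_dv] at h7
      refine ⟨fun x => (u x).re, fun x => (u x).im, ‖u‖ ^ 2, fun R => ?_, H.solC ha hL hω h5,
        h6.symm, h7⟩
      have h8 : ∀ x, (u x).re ^ 2 + (u x).im ^ 2 = ‖u x‖ ^ 2 := by
        intro x
        rw [← Complex.normSq_eq_norm_sq, Complex.normSq_apply]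
        ring
      simp only [h8]
      exact sum_le_hasSum _ (fun x _ => sq_nonneg _) (ll_sum u)
    have hup : ∀ (x : V) (m : Measure ℝ), SpM T (dv x) m →
        ∃ C > (0 : ℝ), ∀ E y : ℝ, P.E₁ < E → E < P.E₂ → 0 < y → y ≤ 1 →
          ∫ t : ℝ, y / ((t - E) ^ 2 + y ^ 2) ∂m ≤ C * y ^ (-(ε / 8)) := by
      intro x m hm
      obtain ⟨C, hC, h5⟩ := hg1 x
      refine ⟨C, hC, fun E y hEa hEb hy hy1 => ?_⟩
      obtain ⟨a', b', U, hU, hsol, hyU, hint⟩ := hP x m hm E y hy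
      rw [hint]
      refine le_trans ?_ (h5 E y hEa hEb hy hy1 a' b' U hU hsol hyU)
      have h6 := Complex.abs_im_le_norm ((a' x : ℂ) + (b' x : ℂ) * Complex.I)
      have h7 : ((a' x : ℂ) + (b' x : ℂ) * Complex.I).im = b' x := by simp
      rw [h7] at h6
      exact (le_abs_self _).trans h6
    have hhol : ∀ (x : V) (m : Measure ℝ), SpM T (dv x) m →
        ∃ C > (0 : ℝ), ∀ s t, P.E₁ < s → s < t → t < P.E₂ →
          m (Set.Ioo s t) ≤ ENNReal.ofReal (C * (t - s) ^ (1 - ε)) := by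
      intro x m hm
      obtain ⟨C, hC, h5⟩ := hup x m hm
      have hfin : IsFiniteMeasure m := hm.1
      have h6 := (Pool.Agent.Helper70.PG.meas P.E₁ P.E₂ ε C m hlen hε hε1.le hC h5).1
      exact ⟨2 * C, by positivity, fun s t hs hst ht => toReal_le (h6 s t hs hst ht)⟩
    refine ⟨hω, fun f m hm S hS hdim => ?_, hhol, fun m hm => ?_⟩
    · refine all_vec' V T hTsa S (fun v mv hmv => ?_) f m hm
      obtain ⟨C, hC, h5⟩ := hhol v mv hmv
      have hfin : IsFiniteMeasure mv := hmv.1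
      exact Pool.Agent.Helper70.PG.dim P.E₁ P.E₂ (1 - ε) C mv (by linarith) hC h5 S hS hdim
    · obtain ⟨C, hC, h5⟩ := hup o m hm
      have hfin : IsFiniteMeasure m := hm.1
      obtain ⟨c1, hc1, h6⟩ := hg2 o ho
      obtain ⟨c', hc', h7⟩ := (Pool.Agent.Helper70.PG.meas P.E₁ P.E₂ ε C m hlen hε hε1.le hC h5).2
        c1 hc1 (fun E y hEa hEb hy hy1 => by
          obtain ⟨a', b', U, hU, hsol, hyU, hint⟩ := hP o m hm E y hy
          rw [hint]
          exact h6 E y hEa hEb hy hy1 a' b' U hU hsol hyU)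
      exact ⟨c', hc', fun s t hs hst ht => le_toReal (h7 s t hs hst ht)⟩

end Pool.Agent.Helper32.PG
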