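import Pool.Agent.Helper32.PG.Op

/-!
Square summable solutions of the eigenvalue equation: the radial components solve a perturbed
Jacobi equation, with a self energy expanded in the moments `p`.
-/

set_option autoImplicit false
set_option linter.unusedSectionVars false

namespace Pool.Agent.Helper32.PG

open Finset Filter Topology

variable {X : Type} [DecidableEq X] (H : Horn X)

/-- radial components -/
noncomputable def Horn.ph (u : X → ℝ) (n : ℕ) : ℝ := (∑ x ∈ H.Sh n, u x) / 2 ^ H.e n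

/-- self energy term -/
noncomputable def Horn.hh (ω u : X → ℝ) (n : ℕ) : ℝ := ∑ x ∈ H.Sh n, H.w ω n x * u x

theorem Horn.sum_pot (ω u : X → ℝ) (n : ℕ) : (∑ x ∈ H.Sh n, ω x * u x) / 2 ^ H.e n =
    H.v ω n * H.ph u n + H.hh ω u n := by
  unfold Horn.ph Horn.hh
  have h : ∑ x ∈ H.Sh n, H.w ω n x * u x = (∑ x ∈ H.Sh n, ω x * u x) / 2 ^ H.e n -
      H.v ω n * ((∑ x ∈ H.Sh n, u x) / 2 ^ H.e n) := by
    rw [sum_div, sum_div, mul_sum, ← sum_sub_distrib]
    apply sum_congr rfl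
    intro x hx
    unfold Horn.w
    rw [if_pos ((H.mem _ _).1 hx)]
    ring
  rw [h]
  ring

/-- `u` is a solution of the eigenvalue equation -/
def Horn.Sol (l E : ℝ) (ω u : X → ℝ) : Prop := ∀ x, H.L u x + l * ω x * u x = E * u x

theorem Horn.rec_zero {l E : ℝ} {ω u : X → ℝ} (hu : H.Sol l E ω u) :
    H.ph u 1 = 2 * ((E - 8) / 4) * H.ph u 0 - l / 2 * (H.v ω 0 * H.ph u 0 + H.hh ω u 0) := by
  have h1 : ∑ x ∈ H.Sh 0, H.L u x + l * ∑ x ∈ H.Sh 0, ω x * u x = E * ∑ x ∈ H.Sh 0, u x := by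
    rw [mul_sum, mul_sum, ← sum_add_distrib]
    exact sum_congr rfl fun x _ => by rw [← hu x]; ring
  rw [H.sum_L_zero] at h1
  rw [← H.sum_pot]
  unfold Horn.ph
  have h2 : (0 : ℝ) < 2 ^ H.e 0 := by positivity
  have h3 : (0 : ℝ) < 2 ^ H.e 1 := by positivity
  field_simp at h1 ⊢
  linarith

theorem Horn.rec_succ {l E : ℝ} {ω u : X → ℝ} (hu : H.Sol l E ω u) (n : ℕ) :
    H.ph u (n + 2) + H.ph u n = 2 * ((E - 8) / 4) * H.ph u (n + 1) -
      l / 2 * (H.v ω (n + 1) * H.ph u (n + 1) + H.hh ω u (n + 1)) := by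
  have h1 : ∑ x ∈ H.Sh (n + 1), H.L u x + l * ∑ x ∈ H.Sh (n + 1), ω x * u x =
      E * ∑ x ∈ H.Sh (n + 1), u x := by
    rw [mul_sum, mul_sum, ← sum_add_distrib]
    exact sum_congr rfl fun x _ => by rw [← hu x]; ring
  rw [H.sum_L_succ] at h1
  rw [← H.sum_pot]
  unfold Horn.ph
  have h2 : (0 : ℝ) < 2 ^ H.e n := by positivity
  have h3 : (0 : ℝ) < 2 ^ H.e (n + 1) := by positivity
  have h4 : (0 : ℝ) < 2 ^ H.e (n + 2) := by positivity
  set s0 := ∑ x ∈ H.Sh n, u x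
  set s1 := ∑ x ∈ H.Sh (n + 1), u x
  set s2 := ∑ x ∈ H.Sh (n + 2), u x
  set s3 := ∑ x ∈ H.Sh (n + 1), ω x * u x
  have h5 : 8 * (s1 / 2 ^ H.e (n + 1)) + 2 * (s2 / 2 ^ H.e (n + 2)) + 2 * (s0 / 2 ^ H.e n) +
      l * (s3 / 2 ^ H.e (n + 1)) = E * (s1 / 2 ^ H.e (n + 1)) := by
    have h6 : 8 * (s1 / 2 ^ H.e (n + 1)) + 2 * (s2 / 2 ^ H.e (n + 2)) + 2 * (s0 / 2 ^ H.e n) +
      l * (s3 / 2 ^ H.e (n + 1)) = (8 * s1 + 2 * 2 ^ H.e (n + 1) / 2 ^ H.e (n + 2) * s2 +
        2 * 2 ^ H.e (n + 1) / 2 ^ H.e n * s0 + l * s3) / 2 ^ H.e (n + 1) := by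
      field_simp
    rw [h6, h1]
    ring
  linarith

theorem Horn.sum_sq_ph (u : X → ℝ) (n : ℕ) : H.ph u n ^ 2 ≤ ∑ x ∈ H.Sh n, u x ^ 2 := by
  unfold Horn.ph
  have h := sum_mul_sq_le_sq_mul_sq (H.Sh n) (fun _ => (1 : ℝ)) u
  simp only [one_mul, one_pow, H.sum_const_shell, mul_one] at h
  rw [div_pow, ← pow_mul, mul_comm (H.e n) 2, pow_mul, div_le_iff₀ (by positivity)]
  norm_num
  linarith

theorem Horn.ph_summable {u : X → ℝ} {U : ℝ} (hU : ∀ R, ∑ x ∈ H.B R, u x ^ 2 ≤ U) :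
    Summable fun n => H.ph u n ^ 2 := by
  apply summable_of_sum_range_le (c := U) (fun n => sq_nonneg _)
  intro n
  cases n with
  | zero =>
    rw [sum_range_zero]
    exact (sum_nonneg fun x _ => sq_nonneg _).trans (hU 0)
  | succ n =>
    refine le_trans (sum_le_sum fun i _ => H.sum_sq_ph u i) ?_
    rw [← H.sum_B]
    exact hU n

/-- one step of the resolvent expansion -/
theorem Horn.step {l E : ℝ} {ω u : X → ℝ} (hu : H.Sol l E ω u) {g : X → ℝ} {r R : ℕ}
    (hg : H.Van g r) (zg : H.ZM g) (hR : r + 1 ≤ R) :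
    (E + 15) * ∑ x ∈ H.B R, g x * u x = ∑ x ∈ H.B R, H.A (fun x => l * ω x) g x * u x +
      l * ∑ m ∈ range (R + 1), H.ph u m * ∑ x ∈ H.Sh m, H.w ω m x * g x := by
  set V : X → ℝ := fun x => l * ω x with hV
  have h1 : (E + 15) * ∑ x ∈ H.B R, g x * u x = ∑ x ∈ H.B R, g x * H.T V u x := by
    rw [mul_sum]
    apply sum_congr rfl
    intro x _
    unfold Horn.T
    have := hu x
    rw [hV]
    simp only
    linear_combination (-(g x)) * this
  rw [h1, ← H.T_sym V u hg hR]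
  have h2 : ∑ x ∈ H.B R, H.T V g x * u x = ∑ x ∈ H.B R, H.A V g x * u x +
      ∑ x ∈ H.B R, H.avg (H.T V g) x * u x := by
    rw [← sum_add_distrib]
    apply sum_congr rfl
    intro x _
    unfold Horn.A Horn.Q
    ring
  rw [h2]
  congr 1
  rw [H.sum_B, mul_sum]
  apply sum_congr rfl
  intro m _
  rw [H.sum_avg_mul]
  have h3 : ∑ x ∈ H.Sh m, H.T V g x = l * ∑ x ∈ H.Sh m, ω x * g x := by
    unfold Horn.T
    rw [sum_add_distrib, H.L_zm zg m, zero_add, hV]
    simp only [add_mul, sum_add_distrib]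
    rw [← mul_sum, zg m, mul_zero, add_zero, mul_sum]
    exact sum_congr rfl fun x _ => by ring
  have h4 : ∑ x ∈ H.Sh m, H.w ω m x * g x = (∑ x ∈ H.Sh m, ω x * g x) / 2 ^ H.e m := by
    have h5 : ∑ x ∈ H.Sh m, H.w ω m x * g x = (∑ x ∈ H.Sh m, ω x * g x) / 2 ^ H.e m -
        H.v ω m / 2 ^ H.e m * ∑ x ∈ H.Sh m, g x := by
      rw [sum_div, mul_sum, ← sum_sub_distrib]
      apply sum_congr rfl
      intro x hx
      unfold Horn.w
      rw [if_pos ((H.mem _ _).1 hx)]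
      ring
    rw [h5, zg m]
    ring
  rw [h3, h4]
  unfold Horn.ph
  have h5 : (4 : ℝ) ^ H.e m = 2 ^ H.e m * 2 ^ H.e m := by
    rw [← mul_pow]
    norm_num
  rw [h5]
  field_simp

/-- truncated self energy -/
noncomputable def Horn.SS (V ω : X → ℝ) (z : ℝ) (M n m : ℕ) : ℝ :=
  ∑ k ∈ range M, z⁻¹ ^ (k + 1) * H.p V ω k n m

theorem Horn.expand {l E : ℝ} (hE : 0 < E) {ω u : X → ℝ} (hu : H.Sol l E ω u) (n M : ℕ) {R : ℕ}
    (hR : n + M + 1 ≤ R) :
    H.hh ω u n = l * ∑ m ∈ range (R + 1), H.SS (fun x => l * ω x) ω (E + 15) M n m * H.ph u m +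
      (E + 15)⁻¹ ^ M * ∑ x ∈ H.B R, H.g (fun x => l * ω x) ω n M x * u x := by
  set V : X → ℝ := fun x => l * ω x with hV
  have hz : (E + 15) ≠ 0 := by linarith
  induction M with
  | zero =>
    unfold Horn.SS
    simp only [range_zero, sum_empty, zero_mul, sum_const_zero, mul_zero, pow_zero, one_mul, zero_add]
    unfold Horn.g
    rw [Function.iterate_zero_apply, H.w_sum ω u (by omega)]
    rfl
  | succ M ih =>
    rw [ih (by omega)]
    have h1 := H.step hu (H.g_van V ω n M) (H.g_zm V ω n M) (R := R) (by omega)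
    rw [← hV, ← H.g_succ] at h1
    have h2 : ∀ m, H.SS V ω (E + 15) (M + 1) n m = H.SS V ω (E + 15) M n m +
        (E + 15)⁻¹ ^ (M + 1) * H.p V ω M n m := by
      intro m
      unfold Horn.SS
      rw [sum_range_succ]
    have h3 : ∑ m ∈ range (R + 1), H.SS V ω (E + 15) (M + 1) n m * H.ph u m =
        ∑ m ∈ range (R + 1), H.SS V ω (E + 15) M n m * H.ph u m + (E + 15)⁻¹ ^ (M + 1) *
          ∑ m ∈ range (R + 1), H.ph u m * ∑ x ∈ H.Sh m, H.w ω m x * H.g V ω n M x := by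
      rw [mul_sum, ← sum_add_distrib]
      apply sum_congr rfl
      intro m _
      rw [h2]
      unfold Horn.p
      ring
    rw [h3]
    have h4 : ∑ x ∈ H.B R, H.g V ω n M x * u x = (E + 15)⁻¹ * (∑ x ∈ H.B R, H.g V ω n (M + 1) x * u x +
        l * ∑ m ∈ range (R + 1), H.ph u m * ∑ x ∈ H.Sh m, H.w ω m x * H.g V ω n M x) := by
      rw [← h1]
      field_simp
    rw [h4, pow_succ]
    ring

theorem Horn.SS_symm (V ω : X → ℝ) (z : ℝ) (M n m : ℕ) : H.SS V ω z M n m = H.SS V ω z M m n := by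
  unfold Horn.SS
  exact sum_congr rfl fun k _ => by rw [H.p_symm]

theorem Horn.SS_zero (V ω : X → ℝ) (z : ℝ) {M n m : ℕ} (h : n + M ≤ m) : H.SS V ω z M n m = 0 := by
  unfold Horn.SS
  apply sum_eq_zero
  intro k hk
  rw [mem_range] at hk
  rw [H.p_zero V ω (by omega), mul_zero]

theorem Horn.hh_bound {l E b U : ℝ} (hE : 12 - 1 / 100 + |l| * b < E) (hl : |l| * b ≤ 1)
    (hb : 0 ≤ b) {ω u : X → ℝ} (hω : ∀ x, |ω x| ≤ b) (hu : H.Sol l E ω u)
    (hU : ∀ R, ∑ x ∈ H.B R, u x ^ 2 ≤ U) (M n : ℕ) :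
    |H.hh ω u n - l * ∑ m ∈ range (n + M), H.SS (fun x => l * ω x) ω (E + 15) M n m * H.ph u m| ≤
      b * √U * ((27 - 1 / 100 + |l| * b) / (E + 15)) ^ M := by
  set V : X → ℝ := fun x => l * ω x with hV
  have hVb : ∀ x, |V x| ≤ |l| * b := fun x => by
    rw [hV]
    simp only [abs_mul]
    exact mul_le_mul_of_nonneg_left (hω x) (abs_nonneg _)
  have hl0 : 0 ≤ |l| * b := by positivity
  have hE0 : 0 < E := by linarith
  set R := n + M + 1 with hR
  have h1 := H.expand hE0 hu n M (R := R) le_rfl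
  rw [← hV] at h1
  have h2 : ∑ m ∈ range (R + 1), H.SS V ω (E + 15) M n m * H.ph u m =
      ∑ m ∈ range (n + M), H.SS V ω (E + 15) M n m * H.ph u m := by
    symm
    apply sum_subset
    · intro m hm
      rw [mem_range] at hm ⊢
      omega
    · intro m _ hm
      rw [mem_range] at hm
      rw [H.SS_zero V ω _ (by omega), zero_mul]
  rw [h2] at h1
  rw [h1, add_sub_cancel_left, abs_mul, abs_of_pos (by positivity : (0 : ℝ) < (E + 15)⁻¹ ^ M)]
  have h3 := sum_mul_sq_le_sq_mul_sq (H.B R) (H.g V ω n M) u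
  have h4 : ∑ x ∈ H.B R, H.g V ω n M x ^ 2 ≤ (27 - 1 / 100 + |l| * b) ^ (2 * M) * b ^ 2 := by
    refine (H.A_iter_norm hVb hl hl0 (H.w_van ω n) (H.w_zm ω n) M (by omega)).trans ?_
    exact mul_le_mul_of_nonneg_left (H.w_sq hb hω n R) (by positivity)
  have hU0 : 0 ≤ U := (sum_nonneg fun x _ => sq_nonneg _).trans (hU 0)
  have h5 : |∑ x ∈ H.B R, H.g V ω n M x * u x| ≤ b * √U * (27 - 1 / 100 + |l| * b) ^ M := by
    apply abs_le_of_sq_le_sq _ (by positivity)
    refine h3.trans ((mul_le_mul h4 (hU R) (sum_nonneg fun x _ => sq_nonneg _)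
      (by positivity)).trans (le_of_eq ?_))
    rw [mul_pow, mul_pow, Real.sq_sqrt hU0]
    ring
  refine (mul_le_mul_of_nonneg_left h5 (by positivity)).trans (le_of_eq ?_)
  rw [div_pow, inv_pow]
  field_simp

/-- if the radial components vanish then so does the solution -/
theorem Horn.final {l E b U : ℝ} (hE : 12 - 1 / 100 + |l| * b < E) (hl : |l| * b ≤ 1)
    (hb : 0 ≤ b) {ω u : X → ℝ} (hω : ∀ x, |ω x| ≤ b) (hu : H.Sol l E ω u)
    (hU : ∀ R, ∑ x ∈ H.B R, u x ^ 2 ≤ U) (h0 : ∀ n, H.ph u n = 0) : ∀ x, u x = 0 := by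
  set V : X → ℝ := fun x => l * ω x with hV
  have hVb : ∀ x, |V x| ≤ |l| * b := fun x => by
    rw [hV]
    simp only [abs_mul]
    exact mul_le_mul_of_nonneg_left (hω x) (abs_nonneg _)
  have hl0 : 0 ≤ |l| * b := by positivity
  have hE0 : 0 < E := by linarith
  have hU0 : 0 ≤ U := (sum_nonneg fun x _ => sq_nonneg _).trans (hU 0)
  set q := (27 - 1 / 100 + |l| * b) / (E + 15) with hq
  have hq0 : 0 ≤ q := by positivity
  have hq1 : q < 1 := by
    rw [hq, div_lt_one (by linarith)]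
    linarith
  -- general vectors of zero averages
  have key : ∀ (f : X → ℝ) (r : ℕ), H.Van f r → H.ZM f → ∑ x ∈ H.B r, f x * u x = 0 := by
    intro f r hf zf
    have h1 : ∀ M R, r + M + 1 ≤ R → ∑ x ∈ H.B R, f x * u x =
        (E + 15)⁻¹ ^ M * ∑ x ∈ H.B R, (H.A V)^[M] f x * u x := by
      intro M
      induction M with
      | zero => intro R _; simp
      | succ M ih =>
        intro R hR
        rw [ih R (by omega)]
        have h2 := H.step hu (H.A_iter_van V hf M) (H.A_iter_zm V zf M) (R := R) (by omega)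
        rw [← hV, ← Function.iterate_succ_apply' (H.A V) M f] at h2
        have h3 : ∑ m ∈ range (R + 1), H.ph u m *
            ∑ x ∈ H.Sh m, H.w ω m x * (H.A V)^[M] f x = 0 :=
          sum_eq_zero fun m _ => by rw [h0, zero_mul]
        rw [h3, mul_zero, add_zero] at h2
        rw [← h2, pow_succ]
        field_simp
    have h2 : ∀ M, |∑ x ∈ H.B r, f x * u x| ≤ √(∑ x ∈ H.B r, f x ^ 2) * √U * q ^ M := by
      intro M
      set R := r + M + 1 with hR
      have e1 : ∑ x ∈ H.B r, f x * u x = ∑ x ∈ H.B R, f x * u x := by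
        symm
        apply H.sum_Van (f := fun x => f x * u x) _ (by omega)
        intro x hx
        show f x * u x = 0
        rw [hf x hx, zero_mul]
      have e2 : ∑ x ∈ H.B R, f x ^ 2 = ∑ x ∈ H.B r, f x ^ 2 := by
        apply H.sum_Van (f := fun x => f x ^ 2) _ (by omega)
        intro x hx
        show f x ^ 2 = 0
        rw [hf x hx]
        ring
      rw [e1, h1 M R le_rfl, abs_mul, abs_of_pos (by positivity : (0 : ℝ) < (E + 15)⁻¹ ^ M)]
      have h3 := sum_mul_sq_le_sq_mul_sq (H.B R) ((H.A V)^[M] f) u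
      have h4 := H.A_iter_norm hVb hl hl0 hf zf M (R := R) le_rfl
      rw [e2] at h4
      have hF0 : 0 ≤ ∑ x ∈ H.B r, f x ^ 2 := sum_nonneg fun x _ => sq_nonneg _
      have h5 : |∑ x ∈ H.B R, (H.A V)^[M] f x * u x| ≤
          √(∑ x ∈ H.B r, f x ^ 2) * √U * (27 - 1 / 100 + |l| * b) ^ M := by
        apply abs_le_of_sq_le_sq _ (by positivity)
        refine h3.trans ((mul_le_mul h4 (hU R) (sum_nonneg fun x _ => sq_nonneg _)
          (by positivity)).trans (le_of_eq ?_))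
        rw [mul_pow, mul_pow, Real.sq_sqrt hU0, Real.sq_sqrt hF0]
        ring
      refine (mul_le_mul_of_nonneg_left h5 (by positivity)).trans (le_of_eq ?_)
      rw [hq, div_pow, inv_pow]
      field_simp
    have h3 : Tendsto (fun M : ℕ => √(∑ x ∈ H.B r, f x ^ 2) * √U * q ^ M) atTop (𝓝 0) := by
      have := (tendsto_pow_atTop_nhds_zero_of_lt_one hq0 hq1).const_mul
        (√(∑ x ∈ H.B r, f x ^ 2) * √U)
      rwa [mul_zero] at this
    have h4 := ge_of_tendsto' h3 h2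
    exact abs_nonpos_iff.1 h4
  intro x
  have hs : ∀ n, ∑ y ∈ H.Sh n, u y = 0 := by
    intro n
    have := h0 n
    unfold Horn.ph at this
    rw [div_eq_zero_iff] at this
    rcases this with h | h
    · exact h
    · exact absurd h (by positivity)
  set d : X → ℝ := fun y => if y = x then 1 else 0 with hd
  have dv : H.Van d (H.sh x) := by
    intro y hy
    rw [hd]
    simp only
    rw [if_neg]
    rintro rfl
    omega
  have h1 := key (H.Q d) (H.sh x) (H.Q_van dv) (H.Q_zm d)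
  have h2 : ∑ y ∈ H.B (H.sh x), H.Q d y * u y = ∑ y ∈ H.B (H.sh x), d y * u y -
      ∑ y ∈ H.B (H.sh x), H.avg d y * u y := by
    rw [← sum_sub_distrib]
    apply sum_congr rfl
    intro y _
    unfold Horn.Q
    ring
  have h3 : ∑ y ∈ H.B (H.sh x), H.avg d y * u y = 0 := by
    rw [H.sum_B]
    apply sum_eq_zero
    intro n _
    rw [H.sum_avg_mul, hs, mul_zero]
  have h4 : ∑ y ∈ H.B (H.sh x), d y * u y = u x := by
    rw [hd]
    simp only [ite_mul, one_mul, zero_mul]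
    rw [sum_ite_eq']
    rw [if_pos (H.mem_B.2 le_rfl)]
  rw [h2, h3, h4, sub_zero] at h1
  exact h1

end Pool.Agent.Helper32.PG
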