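import Pool.Agent.Helper32.PG.Prob
import Pool.Agent.Helper32.PG.Res

/-!
The self energy kernel is almost translation invariant.
-/

set_option autoImplicit false
set_option linter.unusedSectionVars false

namespace Pool.Agent.Helper32.PG

open Finset MeasureTheory Filter

variable {X : Type} [DecidableEq X] (H : Horn X)

/-- weights -/
noncomputable def eta (r : ℝ) (N0 n0 : ℕ) (e : ℕ → ℕ) (n : ℕ) : ℝ :=
  r ^ dist e n + r ^ (n - n0) + ((N0 : ℝ) / ((n : ℝ) + N0)) ^ 2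

theorem geo_tail {t : ℕ → ℝ} {K s : ℝ} {i : ℕ} (hs : 0 < s) (hs1 : s < 1) (hK : 0 ≤ K)
    (h0 : ∀ k, k < i → t k = 0) (h1 : ∀ k, i ≤ k → |t k| ≤ K * s ^ k) (M : ℕ) :
    |∑ k ∈ range M, t k| ≤ K / (1 - s) * s ^ i := by
  have h2 : ∀ k, |t k| ≤ K * s ^ i * (if i ≤ k then s ^ (k - i) else 0) := by
    intro k
    by_cases hk : i ≤ k
    · rw [if_pos hk]
      refine (h1 k hk).trans (le_of_eq ?_)
      rw [mul_assoc, ← pow_add]
      congr 2
      omega
    · rw [if_neg hk, h0 k (by omega)]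
      simp
  refine (abs_sum_le_sum_abs _ _).trans ((sum_le_sum fun k _ => h2 k).trans ?_)
  rw [← mul_sum]
  have h3 : ∑ k ∈ range M, (if i ≤ k then s ^ (k - i) else 0) ≤ 1 / (1 - s) := by
    have h4 : ∑ k ∈ range M, (if i ≤ k then s ^ (k - i) else 0) ≤
        ∑ k ∈ range (i + M), (if i ≤ k then s ^ (k - i) else 0) := by
      apply sum_le_sum_of_subset_of_nonneg
      · intro k hk
        rw [mem_range] at hk ⊢
        omega
      · intro k _ _
        split_ifs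
        · positivity
        · exact le_rfl
    refine h4.trans ?_
    rw [sum_range_add]
    have h5 : ∑ k ∈ range i, (if i ≤ k then s ^ (k - i) else 0) = 0 := by
      apply sum_eq_zero
      intro k hk
      rw [mem_range] at hk
      rw [if_neg (by omega)]
    rw [h5, zero_add]
    have h6 : ∑ k ∈ range M, (if i ≤ i + k then s ^ (i + k - i) else 0) = ∑ k ∈ range M, s ^ k := by
      apply sum_congr rfl
      intro k _
      rw [if_pos (by omega)]
      congr 1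
      omega
    rw [h6, one_div, ← tsum_geometric_of_lt_one hs.le hs1]
    exact (summable_geometric_of_lt_one hs.le hs1).sum_le_tsum _ (fun k _ => by positivity)
  have h7 := mul_le_mul_of_nonneg_left h3 (by positivity : 0 ≤ K * s ^ i)
  refine h7.trans (le_of_eq (by ring))

section ker

variable {l b z s : ℝ}

theorem Horn.term_bound (hb : 0 ≤ b) (hl : |l| * b ≤ 1) (hz : 1 ≤ z)
    (hzs : (27 - 1 / 100 + |l| * b) / z ≤ s ^ 2) (hs : 0 < s) {ω : X → ℝ}
    (hω : ∀ x, |ω x| ≤ b) (k n m : ℕ) :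
    z⁻¹ ^ (k + 1) * |H.p (fun y => l * ω y) ω k n m| ≤ b ^ 2 * (s ^ k * s ^ k) := by
  have hl0 : 0 ≤ |l| * b := by positivity
  have h1 := H.p_bound (V := fun y => l * ω y) (fun x => by
        rw [abs_mul]
        exact mul_le_mul_of_nonneg_left (hω x) (abs_nonneg _)) hl hl0 hb hω k n m
  have hz0 : 0 < z := by linarith
  have h2 : z⁻¹ ^ (k + 1) * |H.p (fun y => l * ω y) ω k n m| ≤
      z⁻¹ ^ (k + 1) * (b ^ 2 * (27 - 1 / 100 + |l| * b) ^ k) :=
    mul_le_mul_of_nonneg_left h1 (by positivity)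
  refine h2.trans ?_
  have h3 : z⁻¹ ^ (k + 1) * (b ^ 2 * (27 - 1 / 100 + |l| * b) ^ k) =
      b ^ 2 * (((27 - 1 / 100 + |l| * b) / z) ^ k * z⁻¹) := by
    rw [div_pow, inv_pow, inv_eq_one_div, inv_eq_one_div, pow_succ]
    field_simp
  rw [h3]
  apply mul_le_mul_of_nonneg_left _ (sq_nonneg b)
  have h4 : ((27 - 1 / 100 + |l| * b) / z) ^ k ≤ (s ^ 2) ^ k :=
    pow_le_pow_left₀ (by positivity) hzs k
  have h5 : z⁻¹ ≤ 1 := inv_le_one_of_one_le₀ hz
  have h6 : ((27 - 1 / 100 + |l| * b) / z) ^ k * z⁻¹ ≤ (s ^ 2) ^ k * 1 :=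
    mul_le_mul h4 h5 (by positivity) (by positivity)
  refine h6.trans (le_of_eq ?_)
  rw [← pow_mul, mul_one, ← pow_add]
  congr 1
  omega

theorem Horn.SS_bound (hb : 0 ≤ b) (hl : |l| * b ≤ 1) (hz : 1 ≤ z)
    (hzs : (27 - 1 / 100 + |l| * b) / z ≤ s ^ 2) (hs : 0 < s) (hs1 : s < 1) {ω : X → ℝ}
    (hω : ∀ x, |ω x| ≤ b) (M n i : ℕ) :
    |H.SS (fun y => l * ω y) ω z M n (n + i)| ≤ b ^ 2 / (1 - s) * s ^ i := by
  unfold Horn.SS
  apply geo_tail hs hs1 (sq_nonneg b)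
  · intro k hk
    rw [H.p_zero _ _ (by omega), mul_zero]
  · intro k _
    rw [abs_mul, abs_of_pos (by positivity : (0 : ℝ) < z⁻¹ ^ (k + 1))]
    refine (H.term_bound hb hl hz hzs hs hω k n (n + i)).trans ?_
    apply mul_le_mul_of_nonneg_left _ (sq_nonneg b)
    have h1 : s ^ k ≤ 1 := pow_le_one₀ hs.le hs1.le
    have h2 : 0 < s ^ k := by positivity
    nlinarith

variable {r : ℝ} {N0 n0 c : ℕ} {μ : Measure ℝ} [IsProbabilityMeasure μ]

theorem eta_pos (hr : 0 < r) (hN : 1 ≤ N0) (e : ℕ → ℕ) (n : ℕ) : 0 < eta r N0 n0 e n := by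
  unfold eta
  have : (0 : ℝ) < N0 := by exact_mod_cast hN
  positivity

theorem eta_sq (hr : 0 < r) (hN : 1 ≤ N0) (e : ℕ → ℕ) (n : ℕ) :
    1 / ((n : ℝ) + 1) ^ 2 ≤ eta r N0 n0 e n := by
  unfold eta
  have h0 : (1 : ℝ) ≤ N0 := by exact_mod_cast hN
  have hn : (0 : ℝ) ≤ n := Nat.cast_nonneg n
  have h1 : 1 / ((n : ℝ) + 1) ^ 2 ≤ ((N0 : ℝ) / ((n : ℝ) + N0)) ^ 2 := by
    rw [← one_div_pow]
    apply pow_le_pow_left₀ (by positivity)
    rw [div_le_div_iff₀ (by positivity) (by positivity)]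
    nlinarith
  have h2 : 0 < r ^ dist e n + r ^ (n - n0) := by positivity
  linarith

theorem small_log {c : ℕ} (hc : s ^ c ≤ 1 / 4) (hs : 0 < s) (hs1 : s < 1) {n k : ℕ}
    (hk : c * Nat.log 2 (n + 1) < k) : s ^ k ≤ 4 * (1 / ((n : ℝ) + 1) ^ 2) := by
  have h1 : s ^ k ≤ s ^ (c * Nat.log 2 (n + 1)) := pow_le_pow_of_le_one hs.le hs1.le hk.le
  have h2 : s ^ (c * Nat.log 2 (n + 1)) ≤ (1 / 4) ^ Nat.log 2 (n + 1) := by
    rw [pow_mul]
    exact pow_le_pow_left₀ (by positivity) hc _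
  refine h1.trans (h2.trans ?_)
  have h3 := Nat.lt_pow_succ_log_self (b := 2) (by norm_num) (n + 1)
  have h4 : ((n : ℝ) + 1) ≤ 2 * 2 ^ Nat.log 2 (n + 1) := by
    have : ((n + 1 : ℕ) : ℝ) ≤ ((2 ^ (Nat.log 2 (n + 1)).succ : ℕ) : ℝ) := by exact_mod_cast h3.le
    push_cast at this
    rw [Nat.succ_eq_add_one, pow_succ] at this
    linarith
  rw [one_div_pow, mul_one_div, div_le_div_iff₀ (by positivity) (by positivity)]
  have h5 : (4 : ℝ) ^ Nat.log 2 (n + 1) = 2 ^ Nat.log 2 (n + 1) * 2 ^ Nat.log 2 (n + 1) := by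
    rw [← mul_pow]; norm_num
  rw [h5]
  have h6 : (0 : ℝ) < (n : ℝ) + 1 := by positivity
  nlinarith

theorem Horn.perk (hb : 0 ≤ b) (hl : |l| * b ≤ 1) (hz : 1 ≤ z)
    (hzs : (27 - 1 / 100 + |l| * b) / z ≤ s ^ 2) (hs : 0 < s) (hs1 : s < 1) {ω : X → ℝ}
    (hω : ∀ x, |ω x| ≤ b) (hc : s ^ c ≤ 1 / 4) (hr : 0 < r) (hr1 : r < 1) (hrs : s ≤ r ^ 2)
    (hN : 1 ≤ N0) (hgood : H.Good μ l c ω n0)
    (hd : ∀ n i, n ≤ i + dist H.e n → i ≤ n + dist H.e n → H.e i = H.e n)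
    (hdn : ∀ n, dist H.e n ≤ n)
    {n m k : ℕ} (h1 : m ≤ n + k) (h2 : n ≤ m + k) :
    z⁻¹ ^ (k + 1) * |H.p (fun y => l * ω y) ω k n m - H.p (fun y => l * ω y) ω k (n + 1) (m + 1)| ≤
      (2 + 8 * b ^ 2) * eta r N0 n0 H.e n * s ^ k := by
  have he0 := eta_pos (n0 := n0) hr hN H.e n
  have he1 := eta_sq (n0 := n0) hr hN H.e n
  have hz0 : 0 < z := by linarith
  have hsk : 0 < s ^ k := by positivity
  by_cases hA : n0 ≤ n ∧ k ≤ c * Nat.log 2 (n + 1) ∧ 2 * k + 1 ≤ dist H.e n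
  · obtain ⟨hA1, hA2, hA3⟩ := hA
    have e1 := (hgood n hA1).2 k hA2 m
    have hk2 : k ≤ c * Nat.log 2 (n + 1 + 1) :=
      hA2.trans (Nat.mul_le_mul_left _ (Nat.log_mono_right (by omega)))
    have e2 := (hgood (n + 1) (by omega)).2 k hk2 (m + 1)
    have hdn' := hdn n
    have e3 : H.Ep μ l k n m = H.Ep μ l k (n + 1) (m + 1) := by
      apply H.Ep_shift μ l (a := n - dist H.e n) (c := n + dist H.e n - 1)
      · intro i hi1 hi2
        rw [hd n (i + 1) (by omega) (by omega), hd n i (by omega) (by omega)]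
      all_goals omega
    rw [e3] at e1
    have e4 : 1 / (((n + 1 : ℕ) : ℝ) + 1) ^ 2 ≤ 1 / ((n : ℝ) + 1) ^ 2 := by
      apply one_div_le_one_div_of_le (by positivity)
      push_cast
      have : (0 : ℝ) ≤ n := Nat.cast_nonneg n
      nlinarith
    have e5 : |H.p (fun y => l * ω y) ω k n m - H.p (fun y => l * ω y) ω k (n + 1) (m + 1)| ≤
        2 * (1 / ((n : ℝ) + 1) ^ 2) := by
      have e6 : H.p (fun y => l * ω y) ω k n m - H.p (fun y => l * ω y) ω k (n + 1) (m + 1) =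
          (H.p (fun y => l * ω y) ω k n m - H.Ep μ l k (n + 1) (m + 1)) -
          (H.p (fun y => l * ω y) ω k (n + 1) (m + 1) - H.Ep μ l k (n + 1) (m + 1)) := by ring
      rw [e6]
      refine (abs_sub _ _).trans ?_
      linarith
    have e7 : z⁻¹ ^ (k + 1) ≤ s ^ k := by
      have f1 : z⁻¹ ≤ s ^ 2 := by
        refine le_trans ?_ hzs
        rw [inv_eq_one_div]
        apply div_le_div_of_nonneg_right _ hz0.le
        have : 0 ≤ |l| * b := by positivity
        linarith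
      have f2 : z⁻¹ ^ (k + 1) ≤ (s ^ 2) ^ (k + 1) := pow_le_pow_left₀ (by positivity) f1 _
      refine f2.trans ?_
      rw [← pow_mul]
      exact pow_le_pow_of_le_one hs.le hs1.le (by omega)
    have e8 : z⁻¹ ^ (k + 1) * |H.p (fun y => l * ω y) ω k n m -
        H.p (fun y => l * ω y) ω k (n + 1) (m + 1)| ≤ s ^ k * (2 * (1 / ((n : ℝ) + 1) ^ 2)) :=
      mul_le_mul e7 e5 (abs_nonneg _) hsk.le
    refine e8.trans ?_
    have e9 : 2 * (1 / ((n : ℝ) + 1) ^ 2) ≤ (2 + 8 * b ^ 2) * eta r N0 n0 H.e n := by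
      have : 0 ≤ 8 * b ^ 2 * eta r N0 n0 H.e n := by positivity
      linarith
    have := mul_le_mul_of_nonneg_left e9 hsk.le
    linarith
  · have e1 := H.term_bound hb hl hz hzs hs hω k n m
    have e2 := H.term_bound hb hl hz hzs hs hω k (n + 1) (m + 1)
    have e3 : z⁻¹ ^ (k + 1) * |H.p (fun y => l * ω y) ω k n m -
        H.p (fun y => l * ω y) ω k (n + 1) (m + 1)| ≤ 2 * (b ^ 2 * (s ^ k * s ^ k)) := by
      have := mul_le_mul_of_nonneg_left (abs_sub (H.p (fun y => l * ω y) ω k n m)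
        (H.p (fun y => l * ω y) ω k (n + 1) (m + 1))) (by positivity : (0 : ℝ) ≤ z⁻¹ ^ (k + 1))
      linarith
    refine e3.trans ?_
    have key : s ^ k ≤ 4 * eta r N0 n0 H.e n := by
      by_cases g1 : n0 ≤ n
      · by_cases g2 : k ≤ c * Nat.log 2 (n + 1)
        · have g3 : dist H.e n ≤ 2 * k := by
            by_contra g
            exact hA ⟨g1, g2, by omega⟩
          have g4 : s ^ k ≤ r ^ dist H.e n := by
            calc s ^ k ≤ (r ^ 2) ^ k := pow_le_pow_left₀ hs.le hrs k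
              _ = r ^ (2 * k) := by rw [← pow_mul]
              _ ≤ r ^ dist H.e n := pow_le_pow_of_le_one hr.le hr1.le g3
          have g5 : r ^ dist H.e n ≤ eta r N0 n0 H.e n := by
            unfold eta
            have : 0 ≤ r ^ (n - n0) + ((N0 : ℝ) / ((n : ℝ) + N0)) ^ 2 := by positivity
            linarith
          linarith
        · have g3 := small_log (n := n) (k := k) hc hs hs1 (by omega)
          linarith
      · have g3 : s ^ k ≤ 1 := pow_le_one₀ hs.le hs1.le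
        have g4 : 1 ≤ eta r N0 n0 H.e n := by
          unfold eta
          rw [show n - n0 = 0 by omega, pow_zero]
          have : 0 ≤ r ^ dist H.e n + ((N0 : ℝ) / ((n : ℝ) + N0)) ^ 2 := by positivity
          linarith
        linarith
    have h8 : 2 * (b ^ 2 * (s ^ k * s ^ k)) ≤ 2 * (b ^ 2 * (s ^ k * (4 * eta r N0 n0 H.e n))) := by
      gcongr
    refine h8.trans ?_
    have : 0 ≤ 2 * eta r N0 n0 H.e n * s ^ k := by positivity
    linarith

theorem Horn.SS_diff (hb : 0 ≤ b) (hl : |l| * b ≤ 1) (hz : 1 ≤ z)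
    (hzs : (27 - 1 / 100 + |l| * b) / z ≤ s ^ 2) (hs : 0 < s) (hs1 : s < 1) {ω : X → ℝ}
    (hω : ∀ x, |ω x| ≤ b) (hc : s ^ c ≤ 1 / 4) (hr : 0 < r) (hr1 : r < 1) (hrs : s ≤ r ^ 2)
    (hN : 1 ≤ N0) (hgood : H.Good μ l c ω n0)
    (hd : ∀ n i, n ≤ i + dist H.e n → i ≤ n + dist H.e n → H.e i = H.e n)
    (hdn : ∀ n, dist H.e n ≤ n) (M n i : ℕ) :
    |H.SS (fun y => l * ω y) ω z M n (n + i) -
      H.SS (fun y => l * ω y) ω z M (n + 1) (n + 1 + i)| ≤
      (2 + 8 * b ^ 2) * eta r N0 n0 H.e n / (1 - s) * s ^ i ∧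
    |H.SS (fun y => l * ω y) ω z M n (n + i) -
      H.SS (fun y => l * ω y) ω z M (n + 1) (n + 1 + i)| ≤
      (2 + 8 * b ^ 2) * eta r N0 n0 H.e (n + i) / (1 - s) * s ^ i := by
  have hz0 : 0 < z := by linarith
  have h0 : H.SS (fun y => l * ω y) ω z M n (n + i) -
      H.SS (fun y => l * ω y) ω z M (n + 1) (n + 1 + i) = ∑ k ∈ range M, z⁻¹ ^ (k + 1) *
        (H.p (fun y => l * ω y) ω k n (n + i) -
          H.p (fun y => l * ω y) ω k (n + 1) (n + 1 + i)) := by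
    unfold Horn.SS
    rw [← sum_sub_distrib]
    exact sum_congr rfl fun k _ => by ring
  rw [h0]
  constructor
  · apply geo_tail hs hs1
    · have := eta_pos (n0 := n0) hr hN H.e n
      positivity
    · intro k hk
      rw [H.p_zero _ _ (by omega), H.p_zero _ _ (by omega)]
      ring
    · intro k hk
      rw [abs_mul, abs_of_pos (by positivity : (0 : ℝ) < z⁻¹ ^ (k + 1))]
      have := H.perk hb hl hz hzs hs hs1 hω hc hr hr1 hrs hN hgood hd hdn (n := n) (m := n + i)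
        (k := k) (by omega) (by omega)
      rw [show n + i + 1 = n + 1 + i by omega] at this
      exact this
  · apply geo_tail hs hs1
    · have := eta_pos (n0 := n0) hr hN H.e (n + i)
      positivity
    · intro k hk
      rw [H.p_zero _ _ (by omega), H.p_zero _ _ (by omega)]
      ring
    · intro k hk
      rw [abs_mul, abs_of_pos (by positivity : (0 : ℝ) < z⁻¹ ^ (k + 1))]
      have := H.perk hb hl hz hzs hs hs1 hω hc hr hr1 hrs hN hgood hd hdn (n := n + i) (m := n)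
        (k := k) (by omega) (by omega)
      rw [show n + i + 1 = n + 1 + i by omega] at this
      rw [H.p_symm _ _ k n (n + i), H.p_symm _ _ k (n + 1) (n + 1 + i)]
      exact this

end ker

theorem pow_sub_le {r : ℝ} (hr : 0 < r) (hr1 : r < 1) {a b : ℕ} (h : b ≤ a + 1) : r ^ a ≤ r⁻¹ * r ^ b := by
  have h1 : r ^ (a + 1) ≤ r ^ b := pow_le_pow_of_le_one hr.le hr1.le h
  rw [pow_succ] at h1
  rw [← mul_le_mul_iff_right₀ hr, ← mul_assoc, mul_inv_cancel₀ hr.ne', one_mul]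
  linarith

end Pool.Agent.Helper32.PG
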