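import Pool.Agent.Helper32.PG.Res
import Pool.Agent.Helper32.PG.Ker

/-!
The resolvent at a complex energy with a source: radial components and self energy.
-/

set_option autoImplicit false
set_option linter.unusedSectionVars false

namespace Pool.Agent.Helper32.PG

open Finset Filter Topology

variable {X : Type} [DecidableEq X] (H : Horn X)

/-- `a + i b` solves `(T - E - i y) u = d` -/
def Horn.SolC (l E y : ℝ) (ω a b d : X → ℝ) : Prop :=
  (∀ x, H.L a x + l * ω x * a x = E * a x - y * b x + d x) ∧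
    ∀ x, H.L b x + l * ω x * b x = E * b x + y * a x

/-- complex radial components -/
noncomputable def Horn.phC (a b : X → ℝ) (n : ℕ) : ℂ := (H.ph a n : ℂ) + (H.ph b n : ℂ) * Complex.I

/-- complex self energy term -/
noncomputable def Horn.hhC (ω a b : X → ℝ) (n : ℕ) : ℂ :=
  (H.hh ω a n : ℂ) + (H.hh ω b n : ℂ) * Complex.I

/-- pairing with a real function -/
noncomputable def Horn.cs (a b f : X → ℝ) (R : ℕ) : ℂ :=
  ((∑ x ∈ H.B R, f x * a x : ℝ) : ℂ) + ((∑ x ∈ H.B R, f x * b x : ℝ) : ℂ) * Complex.I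

variable {l E y : ℝ} {ω a b d : X → ℝ}

theorem Horn.rec_succC (hu : H.SolC l E y ω a b d) (n : ℕ) :
    H.phC a b (n + 2) + H.phC a b n =
      (2 * (((E - 8) / 4 : ℝ) : ℂ) + (y : ℂ) * Complex.I / 2) * H.phC a b (n + 1) -
      (l : ℂ) / 2 * ((H.v ω (n + 1) : ℂ) * H.phC a b (n + 1) + H.hhC ω a b (n + 1)) +
        ((H.ph d (n + 1) / 2 : ℝ) : ℂ) := by
  have h2 : (0 : ℝ) < 2 ^ H.e n := by positivity
  have h3 : (0 : ℝ) < 2 ^ H.e (n + 1) := by positivity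
  have h4 : (0 : ℝ) < 2 ^ H.e (n + 2) := by positivity
  have gen : ∀ (f s : X → ℝ), (∀ x, H.L f x + l * ω x * f x = E * f x + s x) →
      H.ph f (n + 2) + H.ph f n = 2 * ((E - 8) / 4) * H.ph f (n + 1) -
      l / 2 * (H.v ω (n + 1) * H.ph f (n + 1) + H.hh ω f (n + 1)) + H.ph s (n + 1) / 2 := by
    intro f s hf
    have h1 : ∑ x ∈ H.Sh (n + 1), H.L f x + l * ∑ x ∈ H.Sh (n + 1), ω x * f x =
        E * ∑ x ∈ H.Sh (n + 1), f x + ∑ x ∈ H.Sh (n + 1), s x := by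
      rw [mul_sum, mul_sum, ← sum_add_distrib, ← sum_add_distrib]
      exact sum_congr rfl fun x _ => by rw [← hf x]; ring
    rw [H.sum_L_succ] at h1
    rw [← H.sum_pot]
    unfold Horn.ph
    set s0 := ∑ x ∈ H.Sh n, f x
    set s1 := ∑ x ∈ H.Sh (n + 1), f x
    set s2 := ∑ x ∈ H.Sh (n + 2), f x
    set s3 := ∑ x ∈ H.Sh (n + 1), ω x * f x
    set s4 := ∑ x ∈ H.Sh (n + 1), s x
    have h5 : 8 * (s1 / 2 ^ H.e (n + 1)) + 2 * (s2 / 2 ^ H.e (n + 2)) + 2 * (s0 / 2 ^ H.e n) +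
        l * (s3 / 2 ^ H.e (n + 1)) = E * (s1 / 2 ^ H.e (n + 1)) + s4 / 2 ^ H.e (n + 1) := by
      have h6 : 8 * (s1 / 2 ^ H.e (n + 1)) + 2 * (s2 / 2 ^ H.e (n + 2)) + 2 * (s0 / 2 ^ H.e n) +
        l * (s3 / 2 ^ H.e (n + 1)) = (8 * s1 + 2 * 2 ^ H.e (n + 1) / 2 ^ H.e (n + 2) * s2 +
          2 * 2 ^ H.e (n + 1) / 2 ^ H.e n * s0 + l * s3) / 2 ^ H.e (n + 1) := by
        field_simp
      rw [h6, h1]
      ring
    linarith
  have e1 := gen a (fun x => -y * b x + d x) (fun x => by rw [hu.1 x]; ring)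
  have e2 := gen b (fun x => y * a x) (fun x => by rw [hu.2 x])
  have e3 : H.ph (fun x => -y * b x + d x) (n + 1) = -y * H.ph b (n + 1) + H.ph d (n + 1) := by
    unfold Horn.ph
    rw [sum_add_distrib, ← mul_sum]
    ring
  have e4 : H.ph (fun x => y * a x) (n + 1) = y * H.ph a (n + 1) := by
    unfold Horn.ph
    rw [← mul_sum]
    ring
  rw [e3] at e1
  rw [e4] at e2
  have c1 := congrArg (fun t : ℝ => (t : ℂ)) e1
  have c2 := congrArg (fun t : ℝ => (t : ℂ)) e2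
  push_cast at c1 c2 ⊢
  unfold Horn.phC Horn.hhC
  linear_combination c1 + Complex.I * c2 -
    (y : ℂ) * (H.ph b (n + 1) : ℂ) / 2 * Complex.I_sq

/-- the algebraic step, for every function `u` -/
theorem Horn.step0 {u : X → ℝ} {g : X → ℝ} {r R : ℕ}
    (hg : H.Van g r) (zg : H.ZM g) (hR : r + 1 ≤ R) :
    ∑ x ∈ H.B R, g x * H.T (fun x => l * ω x) u x =
      ∑ x ∈ H.B R, H.A (fun x => l * ω x) g x * u x +
      l * ∑ m ∈ range (R + 1), H.ph u m * ∑ x ∈ H.Sh m, H.w ω m x * g x := by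
  set V : X → ℝ := fun x => l * ω x with hV
  rw [← H.T_sym V u hg hR]
  have h2 : ∑ x ∈ H.B R, H.T V g x * u x = ∑ x ∈ H.B R, H.A V g x * u x +
      ∑ x ∈ H.B R, H.avg (H.T V g) x * u x := by
    rw [← sum_add_distrib]
    apply sum_congr rfl
    intro x _
    unfold Horn.A Horn.Q
    ring
  rw [h2]
  congr 1
  rw [H.sum_B, mul_sum]
  apply sum_congr rfl
  intro m _
  rw [H.sum_avg_mul]
  have h3 : ∑ x ∈ H.Sh m, H.T V g x = l * ∑ x ∈ H.Sh m, ω x * g x := by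
    unfold Horn.T
    rw [sum_add_distrib, H.L_zm zg m, zero_add, hV]
    simp only [add_mul, sum_add_distrib]
    rw [← mul_sum, zg m, mul_zero, add_zero, mul_sum]
    exact sum_congr rfl fun x _ => by ring
  have h4 : ∑ x ∈ H.Sh m, H.w ω m x * g x = (∑ x ∈ H.Sh m, ω x * g x) / 2 ^ H.e m := by
    have h5 : ∑ x ∈ H.Sh m, H.w ω m x * g x = (∑ x ∈ H.Sh m, ω x * g x) / 2 ^ H.e m -
        H.v ω m / 2 ^ H.e m * ∑ x ∈ H.Sh m, g x := by
      rw [sum_div, mul_sum, ← sum_sub_distrib]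
      apply sum_congr rfl
      intro x hx
      unfold Horn.w
      rw [if_pos ((H.mem _ _).1 hx)]
      ring
    rw [h5, zg m]
    ring
  rw [h3, h4]
  unfold Horn.ph
  have h5 : (4 : ℝ) ^ H.e m = 2 ^ H.e m * 2 ^ H.e m := by
    rw [← mul_pow]
    norm_num
  rw [h5]
  field_simp

/-- one step of the expansion at a complex energy -/
theorem Horn.stepC (hu : H.SolC l E y ω a b d) {g : X → ℝ} {r R : ℕ}
    (hg : H.Van g r) (zg : H.ZM g) (hR : r + 1 ≤ R) :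
    ((E + 15 : ℝ) + (y : ℂ) * Complex.I) * H.cs a b g R =
      H.cs a b (H.A (fun x => l * ω x) g) R +
      (l : ℂ) * ∑ m ∈ range (R + 1), ((∑ x ∈ H.Sh m, H.w ω m x * g x : ℝ) : ℂ) * H.phC a b m -
      ((∑ x ∈ H.B R, g x * d x : ℝ) : ℂ) := by
  have e1 := H.step0 (l := l) (ω := ω) (u := a) hg zg hR
  have e2 := H.step0 (l := l) (ω := ω) (u := b) hg zg hR
  have f1 : ∑ x ∈ H.B R, g x * H.T (fun x => l * ω x) a x = (E + 15) * ∑ x ∈ H.B R, g x * a x -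
      y * ∑ x ∈ H.B R, g x * b x + ∑ x ∈ H.B R, g x * d x := by
    rw [mul_sum, mul_sum, ← sum_sub_distrib, ← sum_add_distrib]
    apply sum_congr rfl
    intro x _
    unfold Horn.T
    have := hu.1 x
    simp only
    linear_combination (g x) * this
  have f2 : ∑ x ∈ H.B R, g x * H.T (fun x => l * ω x) b x = (E + 15) * ∑ x ∈ H.B R, g x * b x +
      y * ∑ x ∈ H.B R, g x * a x := by
    rw [mul_sum, mul_sum, ← sum_add_distrib]
    apply sum_congr rfl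
    intro x _
    unfold Horn.T
    have := hu.2 x
    simp only
    linear_combination (g x) * this
  rw [f1] at e1
  rw [f2] at e2
  have s1 : ∑ m ∈ range (R + 1), ((∑ x ∈ H.Sh m, H.w ω m x * g x : ℝ) : ℂ) * H.phC a b m =
      ((∑ m ∈ range (R + 1), H.ph a m * ∑ x ∈ H.Sh m, H.w ω m x * g x : ℝ) : ℂ) +
      ((∑ m ∈ range (R + 1), H.ph b m * ∑ x ∈ H.Sh m, H.w ω m x * g x : ℝ) : ℂ) * Complex.I := by
    rw [Complex.ofReal_sum, Complex.ofReal_sum, sum_mul, ← sum_add_distrib]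
    apply sum_congr rfl
    intro m _
    unfold Horn.phC
    rw [Complex.ofReal_mul, Complex.ofReal_mul]
    ring
  rw [s1]
  have c1 := congrArg (fun t : ℝ => (t : ℂ)) e1
  have c2 := congrArg (fun t : ℝ => (t : ℂ)) e2
  simp only [Complex.ofReal_add, Complex.ofReal_sub, Complex.ofReal_mul] at c1 c2
  unfold Horn.cs
  rw [Complex.ofReal_add]
  linear_combination c1 + Complex.I * c2 +
    (y : ℂ) * ((∑ x ∈ H.B R, g x * b x : ℝ) : ℂ) * Complex.I_sq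

/-- the complex energy, shifted -/
noncomputable def zt (E y : ℝ) : ℂ := ((E + 15 : ℝ) : ℂ) + (y : ℂ) * Complex.I

theorem zt_re (E y : ℝ) : (zt E y).re = E + 15 := by
  unfold zt
  simp

theorem zt_im (E y : ℝ) : (zt E y).im = y := by
  unfold zt
  simp

theorem zt_norm {E : ℝ} (hE : 0 < E) (y : ℝ) : E + 15 ≤ ‖zt E y‖ := by
  have h := Complex.abs_re_le_norm (zt E y)
  rw [zt_re, abs_of_pos (by linarith)] at h
  exact h

theorem zt_ne {E : ℝ} (hE : 0 < E) (y : ℝ) : zt E y ≠ 0 := by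
  intro h
  have := zt_norm hE y
  rw [h, norm_zero] at this
  linarith

theorem zt_inv {E : ℝ} (hE : 0 < E) (y : ℝ) : ‖(zt E y)⁻¹‖ ≤ (E + 15)⁻¹ := by
  rw [norm_inv]
  exact inv_anti₀ (by linarith) (zt_norm hE y)

theorem zt_inv_im {E : ℝ} (hE : 0 < E) {y : ℝ} (hy : 0 ≤ y) (k : ℕ) :
    |((zt E y)⁻¹ ^ (k + 1)).im| ≤ ((k : ℝ) + 1) * y * (E + 15)⁻¹ ^ (k + 1) := by
  have hz1 : 1 ≤ E + 15 := by linarith
  have hz0 : 0 < E + 15 := by linarith
  have hi1 : (E + 15)⁻¹ ≤ 1 := inv_le_one_of_one_le₀ hz1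
  have hi0 : 0 < (E + 15)⁻¹ := inv_pos.2 hz0
  have base : |((zt E y)⁻¹).im| ≤ y * (E + 15)⁻¹ := by
    rw [Complex.inv_im, zt_im, abs_div, abs_neg, abs_of_nonneg hy, abs_of_nonneg (Complex.normSq_nonneg _)]
    rw [div_eq_mul_inv]
    apply mul_le_mul_of_nonneg_left _ hy
    apply inv_anti₀ hz0
    rw [Complex.normSq_apply, zt_re]
    nlinarith [mul_self_nonneg (zt E y).im]
  induction k with
  | zero =>
    simpa using base
  | succ k ih =>
    rw [pow_succ, Complex.mul_im]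
    have n1 : |((zt E y)⁻¹ ^ (k + 1)).re| ≤ (E + 15)⁻¹ ^ (k + 1) := by
      refine (Complex.abs_re_le_norm _).trans ?_
      rw [norm_pow]
      exact pow_le_pow_left₀ (norm_nonneg _) (zt_inv hE y) _
    have n2 : |((zt E y)⁻¹).re| ≤ (E + 15)⁻¹ :=
      (Complex.abs_re_le_norm _).trans (zt_inv hE y)
    refine (abs_add_le _ _).trans ?_
    rw [abs_mul, abs_mul]
    have m1 : |((zt E y)⁻¹ ^ (k + 1)).re| * |((zt E y)⁻¹).im| ≤
        (E + 15)⁻¹ ^ (k + 1) * (y * (E + 15)⁻¹) :=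
      mul_le_mul n1 base (abs_nonneg _) (by positivity)
    have m2 : |((zt E y)⁻¹ ^ (k + 1)).im| * |((zt E y)⁻¹).re| ≤
        (((k : ℝ) + 1) * y * (E + 15)⁻¹ ^ (k + 1)) * (E + 15)⁻¹ :=
      mul_le_mul ih n2 (abs_nonneg _) (by positivity)
    refine (add_le_add m1 m2).trans (le_of_eq ?_)
    rw [pow_succ (E + 15)⁻¹ (k + 1)]
    push_cast
    ring

/-- the expansion, for every `f` with zero shell averages -/
theorem Horn.expandG (hE : 0 < E) (hu : H.SolC l E y ω a b d) {f : X → ℝ} {r : ℕ}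
    (hf : H.Van f r) (zf : H.ZM f) (M : ℕ) {R : ℕ} (hR : r + M + 1 ≤ R) :
    H.cs a b f R = (l : ℂ) * ∑ m ∈ range (R + 1), (∑ k ∈ range M, (zt E y)⁻¹ ^ (k + 1) *
        ((∑ x ∈ H.Sh m, H.w ω m x * (H.A fun x => l * ω x)^[k] f x : ℝ) : ℂ)) * H.phC a b m -
      ∑ k ∈ range M, (zt E y)⁻¹ ^ (k + 1) *
        ((∑ x ∈ H.B R, (H.A fun x => l * ω x)^[k] f x * d x : ℝ) : ℂ) +
      (zt E y)⁻¹ ^ M * H.cs a b ((H.A fun x => l * ω x)^[M] f) R := by
  set V : X → ℝ := fun x => l * ω x with hV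
  have hz := zt_ne hE y
  induction M with
  | zero =>
    simp
  | succ M ih =>
    rw [ih (by omega)]
    have h1 := H.stepC hu (H.A_iter_van V hf M) (H.A_iter_zm V zf M) (R := R) (by omega)
    rw [← hV, ← Function.iterate_succ_apply' (H.A V) M f] at h1
    have h1' : zt E y * H.cs a b ((H.A V)^[M] f) R = H.cs a b ((H.A V)^[M + 1] f) R +
        (l : ℂ) * ∑ m ∈ range (R + 1), ((∑ x ∈ H.Sh m, H.w ω m x * (H.A V)^[M] f x : ℝ) : ℂ) *
          H.phC a b m - ((∑ x ∈ H.B R, (H.A V)^[M] f x * d x : ℝ) : ℂ) := h1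
    have h3 : ∑ m ∈ range (R + 1), (∑ k ∈ range (M + 1), (zt E y)⁻¹ ^ (k + 1) *
        ((∑ x ∈ H.Sh m, H.w ω m x * (H.A V)^[k] f x : ℝ) : ℂ)) * H.phC a b m =
        ∑ m ∈ range (R + 1), (∑ k ∈ range M, (zt E y)⁻¹ ^ (k + 1) *
        ((∑ x ∈ H.Sh m, H.w ω m x * (H.A V)^[k] f x : ℝ) : ℂ)) * H.phC a b m +
        (zt E y)⁻¹ ^ (M + 1) * ∑ m ∈ range (R + 1),
          ((∑ x ∈ H.Sh m, H.w ω m x * (H.A V)^[M] f x : ℝ) : ℂ) * H.phC a b m := by
      rw [mul_sum, ← sum_add_distrib]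
      apply sum_congr rfl
      intro m _
      rw [sum_range_succ]
      ring
    rw [h3, sum_range_succ (fun k => (zt E y)⁻¹ ^ (k + 1) *
        ((∑ x ∈ H.B R, (H.A V)^[k] f x * d x : ℝ) : ℂ)) M]
    have h4 : (zt E y)⁻¹ ^ M * H.cs a b ((H.A V)^[M] f) R = (zt E y)⁻¹ ^ (M + 1) *
        (zt E y * H.cs a b ((H.A V)^[M] f) R) := by
      rw [pow_succ]
      field_simp
    rw [h4, h1']
    ring

theorem Horn.cs_norm {U : ℝ} (hU : ∀ R, ∑ x ∈ H.B R, (a x ^ 2 + b x ^ 2) ≤ U) (f : X → ℝ) (R : ℕ) :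
    ‖H.cs a b f R‖ ≤ √(∑ x ∈ H.B R, f x ^ 2) * √U := by
  have hU0 : 0 ≤ U := (sum_nonneg fun x _ => by positivity).trans (hU 0)
  have hF0 : 0 ≤ ∑ x ∈ H.B R, f x ^ 2 := sum_nonneg fun x _ => sq_nonneg _
  apply le_of_sq_le_sq _ (by positivity)
  rw [mul_pow, Real.sq_sqrt hU0, Real.sq_sqrt hF0]
  unfold Horn.cs
  rw [← Complex.normSq_eq_norm_sq, Complex.normSq_add_mul_I]
  have h1 := sum_mul_sq_le_sq_mul_sq (H.B R) f a
  have h2 := sum_mul_sq_le_sq_mul_sq (H.B R) f b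
  have h3 := hU R
  rw [sum_add_distrib] at h3
  have h4 := mul_le_mul_of_nonneg_left h3 hF0
  linarith

/-- expansion of the self energy -/
theorem Horn.hhC_eq (n : ℕ) {R : ℕ} (hR : n ≤ R) : H.hhC ω a b n = H.cs a b (H.w ω n) R := by
  unfold Horn.hhC Horn.cs Horn.hh
  rw [H.w_sum ω a hR, H.w_sum ω b hR]

/-- complex truncated self energy -/
noncomputable def Horn.SSC (V ω : X → ℝ) (ζ : ℂ) (M n m : ℕ) : ℂ :=
  ∑ k ∈ range M, ζ⁻¹ ^ (k + 1) * (H.p V ω k n m : ℂ)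

theorem Horn.SSC_symm (V ω : X → ℝ) (ζ : ℂ) (M n m : ℕ) : H.SSC V ω ζ M n m = H.SSC V ω ζ M m n := by
  unfold Horn.SSC
  exact sum_congr rfl fun k _ => by rw [H.p_symm]

theorem Horn.SSC_zero (V ω : X → ℝ) (ζ : ℂ) {M n m : ℕ} (h : n + M ≤ m) : H.SSC V ω ζ M n m = 0 := by
  unfold Horn.SSC
  apply sum_eq_zero
  intro k hk
  rw [mem_range] at hk
  rw [H.p_zero V ω (by omega), Complex.ofReal_zero, mul_zero]

end Pool.Agent.Helper32.PG
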