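import Pool.Agent.Helper32.PG.KerW
import Pool.Agent.Helper32.PG.ResC

/-!
Bounds of the complex self energy kernel.
-/

set_option autoImplicit false
set_option linter.unusedSectionVars false

namespace Pool.Agent.Helper32.PG

open Finset Filter Topology MeasureTheory

theorem geo_tailC {t : ℕ → ℂ} {K s : ℝ} {i : ℕ} (hs : 0 < s) (hs1 : s < 1) (hK : 0 ≤ K)
    (h0 : ∀ k, k < i → t k = 0) (h1 : ∀ k, i ≤ k → ‖t k‖ ≤ K * s ^ k) (M : ℕ) :
    ‖∑ k ∈ range M, t k‖ ≤ K / (1 - s) * s ^ i := by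
  refine (norm_sum_le _ _).trans ?_
  have h := geo_tail (t := fun k => ‖t k‖) hs hs1 hK (fun k hk => by rw [h0 k hk, norm_zero])
    (fun k hk => by rw [abs_norm]; exact h1 k hk) M
  exact (le_abs_self _).trans h

theorem succ_mul_pow_le {w : ℝ} (hw : 0 < w) (hw1 : w < 1) (k : ℕ) :
    ((k : ℝ) + 1) * w ^ k ≤ 1 / (1 - w) := by
  have h1 : ((k : ℝ) + 1) * w ^ k = ∑ j ∈ range (k + 1), w ^ k := by
    rw [sum_const, card_range, nsmul_eq_mul]
    push_cast
    ring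
  rw [h1]
  have h2 : ∑ j ∈ range (k + 1), w ^ k ≤ ∑ j ∈ range (k + 1), w ^ j := by
    apply sum_le_sum
    intro j hj
    rw [mem_range] at hj
    exact pow_le_pow_of_le_one hw.le hw1.le (by omega)
  refine h2.trans ?_
  rw [geom_sum_eq hw1.ne]
  have h3 : 0 < 1 - w := by linarith
  have h4 : (w ^ (k + 1) - 1) / (w - 1) = (1 - w ^ (k + 1)) / (1 - w) := by
    rw [← neg_sub, ← neg_sub (1 : ℝ) w, neg_div_neg_eq]
  rw [h4]
  apply div_le_div_of_nonneg_right _ h3.le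
  have : 0 < w ^ (k + 1) := by positivity
  linarith

variable {X : Type} [DecidableEq X] (H : Horn X)

section ker

variable {l b E y q s w : ℝ}

theorem Horn.SSC_bound (hb : 0 ≤ b) (hl : |l| * b ≤ 1) (hE : 0 < E)
    (hzs : (27 - 1 / 100 + |l| * b) / (E + 15) ≤ q) (hqs : q ≤ s) (hs : 0 < s) (hs1 : s < 1)
    {ω : X → ℝ} (hω : ∀ x, |ω x| ≤ b) (M n i : ℕ) :
    ‖H.SSC (fun x => l * ω x) ω (zt E y) M n (n + i)‖ ≤ b ^ 2 / (1 - s) * s ^ i := by
  have hq0 : 0 ≤ q := le_trans (by positivity) hzs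
  unfold Horn.SSC
  apply geo_tailC hs hs1 (sq_nonneg b)
  · intro k hk
    rw [H.p_zero _ _ (by omega), Complex.ofReal_zero, mul_zero]
  · intro k _
    rw [norm_mul, norm_pow, Complex.norm_real, Real.norm_eq_abs]
    have h1 : ‖(zt E y)⁻¹‖ ^ (k + 1) ≤ (E + 15)⁻¹ ^ (k + 1) :=
      pow_le_pow_left₀ (norm_nonneg _) (zt_inv hE y) _
    refine (mul_le_mul_of_nonneg_right h1 (abs_nonneg _)).trans ?_
    refine (H.term_boundW hb hl (by linarith) hzs hω k n (n + i)).trans ?_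
    exact mul_le_mul_of_nonneg_left (pow_le_pow_left₀ hq0 hqs k) (sq_nonneg b)

theorem Horn.SSC_im (hb : 0 ≤ b) (hl : |l| * b ≤ 1) (hE : 0 < E) (hy : 0 ≤ y)
    (hzs : (27 - 1 / 100 + |l| * b) / (E + 15) ≤ q) (hqw : q ≤ s * w) (hs : 0 < s) (hs1 : s < 1)
    (hw : 0 < w) (hw1 : w < 1)
    {ω : X → ℝ} (hω : ∀ x, |ω x| ≤ b) (M n i : ℕ) :
    |(H.SSC (fun x => l * ω x) ω (zt E y) M n (n + i)).im| ≤
      b ^ 2 / (1 - w) / (1 - s) * y * s ^ i := by
  have hq0 : 0 ≤ q := le_trans (by positivity) hzs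
  have hw2 : 0 < 1 - w := by linarith
  have hE15 : 0 < E + 15 := by linarith
  unfold Horn.SSC
  rw [Complex.im_sum]
  have h := geo_tail (t := fun k => ((zt E y)⁻¹ ^ (k + 1) *
    (H.p (fun x => l * ω x) ω k n (n + i) : ℂ)).im) (K := b ^ 2 / (1 - w) * y) (i := i) hs hs1
    (by positivity) (fun k hk => by
      rw [H.p_zero _ _ (by omega), Complex.ofReal_zero, mul_zero, Complex.zero_im]) (fun k _ => by
      rw [Complex.im_mul_ofReal, abs_mul]
      have h1 := zt_inv_im hE hy k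
      have h2 : |((zt E y)⁻¹ ^ (k + 1)).im| * |H.p (fun x => l * ω x) ω k n (n + i)| ≤
          ((k : ℝ) + 1) * y * (E + 15)⁻¹ ^ (k + 1) * |H.p (fun x => l * ω x) ω k n (n + i)| :=
        mul_le_mul_of_nonneg_right h1 (abs_nonneg _)
      refine h2.trans ?_
      have h3 := H.term_boundW hb hl (by linarith : 1 ≤ E + 15) hzs hω k n (n + i)
      have h4 : q ^ k ≤ s ^ k * w ^ k := by
        rw [← mul_pow]
        exact pow_le_pow_left₀ hq0 hqw k
      have h5 := succ_mul_pow_le hw hw1 k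
      have h6 : ((k : ℝ) + 1) * y * ((E + 15)⁻¹ ^ (k + 1) *
          |H.p (fun x => l * ω x) ω k n (n + i)|) ≤ ((k : ℝ) + 1) * y * (b ^ 2 * (s ^ k * w ^ k)) := by
        apply mul_le_mul_of_nonneg_left _ (by positivity)
        exact h3.trans (mul_le_mul_of_nonneg_left h4 (sq_nonneg b))
      have h7 : (b ^ 2 * y * s ^ k) * (((k : ℝ) + 1) * w ^ k) ≤ (b ^ 2 * y * s ^ k) * (1 / (1 - w)) :=
        mul_le_mul_of_nonneg_left h5 (by positivity)
      calc ((k : ℝ) + 1) * y * (E + 15)⁻¹ ^ (k + 1) * |H.p (fun x => l * ω x) ω k n (n + i)|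
          = ((k : ℝ) + 1) * y * ((E + 15)⁻¹ ^ (k + 1) *
            |H.p (fun x => l * ω x) ω k n (n + i)|) := by ring
        _ ≤ ((k : ℝ) + 1) * y * (b ^ 2 * (s ^ k * w ^ k)) := h6
        _ = (b ^ 2 * y * s ^ k) * (((k : ℝ) + 1) * w ^ k) := by ring
        _ ≤ (b ^ 2 * y * s ^ k) * (1 / (1 - w)) := h7
        _ = b ^ 2 / (1 - w) * y * s ^ k := by ring) M
  refine h.trans (le_of_eq ?_)
  ring

variable {r z0 : ℝ} {N0 c : ℕ} {μ : Measure ℝ} [IsProbabilityMeasure μ] {Y : ℕ → ℝ}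

theorem Horn.SSC_diff (hb : 0 ≤ b) (hl : |l| * b ≤ 1) (hz0 : 1 ≤ z0) (hz : z0 ≤ E + 15)
    (hE : 0 < E)
    (hzs : (27 - 1 / 100 + |l| * b) / (E + 15) ≤ q) (hqw : q ≤ s * w) (hs : 0 < s) (hs1 : s < 1)
    (hw : 0 < w) (hw1 : w < 1) {ω : X → ℝ}
    (hω : ∀ x, |ω x| ≤ b) (hc : w ^ c ≤ 1 / 2) (hr : 0 < r) (hr1 : r < 1) (hrw : w ≤ r ^ 2)
    (hN : 1 ≤ N0) (hy0 : ∀ n, 0 ≤ Y n)
    (hy : ∀ n, H.Dn μ l c z0 s ω n + H.Dn μ l c z0 s ω (n + 1) ≤ Y n)
    (hd : ∀ n i, n ≤ i + dist H.e n → i ≤ n + dist H.e n → H.e i = H.e n)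
    (hdn : ∀ n, dist H.e n ≤ n) (M n i : ℕ) :
    ‖H.SSC (fun x => l * ω x) ω (zt E y) M n (n + i) -
      H.SSC (fun x => l * ω x) ω (zt E y) M (n + 1) (n + 1 + i)‖ ≤
      (2 + 8 * b ^ 2) * etw r N0 H.e Y n / (1 - s) * s ^ i ∧
    ‖H.SSC (fun x => l * ω x) ω (zt E y) M n (n + i) -
      H.SSC (fun x => l * ω x) ω (zt E y) M (n + 1) (n + 1 + i)‖ ≤
      (2 + 8 * b ^ 2) * etw r N0 H.e Y (n + i) / (1 - s) * s ^ i := by
  have hzp : 0 < E + 15 := by linarith
  have h0 : H.SSC (fun x => l * ω x) ω (zt E y) M n (n + i) -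
      H.SSC (fun x => l * ω x) ω (zt E y) M (n + 1) (n + 1 + i) =
      ∑ k ∈ range M, (zt E y)⁻¹ ^ (k + 1) *
        ((H.p (fun x => l * ω x) ω k n (n + i) -
          H.p (fun x => l * ω x) ω k (n + 1) (n + 1 + i) : ℝ) : ℂ) := by
    unfold Horn.SSC
    rw [← sum_sub_distrib]
    refine sum_congr rfl fun k _ => ?_
    rw [Complex.ofReal_sub]
    ring
  have h1 : ∀ k : ℕ, ‖(zt E y)⁻¹‖ ^ (k + 1) ≤ (E + 15)⁻¹ ^ (k + 1) := fun k =>
      pow_le_pow_left₀ (norm_nonneg _) (zt_inv hE y) _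
  rw [h0]
  constructor
  · apply geo_tailC hs hs1
    · have := etw_pos (e := H.e) hr hN hy0 n
      positivity
    · intro k hk
      rw [H.p_zero _ _ (by omega), H.p_zero _ _ (by omega), sub_zero, Complex.ofReal_zero, mul_zero]
    · intro k hk
      rw [norm_mul, norm_pow, Complex.norm_real, Real.norm_eq_abs]
      refine (mul_le_mul_of_nonneg_right (h1 k) (abs_nonneg _)).trans ?_
      have := H.perkW (μ := μ) hb hl hz0 hz hzs hqw hs hs1 hw hw1 hω hc hr hr1 hrw hN hy0 hy hd hdn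
        (n := n) (m := n + i) (k := k) (by omega) (by omega)
      rw [show n + i + 1 = n + 1 + i by omega] at this
      exact this
  · apply geo_tailC hs hs1
    · have := etw_pos (e := H.e) hr hN hy0 (n + i)
      positivity
    · intro k hk
      rw [H.p_zero _ _ (by omega), H.p_zero _ _ (by omega), sub_zero, Complex.ofReal_zero, mul_zero]
    · intro k hk
      rw [norm_mul, norm_pow, Complex.norm_real, Real.norm_eq_abs]
      refine (mul_le_mul_of_nonneg_right (h1 k) (abs_nonneg _)).trans ?_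
      have := H.perkW (μ := μ) hb hl hz0 hz hzs hqw hs hs1 hw hw1 hω hc hr hr1 hrw hN hy0 hy hd hdn
        (n := n + i) (m := n) (k := k) (by omega) (by omega)
      rw [show n + i + 1 = n + 1 + i by omega] at this
      rw [H.p_symm _ _ k n (n + i), H.p_symm _ _ k (n + 1) (n + 1 + i)]
      exact this

end ker

section prod

variable {r : ℝ} {N0 : ℕ} {e : ℕ → ℕ} {y : ℕ → ℝ}

/-- the product with an arbitrary exponent -/
theorem prod_boundC {A τ C0 ε : ℝ} (hr : 0 < r) (hN : 1 ≤ N0) (hτ : 0 < τ) (hy : ∀ n, 0 ≤ y n)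
    (hA : ∀ N : ℕ, ∑ n ∈ range N, r ^ dist e n ≤ A * (1 + Real.log ((N : ℝ) + 1)))
    (hyC : ∀ N, ∑ n ∈ range N, y n ≤ C0)
    (hτA : τ * (|A| + N0) ≤ ε) : ∃ C : ℝ, 0 < C ∧
      ∀ N : ℕ, ∏ n ∈ range N, (1 + τ * etw r N0 e y n) ≤ C * ((N : ℝ) + 1) ^ ε := by
  set C' : ℝ := |A| + C0 + N0 with hC'
  refine ⟨Real.exp (τ * C'), Real.exp_pos _, fun N => ?_⟩
  have h2 : ∏ n ∈ range N, (1 + τ * etw r N0 e y n) ≤
      ∏ n ∈ range N, Real.exp (τ * etw r N0 e y n) := by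
    apply Finset.prod_le_prod
    · intro n _
      have := etw_pos (e := e) hr hN hy n
      positivity
    · intro n _
      have := Real.add_one_le_exp (τ * etw r N0 e y n)
      linarith
  refine h2.trans ?_
  rw [← Real.exp_sum, ← mul_sum]
  have hlog : 0 ≤ Real.log ((N : ℝ) + 1) := Real.log_nonneg (by linarith [Nat.cast_nonneg (α := ℝ) N])
  have h3 : ∑ n ∈ range N, etw r N0 e y n ≤ (|A| + N0) * Real.log ((N : ℝ) + 1) + C' := by
    unfold etw
    rw [sum_add_distrib, sum_add_distrib]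
    have e1 : ∑ n ∈ range N, r ^ dist e n ≤ |A| * (1 + Real.log ((N : ℝ) + 1)) :=
      (hA N).trans (mul_le_mul_of_nonneg_right (le_abs_self A) (by linarith))
    have e2 : ∑ n ∈ range N, min 1 (y n) ≤ C0 :=
      (sum_le_sum fun n _ => min_le_right _ _).trans (hyC N)
    have e3 : ∑ n ∈ range N, (N0 : ℝ) / ((n : ℝ) + N0) ≤ N0 * (1 + Real.log ((N : ℝ) + 1)) := by
      have h0 : (1 : ℝ) ≤ N0 := by exact_mod_cast hN
      have f1 : ∀ n : ℕ, (N0 : ℝ) / ((n : ℝ) + N0) ≤ N0 * ((n : ℝ) + 1)⁻¹ := by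
        intro n
        have hn : (0 : ℝ) ≤ n := Nat.cast_nonneg n
        rw [← div_eq_mul_inv]
        apply div_le_div_of_nonneg_left (by positivity) (by positivity)
        linarith
      refine (sum_le_sum fun n _ => f1 n).trans ?_
      rw [← mul_sum]
      apply mul_le_mul_of_nonneg_left _ (by positivity)
      have h5 := harmonic_le_one_add_log N
      have h6 : ((harmonic N : ℚ) : ℝ) = ∑ n ∈ range N, ((n : ℝ) + 1)⁻¹ := by
        unfold harmonic
        push_cast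
        rfl
      rw [← h6]
      refine h5.trans ?_
      rcases Nat.eq_zero_or_pos N with h | h
      · subst h
        simp
      · have : Real.log (N : ℝ) ≤ Real.log ((N : ℝ) + 1) :=
          Real.log_le_log (by exact_mod_cast h) (by linarith)
        linarith
    rw [hC']
    linarith
  have h4 : τ * ∑ n ∈ range N, etw r N0 e y n ≤ τ * C' + ε * Real.log ((N : ℝ) + 1) := by
    have h5 := mul_le_mul_of_nonneg_left h3 hτ.le
    have h6 : τ * (|A| + N0) * Real.log ((N : ℝ) + 1) ≤ ε * Real.log ((N : ℝ) + 1) :=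
      mul_le_mul_of_nonneg_right hτA hlog
    linarith
  refine (Real.exp_le_exp.2 h4).trans (le_of_eq ?_)
  rw [Real.exp_add, Real.rpow_def_of_pos (by positivity), mul_comm ε]

end prod

end Pool.Agent.Helper32.PG
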