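import Pool.Agent.Helper32.PG.ProbW
import Pool.Agent.Helper32.PG.Ker

/-!
The self energy kernel is almost translation invariant: sharp version.
-/

set_option autoImplicit false
set_option linter.unusedSectionVars false

namespace Pool.Agent.Helper32.PG

open Finset MeasureTheory Filter

variable {X : Type} [DecidableEq X] (H : Horn X)

/-- weights -/
noncomputable def etw (r : ℝ) (N0 : ℕ) (e : ℕ → ℕ) (y : ℕ → ℝ) (n : ℕ) : ℝ :=
  r ^ dist e n + min 1 (y n) + (N0 : ℝ) / ((n : ℝ) + N0)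

section et

variable {r : ℝ} {N0 : ℕ} {e : ℕ → ℕ} {y : ℕ → ℝ}

theorem etw_pos (hr : 0 < r) (hN : 1 ≤ N0) (hy : ∀ n, 0 ≤ y n) (n : ℕ) : 0 < etw r N0 e y n := by
  unfold etw
  have : (0 : ℝ) < N0 := by exact_mod_cast hN
  have h2 : 0 ≤ min 1 (y n) := le_min zero_le_one (hy n)
  positivity

theorem etw_inv (hr : 0 < r) (hN : 1 ≤ N0) (hy : ∀ n, 0 ≤ y n) (n : ℕ) :
    1 / ((n : ℝ) + 1) ≤ etw r N0 e y n := by
  unfold etw
  have h0 : (1 : ℝ) ≤ N0 := by exact_mod_cast hN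
  have hn : (0 : ℝ) ≤ n := Nat.cast_nonneg n
  have h1 : 1 / ((n : ℝ) + 1) ≤ (N0 : ℝ) / ((n : ℝ) + N0) := by
    rw [div_le_div_iff₀ (by positivity) (by positivity)]
    nlinarith
  have h2 : 0 ≤ min 1 (y n) := le_min zero_le_one (hy n)
  have h3 : 0 < r ^ dist e n := by positivity
  linarith

theorem etw_le (hr : 0 < r) (hr1 : r < 1) (hN : 1 ≤ N0) (n : ℕ) : etw r N0 e y n ≤ 3 := by
  unfold etw
  have h1 : r ^ dist e n ≤ 1 := pow_le_one₀ hr.le hr1.le
  have h2 : min 1 (y n) ≤ 1 := min_le_left _ _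
  have h0 : (1 : ℝ) ≤ N0 := by exact_mod_cast hN
  have hn : (0 : ℝ) ≤ n := Nat.cast_nonneg n
  have h3 : (N0 : ℝ) / ((n : ℝ) + N0) ≤ 1 := by
    rw [div_le_one (by positivity)]
    linarith
  linarith

theorem min_slow {a b q : ℝ} (hq : 1 ≤ q) (hab : a ≤ q * b) : min 1 a ≤ q * min 1 b := by
  rcases le_total 1 b with h | h
  · rw [min_eq_left h, mul_one]
    exact (min_le_left _ _).trans hq
  · rw [min_eq_right h]
    exact (min_le_right _ _).trans hab

theorem etw_up (hr : 0 < r) (hr1 : r < 1) (hN : 1 ≤ N0)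
    (hd1 : ∀ n, dist e n ≤ dist e (n + 1) + 1) (hy1 : ∀ n, y (n + 1) ≤ r⁻¹ * y n) (n : ℕ) :
    etw r N0 e y (n + 1) ≤ r⁻¹ * etw r N0 e y n := by
  unfold etw
  have h1 := pow_sub_le hr hr1 (hd1 n)
  have h4 : (1 : ℝ) ≤ r⁻¹ := (one_le_inv₀ hr).2 hr1.le
  have h2 := min_slow h4 (hy1 n)
  have h0 : (1 : ℝ) ≤ N0 := by exact_mod_cast hN
  have hn : (0 : ℝ) ≤ n := Nat.cast_nonneg n
  have h3 : (N0 : ℝ) / (((n + 1 : ℕ) : ℝ) + N0) ≤ (N0 : ℝ) / ((n : ℝ) + N0) := by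
    apply div_le_div_of_nonneg_left (by positivity) (by positivity)
    push_cast
    linarith
  have h5 : (0 : ℝ) ≤ (N0 : ℝ) / ((n : ℝ) + N0) := by positivity
  nlinarith

theorem etw_dn (hr : 0 < r) (hr1 : r < 1) (hN : 1 ≤ N0) (hN2 : 1 + 3 / (N0 : ℝ) ≤ r⁻¹)
    (hd2 : ∀ n, dist e (n + 1) ≤ dist e n + 1) (hy2 : ∀ n, y n ≤ r⁻¹ * y (n + 1)) (n : ℕ) :
    etw r N0 e y n ≤ r⁻¹ * etw r N0 e y (n + 1) := by
  unfold etw
  have h1 := pow_sub_le hr hr1 (hd2 n)
  have h4 : (1 : ℝ) ≤ r⁻¹ := (one_le_inv₀ hr).2 hr1.le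
  have h2 := min_slow h4 (hy2 n)
  have h0 : (1 : ℝ) ≤ N0 := by exact_mod_cast hN
  have hn : (0 : ℝ) ≤ n := Nat.cast_nonneg n
  have h3 : (N0 : ℝ) / ((n : ℝ) + N0) ≤ r⁻¹ * ((N0 : ℝ) / (((n + 1 : ℕ) : ℝ) + N0)) := by
    have h5 : (N0 : ℝ) / ((n : ℝ) + N0) ≤
        (1 + 3 / (N0 : ℝ)) * ((N0 : ℝ) / (((n + 1 : ℕ) : ℝ) + N0)) := by
      push_cast
      rw [one_add_div (by positivity), div_mul_div_comm,
        div_le_div_iff₀ (by positivity) (by positivity)]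
      nlinarith
    refine h5.trans (mul_le_mul_of_nonneg_right hN2 (by positivity))
  linarith

theorem prod_boundW {A τ C0 : ℝ} (hr : 0 < r) (hN : 1 ≤ N0) (hτ : 0 < τ) (hy : ∀ n, 0 ≤ y n)
    (hA : ∀ N : ℕ, ∑ n ∈ range N, r ^ dist e n ≤ A * (1 + Real.log ((N : ℝ) + 1)))
    (hyC : ∀ N, ∑ n ∈ range N, y n ≤ C0)
    (hτA : τ * (|A| + N0) ≤ 1) : ∃ C : ℝ, 0 ≤ C ∧
      ∀ N : ℕ, ∏ n ∈ range N, (1 + τ * etw r N0 e y n) ≤ C * (N + 1) := by
  set C' : ℝ := |A| + C0 + N0 with hC'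
  refine ⟨Real.exp (τ * C'), (Real.exp_pos _).le, fun N => ?_⟩
  have h2 : ∏ n ∈ range N, (1 + τ * etw r N0 e y n) ≤
      ∏ n ∈ range N, Real.exp (τ * etw r N0 e y n) := by
    apply Finset.prod_le_prod
    · intro n _
      have := etw_pos (e := e) hr hN hy n
      positivity
    · intro n _
      have := Real.add_one_le_exp (τ * etw r N0 e y n)
      linarith
  refine h2.trans ?_
  rw [← Real.exp_sum, ← mul_sum]
  have hlog : 0 ≤ Real.log ((N : ℝ) + 1) := Real.log_nonneg (by linarith [Nat.cast_nonneg (α := ℝ) N])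
  have h3 : ∑ n ∈ range N, etw r N0 e y n ≤ (|A| + N0) * Real.log ((N : ℝ) + 1) + C' := by
    unfold etw
    rw [sum_add_distrib, sum_add_distrib]
    have e1 : ∑ n ∈ range N, r ^ dist e n ≤ |A| * (1 + Real.log ((N : ℝ) + 1)) :=
      (hA N).trans (mul_le_mul_of_nonneg_right (le_abs_self A) (by linarith))
    have e2 : ∑ n ∈ range N, min 1 (y n) ≤ C0 :=
      (sum_le_sum fun n _ => min_le_right _ _).trans (hyC N)
    have e3 : ∑ n ∈ range N, (N0 : ℝ) / ((n : ℝ) + N0) ≤ N0 * (1 + Real.log ((N : ℝ) + 1)) := by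
      have h0 : (1 : ℝ) ≤ N0 := by exact_mod_cast hN
      have f1 : ∀ n : ℕ, (N0 : ℝ) / ((n : ℝ) + N0) ≤ N0 * ((n : ℝ) + 1)⁻¹ := by
        intro n
        have hn : (0 : ℝ) ≤ n := Nat.cast_nonneg n
        rw [← div_eq_mul_inv]
        apply div_le_div_of_nonneg_left (by positivity) (by positivity)
        linarith
      refine (sum_le_sum fun n _ => f1 n).trans ?_
      rw [← mul_sum]
      apply mul_le_mul_of_nonneg_left _ (by positivity)
      have h5 := harmonic_le_one_add_log N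
      have h6 : ((harmonic N : ℚ) : ℝ) = ∑ n ∈ range N, ((n : ℝ) + 1)⁻¹ := by
        unfold harmonic
        push_cast
        rfl
      rw [← h6]
      refine h5.trans ?_
      rcases Nat.eq_zero_or_pos N with h | h
      · subst h
        simp
      · have : Real.log (N : ℝ) ≤ Real.log ((N : ℝ) + 1) :=
          Real.log_le_log (by exact_mod_cast h) (by linarith)
        linarith
    rw [hC']
    linarith
  have h4 : τ * ∑ n ∈ range N, etw r N0 e y n ≤ τ * C' + Real.log ((N : ℝ) + 1) := by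
    have h5 := mul_le_mul_of_nonneg_left h3 hτ.le
    have h6 : τ * (|A| + N0) * Real.log ((N : ℝ) + 1) ≤ 1 * Real.log ((N : ℝ) + 1) :=
      mul_le_mul_of_nonneg_right hτA hlog
    linarith
  refine (Real.exp_le_exp.2 h4).trans (le_of_eq ?_)
  rw [Real.exp_add, Real.exp_log (by positivity)]

end et

section ker

variable {l b z s q w : ℝ}

theorem Horn.term_boundW (hb : 0 ≤ b) (hl : |l| * b ≤ 1) (hz : 1 ≤ z)
    (hzs : (27 - 1 / 100 + |l| * b) / z ≤ q) {ω : X → ℝ}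
    (hω : ∀ x, |ω x| ≤ b) (k n m : ℕ) :
    z⁻¹ ^ (k + 1) * |H.p (fun y => l * ω y) ω k n m| ≤ b ^ 2 * q ^ k := by
  have hl0 : 0 ≤ |l| * b := by positivity
  have h1 := H.p_bound (V := fun y => l * ω y) (fun x => by
        rw [abs_mul]
        exact mul_le_mul_of_nonneg_left (hω x) (abs_nonneg _)) hl hl0 hb hω k n m
  have hz0 : 0 < z := by linarith
  have h2 : z⁻¹ ^ (k + 1) * |H.p (fun y => l * ω y) ω k n m| ≤
      z⁻¹ ^ (k + 1) * (b ^ 2 * (27 - 1 / 100 + |l| * b) ^ k) :=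
    mul_le_mul_of_nonneg_left h1 (by positivity)
  refine h2.trans ?_
  have h3 : z⁻¹ ^ (k + 1) * (b ^ 2 * (27 - 1 / 100 + |l| * b) ^ k) =
      b ^ 2 * (((27 - 1 / 100 + |l| * b) / z) ^ k * z⁻¹) := by
    rw [div_pow, inv_pow, inv_eq_one_div, inv_eq_one_div, pow_succ]
    field_simp
  rw [h3]
  apply mul_le_mul_of_nonneg_left _ (sq_nonneg b)
  have h4 : ((27 - 1 / 100 + |l| * b) / z) ^ k ≤ q ^ k :=
    pow_le_pow_left₀ (by positivity) hzs k
  have h5 : z⁻¹ ≤ 1 := inv_le_one_of_one_le₀ hz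
  have hq0 : 0 ≤ q := le_trans (by positivity) hzs
  have h6 : ((27 - 1 / 100 + |l| * b) / z) ^ k * z⁻¹ ≤ q ^ k * 1 :=
    mul_le_mul h4 h5 (by positivity) (by positivity)
  linarith

theorem Horn.SS_boundW (hb : 0 ≤ b) (hl : |l| * b ≤ 1) (hz : 1 ≤ z)
    (hzs : (27 - 1 / 100 + |l| * b) / z ≤ q) (hqs : q ≤ s) (hs : 0 < s) (hs1 : s < 1) {ω : X → ℝ}
    (hω : ∀ x, |ω x| ≤ b) (M n i : ℕ) :
    |H.SS (fun y => l * ω y) ω z M n (n + i)| ≤ b ^ 2 / (1 - s) * s ^ i := by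
  have hq0 : 0 ≤ q := le_trans (by positivity) hzs
  unfold Horn.SS
  apply geo_tail hs hs1 (sq_nonneg b)
  · intro k hk
    rw [H.p_zero _ _ (by omega), mul_zero]
  · intro k _
    rw [abs_mul, abs_of_pos (by positivity : (0 : ℝ) < z⁻¹ ^ (k + 1))]
    refine (H.term_boundW hb hl hz hzs hω k n (n + i)).trans ?_
    exact mul_le_mul_of_nonneg_left (pow_le_pow_left₀ hq0 hqs k) (sq_nonneg b)

theorem half_log {c : ℕ} (hw : 0 < w) (hw1 : w < 1) (hc : w ^ c ≤ 1 / 2) {n k : ℕ}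
    (hk : c * Nat.log 2 (n + 1) < k) : w ^ k ≤ 2 * (1 / ((n : ℝ) + 1)) := by
  have h1 : w ^ k ≤ w ^ (c * Nat.log 2 (n + 1)) := pow_le_pow_of_le_one hw.le hw1.le hk.le
  have h2 : w ^ (c * Nat.log 2 (n + 1)) ≤ (1 / 2) ^ Nat.log 2 (n + 1) := by
    rw [pow_mul]
    exact pow_le_pow_left₀ (by positivity) hc _
  refine h1.trans (h2.trans ?_)
  have h3 := Nat.lt_pow_succ_log_self (b := 2) (by norm_num) (n + 1)
  have h4 : ((n : ℝ) + 1) ≤ 2 * 2 ^ Nat.log 2 (n + 1) := by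
    have : ((n + 1 : ℕ) : ℝ) ≤ ((2 ^ (Nat.log 2 (n + 1)).succ : ℕ) : ℝ) := by exact_mod_cast h3.le
    push_cast at this
    rw [Nat.succ_eq_add_one, pow_succ] at this
    linarith
  rw [one_div_pow, mul_one_div, div_le_div_iff₀ (by positivity) (by positivity)]
  linarith

variable {r z0 : ℝ} {N0 c : ℕ} {μ : Measure ℝ} [IsProbabilityMeasure μ] {y : ℕ → ℝ}

theorem Horn.perkW (hb : 0 ≤ b) (hl : |l| * b ≤ 1) (hz0 : 1 ≤ z0) (hz : z0 ≤ z)
    (hzs : (27 - 1 / 100 + |l| * b) / z ≤ q) (hqw : q ≤ s * w) (hs : 0 < s) (hs1 : s < 1)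
    (hw : 0 < w) (hw1 : w < 1) {ω : X → ℝ}
    (hω : ∀ x, |ω x| ≤ b) (hc : w ^ c ≤ 1 / 2) (hr : 0 < r) (hr1 : r < 1) (hrw : w ≤ r ^ 2)
    (hN : 1 ≤ N0) (hy0 : ∀ n, 0 ≤ y n)
    (hy : ∀ n, H.Dn μ l c z0 s ω n + H.Dn μ l c z0 s ω (n + 1) ≤ y n)
    (hd : ∀ n i, n ≤ i + dist H.e n → i ≤ n + dist H.e n → H.e i = H.e n)
    (hdn : ∀ n, dist H.e n ≤ n)
    {n m k : ℕ} (h1 : m ≤ n + k) (h2 : n ≤ m + k) :
    z⁻¹ ^ (k + 1) * |H.p (fun y => l * ω y) ω k n m - H.p (fun y => l * ω y) ω k (n + 1) (m + 1)| ≤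
      (2 + 8 * b ^ 2) * etw r N0 H.e y n * s ^ k := by
  have he0 := etw_pos (e := H.e) hr hN hy0 n
  have he1 := etw_inv (e := H.e) hr hN hy0 n
  have hzp : 0 < z := by linarith
  have hz0p : 0 < z0 := by linarith
  have hsk : 0 < s ^ k := by positivity
  have hwk : 0 < w ^ k := by positivity
  have hq0 : 0 ≤ q := le_trans (by positivity) hzs
  have hmin : 0 ≤ min 1 (y n) := le_min zero_le_one (hy0 n)
  have hqk : q ^ k ≤ s ^ k * w ^ k := by
    rw [← mul_pow]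
    exact pow_le_pow_left₀ hq0 hqw k
  have e3 : z⁻¹ ^ (k + 1) * |H.p (fun y => l * ω y) ω k n m -
      H.p (fun y => l * ω y) ω k (n + 1) (m + 1)| ≤ 2 * (b ^ 2 * q ^ k) := by
    have e1 := H.term_boundW hb hl (by linarith) hzs hω k n m
    have e2 := H.term_boundW hb hl (by linarith) hzs hω k (n + 1) (m + 1)
    have := mul_le_mul_of_nonneg_left (abs_sub (H.p (fun y => l * ω y) ω k n m)
      (H.p (fun y => l * ω y) ω k (n + 1) (m + 1))) (by positivity : (0 : ℝ) ≤ z⁻¹ ^ (k + 1))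
    linarith
  -- it is enough to bound `w ^ k`
  have suff : w ^ k ≤ 4 * etw r N0 H.e y n → z⁻¹ ^ (k + 1) * |H.p (fun y => l * ω y) ω k n m -
      H.p (fun y => l * ω y) ω k (n + 1) (m + 1)| ≤ (2 + 8 * b ^ 2) * etw r N0 H.e y n * s ^ k := by
    intro h
    refine e3.trans ?_
    have h8 : 2 * (b ^ 2 * q ^ k) ≤ 2 * (b ^ 2 * (s ^ k * (4 * etw r N0 H.e y n))) := by
      have := hqk.trans (mul_le_mul_of_nonneg_left h hsk.le)
      gcongr
    refine h8.trans ?_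
    have : 0 ≤ 2 * etw r N0 H.e y n * s ^ k := by positivity
    linarith
  by_cases g2 : k ≤ c * Nat.log 2 (n + 1)
  · by_cases g3 : 2 * k + 1 ≤ dist H.e n
    · by_cases g4 : y n ≤ 1
      · have hdn' := hdn n
        have hk2 : k ≤ c * Nat.log 2 (n + 1 + 1) :=
          g2.trans (Nat.mul_le_mul_left _ (Nat.log_mono_right (by omega)))
        have f1 := H.Dn_ge (μ := μ) (l := l) (c := c) hz0p hs ω g2 (by omega) h1 h2
        have f2 := H.Dn_ge (μ := μ) (l := l) (c := c) (n := n + 1) (m := m + 1) hz0p hs ω hk2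
          (by omega) (by omega) (by omega)
        have e3 : H.Ep μ l k n m = H.Ep μ l k (n + 1) (m + 1) := by
          apply H.Ep_shift μ l (a := n - dist H.e n) (c := n + dist H.e n - 1)
          · intro i hi1 hi2
            rw [hd n (i + 1) (by omega) (by omega), hd n i (by omega) (by omega)]
          all_goals omega
        rw [e3] at f1
        have e6 : H.p (fun y => l * ω y) ω k n m - H.p (fun y => l * ω y) ω k (n + 1) (m + 1) =
            (H.p (fun y => l * ω y) ω k n m - H.Ep μ l k (n + 1) (m + 1)) -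
            (H.p (fun y => l * ω y) ω k (n + 1) (m + 1) - H.Ep μ l k (n + 1) (m + 1)) := by ring
        have e7 : z⁻¹ ^ (k + 1) ≤ z0⁻¹ ^ (k + 1) := by
          apply pow_le_pow_left₀ (by positivity)
          exact inv_anti₀ hz0p hz
        have e8 : z⁻¹ ^ (k + 1) * |H.p (fun y => l * ω y) ω k n m -
            H.p (fun y => l * ω y) ω k (n + 1) (m + 1)| ≤
            z0⁻¹ ^ (k + 1) * |H.p (fun y => l * ω y) ω k n m - H.Ep μ l k (n + 1) (m + 1)| +
            z0⁻¹ ^ (k + 1) * |H.p (fun y => l * ω y) ω k (n + 1) (m + 1) -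
              H.Ep μ l k (n + 1) (m + 1)| := by
          rw [← mul_add, e6]
          exact mul_le_mul e7 (abs_sub _ _) (abs_nonneg _) (by positivity)
        have e9 : s ^ k * (H.Dn μ l c z0 s ω n + H.Dn μ l c z0 s ω (n + 1)) ≤
            s ^ k * etw r N0 H.e y n := by
          apply mul_le_mul_of_nonneg_left _ hsk.le
          refine (hy n).trans ?_
          unfold etw
          rw [min_eq_right g4]
          have : 0 ≤ r ^ dist H.e n + (N0 : ℝ) / ((n : ℝ) + N0) := by positivity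
          linarith
        have e10 : 0 ≤ (1 + 8 * b ^ 2) * etw r N0 H.e y n * s ^ k := by positivity
        linarith
      · apply suff
        have h5 : w ^ k ≤ 1 := pow_le_one₀ hw.le hw1.le
        have h6 : 1 ≤ etw r N0 H.e y n := by
          unfold etw
          rw [min_eq_left (by linarith)]
          have : 0 ≤ r ^ dist H.e n + (N0 : ℝ) / ((n : ℝ) + N0) := by positivity
          linarith
        linarith
    · apply suff
      have g5 : w ^ k ≤ r ^ dist H.e n := by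
        calc w ^ k ≤ (r ^ 2) ^ k := pow_le_pow_left₀ hw.le hrw k
          _ = r ^ (2 * k) := by rw [← pow_mul]
          _ ≤ r ^ dist H.e n := pow_le_pow_of_le_one hr.le hr1.le (by omega)
      have g6 : r ^ dist H.e n ≤ etw r N0 H.e y n := by
        unfold etw
        have : 0 ≤ (N0 : ℝ) / ((n : ℝ) + N0) := by positivity
        linarith
      linarith
  · apply suff
    have g3 := half_log (n := n) (k := k) hw hw1 hc (by omega)
    linarith

theorem Horn.SS_diffW (hb : 0 ≤ b) (hl : |l| * b ≤ 1) (hz0 : 1 ≤ z0) (hz : z0 ≤ z)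
    (hzs : (27 - 1 / 100 + |l| * b) / z ≤ q) (hqw : q ≤ s * w) (hs : 0 < s) (hs1 : s < 1)
    (hw : 0 < w) (hw1 : w < 1) {ω : X → ℝ}
    (hω : ∀ x, |ω x| ≤ b) (hc : w ^ c ≤ 1 / 2) (hr : 0 < r) (hr1 : r < 1) (hrw : w ≤ r ^ 2)
    (hN : 1 ≤ N0) (hy0 : ∀ n, 0 ≤ y n)
    (hy : ∀ n, H.Dn μ l c z0 s ω n + H.Dn μ l c z0 s ω (n + 1) ≤ y n)
    (hd : ∀ n i, n ≤ i + dist H.e n → i ≤ n + dist H.e n → H.e i = H.e n)
    (hdn : ∀ n, dist H.e n ≤ n) (M n i : ℕ) :
    |H.SS (fun y => l * ω y) ω z M n (n + i) -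
      H.SS (fun y => l * ω y) ω z M (n + 1) (n + 1 + i)| ≤
      (2 + 8 * b ^ 2) * etw r N0 H.e y n / (1 - s) * s ^ i ∧
    |H.SS (fun y => l * ω y) ω z M n (n + i) -
      H.SS (fun y => l * ω y) ω z M (n + 1) (n + 1 + i)| ≤
      (2 + 8 * b ^ 2) * etw r N0 H.e y (n + i) / (1 - s) * s ^ i := by
  have hzp : 0 < z := by linarith
  have h0 : H.SS (fun y => l * ω y) ω z M n (n + i) -
      H.SS (fun y => l * ω y) ω z M (n + 1) (n + 1 + i) = ∑ k ∈ range M, z⁻¹ ^ (k + 1) *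
        (H.p (fun y => l * ω y) ω k n (n + i) -
          H.p (fun y => l * ω y) ω k (n + 1) (n + 1 + i)) := by
    unfold Horn.SS
    rw [← sum_sub_distrib]
    exact sum_congr rfl fun k _ => by ring
  rw [h0]
  constructor
  · apply geo_tail hs hs1
    · have := etw_pos (e := H.e) hr hN hy0 n
      positivity
    · intro k hk
      rw [H.p_zero _ _ (by omega), H.p_zero _ _ (by omega)]
      ring
    · intro k hk
      rw [abs_mul, abs_of_pos (by positivity : (0 : ℝ) < z⁻¹ ^ (k + 1))]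
      have := H.perkW (μ := μ) hb hl hz0 hz hzs hqw hs hs1 hw hw1 hω hc hr hr1 hrw hN hy0 hy hd hdn
        (n := n) (m := n + i) (k := k) (by omega) (by omega)
      rw [show n + i + 1 = n + 1 + i by omega] at this
      exact this
  · apply geo_tail hs hs1
    · have := etw_pos (e := H.e) hr hN hy0 (n + i)
      positivity
    · intro k hk
      rw [H.p_zero _ _ (by omega), H.p_zero _ _ (by omega)]
      ring
    · intro k hk
      rw [abs_mul, abs_of_pos (by positivity : (0 : ℝ) < z⁻¹ ^ (k + 1))]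
      have := H.perkW (μ := μ) hb hl hz0 hz hzs hqw hs hs1 hw hw1 hω hc hr hr1 hrw hN hy0 hy hd hdn
        (n := n + i) (m := n) (k := k) (by omega) (by omega)
      rw [show n + i + 1 = n + 1 + i by omega] at this
      rw [H.p_symm _ _ k n (n + i), H.p_symm _ _ k (n + 1) (n + 1 + i)]
      exact this

end ker

end Pool.Agent.Helper32.PG
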