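import Pool.Agent.Helper32.PG.Op

/-!
The moments as functions of the potential: locality, bounded differences, shift covariance.
-/

set_option autoImplicit false
set_option linter.unusedSectionVars false

namespace Pool.Agent.Helper32.PG

open Finset

variable {X : Type} [DecidableEq X] (H : Horn X)

theorem Horn.e_step_le (n : ℕ) : (2 : ℝ) ^ H.e (n + 1) ≤ 2 * 2 ^ H.e n := by
  rcases H.estep n with h | h
  · rw [h]
    have : (0 : ℝ) < 2 ^ H.e n := by positivity
    linarith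
  · rw [h, pow_succ]
    linarith

theorem Horn.e_mono (n : ℕ) : (2 : ℝ) ^ H.e n ≤ 2 ^ H.e (n + 1) := by
  apply pow_le_pow_right₀ (by norm_num)
  rcases H.estep n with h | h <;> omega

theorem Horn.row_total (y : X) (R : ℕ) : ∑ x ∈ H.B R, H.a x y ≤ 14 := by
  set n := H.sh y with hn
  have h1 : ∑ x ∈ H.B R, H.a x y ≤ ∑ x ∈ H.B (R + (n + 1)), H.a x y := by
    apply sum_le_sum_of_subset_of_nonneg
    · intro x hx
      rw [H.mem_B] at hx ⊢
      omega
    · intro x _ _
      exact H.nn _ _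
  refine h1.trans ?_
  have h2 : ∑ x ∈ H.B (R + (n + 1)), H.a x y = ∑ x ∈ H.B (n + 1), H.a x y := by
    symm
    apply sum_subset
    · intro x hx
      rw [H.mem_B] at hx ⊢
      omega
    · intro x _ hx
      rw [H.mem_B] at hx
      exact H.a_zero (Or.inr (by omega))
  rw [h2, H.sum_B]
  have hup : ∑ x ∈ H.Sh (n + 1), H.a x y ≤ 4 := by
    rw [H.row_up hn.symm, div_le_iff₀ (by positivity)]
    have := H.e_step_le n
    linarith
  have hd : ∑ x ∈ H.Sh n, H.a x y = 8 := H.row_diag hn.symm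
  rcases Nat.eq_zero_or_pos n with h0 | h0
  · rw [h0] at hup hd ⊢
    rw [sum_range_succ, sum_range_succ, sum_range_zero]
    linarith
  · obtain ⟨k, hk⟩ := Nat.exists_eq_succ_of_ne_zero h0.ne'
    rw [sum_range_succ, sum_range_succ]
    have hdn : ∑ i ∈ range n, ∑ x ∈ H.Sh i, H.a x y ≤ 2 := by
      rw [hk, Nat.succ_eq_add_one, sum_range_succ, sum_eq_zero, zero_add]
      · rw [H.row_dn (n := k) (by omega), div_le_iff₀ (by positivity)]
        have := H.e_mono k
        linarith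
      · intro i hi
        rw [mem_range] at hi
        apply sum_eq_zero
        intro x hx
        rw [H.mem] at hx
        exact H.a_zero (Or.inl (by omega))
    linarith

theorem Horn.row_total' (x : X) (R : ℕ) : ∑ y ∈ H.B R, H.a x y ≤ 14 := by
  rw [sum_congr rfl fun y _ => H.symm x y]
  exact H.row_total x R

theorem Horn.avg_sup {f : X → ℝ} {s : ℝ} (hf : ∀ x, |f x| ≤ s) (x : X) : |H.avg f x| ≤ s := by
  unfold Horn.avg
  rw [abs_div, abs_of_pos (by positivity : (0 : ℝ) < 4 ^ H.e (H.sh x)), div_le_iff₀ (by positivity)]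
  refine (abs_sum_le_sum_abs _ _).trans ((sum_le_sum fun y _ => hf y).trans ?_)
  rw [H.sum_const_shell]
  linarith

theorem Horn.L_sup {f : X → ℝ} {s : ℝ} (hs : 0 ≤ s) (hf : ∀ x, |f x| ≤ s) (x : X) :
    |H.L f x| ≤ 14 * s := by
  unfold Horn.L
  refine (abs_sum_le_sum_abs _ _).trans ?_
  refine (sum_le_sum fun y _ => (?_ : |H.a x y * f y| ≤ H.a x y * s)).trans ?_
  · rw [abs_mul, abs_of_nonneg (H.nn _ _)]
    exact mul_le_mul_of_nonneg_left (hf y) (H.nn _ _)
  · rw [← sum_mul]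
    exact mul_le_mul_of_nonneg_right (H.row_total' x _) hs

theorem Horn.A_sup {V f : X → ℝ} {s : ℝ} (hs : 0 ≤ s) (hV : ∀ x, |V x| ≤ 1) (hf : ∀ x, |f x| ≤ s)
    (x : X) : |H.A V f x| ≤ 60 * s := by
  have h1 : ∀ y, |H.T V f y| ≤ 30 * s := by
    intro y
    unfold Horn.T
    refine (abs_add_le _ _).trans ?_
    have h2 := H.L_sup hs hf y
    have h3 : |(V y + 15) * f y| ≤ 16 * s := by
      rw [abs_mul]
      apply mul_le_mul _ (hf y) (abs_nonneg _) (by norm_num)
      refine (abs_add_le _ _).trans ?_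
      rw [abs_of_pos (by norm_num : (0 : ℝ) < 15)]
      have := hV y
      linarith
    linarith
  unfold Horn.A Horn.Q
  refine (abs_sub _ _).trans ?_
  have h2 := H.avg_sup h1 x
  have h3 := h1 x
  linarith

/-- `ℓ¹` bounds -/
theorem Horn.Q_l1 (f : X → ℝ) (R : ℕ) : ∑ x ∈ H.B R, |H.Q f x| ≤ 2 * ∑ x ∈ H.B R, |f x| := by
  have h1 : ∑ x ∈ H.B R, |H.avg f x| ≤ ∑ x ∈ H.B R, |f x| := by
    rw [H.sum_B, H.sum_B]
    apply sum_le_sum
    intro n _
    rw [sum_congr rfl fun x hx => by rw [H.avg_of hx f], H.sum_const_shell, abs_div,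
      abs_of_pos (by positivity : (0 : ℝ) < 4 ^ H.e n)]
    rw [mul_div_cancel₀ _ (by positivity)]
    exact abs_sum_le_sum_abs _ _
  have h2 : ∑ x ∈ H.B R, |H.Q f x| ≤ ∑ x ∈ H.B R, (|f x| + |H.avg f x|) :=
    sum_le_sum fun x _ => abs_sub _ _
  rw [sum_add_distrib] at h2
  linarith

theorem Horn.L_l1 {f : X → ℝ} {r R : ℕ} (hf : H.Van f r) (hR : r ≤ R) :
    ∑ x ∈ H.B R, |H.L f x| ≤ 14 * ∑ x ∈ H.B R, |f x| := by
  have h1 : ∑ x ∈ H.B R, |H.L f x| ≤ ∑ x ∈ H.B R, ∑ y ∈ H.B R, H.a x y * |f y| := by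
    apply sum_le_sum
    intro x _
    rw [H.L_eqv f x hf hR]
    refine (abs_sum_le_sum_abs _ _).trans (le_of_eq (sum_congr rfl fun y _ => ?_))
    rw [abs_mul, abs_of_nonneg (H.nn _ _)]
  refine h1.trans ?_
  rw [sum_comm, mul_sum]
  apply sum_le_sum
  intro y _
  rw [← sum_mul]
  exact mul_le_mul_of_nonneg_right (H.row_total y R) (abs_nonneg _)

theorem Horn.A_l1 {V f : X → ℝ} {r R : ℕ} (hV : ∀ x, |V x| ≤ 1) (hf : H.Van f r) (hR : r ≤ R) :
    ∑ x ∈ H.B R, |H.A V f x| ≤ 60 * ∑ x ∈ H.B R, |f x| := by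
  unfold Horn.A
  refine (H.Q_l1 _ R).trans ?_
  have h1 : ∑ x ∈ H.B R, |H.T V f x| ≤ ∑ x ∈ H.B R, (|H.L f x| + 16 * |f x|) := by
    apply sum_le_sum
    intro x _
    unfold Horn.T
    refine (abs_add_le _ _).trans ?_
    have h3 : |(V x + 15) * f x| ≤ 16 * |f x| := by
      rw [abs_mul]
      apply mul_le_mul_of_nonneg_right _ (abs_nonneg _)
      refine (abs_add_le _ _).trans ?_
      rw [abs_of_pos (by norm_num : (0 : ℝ) < 15)]
      have := hV x
      linarith
    linarith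
  rw [sum_add_distrib, ← mul_sum] at h1
  have h2 := H.L_l1 hf hR
  linarith

theorem Horn.v_abs {ω : X → ℝ} {b : ℝ} (hω : ∀ x, |ω x| ≤ b) (n : ℕ) : |H.v ω n| ≤ b := by
  unfold Horn.v
  rw [abs_div, abs_of_pos (by positivity : (0 : ℝ) < 4 ^ H.e n), div_le_iff₀ (by positivity)]
  refine (abs_sum_le_sum_abs _ _).trans ((sum_le_sum fun y _ => hω y).trans ?_)
  rw [H.sum_const_shell]
  linarith

theorem Horn.w_sup {ω : X → ℝ} {b : ℝ} (hb : 0 ≤ b) (hω : ∀ x, |ω x| ≤ b) (n : ℕ) (x : X) :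
    |H.w ω n x| ≤ 2 * b / 2 ^ H.e n := by
  unfold Horn.w
  split_ifs
  · rw [abs_div, abs_of_pos (by positivity : (0 : ℝ) < 2 ^ H.e n)]
    apply div_le_div_of_nonneg_right _ (by positivity)
    refine (abs_sub _ _).trans ?_
    have h1 := hω x
    have h2 := H.v_abs hω n
    linarith
  · rw [abs_zero]
    positivity

theorem Horn.g_sup {V ω : X → ℝ} {b : ℝ} (hb : 0 ≤ b) (hV : ∀ x, |V x| ≤ 1) (hω : ∀ x, |ω x| ≤ b)
    (n k : ℕ) (x : X) : |H.g V ω n k x| ≤ 60 ^ k * (2 * b / 2 ^ H.e n) := by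
  induction k generalizing x with
  | zero =>
    rw [pow_zero, one_mul]
    exact H.w_sup hb hω n x
  | succ k ih =>
    rw [H.g_succ]
    refine (H.A_sup (by positivity) hV ih x).trans (le_of_eq ?_)
    ring

section diff

variable {ω : X → ℝ} {b t : ℝ} {x0 : X}

theorem Horn.w_diff (hb : 0 ≤ b) (hω : ∀ x, |ω x| ≤ b) (ht : |t| ≤ b) (n R : ℕ) :
    ∑ x ∈ H.B R, |H.w (Function.update ω x0 t) n x - H.w ω n x| ≤ 4 * b / 2 ^ H.e n := by
  have hd : |t - ω x0| ≤ 2 * b := by
    refine (abs_sub _ _).trans ?_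
    have := hω x0
    linarith
  have h0 : ∑ x ∈ H.B R, |H.w (Function.update ω x0 t) n x - H.w ω n x| ≤
      ∑ x ∈ H.Sh n, |H.w (Function.update ω x0 t) n x - H.w ω n x| := by
    rw [← sum_filter_add_sum_filter_not (H.B R) (fun x => H.sh x = n)]
    have h1 : ∑ x ∈ (H.B R).filter (fun x => ¬ H.sh x = n),
        |H.w (Function.update ω x0 t) n x - H.w ω n x| = 0 := by
      apply sum_eq_zero
      intro x hx
      rw [mem_filter] at hx
      unfold Horn.w
      rw [if_neg hx.2, if_neg hx.2, sub_zero, abs_zero]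
    rw [h1, add_zero]
    apply sum_le_sum_of_subset_of_nonneg
    · intro x hx
      rw [mem_filter] at hx
      exact (H.mem _ _).2 hx.2
    · intro x _ _
      exact abs_nonneg _
  refine h0.trans ?_
  have h1 : ∑ x ∈ H.Sh n, |H.w (Function.update ω x0 t) n x - H.w ω n x| ≤
      ∑ x ∈ H.Sh n, (|Function.update ω x0 t x - ω x| +
        |H.v (Function.update ω x0 t) n - H.v ω n|) / 2 ^ H.e n := by
    apply sum_le_sum
    intro x hx
    unfold Horn.w
    rw [if_pos ((H.mem _ _).1 hx), if_pos ((H.mem _ _).1 hx), ← sub_div, abs_div,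
      abs_of_pos (by positivity : (0 : ℝ) < 2 ^ H.e n)]
    apply div_le_div_of_nonneg_right _ (by positivity)
    have h2 : Function.update ω x0 t x - H.v (Function.update ω x0 t) n - (ω x - H.v ω n) =
        (Function.update ω x0 t x - ω x) - (H.v (Function.update ω x0 t) n - H.v ω n) := by ring
    rw [h2]
    exact abs_sub _ _
  refine h1.trans ?_
  rw [← sum_div, sum_add_distrib, H.sum_const_shell]
  apply div_le_div_of_nonneg_right _ (by positivity)
  have h2 : ∑ x ∈ H.Sh n, |Function.update ω x0 t x - ω x| ≤ 2 * b := by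
    have h3 : ∀ x ∈ H.Sh n, |Function.update ω x0 t x - ω x| =
        if x = x0 then |t - ω x0| else 0 := by
      intro x _
      by_cases h : x = x0
      · subst h
        simp
      · simp [h]
    rw [sum_congr rfl h3, sum_ite_eq']
    split_ifs
    · exact hd
    · positivity
  have h4 : 4 ^ H.e n * |H.v (Function.update ω x0 t) n - H.v ω n| ≤ 2 * b := by
    unfold Horn.v
    rw [← sub_div, abs_div, abs_of_pos (by positivity : (0 : ℝ) < 4 ^ H.e n),
      mul_div_cancel₀ _ (by positivity), ← sum_sub_distrib]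
    exact (abs_sum_le_sum_abs _ _).trans h2
  linarith

theorem Horn.A_diff {V V' : X → ℝ} (f : X → ℝ) (x : X) :
    H.A V' f x - H.A V f x = H.Q (fun y => (V' y - V y) * f y) x := by
  have h1 : ∑ y ∈ H.Sh (H.sh x), (V' y - V y) * f y =
      (∑ y ∈ H.Sh (H.sh x), (H.L f y + (V' y + 15) * f y)) -
      (∑ y ∈ H.Sh (H.sh x), (H.L f y + (V y + 15) * f y)) := by
    rw [← sum_sub_distrib]
    exact sum_congr rfl fun y _ => by ring
  unfold Horn.A Horn.Q Horn.T Horn.avg
  rw [h1]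
  ring

theorem Horn.g_diff {l : ℝ} (hb : 0 ≤ b) (hl : |l| * b ≤ 1) (hω : ∀ x, |ω x| ≤ b) (ht : |t| ≤ b)
    (n k : ℕ) {R : ℕ} (hR : n + k + 1 ≤ R) :
    ∑ x ∈ H.B R, |H.g (fun x => l * Function.update ω x0 t x) (Function.update ω x0 t) n k x -
      H.g (fun x => l * ω x) ω n k x| ≤ 4 * b * (k + 1) * 60 ^ k / 2 ^ H.e n := by
  set ω' := Function.update ω x0 t with hω'
  have hω'b : ∀ x, |ω' x| ≤ b := by
    intro x
    rw [hω']
    by_cases h : x = x0
    · subst h; simpa using ht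
    · simpa [h] using hω x
  have hVb : ∀ x, |l * ω x| ≤ 1 := fun x => by
    rw [abs_mul]
    exact (mul_le_mul_of_nonneg_left (hω x) (abs_nonneg _)).trans hl
  have hVb' : ∀ x, |l * ω' x| ≤ 1 := fun x => by
    rw [abs_mul]
    exact (mul_le_mul_of_nonneg_left (hω'b x) (abs_nonneg _)).trans hl
  induction k with
  | zero =>
    have := H.w_diff (x0 := x0) hb hω ht n R
    unfold Horn.g
    simp only [Function.iterate_zero, id]
    refine this.trans (le_of_eq ?_)
    push_cast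
    ring
  | succ k ih =>
    rw [H.g_succ, H.g_succ]
    set G := H.g (fun x => l * ω x) ω n k with hG
    set G' := H.g (fun x => l * ω' x) ω' n k with hG'
    have h1 : ∀ x, H.A (fun x => l * ω' x) G' x - H.A (fun x => l * ω x) G x =
        H.A (fun x => l * ω x) (fun y => G' y + (-1) * G y) x +
          H.Q (fun y => (l * ω' y - l * ω y) * G' y) x := by
      intro x
      rw [H.A_add, ← H.A_diff]
      ring
    have h2 : ∑ x ∈ H.B R, |H.A (fun x => l * ω' x) G' x - H.A (fun x => l * ω x) G x| ≤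
        ∑ x ∈ H.B R, |H.A (fun x => l * ω x) (fun y => G' y + (-1) * G y) x| +
          ∑ x ∈ H.B R, |H.Q (fun y => (l * ω' y - l * ω y) * G' y) x| := by
      rw [← sum_add_distrib]
      apply sum_le_sum
      intro x _
      rw [h1]
      exact abs_add_le _ _
    have h3 : ∑ x ∈ H.B R, |H.A (fun x => l * ω x) (fun y => G' y + (-1) * G y) x| ≤
        60 * ∑ x ∈ H.B R, |G' x - G x| := by
      refine (H.A_l1 (r := n + k) hVb ?_ (by omega)).trans (le_of_eq ?_)
      · intro y hy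
        show G' y + (-1) * G y = 0
        rw [hG, hG', H.g_van _ _ _ _ y hy, H.g_van _ _ _ _ y hy]
        ring
      · congr 1
        exact sum_congr rfl fun x _ => by congr 1; ring
    have h4 : ∑ x ∈ H.B R, |H.Q (fun y => (l * ω' y - l * ω y) * G' y) x| ≤
        2 * (2 * (60 ^ k * (2 * b / 2 ^ H.e n))) := by
      refine (H.Q_l1 _ R).trans (mul_le_mul_of_nonneg_left ?_ (by norm_num))
      have h5 : ∀ x ∈ H.B R, |(l * ω' x - l * ω x) * G' x| ≤
          if x = x0 then 2 * (60 ^ k * (2 * b / 2 ^ H.e n)) else 0 := by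
        intro x _
        split_ifs with h
        · rw [abs_mul]
          apply mul_le_mul _ (H.g_sup hb hVb' hω'b n k x) (abs_nonneg _) (by norm_num)
          refine (abs_sub _ _).trans ?_
          have e1 := hVb x
          have e2 := hVb' x
          linarith
        · rw [hω', Function.update_of_ne h]
          simp
      refine (sum_le_sum h5).trans ?_
      rw [sum_ite_eq']
      split_ifs
      · exact le_rfl
      · positivity
    have h6 := ih (by omega)
    refine h2.trans ((add_le_add (h3.trans (mul_le_mul_of_nonneg_left h6 (by norm_num))) h4).trans ?_)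
    have h7 : (0 : ℝ) < 2 ^ H.e n := by positivity
    rw [show 60 * (4 * b * ((k : ℝ) + 1) * 60 ^ k / 2 ^ H.e n) + 2 * (2 * (60 ^ k * (2 * b / 2 ^ H.e n)))
      = (b * 60 ^ k * (240 * (k + 1) + 8)) / 2 ^ H.e n by ring]
    apply div_le_div_of_nonneg_right _ h7.le
    push_cast
    rw [pow_succ]
    have h8 : 0 ≤ b * 60 ^ k := by positivity
    nlinarith

theorem Horn.p_diff {l : ℝ} (hb : 0 ≤ b) (hl : |l| * b ≤ 1) (hω : ∀ x, |ω x| ≤ b) (ht : |t| ≤ b)
    (k n m : ℕ) :
    |H.p (fun x => l * Function.update ω x0 t x) (Function.update ω x0 t) k n m -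
      H.p (fun x => l * ω x) ω k n m| ≤
      8 * b ^ 2 * (k + 2) * 60 ^ k / (2 ^ H.e n * 2 ^ H.e m) := by
  set R := n + m + k + 1 with hR
  rw [H.p_eq _ _ k n m (R := R) (by omega), H.p_eq _ _ k n m (R := R) (by omega)]
  have h0 := H.g_diff (x0 := x0) hb hl hω ht n k (R := R) (by omega)
  set ω' := Function.update ω x0 t with hω'
  have hω'b : ∀ x, |ω' x| ≤ b := by
    intro x
    rw [hω']
    by_cases h : x = x0
    · subst h; simpa using ht
    · simpa [h] using hω x
  have hVb' : ∀ x, |l * ω' x| ≤ 1 := fun x => by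
    rw [abs_mul]
    exact (mul_le_mul_of_nonneg_left (hω'b x) (abs_nonneg _)).trans hl
  set G := H.g (fun x => l * ω x) ω n k with hG
  set G' := H.g (fun x => l * ω' x) ω' n k with hG'
  rw [← sum_sub_distrib]
  have h1 : ∀ x ∈ H.B R, |H.w ω' m x * G' x - H.w ω m x * G x| ≤
      |H.w ω' m x - H.w ω m x| * (60 ^ k * (2 * b / 2 ^ H.e n)) +
        (2 * b / 2 ^ H.e m) * |G' x - G x| := by
    intro x _
    have e1 : H.w ω' m x * G' x - H.w ω m x * G x = (H.w ω' m x - H.w ω m x) * G' x +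
        H.w ω m x * (G' x - G x) := by ring
    rw [e1]
    refine (abs_add_le _ _).trans ?_
    rw [abs_mul, abs_mul]
    exact add_le_add (mul_le_mul_of_nonneg_left (H.g_sup hb hVb' hω'b n k x) (abs_nonneg _))
      (mul_le_mul_of_nonneg_right (H.w_sup hb hω m x) (abs_nonneg _))
  refine (abs_sum_le_sum_abs _ _).trans ((sum_le_sum h1).trans ?_)
  rw [sum_add_distrib, ← sum_mul, ← mul_sum]
  have h2 := H.w_diff (x0 := x0) hb hω ht m R
  rw [← hω'] at h2
  have h3 := mul_le_mul_of_nonneg_right h2 (by positivity : (0 : ℝ) ≤ 60 ^ k * (2 * b / 2 ^ H.e n))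
  have h4 := mul_le_mul_of_nonneg_left h0 (by positivity : (0 : ℝ) ≤ 2 * b / 2 ^ H.e m)
  refine (add_le_add h3 h4).trans (le_of_eq ?_)
  have e1 : (0 : ℝ) < 2 ^ H.e n := by positivity
  have e2 : (0 : ℝ) < 2 ^ H.e m := by positivity
  field_simp
  ring

end diff

theorem Horn.A_congr {V V' f : X → ℝ} {r : ℕ} (hf : H.Van f r) (h : ∀ x, H.sh x ≤ r → V x = V' x) :
    H.A V f = H.A V' f := by
  have h1 : H.T V f = H.T V' f := by
    funext x
    unfold Horn.T
    by_cases hx : H.sh x ≤ r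
    · rw [h x hx]
    · rw [hf x (by omega), mul_zero, mul_zero]
  unfold Horn.A
  rw [h1]

theorem Horn.w_congr {ω ω' : X → ℝ} {n : ℕ} (h : ∀ x, H.sh x ≤ n → ω x = ω' x) :
    H.w ω n = H.w ω' n := by
  have hv : H.v ω n = H.v ω' n := by
    unfold Horn.v
    rw [sum_congr rfl]
    intro x hx
    rw [H.mem] at hx
    exact h x hx.le
  funext x
  unfold Horn.w
  split_ifs with hx
  · rw [h x hx.le, hv]
  · rfl

theorem Horn.g_congr {l : ℝ} {ω ω' : X → ℝ} {n k : ℕ} (h : ∀ x, H.sh x ≤ n + k → ω x = ω' x) :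
    H.g (fun x => l * ω x) ω n k = H.g (fun x => l * ω' x) ω' n k := by
  induction k with
  | zero =>
    unfold Horn.g
    simp only [Function.iterate_zero, id]
    exact H.w_congr h
  | succ k ih =>
    rw [H.g_succ, H.g_succ, ih (fun x hx => h x (by omega))]
    exact H.A_congr (H.g_van _ _ n k) fun x hx => by rw [h x (by omega)]

theorem Horn.p_congr {l : ℝ} {ω ω' : X → ℝ} {n k m : ℕ} (h : ∀ x ∈ H.B (n + k), ω x = ω' x) :
    H.p (fun x => l * ω x) ω k n m = H.p (fun x => l * ω' x) ω' k n m := by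
  by_cases hm : n + k < m
  · rw [H.p_zero _ _ hm, H.p_zero _ _ hm]
  · unfold Horn.p
    rw [H.g_congr fun x hx => h x (H.mem_B.2 hx),
      H.w_congr (n := m) (ω := ω) (ω' := ω') fun x hx => h x (H.mem_B.2 (by omega))]

section shift

variable {a c : ℕ}

theorem Horn.tau_sum {n : ℕ} (hn : H.e (n + 1) = H.e n) (F : X → ℝ) :
    ∑ x ∈ H.Sh n, F (H.tau x) = ∑ x ∈ H.Sh (n + 1), F x := by
  have h1 : (H.Sh n).image H.tau = H.Sh (n + 1) := by
    apply eq_of_subset_of_card_le
    · intro y hy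
      rw [mem_image] at hy
      obtain ⟨x, hx, rfl⟩ := hy
      rw [H.mem] at hx ⊢
      rw [H.tsh, hx]
    · rw [card_image_of_injective _ H.tinj, H.card, H.card, hn]
  rw [← h1, sum_image fun x _ y _ h => H.tinj h]

theorem Horn.v_shift {n : ℕ} (hn : H.e (n + 1) = H.e n) (ω : X → ℝ) :
    H.v (fun x => ω (H.tau x)) n = H.v ω (n + 1) := by
  unfold Horn.v
  rw [H.tau_sum hn ω, hn]

theorem Horn.L_shift (he : ∀ i, a ≤ i → i ≤ c → H.e (i + 1) = H.e i) {G G' : X → ℝ}
    (hG : ∀ y, a ≤ H.sh y → H.sh y ≤ c → G' y = G (H.tau y)) {y : X} (h1 : a + 1 ≤ H.sh y)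
    (h2 : H.sh y + 1 ≤ c) : H.L G' y = H.L G (H.tau y) := by
  obtain ⟨n, hn⟩ : ∃ n, H.sh y = n + 1 := ⟨H.sh y - 1, by omega⟩
  unfold Horn.L
  rw [H.tsh, H.sum_B, H.sum_B, hn]
  rw [sum_range_succ, sum_range_succ, sum_range_succ, sum_range_succ (n := n + 1 + 1 + 1),
    sum_range_succ (n := n + 1 + 1), sum_range_succ (n := n + 1)]
  have z1 : ∑ i ∈ range n, ∑ x ∈ H.Sh i, H.a y x * G' x = 0 := by
    apply sum_eq_zero
    intro i hi
    apply sum_eq_zero
    intro x hx
    rw [mem_range] at hi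
    rw [H.mem] at hx
    rw [H.a_zero (Or.inr (by omega)), zero_mul]
  have z2 : ∑ i ∈ range (n + 1), ∑ x ∈ H.Sh i, H.a (H.tau y) x * G x = 0 := by
    apply sum_eq_zero
    intro i hi
    apply sum_eq_zero
    intro x hx
    rw [mem_range] at hi
    rw [H.mem] at hx
    rw [H.a_zero (Or.inr (by rw [H.tsh]; omega)), zero_mul]
  have key : ∀ i, a ≤ i → i ≤ c → ∑ x ∈ H.Sh i, H.a y x * G' x =
      ∑ x ∈ H.Sh (i + 1), H.a (H.tau y) x * G x := by
    intro i hi hi2
    rw [← H.tau_sum (he i hi hi2) (fun x => H.a (H.tau y) x * G x)]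
    apply sum_congr rfl
    intro x hx
    rw [H.mem] at hx
    rw [hG x (by omega) (by omega), H.ta y x (he _ (by omega) (by omega)).symm
      (he _ (by omega) (by omega)).symm]
  rw [z1, z2, key n (by omega) (by omega), key (n + 1) (by omega) (by omega),
    key (n + 1 + 1) (by omega) (by omega)]

theorem Horn.A_shift (he : ∀ i, a ≤ i → i ≤ c → H.e (i + 1) = H.e i) {V G G' : X → ℝ}
    (hG : ∀ y, a ≤ H.sh y → H.sh y ≤ c → G' y = G (H.tau y)) {y : X} (h1 : a + 1 ≤ H.sh y)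
    (h2 : H.sh y + 1 ≤ c) : H.A (fun x => V (H.tau x)) G' y = H.A V G (H.tau y) := by
  have hT : ∀ x, H.sh x = H.sh y → H.T (fun x => V (H.tau x)) G' x = H.T V G (H.tau x) := by
    intro x hx
    unfold Horn.T
    rw [H.L_shift he hG (by omega) (by omega), hG x (by omega) (by omega)]
  unfold Horn.A Horn.Q Horn.avg
  rw [hT y rfl, H.tsh]
  have hs : H.e (H.sh y + 1) = H.e (H.sh y) := he _ (by omega) (by omega)
  rw [← H.tau_sum hs (fun x => H.T V G x), hs]
  congr 2
  apply sum_congr rfl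
  intro x hx
  rw [H.mem] at hx
  exact hT x hx

theorem Horn.w_shift (he : ∀ i, a ≤ i → i ≤ c → H.e (i + 1) = H.e i) (ω : X → ℝ) {n : ℕ} (h1 : a ≤ n)
    (h2 : n ≤ c) (y : X) : H.w (fun x => ω (H.tau x)) n y = H.w ω (n + 1) (H.tau y) := by
  unfold Horn.w
  rw [H.tsh]
  by_cases h : H.sh y = n
  · rw [if_pos h, if_pos (by omega), H.v_shift (he n h1 h2), he n h1 h2]
  · rw [if_neg h, if_neg (by omega)]

theorem Horn.g_shift (he : ∀ i, a ≤ i → i ≤ c → H.e (i + 1) = H.e i) (l : ℝ) (ω : X → ℝ) {n : ℕ}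
    (h1 : a ≤ n) (h2 : n ≤ c) (k : ℕ) (y : X) (h3 : a + k ≤ H.sh y) (h4 : H.sh y + k ≤ c) :
    H.g (fun x => l * ω (H.tau x)) (fun x => ω (H.tau x)) n k y =
      H.g (fun x => l * ω x) ω (n + 1) k (H.tau y) := by
  induction k generalizing y with
  | zero => exact H.w_shift he ω h1 h2 y
  | succ k ih =>
    rw [H.g_succ, H.g_succ]
    exact H.A_shift (a := a + k) (c := c - k) (V := fun x => l * ω x)
      (fun i hi hi2 => he i (by omega) (by omega))
      (fun x hx hx2 => ih x (by omega) (by omega)) (by omega) (by omega)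

theorem Horn.p_shift (he : ∀ i, a ≤ i → i ≤ c → H.e (i + 1) = H.e i) (l : ℝ) (ω : X → ℝ) {n m k : ℕ}
    (h1 : a ≤ n) (h2 : n ≤ c) (h3 : a + k ≤ m) (h4 : m + k ≤ c) :
    H.p (fun x => l * ω (H.tau x)) (fun x => ω (H.tau x)) k n m =
      H.p (fun x => l * ω x) ω k (n + 1) (m + 1) := by
  unfold Horn.p
  rw [← H.tau_sum (he m (by omega) (by omega))]
  apply sum_congr rfl
  intro x hx
  rw [H.mem] at hx
  rw [H.w_shift he ω (by omega) (by omega), H.g_shift he l ω h1 h2 k x (by omega) (by omega)]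

end shift

end Pool.Agent.Helper32.PG
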