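import Pool.Agent.Helper32.PG.Loc

/-!
Weighted norms: with the weight `2 ^ e` the adjacency operator has norm `12` on bounded functions.
Sharp bounded differences of the moments, and locality from both sides.
-/

set_option autoImplicit false
set_option linter.unusedSectionVars false

namespace Pool.Agent.Helper32.PG

open Finset

variable {X : Type} [DecidableEq X] (H : Horn X)

/-- weight -/
noncomputable def Horn.W (x : X) : ℝ := 2 ^ H.e (H.sh x)

theorem Horn.W_pos (x : X) : 0 < H.W x := by unfold Horn.W; positivity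

theorem Horn.W_of {x : X} {n : ℕ} (hx : x ∈ H.Sh n) : H.W x = 2 ^ H.e n := by
  unfold Horn.W
  rw [(H.mem _ _).1 hx]

/-- weighted columns -/
theorem Horn.colW (y : X) (R : ℕ) : ∑ x ∈ H.B R, H.a x y / H.W x ≤ 12 / H.W y := by
  set n := H.sh y with hn
  have h1 : ∑ x ∈ H.B R, H.a x y / H.W x ≤ ∑ x ∈ H.B (R + (n + 1)), H.a x y / H.W x := by
    apply sum_le_sum_of_subset_of_nonneg
    · intro x hx
      rw [H.mem_B] at hx ⊢
      omega
    · intro x _ _
      exact div_nonneg (H.nn _ _) (H.W_pos x).le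
  refine h1.trans ?_
  have h2 : ∑ x ∈ H.B (R + (n + 1)), H.a x y / H.W x = ∑ x ∈ H.B (n + 1), H.a x y / H.W x := by
    symm
    apply sum_subset
    · intro x hx
      rw [H.mem_B] at hx ⊢
      omega
    · intro x _ hx
      rw [H.mem_B] at hx
      rw [H.a_zero (Or.inr (by omega)), zero_div]
  have hWy : H.W y = 2 ^ H.e n := rfl
  have hsh : ∀ i, ∑ x ∈ H.Sh i, H.a x y / H.W x = (∑ x ∈ H.Sh i, H.a x y) / 2 ^ H.e i := by
    intro i
    rw [sum_div]
    exact sum_congr rfl fun x hx => by rw [H.W_of hx]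
  rw [h2, H.sum_B, sum_congr rfl fun i _ => hsh i, hWy]
  have e0 : (0 : ℝ) < 2 ^ H.e n := by positivity
  have e1 : (0 : ℝ) < 2 ^ H.e (n + 1) := by positivity
  have hup : (∑ x ∈ H.Sh (n + 1), H.a x y) / 2 ^ H.e (n + 1) = 2 / 2 ^ H.e n := by
    rw [H.row_up hn.symm]
    field_simp
  have hd : (∑ x ∈ H.Sh n, H.a x y) / 2 ^ H.e n = 8 / 2 ^ H.e n := by
    rw [H.row_diag hn.symm]
  rcases Nat.eq_zero_or_pos n with h0 | h0
  · have g1 : ∑ i ∈ range (n + 1 + 1), (∑ x ∈ H.Sh i, H.a x y) / 2 ^ H.e i = 10 / 2 ^ H.e n := by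
      rw [sum_range_succ, hup, sum_range_succ, hd, h0, sum_range_zero]
      ring
    rw [g1]
    apply div_le_div_of_nonneg_right _ e0.le
    norm_num
  · obtain ⟨k, hk⟩ := Nat.exists_eq_succ_of_ne_zero h0.ne'
    have hdn : ∑ i ∈ range n, (∑ x ∈ H.Sh i, H.a x y) / 2 ^ H.e i = 2 / 2 ^ H.e n := by
      rw [hk, Nat.succ_eq_add_one, sum_range_succ, sum_eq_zero, zero_add]
      · rw [H.row_dn (n := k) (by omega)]
        have : (0 : ℝ) < 2 ^ H.e k := by positivity
        field_simp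
      · intro i hi
        rw [mem_range] at hi
        rw [sum_eq_zero, zero_div]
        intro x hx
        rw [H.mem] at hx
        exact H.a_zero (Or.inl (by omega))
    rw [sum_range_succ, hup, sum_range_succ, hd, hdn]
    apply le_of_eq
    ring

theorem Horn.rowW (x : X) (R : ℕ) : ∑ y ∈ H.B R, H.a x y / H.W y ≤ 12 / H.W x := by
  rw [sum_congr rfl fun y _ => by rw [H.symm x y]]
  exact H.colW x R

theorem Horn.L_supW {f : X → ℝ} {t : ℝ} (ht : 0 ≤ t) (hf : ∀ x, |f x| ≤ t / H.W x) (x : X) :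
    |H.L f x| ≤ 12 * t / H.W x := by
  unfold Horn.L
  refine (abs_sum_le_sum_abs _ _).trans ?_
  refine (sum_le_sum fun y _ => (?_ : |H.a x y * f y| ≤ t * (H.a x y / H.W y))).trans ?_
  · rw [abs_mul, abs_of_nonneg (H.nn _ _)]
    refine (mul_le_mul_of_nonneg_left (hf y) (H.nn _ _)).trans (le_of_eq ?_)
    ring
  · rw [← mul_sum]
    refine (mul_le_mul_of_nonneg_left (H.rowW x _) ht).trans (le_of_eq ?_)
    ring

theorem Horn.avg_supW {f : X → ℝ} {t : ℝ} (hf : ∀ x, |f x| ≤ t / H.W x) (x : X) :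
    |H.avg f x| ≤ t / H.W x := by
  unfold Horn.avg
  rw [abs_div, abs_of_pos (by positivity : (0 : ℝ) < 4 ^ H.e (H.sh x)), div_le_iff₀ (by positivity)]
  refine (abs_sum_le_sum_abs _ _).trans ((sum_le_sum fun y hy => (?_ : |f y| ≤ t / H.W x)).trans ?_)
  · have h1 : H.W y = H.W x := by
      rw [H.W_of hy]
      rfl
    rw [← h1]
    exact hf y
  · rw [H.sum_const_shell]
    linarith

theorem Horn.avg_T {V f : X → ℝ} (zf : H.ZM f) (x : X) :
    H.avg (H.T V f) x = H.avg (fun y => V y * f y) x := by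
  unfold Horn.avg Horn.T
  rw [sum_add_distrib, H.L_zm zf, zero_add]
  simp only [add_mul, sum_add_distrib]
  rw [← mul_sum, zf, mul_zero, add_zero]

theorem Horn.A_supW {V f : X → ℝ} {t β : ℝ} (ht : 0 ≤ t) (hV : ∀ x, |V x| ≤ β) (zf : H.ZM f)
    (hf : ∀ x, |f x| ≤ t / H.W x) (x : X) : |H.A V f x| ≤ (27 + 2 * β) * t / H.W x := by
  have hW := H.W_pos x
  have hβ : 0 ≤ β := (abs_nonneg _).trans (hV x)
  have h1 : |H.T V f x| ≤ (27 + β) * t / H.W x := by
    unfold Horn.T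
    refine (abs_add_le _ _).trans ?_
    have h2 := H.L_supW ht hf x
    have h3 : |(V x + 15) * f x| ≤ (15 + β) * (t / H.W x) := by
      rw [abs_mul]
      apply mul_le_mul _ (hf x) (abs_nonneg _) (by positivity)
      refine (abs_add_le _ _).trans ?_
      rw [abs_of_pos (by norm_num : (0 : ℝ) < 15)]
      have := hV x
      linarith
    have h4 : 12 * t / H.W x + (15 + β) * (t / H.W x) = (27 + β) * t / H.W x := by ring
    linarith
  have h2 : |H.avg (H.T V f) x| ≤ β * t / H.W x := by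
    rw [H.avg_T zf]
    apply H.avg_supW
    intro y
    rw [abs_mul]
    refine (mul_le_mul (hV y) (hf y) (abs_nonneg _) hβ).trans (le_of_eq (by ring))
  unfold Horn.A Horn.Q
  refine (abs_sub _ _).trans ?_
  have h4 : (27 + β) * t / H.W x + β * t / H.W x = (27 + 2 * β) * t / H.W x := by ring
  linarith

theorem Horn.avg_l1W (f : X → ℝ) (R : ℕ) :
    ∑ x ∈ H.B R, |H.avg f x| / H.W x ≤ ∑ x ∈ H.B R, |f x| / H.W x := by
  rw [H.sum_B, H.sum_B]
  apply sum_le_sum
  intro n _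
  have e1 : ∀ g : X → ℝ, ∑ x ∈ H.Sh n, |g x| / H.W x = (∑ x ∈ H.Sh n, |g x|) / 2 ^ H.e n := by
    intro g
    rw [sum_div]
    exact sum_congr rfl fun x hx => by rw [H.W_of hx]
  rw [e1, e1]
  apply div_le_div_of_nonneg_right _ (by positivity)
  have e2 : ∑ x ∈ H.Sh n, |H.avg f x| = |∑ x ∈ H.Sh n, f x| := by
    have e3 : ∀ x ∈ H.Sh n, |H.avg f x| = |∑ x ∈ H.Sh n, f x| / 4 ^ H.e n := by
      intro x hx
      rw [H.avg_of hx f, abs_div, abs_of_pos (by positivity : (0 : ℝ) < 4 ^ H.e n)]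
    rw [sum_congr rfl e3, H.sum_const_shell]
    field_simp
  rw [e2]
  exact abs_sum_le_sum_abs _ _

theorem Horn.Q_l1W (f : X → ℝ) (R : ℕ) :
    ∑ x ∈ H.B R, |H.Q f x| / H.W x ≤ 2 * ∑ x ∈ H.B R, |f x| / H.W x := by
  have h1 := H.avg_l1W f R
  have h2 : ∑ x ∈ H.B R, |H.Q f x| / H.W x ≤ ∑ x ∈ H.B R, (|f x| / H.W x + |H.avg f x| / H.W x) := by
    apply sum_le_sum
    intro x _
    rw [← add_div]
    exact div_le_div_of_nonneg_right (abs_sub _ _) (H.W_pos x).le
  rw [sum_add_distrib] at h2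
  linarith

theorem Horn.L_l1W {f : X → ℝ} {r R : ℕ} (hf : H.Van f r) (hR : r ≤ R) :
    ∑ x ∈ H.B R, |H.L f x| / H.W x ≤ 12 * ∑ x ∈ H.B R, |f x| / H.W x := by
  have h1 : ∑ x ∈ H.B R, |H.L f x| / H.W x ≤
      ∑ x ∈ H.B R, ∑ y ∈ H.B R, H.a x y / H.W x * |f y| := by
    apply sum_le_sum
    intro x _
    rw [H.L_eqv f x hf hR]
    refine (div_le_div_of_nonneg_right (abs_sum_le_sum_abs _ _) (H.W_pos x).le).trans (le_of_eq ?_)
    rw [sum_div]
    refine sum_congr rfl fun y _ => ?_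
    rw [abs_mul, abs_of_nonneg (H.nn _ _)]
    ring
  refine h1.trans ?_
  rw [sum_comm, mul_sum]
  apply sum_le_sum
  intro y _
  rw [← sum_mul]
  refine (mul_le_mul_of_nonneg_right (H.colW y R) (abs_nonneg _)).trans (le_of_eq ?_)
  ring

theorem Horn.A_l1W {V f : X → ℝ} {β : ℝ} {r R : ℕ} (hV : ∀ x, |V x| ≤ β) (zf : H.ZM f)
    (hf : H.Van f r) (hR : r ≤ R) :
    ∑ x ∈ H.B R, |H.A V f x| / H.W x ≤ (27 + 2 * β) * ∑ x ∈ H.B R, |f x| / H.W x := by
  have h1 : ∑ x ∈ H.B R, |H.A V f x| / H.W x ≤ ∑ x ∈ H.B R, (|H.L f x| / H.W x +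
      (15 + β) * (|f x| / H.W x) + |H.avg (fun y => V y * f y) x| / H.W x) := by
    apply sum_le_sum
    intro x _
    have hβ : 0 ≤ β := (abs_nonneg _).trans (hV x)
    rw [← mul_div_assoc, ← add_div, ← add_div]
    apply div_le_div_of_nonneg_right _ (H.W_pos x).le
    unfold Horn.A Horn.Q
    rw [← H.avg_T zf]
    refine (abs_sub _ _).trans (add_le_add ?_ le_rfl)
    unfold Horn.T
    refine (abs_add_le _ _).trans (add_le_add le_rfl ?_)
    rw [abs_mul]
    apply mul_le_mul_of_nonneg_right _ (abs_nonneg _)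
    refine (abs_add_le _ _).trans ?_
    rw [abs_of_pos (by norm_num : (0 : ℝ) < 15)]
    have := hV x
    linarith
  rw [sum_add_distrib, sum_add_distrib, ← mul_sum] at h1
  have h2 := H.L_l1W hf hR
  have h3 : ∑ x ∈ H.B R, |H.avg (fun y => V y * f y) x| / H.W x ≤
      β * ∑ x ∈ H.B R, |f x| / H.W x := by
    refine (H.avg_l1W _ R).trans ?_
    rw [mul_sum]
    apply sum_le_sum
    intro x _
    rw [← mul_div_assoc, abs_mul]
    exact div_le_div_of_nonneg_right (mul_le_mul_of_nonneg_right (hV x) (abs_nonneg _))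
      (H.W_pos x).le
  linarith

theorem Horn.w_supW {ω : X → ℝ} {b : ℝ} (hb : 0 ≤ b) (hω : ∀ x, |ω x| ≤ b) (n : ℕ) (x : X) :
    |H.w ω n x| ≤ 2 * b / H.W x := by
  by_cases h : H.sh x = n
  · have := H.w_sup hb hω n x
    unfold Horn.W
    rw [h]
    exact this
  · unfold Horn.w
    rw [if_neg h, abs_zero]
    have := H.W_pos x
    positivity

theorem Horn.g_supW {V ω : X → ℝ} {b β : ℝ} (hb : 0 ≤ b) (hβ : 0 ≤ β) (hV : ∀ x, |V x| ≤ β)
    (hω : ∀ x, |ω x| ≤ b) (n k : ℕ) (x : X) :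
    |H.g V ω n k x| ≤ (27 + 2 * β) ^ k * (2 * b) / H.W x := by
  induction k generalizing x with
  | zero =>
    rw [pow_zero, one_mul]
    exact H.w_supW hb hω n x
  | succ k ih =>
    rw [H.g_succ]
    refine (H.A_supW (by positivity) hV (H.g_zm V ω n k) ih x).trans (le_of_eq ?_)
    ring

section diff

variable {ω : X → ℝ} {b t : ℝ} {x0 : X}

theorem Horn.w_diffW (hb : 0 ≤ b) (hω : ∀ x, |ω x| ≤ b) (ht : |t| ≤ b) (n R : ℕ) :
    ∑ x ∈ H.B R, |H.w (Function.update ω x0 t) n x - H.w ω n x| / H.W x ≤ 4 * b / 4 ^ H.e n := by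
  have h0 := H.w_diff (x0 := x0) hb hω ht n R
  have h1 : ∑ x ∈ H.B R, |H.w (Function.update ω x0 t) n x - H.w ω n x| / H.W x =
      (∑ x ∈ H.B R, |H.w (Function.update ω x0 t) n x - H.w ω n x|) / 2 ^ H.e n := by
    rw [sum_div]
    apply sum_congr rfl
    intro x _
    by_cases h : H.sh x = n
    · unfold Horn.W
      rw [h]
    · unfold Horn.w
      rw [if_neg h, if_neg h, sub_zero, abs_zero, zero_div, zero_div]
  rw [h1]
  have h4 : (4 : ℝ) ^ H.e n = 2 ^ H.e n * 2 ^ H.e n := by rw [← mul_pow]; norm_num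
  rw [h4, ← div_div]
  exact div_le_div_of_nonneg_right h0 (by positivity)

theorem Horn.g_diffW {l β Γ : ℝ} {n k : ℕ} (hb : 0 ≤ b) (hl : |l| * b ≤ β) (hβ : β ≤ 1)
    (hω : ∀ x, |ω x| ≤ b) (ht : |t| ≤ b) (hΓ1 : 1 ≤ Γ)
    (hΓ : (4 : ℝ) ^ H.e n ≤ Γ * 4 ^ H.e (H.sh x0)) {R : ℕ} (hR : n + k + 1 ≤ R) :
    ∑ x ∈ H.B R, |H.g (fun x => l * Function.update ω x0 t x) (Function.update ω x0 t) n k x -
      H.g (fun x => l * ω x) ω n k x| / H.W x ≤
      8 * b * (k + 1) * Γ * (27 + 2 * β) ^ k / 4 ^ H.e n := by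
  have hβ0 : 0 ≤ β := le_trans (by positivity) hl
  set ω' := Function.update ω x0 t with hω'
  have hω'b : ∀ x, |ω' x| ≤ b := by
    intro x
    rw [hω']
    by_cases h : x = x0
    · subst h; simpa using ht
    · simpa [h] using hω x
  have hVb : ∀ x, |l * ω x| ≤ β := fun x => by
    rw [abs_mul]
    exact (mul_le_mul_of_nonneg_left (hω x) (abs_nonneg _)).trans hl
  have hVb' : ∀ x, |l * ω' x| ≤ β := fun x => by
    rw [abs_mul]
    exact (mul_le_mul_of_nonneg_left (hω'b x) (abs_nonneg _)).trans hl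
  have e4 : (0 : ℝ) < 4 ^ H.e n := by positivity
  induction k with
  | zero =>
    have := H.w_diffW (x0 := x0) hb hω ht n R
    unfold Horn.g
    simp only [Function.iterate_zero, id]
    refine this.trans ?_
    apply div_le_div_of_nonneg_right _ e4.le
    push_cast
    rw [pow_zero]
    nlinarith
  | succ k ih =>
    rw [H.g_succ, H.g_succ]
    set G := H.g (fun x => l * ω x) ω n k with hG
    set G' := H.g (fun x => l * ω' x) ω' n k with hG'
    have h1 : ∀ x, H.A (fun x => l * ω' x) G' x - H.A (fun x => l * ω x) G x =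
        H.A (fun x => l * ω x) (fun y => G' y + (-1) * G y) x +
          H.Q (fun y => (l * ω' y - l * ω y) * G' y) x := by
      intro x
      rw [H.A_add, ← H.A_diff]
      ring
    have h2 : ∑ x ∈ H.B R, |H.A (fun x => l * ω' x) G' x - H.A (fun x => l * ω x) G x| / H.W x ≤
        ∑ x ∈ H.B R, |H.A (fun x => l * ω x) (fun y => G' y + (-1) * G y) x| / H.W x +
          ∑ x ∈ H.B R, |H.Q (fun y => (l * ω' y - l * ω y) * G' y) x| / H.W x := by
      rw [← sum_add_distrib]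
      apply sum_le_sum
      intro x _
      rw [h1, ← add_div]
      exact div_le_div_of_nonneg_right (abs_add_le _ _) (H.W_pos x).le
    have h3 : ∑ x ∈ H.B R, |H.A (fun x => l * ω x) (fun y => G' y + (-1) * G y) x| / H.W x ≤
        (27 + 2 * β) * ∑ x ∈ H.B R, |G' x - G x| / H.W x := by
      refine (H.A_l1W (r := n + k) hVb ?_ ?_ (by omega)).trans (le_of_eq ?_)
      · intro i
        rw [sum_add_distrib, ← mul_sum, H.g_zm, H.g_zm]
        ring
      · intro y hy
        show G' y + (-1) * G y = 0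
        rw [hG, hG', H.g_van _ _ _ _ y hy, H.g_van _ _ _ _ y hy]
        ring
      · congr 1
        exact sum_congr rfl fun x _ => by congr 2; ring
    have h4 : ∑ x ∈ H.B R, |H.Q (fun y => (l * ω' y - l * ω y) * G' y) x| / H.W x ≤
        2 * (2 * β * ((27 + 2 * β) ^ k * (2 * b) * Γ / 4 ^ H.e n)) := by
      refine (H.Q_l1W _ R).trans (mul_le_mul_of_nonneg_left ?_ (by norm_num))
      have h5 : ∀ x ∈ H.B R, |(l * ω' x - l * ω x) * G' x| / H.W x ≤
          if x = x0 then 2 * β * ((27 + 2 * β) ^ k * (2 * b) * Γ / 4 ^ H.e n) else 0 := by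
        intro x _
        split_ifs with h
        · rw [abs_mul, mul_div_assoc]
          apply mul_le_mul _ _ (div_nonneg (abs_nonneg _) (H.W_pos x).le) (by positivity)
          · refine (abs_sub _ _).trans ?_
            have e1 := hVb x
            have e2 := hVb' x
            linarith
          · have e1 := H.g_supW hb hβ0 hVb' hω'b n k x
            rw [← hG'] at e1
            refine (div_le_div_of_nonneg_right e1 (H.W_pos x).le).trans ?_
            rw [div_div]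
            have e5 : H.W x * H.W x = 4 ^ H.e (H.sh x0) := by
              rw [h]
              unfold Horn.W
              rw [← mul_pow]
              norm_num
            rw [e5, div_le_div_iff₀ (by positivity) e4]
            have e6 : 0 ≤ (27 + 2 * β) ^ k * (2 * b) := by positivity
            nlinarith [mul_le_mul_of_nonneg_left hΓ e6]
        · rw [hω', Function.update_of_ne h]
          simp
      refine (sum_le_sum h5).trans ?_
      rw [sum_ite_eq']
      split_ifs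
      · exact le_rfl
      · positivity
    have h6 := ih (by omega)
    refine h2.trans ((add_le_add (h3.trans (mul_le_mul_of_nonneg_left h6 (by positivity))) h4).trans ?_)
    rw [show (27 + 2 * β) * (8 * b * ((k : ℝ) + 1) * Γ * (27 + 2 * β) ^ k / 4 ^ H.e n) +
      2 * (2 * β * ((27 + 2 * β) ^ k * (2 * b) * Γ / 4 ^ H.e n)) =
      (8 * b * Γ * (27 + 2 * β) ^ k * ((27 + 2 * β) * ((k : ℝ) + 1) + β)) / 4 ^ H.e n by ring]
    apply div_le_div_of_nonneg_right _ e4.le
    push_cast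
    rw [pow_succ]
    have h8 : 0 ≤ 8 * b * Γ * (27 + 2 * β) ^ k := by positivity
    nlinarith

theorem Horn.p_diffW {l β Γ : ℝ} {k n m : ℕ} (hb : 0 ≤ b) (hl : |l| * b ≤ β) (hβ : β ≤ 1)
    (hω : ∀ x, |ω x| ≤ b) (ht : |t| ≤ b) (hΓ1 : 1 ≤ Γ)
    (hΓ : (4 : ℝ) ^ H.e n ≤ Γ * 4 ^ H.e (H.sh x0)) (hΓm : (4 : ℝ) ^ H.e n ≤ Γ * 4 ^ H.e m) :
    |H.p (fun x => l * Function.update ω x0 t x) (Function.update ω x0 t) k n m -
      H.p (fun x => l * ω x) ω k n m| ≤
      24 * b ^ 2 * (k + 1) * Γ * (27 + 2 * β) ^ k / 4 ^ H.e n := by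
  have hβ0 : 0 ≤ β := le_trans (by positivity) hl
  set R := n + m + k + 1 with hR
  rw [H.p_eq _ _ k n m (R := R) (by omega), H.p_eq _ _ k n m (R := R) (by omega)]
  have h0 := H.g_diffW (x0 := x0) (k := k) hb hl hβ hω ht hΓ1 hΓ (R := R) (by omega)
  set ω' := Function.update ω x0 t with hω'
  have hω'b : ∀ x, |ω' x| ≤ b := by
    intro x
    rw [hω']
    by_cases h : x = x0
    · subst h; simpa using ht
    · simpa [h] using hω x
  have hVb' : ∀ x, |l * ω' x| ≤ β := fun x => by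
    rw [abs_mul]
    exact (mul_le_mul_of_nonneg_left (hω'b x) (abs_nonneg _)).trans hl
  set G := H.g (fun x => l * ω x) ω n k with hG
  set G' := H.g (fun x => l * ω' x) ω' n k with hG'
  rw [← sum_sub_distrib]
  have h1 : ∀ x ∈ H.B R, |H.w ω' m x * G' x - H.w ω m x * G x| ≤
      |H.w ω' m x - H.w ω m x| / H.W x * ((27 + 2 * β) ^ k * (2 * b)) +
        (2 * b) * (|G' x - G x| / H.W x) := by
    intro x _
    have hW := H.W_pos x
    have e1 : H.w ω' m x * G' x - H.w ω m x * G x = (H.w ω' m x - H.w ω m x) * G' x +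
        H.w ω m x * (G' x - G x) := by ring
    rw [e1]
    refine (abs_add_le _ _).trans ?_
    rw [abs_mul, abs_mul]
    have f1 := mul_le_mul_of_nonneg_left (H.g_supW hb hβ0 hVb' hω'b n k x)
      (abs_nonneg (H.w ω' m x - H.w ω m x))
    have f2 := mul_le_mul_of_nonneg_right (H.w_supW hb hω m x) (abs_nonneg (G' x - G x))
    refine (add_le_add f1 f2).trans (le_of_eq ?_)
    ring
  refine (abs_sum_le_sum_abs _ _).trans ((sum_le_sum h1).trans ?_)
  rw [sum_add_distrib, ← sum_mul, ← mul_sum]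
  have h2 := H.w_diffW (x0 := x0) hb hω ht m R
  rw [← hω'] at h2
  have h3 := mul_le_mul_of_nonneg_right h2 (by positivity : (0 : ℝ) ≤ (27 + 2 * β) ^ k * (2 * b))
  have h4 := mul_le_mul_of_nonneg_left h0 (by positivity : (0 : ℝ) ≤ 2 * b)
  refine (add_le_add h3 h4).trans ?_
  have e1 : (0 : ℝ) < 4 ^ H.e n := by positivity
  have e2 : (0 : ℝ) < 4 ^ H.e m := by positivity
  have h5 : 4 * b / 4 ^ H.e m ≤ 4 * b * Γ / 4 ^ H.e n := by
    rw [div_le_div_iff₀ e2 e1]
    nlinarith [mul_le_mul_of_nonneg_left hΓm (by positivity : (0 : ℝ) ≤ 4 * b)]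
  have h6 := mul_le_mul_of_nonneg_right h5 (by positivity : (0 : ℝ) ≤ (27 + 2 * β) ^ k * (2 * b))
  have h7 : 4 * b * Γ / 4 ^ H.e n * ((27 + 2 * β) ^ k * (2 * b)) +
      2 * b * (8 * b * ((k : ℝ) + 1) * Γ * (27 + 2 * β) ^ k / 4 ^ H.e n) ≤
      24 * b ^ 2 * (k + 1) * Γ * (27 + 2 * β) ^ k / 4 ^ H.e n := by
    rw [show 4 * b * Γ / 4 ^ H.e n * ((27 + 2 * β) ^ k * (2 * b)) +
      2 * b * (8 * b * ((k : ℝ) + 1) * Γ * (27 + 2 * β) ^ k / 4 ^ H.e n) =
      (b ^ 2 * Γ * (27 + 2 * β) ^ k * (8 + 16 * ((k : ℝ) + 1))) / 4 ^ H.e n by ring]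
    apply div_le_div_of_nonneg_right _ e1.le
    have h8 : 0 ≤ b ^ 2 * Γ * (27 + 2 * β) ^ k := by positivity
    have h9 : (0 : ℝ) ≤ k := Nat.cast_nonneg k
    nlinarith [mul_nonneg h8 h9]
  linarith

end diff

/-- `f` vanishes below the shell `n - k` -/
def Horn.Low (f : X → ℝ) (n k : ℕ) : Prop := ∀ x, H.sh x + k < n → f x = 0

theorem Horn.A_low {V f : X → ℝ} {n k : ℕ} (hf : H.Low f n k) : H.Low (H.A V f) n (k + 1) := by
  have h1 : H.Low (H.T V f) n (k + 1) := by
    intro x hx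
    unfold Horn.T Horn.L
    rw [hf x (by omega), sum_eq_zero]
    · ring
    · intro y _
      by_cases hy : H.sh y + k < n
      · rw [hf y hy, mul_zero]
      · rw [H.a_zero (Or.inl (by omega)), zero_mul]
  intro x hx
  unfold Horn.A Horn.Q Horn.avg
  rw [h1 x hx, sum_eq_zero, zero_div, sub_zero]
  intro y hy
  rw [H.mem] at hy
  exact h1 y (by omega)

theorem Horn.g_low (V ω : X → ℝ) (n k : ℕ) : H.Low (H.g V ω n k) n k := by
  induction k with
  | zero =>
    intro x hx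
    unfold Horn.g
    rw [Function.iterate_zero, id]
    unfold Horn.w
    rw [if_neg (by omega)]
  | succ k ih =>
    rw [H.g_succ]
    exact H.A_low ih

theorem Horn.A_congr2 {V V' f : X → ℝ} {r n k : ℕ} (hf : H.Van f r) (hf2 : H.Low f n k)
    (h : ∀ x, H.sh x ≤ r → n ≤ H.sh x + k → V x = V' x) : H.A V f = H.A V' f := by
  have h1 : H.T V f = H.T V' f := by
    funext x
    unfold Horn.T
    by_cases hx : H.sh x ≤ r
    · by_cases hx2 : n ≤ H.sh x + k
      · rw [h x hx hx2]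
      · rw [hf2 x (by omega), mul_zero, mul_zero]
    · rw [hf x (by omega), mul_zero, mul_zero]
  unfold Horn.A
  rw [h1]

theorem Horn.w_congr2 {ω ω' : X → ℝ} {n : ℕ} (h : ∀ x, H.sh x = n → ω x = ω' x) :
    H.w ω n = H.w ω' n := by
  have hv : H.v ω n = H.v ω' n := by
    unfold Horn.v
    rw [sum_congr rfl]
    intro x hx
    rw [H.mem] at hx
    exact h x hx
  funext x
  unfold Horn.w
  split_ifs with hx
  · rw [h x hx, hv]
  · rfl

/-- the sites of the shells at distance at most `k` from `n` -/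
def Horn.Win (n k : ℕ) : Finset X := (H.B (n + k)).filter (fun x => n ≤ H.sh x + k)

theorem Horn.mem_Win {n k : ℕ} {x : X} : x ∈ H.Win n k ↔ H.sh x ≤ n + k ∧ n ≤ H.sh x + k := by
  unfold Horn.Win
  rw [mem_filter, H.mem_B]

theorem Horn.g_congr2 {l : ℝ} {ω ω' : X → ℝ} {n k : ℕ}
    (h : ∀ x, H.sh x ≤ n + k → n ≤ H.sh x + k → ω x = ω' x) :
    H.g (fun x => l * ω x) ω n k = H.g (fun x => l * ω' x) ω' n k := by
  induction k with
  | zero =>
    unfold Horn.g
    simp only [Function.iterate_zero, id]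
    exact H.w_congr2 fun x hx => h x (by omega) (by omega)
  | succ k ih =>
    rw [H.g_succ, H.g_succ, ih (fun x hx hx2 => h x (by omega) (by omega))]
    exact H.A_congr2 (H.g_van _ _ n k) (H.g_low _ _ n k)
      fun x hx hx2 => by rw [h x (by omega) (by omega)]

theorem Horn.p_congr2 {l : ℝ} {ω ω' : X → ℝ} {n k m : ℕ} (hm1 : m ≤ n + k) (hm2 : n ≤ m + k)
    (h : ∀ x ∈ H.Win n k, ω x = ω' x) :
    H.p (fun x => l * ω x) ω k n m = H.p (fun x => l * ω' x) ω' k n m := by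
  have h' : ∀ x, H.sh x ≤ n + k → n ≤ H.sh x + k → ω x = ω' x :=
    fun x h1 h2 => h x (H.mem_Win.2 ⟨h1, h2⟩)
  unfold Horn.p
  rw [H.g_congr2 h', H.w_congr2 (n := m) (ω := ω) (ω' := ω') fun x hx => h' x (by omega) (by omega)]

theorem Horn.card_Win {Γ : ℝ} {n k : ℕ} (hkn : k ≤ n)
    (hΓ : ∀ i, n ≤ i + k → i ≤ n + k → (4 : ℝ) ^ H.e i ≤ Γ * 4 ^ H.e n) :
    ((H.Win n k).card : ℝ) ≤ (2 * k + 1) * (Γ * 4 ^ H.e n) := by
  have h1 : H.Win n k ⊆ (Finset.Icc (n - k) (n + k)).biUnion H.Sh := by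
    intro x hx
    rw [H.mem_Win] at hx
    rw [mem_biUnion]
    exact ⟨H.sh x, Finset.mem_Icc.2 ⟨by omega, by omega⟩, (H.mem _ _).2 rfl⟩
  have h2 : ((H.Win n k).card : ℝ) ≤ ∑ i ∈ Finset.Icc (n - k) (n + k), ((H.Sh i).card : ℝ) := by
    have h3 := (card_le_card h1).trans card_biUnion_le
    exact_mod_cast h3
  refine h2.trans ?_
  have h4 : ∀ i ∈ Finset.Icc (n - k) (n + k), ((H.Sh i).card : ℝ) ≤ Γ * 4 ^ H.e n := by
    intro i hi
    rw [Finset.mem_Icc] at hi
    rw [H.card]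
    push_cast
    exact hΓ i (by omega) (by omega)
  refine (sum_le_sum h4).trans ?_
  rw [sum_const, Nat.card_Icc, nsmul_eq_mul, show n + k + 1 - (n - k) = 2 * k + 1 by omega]
  push_cast
  exact le_rfl

end Pool.Agent.Helper32.PG
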