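import Pool.Agent.Helper32.PG.Ker

/-!
Absence of eigenvalues.
-/

set_option autoImplicit false
set_option linter.unusedSectionVars false

namespace Pool.Agent.Helper32.PG

open Finset MeasureTheory Filter

variable {X : Type} [DecidableEq X] (H : Horn X)

section et

variable {r : ℝ} {N0 n0 : ℕ} {e : ℕ → ℕ}

theorem frac_slow (hr : 0 < r) (hN : 1 ≤ N0) (hN2 : 1 + 3 / (N0 : ℝ) ≤ r⁻¹) (n : ℕ) :
    ((N0 : ℝ) / ((n : ℝ) + N0)) ^ 2 ≤ r⁻¹ * ((N0 : ℝ) / (((n + 1 : ℕ) : ℝ) + N0)) ^ 2 := by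
  have h0 : (1 : ℝ) ≤ N0 := by exact_mod_cast hN
  have hn : (0 : ℝ) ≤ n := Nat.cast_nonneg n
  have h1 : ((N0 : ℝ) / ((n : ℝ) + N0)) ^ 2 ≤
      (1 + 3 / (N0 : ℝ)) * ((N0 : ℝ) / (((n + 1 : ℕ) : ℝ) + N0)) ^ 2 := by
    push_cast
    rw [div_pow, div_pow, one_add_div (by positivity), div_mul_div_comm,
      div_le_div_iff₀ (by positivity) (by positivity)]
    have h2 : (N0 : ℝ) * ((n : ℝ) + 1 + N0) ^ 2 ≤ ((N0 : ℝ) + 3) * ((n : ℝ) + N0) ^ 2 := by
      nlinarith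
    have h3 : (0 : ℝ) ≤ (N0 : ℝ) ^ 2 := by positivity
    nlinarith [mul_le_mul_of_nonneg_left h2 h3]
  refine h1.trans (mul_le_mul_of_nonneg_right hN2 (by positivity))

theorem frac_anti (hN : 1 ≤ N0) (n : ℕ) :
    ((N0 : ℝ) / (((n + 1 : ℕ) : ℝ) + N0)) ^ 2 ≤ ((N0 : ℝ) / ((n : ℝ) + N0)) ^ 2 := by
  have h0 : (1 : ℝ) ≤ N0 := by exact_mod_cast hN
  have hn : (0 : ℝ) ≤ n := Nat.cast_nonneg n
  apply pow_le_pow_left₀ (by positivity)
  apply div_le_div_of_nonneg_left (by positivity) (by positivity)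
  push_cast
  linarith

theorem eta_up (hr : 0 < r) (hr1 : r < 1) (hN : 1 ≤ N0)
    (hd1 : ∀ n, dist e n ≤ dist e (n + 1) + 1) (n : ℕ) :
    eta r N0 n0 e (n + 1) ≤ r⁻¹ * eta r N0 n0 e n := by
  unfold eta
  have h1 := pow_sub_le hr hr1 (hd1 n)
  have h2 : r ^ (n + 1 - n0) ≤ r⁻¹ * r ^ (n - n0) := pow_sub_le hr hr1 (by omega)
  have h3 := frac_anti hN n
  have h4 : (1 : ℝ) ≤ r⁻¹ := (one_le_inv₀ hr).2 hr1.le
  have h5 : (0 : ℝ) ≤ ((N0 : ℝ) / ((n : ℝ) + N0)) ^ 2 := by positivity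
  nlinarith

theorem eta_dn (hr : 0 < r) (hr1 : r < 1) (hN : 1 ≤ N0) (hN2 : 1 + 3 / (N0 : ℝ) ≤ r⁻¹)
    (hd2 : ∀ n, dist e (n + 1) ≤ dist e n + 1) (n : ℕ) :
    eta r N0 n0 e n ≤ r⁻¹ * eta r N0 n0 e (n + 1) := by
  unfold eta
  have h1 := pow_sub_le hr hr1 (hd2 n)
  have h2 : r ^ (n - n0) ≤ r⁻¹ * r ^ (n + 1 - n0) := pow_sub_le hr hr1 (by omega)
  have h3 := frac_slow hr hN hN2 n
  linarith

theorem eta_le (hr : 0 < r) (hr1 : r < 1) (hN : 1 ≤ N0) (n : ℕ) : eta r N0 n0 e n ≤ 3 := by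
  unfold eta
  have h1 : r ^ dist e n ≤ 1 := pow_le_one₀ hr.le hr1.le
  have h2 : r ^ (n - n0) ≤ 1 := pow_le_one₀ hr.le hr1.le
  have h0 : (1 : ℝ) ≤ N0 := by exact_mod_cast hN
  have hn : (0 : ℝ) ≤ n := Nat.cast_nonneg n
  have h3 : ((N0 : ℝ) / ((n : ℝ) + N0)) ^ 2 ≤ 1 := by
    apply pow_le_one₀ (by positivity)
    rw [div_le_one (by positivity)]
    linarith
  linarith

theorem prod_bound {A τ : ℝ} (hr : 0 < r) (hr1 : r < 1) (hN : 1 ≤ N0) (hτ : 0 < τ)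
    (hA : ∀ N : ℕ, ∑ n ∈ range N, r ^ dist e n ≤ A * (1 + Real.log ((N : ℝ) + 1)))
    (hτA : τ * |A| ≤ 1) : ∃ C : ℝ, 0 ≤ C ∧
      ∀ N : ℕ, ∏ n ∈ range N, (1 + τ * eta r N0 n0 e n) ≤ C * (N + 1) := by
  set Z : ℝ := ∑' n : ℕ, 1 / ((n : ℝ) + 1) ^ 2 with hZ
  have hsum : Summable fun n : ℕ => 1 / ((n : ℝ) + 1) ^ 2 := by
    have h4 : Summable fun n : ℕ => 1 / ((n : ℝ)) ^ 2 := Real.summable_one_div_nat_pow.2 (by norm_num)
    refine ((summable_nat_add_iff 1).2 h4).congr fun n => ?_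
    push_cast
    ring
  set C' : ℝ := |A| + (r⁻¹ ^ n0 * (1 / (1 - r)) + (N0 : ℝ) ^ 2 * Z) with hC'
  refine ⟨Real.exp (τ * C'), (Real.exp_pos _).le, fun N => ?_⟩
  have h1 : ∀ n, 1 + τ * eta r N0 n0 e n ≤ Real.exp (τ * eta r N0 n0 e n) := fun n => by
    have := Real.add_one_le_exp (τ * eta r N0 n0 e n)
    linarith
  have h2 : ∏ n ∈ range N, (1 + τ * eta r N0 n0 e n) ≤
      ∏ n ∈ range N, Real.exp (τ * eta r N0 n0 e n) := by
    apply Finset.prod_le_prod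
    · intro n _
      have := eta_pos (n0 := n0) hr hN e n
      positivity
    · intro n _
      exact h1 n
  refine h2.trans ?_
  rw [← Real.exp_sum, ← mul_sum]
  have hlog : 0 ≤ Real.log ((N : ℝ) + 1) := Real.log_nonneg (by linarith [Nat.cast_nonneg (α := ℝ) N])
  have h3 : ∑ n ∈ range N, eta r N0 n0 e n ≤ |A| * Real.log ((N : ℝ) + 1) + C' := by
    unfold eta
    rw [sum_add_distrib, sum_add_distrib]
    have e1 : ∑ n ∈ range N, r ^ dist e n ≤ |A| * (1 + Real.log ((N : ℝ) + 1)) :=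
      (hA N).trans (mul_le_mul_of_nonneg_right (le_abs_self A) (by linarith))
    have e2 : ∑ n ∈ range N, r ^ (n - n0) ≤ r⁻¹ ^ n0 * (1 / (1 - r)) := by
      have f1 : ∀ n, r ^ (n - n0) ≤ r⁻¹ ^ n0 * r ^ n := by
        intro n
        have g1 : r ^ (n - n0 + n0) ≤ r ^ n := pow_le_pow_of_le_one hr.le hr1.le (by omega)
        rw [pow_add] at g1
        rw [inv_pow, inv_mul_eq_div, le_div_iff₀ (by positivity)]
        exact g1
      refine (sum_le_sum fun n _ => f1 n).trans ?_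
      rw [← mul_sum]
      apply mul_le_mul_of_nonneg_left _ (by positivity)
      rw [one_div, ← tsum_geometric_of_lt_one hr.le hr1]
      exact (summable_geometric_of_lt_one hr.le hr1).sum_le_tsum _ (fun k _ => by positivity)
    have e3 : ∑ n ∈ range N, ((N0 : ℝ) / ((n : ℝ) + N0)) ^ 2 ≤ (N0 : ℝ) ^ 2 * Z := by
      have h0 : (1 : ℝ) ≤ N0 := by exact_mod_cast hN
      have f1 : ∀ n : ℕ, ((N0 : ℝ) / ((n : ℝ) + N0)) ^ 2 ≤ (N0 : ℝ) ^ 2 * (1 / ((n : ℝ) + 1) ^ 2) := by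
        intro n
        have hn : (0 : ℝ) ≤ n := Nat.cast_nonneg n
        rw [div_pow, mul_one_div]
        apply div_le_div_of_nonneg_left (by positivity) (by positivity)
        apply pow_le_pow_left₀ (by positivity)
        linarith
      refine (sum_le_sum fun n _ => f1 n).trans ?_
      rw [← mul_sum]
      apply mul_le_mul_of_nonneg_left _ (by positivity)
      exact hsum.sum_le_tsum _ (fun k _ => by positivity)
    rw [hC']
    linarith
  have h4 : τ * ∑ n ∈ range N, eta r N0 n0 e n ≤ τ * C' + Real.log ((N : ℝ) + 1) := by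
    have h5 := mul_le_mul_of_nonneg_left h3 hτ.le
    have h6 : τ * |A| * Real.log ((N : ℝ) + 1) ≤ 1 * Real.log ((N : ℝ) + 1) :=
      mul_le_mul_of_nonneg_right hτA hlog
    linarith
  refine (Real.exp_le_exp.2 h4).trans (le_of_eq ?_)
  rw [Real.exp_add, Real.exp_log (by positivity)]

end et

/-- parameters which depend on the window only: the decay rate `s` and the number `c` -/
structure Par (E₁ E₂ : ℝ) where
  s : ℝ
  β : ℝ
  c : ℕ
  r : ℝ
  N0 : ℕ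
  hs : 0 < s
  hs1 : s < 1
  hβ : 0 < β
  hβ1 : β ≤ 1
  hβ2 : β ≤ (12 - E₂) / 2
  hE : 12 - 1 / 100 + β < E₁
  hzs : ∀ x E : ℝ, 0 ≤ x → x ≤ β → E₁ < E → (27 - 1 / 100 + x) / (E + 15) ≤ s ^ 2
  hc : s ^ c ≤ 1 / 4
  hr : 0 < r
  hr1 : r < 1
  hrs : s ≤ r ^ 2
  hrs2 : s = r ^ 4
  hN : 1 ≤ N0
  hN2 : 1 + 3 / (N0 : ℝ) ≤ r⁻¹

theorem exists_par {E₁ E₂ : ℝ} (h1 : 12 - 1 / 100 < E₁) (h2 : E₁ < E₂) (h3 : E₂ < 12) :
    Nonempty (Par E₁ E₂) := by
  set β : ℝ := min ((E₁ - (12 - 1 / 100)) / 2) ((12 - E₂) / 2) with hβ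
  have hβ0 : 0 < β := lt_min (by linarith) (by linarith)
  have hβa : β ≤ (E₁ - (12 - 1 / 100)) / 2 := min_le_left _ _
  have hβb : β ≤ (12 - E₂) / 2 := min_le_right _ _
  set q : ℝ := (27 - 1 / 100 + β) / (E₁ + 15) with hq
  have hq0 : 0 < q := by rw [hq]; apply div_pos <;> linarith
  have hq1 : q < 1 := by
    rw [hq, div_lt_one (by linarith)]
    linarith
  -- `r = q ^ (1/8)`
  set r : ℝ := √(√(√q)) with hr
  have hr0 : 0 < r := by rw [hr]; positivity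
  have hr1 : r < 1 := by
    rw [hr]
    rw [Real.sqrt_lt' one_pos, one_pow, Real.sqrt_lt' one_pos, one_pow, Real.sqrt_lt' one_pos, one_pow]
    exact hq1
  have hr2 : r ^ 2 = √(√q) := by rw [hr]; exact Real.sq_sqrt (by positivity)
  have hr4 : r ^ 4 = √q := by
    rw [show (4 : ℕ) = 2 * 2 by norm_num, pow_mul, hr2]
    exact Real.sq_sqrt (by positivity)
  have hr8 : (r ^ 4) ^ 2 = q := by rw [hr4]; exact Real.sq_sqrt hq0.le
  have hs0 : 0 < r ^ 4 := by positivity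
  have hs1 : r ^ 4 < 1 := pow_lt_one₀ hr0.le hr1 (by norm_num)
  obtain ⟨c, hc⟩ := exists_pow_lt_of_lt_one (by norm_num : (0 : ℝ) < 1 / 4) hs1
  have hri : 0 < r⁻¹ - 1 := by
    have := (one_lt_inv₀ hr0).2 hr1
    linarith
  obtain ⟨N, hN⟩ := exists_nat_gt (3 / (r⁻¹ - 1))
  refine ⟨⟨r ^ 4, β, c, r, N + 1, hs0, hs1, hβ0, by linarith, hβb, by linarith, ?_, hc.le, hr0, hr1,
    ?_, rfl, by omega, ?_⟩⟩
  · intro x E hx hxβ hE
    rw [hr8, hq, div_le_div_iff₀ (by linarith) (by linarith)]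
    nlinarith
  · exact pow_le_pow_of_le_one hr0.le hr1.le (by norm_num)
  · have h5 : 3 / ((N + 1 : ℕ) : ℝ) ≤ r⁻¹ - 1 := by
      rw [div_le_iff₀ (by positivity)]
      rw [div_lt_iff₀ hri] at hN
      push_cast
      linarith
    linarith

/-- absence of eigenvalues in the window `(E₁, E₂)` -/
theorem Horn.no_eig [Countable X] (hV : S_Virial) (hDev : S_Dev) (hSum : S_Sum) {E₁ E₂ : ℝ}
    (P : Par E₁ E₂) {j : ℕ} {C0 : ℝ} (hj1 : ∀ n : ℕ, (2 : ℝ) ^ H.e n ≤ C0 * ((n : ℝ) + 1) ^ j)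
    (hj2 : ∀ n : ℕ, ((n : ℝ) + 1) ^ j ≤ C0 * 2 ^ H.e n) (hcj : 19 * P.c + 9 ≤ 2 * j)
    {b : ℝ} (hb : 0 < b) : ∃ l0 > (0 : ℝ), ∀ l : ℝ, |l| ≤ l0 →
      ∀ (μ : Measure ℝ) [IsProbabilityMeasure μ], μ (Set.Icc (-b) b)ᶜ = 0 →
      ∀ᵐ ω ∂(PX X μ), (∀ x, |ω x| ≤ b) → ∀ E, E₁ < E → E < E₂ → ∀ (u : X → ℝ) (U : ℝ),
        (∀ R, ∑ x ∈ H.B R, u x ^ 2 ≤ U) → H.Sol l E ω u → ∀ x, u x = 0 := by
  obtain ⟨s, β, c, r, N0, hs, hs1, hβ, hβ1, hβ2, hE, hzs, hc, hr, hr1, hrs, hrs4, hN, hN2⟩ := P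
  simp only at hcj
  obtain ⟨hd1, hd2, hdn, hd, A, hA⟩ := hSum r hr hr1 H.e j C0 H.e0 H.estep hj1
  -- the parameter τ
  set τ : ℝ := min ((1 - r ^ 2) / 15) (1 / (|A| + 1)) with hτ
  have hr2 : 0 < 1 - r ^ 2 := by
    have : r ^ 2 < 1 := pow_lt_one₀ hr.le hr1 (by norm_num)
    linarith
  have hτ0 : 0 < τ := lt_min (by positivity) (by positivity)
  have hτ1 : τ ≤ (1 - r ^ 2) / 15 := min_le_left _ _
  have hτ2 : τ * |A| ≤ 1 := by
    have h1 : τ ≤ 1 / (|A| + 1) := min_le_right _ _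
    have h2 : τ * |A| ≤ 1 / (|A| + 1) * |A| := mul_le_mul_of_nonneg_right h1 (abs_nonneg _)
    refine h2.trans ?_
    rw [div_mul_eq_mul_div, one_mul, div_le_one (by positivity)]
    linarith
  have hτ3 : τ ≤ 1 := by nlinarith [sq_nonneg r]
  set θ : ℝ := r⁻¹ * (1 + 3 * τ) with hθ
  have hri : 1 < r⁻¹ := (one_lt_inv₀ hr).2 hr1
  have hθ1 : 1 < θ := by rw [hθ]; nlinarith
  have hθs : s * θ ^ 2 < 1 := by
    rw [hθ, hrs4]
    have h1 : r ^ 4 * (r⁻¹ * (1 + 3 * τ)) ^ 2 = r ^ 2 * (1 + 3 * τ) ^ 2 := by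
      field_simp
    rw [h1]
    have h2 : (1 + 3 * τ) ^ 2 ≤ 1 + 15 * τ := by nlinarith
    have h3 : r ^ 2 * (1 + 3 * τ) ^ 2 ≤ r ^ 2 * (1 + 15 * τ) := by gcongr
    have h4 : 0 < r ^ 2 := by positivity
    have h5 : r ^ 2 * (1 + 15 * τ) ≤ r ^ 2 * (1 + (1 - r ^ 2)) := by
      apply mul_le_mul_of_nonneg_left _ h4.le
      linarith
    nlinarith
  set κ : ℝ := (2 + 8 * b ^ 2) / (1 - s) + (2 * b + 1) with hκ
  have hs2 : 0 < 1 - s := by linarith
  have hκ0 : 0 < κ := by positivity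
  have hκ1 : b ^ 2 / (1 - s) ≤ κ := by
    rw [hκ]
    have : b ^ 2 / (1 - s) ≤ (2 + 8 * b ^ 2) / (1 - s) := by
      apply div_le_div_of_nonneg_right _ hs2.le
      nlinarith [sq_nonneg b]
    linarith
  have hκ2 : (2 + 8 * b ^ 2) / (1 - s) ≤ κ := by rw [hκ]; linarith
  have hκ3 : 2 * b + 1 ≤ κ := by
    rw [hκ]
    have : 0 < (2 + 8 * b ^ 2) / (1 - s) := by positivity
    linarith
  set δ : ℝ := (12 - E₂) / 8 with hδ
  have hδ0 : 0 < δ := by rw [hδ]; linarith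
  obtain ⟨l1, hl1, hVir⟩ := hV s θ κ δ τ hs hs1 hθ1 hθs hκ0 hδ0 hτ0
  refine ⟨min l1 (β / b), lt_min hl1 (by positivity), fun l hl μ _ hμ => ?_⟩
  have hll : |l| ≤ l1 := hl.trans (min_le_left _ _)
  have hlβ : |l| * b ≤ β := by
    have := hl.trans (min_le_right _ _)
    rwa [le_div_iff₀ hb] at this
  have hlb1 : |l| * b ≤ 1 := hlβ.trans hβ1
  have hlb0 : 0 ≤ |l| * b := by positivity
  filter_upwards [H.ae_good hDev hb.le hμ hlb1 hj2 hcj] with ω hgood hω E hE1 hE2 u U hU hu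
  obtain ⟨n0, hgood⟩ := hgood
  have hz : 1 ≤ E + 15 := by linarith
  have hz2 := hzs (|l| * b) E hlb0 hlβ hE1
  obtain ⟨C1, hC1, hprod⟩ := prod_bound (n0 := n0) (N0 := N0) hr hr1 hN hτ0 hA hτ2
  have hU0 : 0 ≤ U := (sum_nonneg fun x _ => sq_nonneg _).trans (hU 0)
  have hmean : |mean μ| ≤ b := by
    have h1 : ∀ᵐ t ∂μ, ‖t‖ ≤ b := by
      rw [ae_iff]
      refine measure_mono_null ?_ hμ
      intro t ht
      rw [Set.mem_ofPred_eq] at ht
      intro h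
      apply ht
      rw [Real.norm_eq_abs]
      exact abs_le.2 h
    have h2 := norm_integral_le_of_norm_le_const h1
    unfold mean
    rw [Real.norm_eq_abs] at h2
    simpa using h2
  have hsq : s ^ 2 ≤ s := by nlinarith
  have key := hVir l ((E - 8) / 4 - l * mean μ / 4) hll (by
    have h1 : |l * mean μ| ≤ β := by
      rw [abs_mul]
      exact (mul_le_mul_of_nonneg_left hmean (abs_nonneg _)).trans hlβ
    have h2 := abs_le.1 h1
    rw [abs_le, hδ]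
    constructor <;> linarith [h2.1, h2.2])
    (H.ph u) (fun n => H.v ω n - mean μ) (H.hh ω u) (eta r N0 n0 H.e)
    (fun M n m => H.SS (fun x => l * ω x) ω (E + 15) M n m) (b * √U + C1)
    (H.ph_summable hU)
    (fun n => by
      have := H.rec_succ hu n
      linear_combination this)
    (by
      have := H.rec_zero hu
      linear_combination this)
    (fun M n => by
      have h1 := H.hh_bound (by linarith) hlb1 hb.le hω hu hU M n
      refine h1.trans ?_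
      apply mul_le_mul (by linarith) _ (by positivity) (by positivity)
      exact pow_le_pow_left₀ (by positivity) (hz2.trans hsq) M)
    (fun M n m => H.SS_symm _ _ _ _ _ _)
    (fun M n k => (H.SS_bound hb.le hlb1 hz hz2 hs hs1 hω M n k).trans (by gcongr))
    (fun M n k => by
      have h1 := (H.SS_diff hb.le hlb1 hz hz2 hs hs1 hω hc hr hr1 hrs hN hgood hd hdn M n k).1
      refine h1.trans (le_of_eq_of_le (by ring) (mul_le_mul_of_nonneg_right
        (mul_le_mul_of_nonneg_right hκ2 (eta_pos (n0 := n0) hr hN H.e n).le) (by positivity))))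
    (fun M n k => by
      have h1 := (H.SS_diff hb.le hlb1 hz hz2 hs hs1 hω hc hr hr1 hrs hN hgood hd hdn M n k).2
      refine h1.trans (le_of_eq_of_le (by ring) (mul_le_mul_of_nonneg_right
        (mul_le_mul_of_nonneg_right hκ2 (eta_pos (n0 := n0) hr hN H.e (n + k)).le) (by positivity))))
    (fun n => eta_pos hr hN H.e n)
    (fun n => eta_le hr hr1 hN n)
    (fun n => by
      have hp := eta_pos (n0 := n0) hr hN H.e n
      by_cases hn : n0 ≤ n
      · have h1 := (hgood n hn).1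
        have h2 := eta_sq (n0 := n0) hr hN H.e n
        refine (h1.trans h2).trans ?_
        nlinarith
      · have h1 : |H.v ω n - mean μ| ≤ 2 * b := by
          refine (abs_sub _ _).trans ?_
          have := H.v_abs hω n
          linarith
        have h2 : 1 ≤ eta r N0 n0 H.e n := by
          unfold eta
          rw [show n - n0 = 0 by omega, pow_zero]
          have : 0 ≤ r ^ dist H.e n + ((N0 : ℝ) / ((n : ℝ) + N0)) ^ 2 := by positivity
          linarith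
        refine h1.trans ?_
        nlinarith)
    (fun n => by
      have h1 : s ^ n ≤ r ^ dist H.e n := by
        calc s ^ n ≤ r ^ n := pow_le_pow_left₀ hs.le (hrs.trans (by nlinarith)) n
          _ ≤ r ^ dist H.e n := pow_le_pow_of_le_one hr.le hr1.le (hdn n)
      refine h1.trans ?_
      unfold eta
      have : 0 ≤ r ^ (n - n0) + ((N0 : ℝ) / ((n : ℝ) + N0)) ^ 2 := by positivity
      linarith)
    (fun n => by
      have h1 := eta_up (n0 := n0) hr hr1 hN hd1 n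
      have h2 := eta_le (n0 := n0) (e := H.e) hr hr1 hN n
      have h3 := eta_pos (n0 := n0) hr hN H.e n
      have h4 : 1 + τ * eta r N0 n0 H.e n ≤ 1 + 3 * τ := by nlinarith
      refine (mul_le_mul h1 h4 (by positivity) (by positivity)).trans (le_of_eq ?_)
      rw [hθ]
      ring)
    (fun n => by
      have h1 := eta_dn (n0 := n0) hr hr1 hN hN2 hd2 n
      have h3 := eta_pos (n0 := n0) hr hN H.e (n + 1)
      refine h1.trans ?_
      apply mul_le_mul_of_nonneg_right _ h3.le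
      rw [hθ]
      nlinarith)
    (fun n => by
      have h2 := eta_le (n0 := n0) (e := H.e) hr hr1 hN n
      rw [hθ]
      nlinarith)
    (fun N => (hprod N).trans (by
      apply mul_le_mul_of_nonneg_right _ (by positivity)
      have : 0 ≤ b * √U := by positivity
      linarith))
  exact H.final (by linarith) hlb1 hb.le hω hu hU key

end Pool.Agent.Helper32.PG
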