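import Pool.Agent.Helper32.PG.KerC

/-!
The source of the resolvent equation at a vertex `x0`.
-/

set_option autoImplicit false
set_option linter.unusedSectionVars false

namespace Pool.Agent.Helper32.PG

open Finset Filter Topology MeasureTheory

variable {X : Type} [DecidableEq X] (H : Horn X)

/-- the indicator of `x0` -/
def dl (x0 : X) (x : X) : ℝ := if x = x0 then 1 else 0

theorem sum_dl {x0 : X} {s : Finset X} (h : x0 ∈ s) (F : X → ℝ) : ∑ x ∈ s, F x * dl x0 x = F x0 := by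
  unfold dl
  simp only [mul_ite, mul_one, mul_zero]
  rw [sum_ite_eq' s x0, if_pos h]

theorem Horn.dl_van (x0 : X) : H.Van (dl x0) (H.sh x0) := by
  intro y hy
  unfold dl
  rw [if_neg]
  rintro rfl
  omega

theorem Horn.sq_le_of {f : X → ℝ} {F : ℝ} (x0 : X) {R : ℕ} (hR : H.sh x0 ≤ R)
    (hF : ∑ x ∈ H.B R, f x ^ 2 ≤ F ^ 2) (hF0 : 0 ≤ F) : |f x0| ≤ F := by
  apply abs_le_of_sq_le_sq _ hF0
  exact (single_le_sum (f := fun x => f x ^ 2) (fun x _ => sq_nonneg _) (H.mem_B.2 hR)).trans hF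

section

variable {l b : ℝ} {ω : X → ℝ}

theorem Horn.A_iter_le (hb : 0 ≤ b) (hl : |l| * b ≤ 1) (hω : ∀ x, |ω x| ≤ b) {f : X → ℝ} {r : ℕ}
    (hf : H.Van f r) (zf : H.ZM f) {F : ℝ} (hF : ∀ R, ∑ x ∈ H.B R, f x ^ 2 ≤ F ^ 2) (k : ℕ) {R : ℕ}
    (hR : r + k + 1 ≤ R) :
    ∑ x ∈ H.B R, (H.A fun x => l * ω x)^[k] f x ^ 2 ≤ ((27 - 1 / 100 + |l| * b) ^ k * F) ^ 2 := by
  have hl0 : 0 ≤ |l| * b := by positivity
  have h1 := H.A_iter_norm (V := fun x => l * ω x) (fun x => by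
    rw [abs_mul]
    exact mul_le_mul_of_nonneg_left (hω x) (abs_nonneg _)) hl hl0 hf zf k hR
  refine h1.trans ((mul_le_mul_of_nonneg_left (hF R) (by positivity)).trans (le_of_eq ?_))
  rw [mul_pow, ← pow_mul, mul_comm k 2]

theorem Horn.A_at (hb : 0 ≤ b) (hl : |l| * b ≤ 1) (hω : ∀ x, |ω x| ≤ b) {f : X → ℝ} {r : ℕ}
    (hf : H.Van f r) (zf : H.ZM f) {F : ℝ} (hF0 : 0 ≤ F) (hF : ∀ R, ∑ x ∈ H.B R, f x ^ 2 ≤ F ^ 2)
    (x0 : X) (k : ℕ) : |(H.A fun x => l * ω x)^[k] f x0| ≤ (27 - 1 / 100 + |l| * b) ^ k * F := by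
  have hl0 : 0 ≤ |l| * b := by positivity
  exact H.sq_le_of x0 (R := H.sh x0 + (r + k + 1)) (by omega)
    (H.A_iter_le hb hl hω hf zf hF k (by omega)) (by positivity)

theorem Horn.w_at_zero {x0 : X} {n k : ℕ} (h : H.sh x0 + k < n) :
    (H.A fun x => l * ω x)^[k] (H.w ω n) x0 = 0 := by
  set V : X → ℝ := fun x => l * ω x with hV
  set R := n + k + 1 with hR
  have h1 : (H.A V)^[k] (H.w ω n) x0 = ∑ x ∈ H.B R, (H.A V)^[k] (H.w ω n) x * dl x0 x :=
    (sum_dl (H.mem_B.2 (by omega)) _).symm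
  have zw := H.A_iter_zm V (H.w_zm ω n) k
  have h2 : ∑ x ∈ H.B R, (H.A V)^[k] (H.w ω n) x * dl x0 x =
      ∑ x ∈ H.B R, (H.A V)^[k] (H.w ω n) x * H.Q (dl x0) x := by
    rw [← H.sum_Q, H.Q_id zw]
  rw [h1, h2, H.A_iter_sym V (H.w_van ω n) k (H.w_zm ω n) (H.Q_zm _) (R := R) (by omega)]
  rw [H.w_sum ω _ (by omega)]
  apply sum_eq_zero
  intro x hx
  rw [H.mem] at hx
  rw [H.A_iter_van V (H.Q_van (H.dl_van x0)) k x (by omega), mul_zero]

theorem Horn.zm_root {f : X → ℝ} (zf : H.ZM f) {x0 : X} (h0 : H.sh x0 = 0) : f x0 = 0 := by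
  have h1 := H.card 0
  rw [H.e0, pow_zero, card_eq_one] at h1
  obtain ⟨a, ha⟩ := h1
  have h3 : x0 ∈ H.Sh 0 := (H.mem _ _).2 h0
  have h4 := zf 0
  rw [ha, sum_singleton] at h4
  rw [ha, mem_singleton] at h3
  rw [h3, h4]

variable {E y : ℝ} {x0 : X}

/-- the source term of the self energy -/
noncomputable def Horn.src (l : ℝ) (ω : X → ℝ) (ζ : ℂ) (x0 : X) (n : ℕ) : ℂ :=
  ∑' k : ℕ, ζ⁻¹ ^ (k + 1) * (((H.A fun x => l * ω x)^[k] (H.w ω n) x0 : ℝ) : ℂ)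

variable {q s : ℝ}

theorem pow_ratio {E l b q : ℝ} (hE : 0 < E) (hb : 0 ≤ b)
    (hzs : (27 - 1 / 100 + |l| * b) / (E + 15) ≤ q) (y : ℝ) (k : ℕ) {t F : ℝ} (hF : 0 ≤ F)
    (ht : |t| ≤ (27 - 1 / 100 + |l| * b) ^ k * F) :
    ‖(zt E y)⁻¹ ^ (k + 1) * (t : ℂ)‖ ≤ F * q ^ k := by
  have hl0 : 0 ≤ |l| * b := by positivity
  rw [norm_mul, norm_pow, Complex.norm_real, Real.norm_eq_abs]
  have h1 : ‖(zt E y)⁻¹‖ ^ (k + 1) ≤ (E + 15)⁻¹ ^ (k + 1) :=
    pow_le_pow_left₀ (norm_nonneg _) (zt_inv hE y) _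
  have hz : 1 ≤ E + 15 := by linarith
  have hz0 : 0 < E + 15 := by linarith
  have h5 : (E + 15)⁻¹ ≤ 1 := inv_le_one_of_one_le₀ hz
  have h6 : 0 < (E + 15)⁻¹ := inv_pos.2 hz0
  have h2 : (E + 15)⁻¹ ^ (k + 1) ≤ (E + 15)⁻¹ ^ k := by
    rw [pow_succ]
    have : 0 < (E + 15)⁻¹ ^ k := by positivity
    nlinarith
  refine (mul_le_mul (h1.trans h2) ht (abs_nonneg _) (by positivity)).trans ?_
  have h3 : (E + 15)⁻¹ ^ k * ((27 - 1 / 100 + |l| * b) ^ k * F) =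
      F * ((27 - 1 / 100 + |l| * b) / (E + 15)) ^ k := by
    rw [div_pow, inv_pow]
    field_simp
  rw [h3]
  exact mul_le_mul_of_nonneg_left (pow_le_pow_left₀ (by positivity) hzs k) hF

theorem Horn.src_term (hE : 0 < E) (hb : 0 ≤ b) (hl : |l| * b ≤ 1) (hω : ∀ x, |ω x| ≤ b)
    (hzs : (27 - 1 / 100 + |l| * b) / (E + 15) ≤ q) (n k : ℕ) :
    ‖(zt E y)⁻¹ ^ (k + 1) * (((H.A fun x => l * ω x)^[k] (H.w ω n) x0 : ℝ) : ℂ)‖ ≤ b * q ^ k :=
  pow_ratio hE hb hzs y k hb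
    (H.A_at hb hl hω (H.w_van ω n) (H.w_zm ω n) hb (fun R => H.w_sq hb hω n R) x0 k)

theorem Horn.src_sum (hE : 0 < E) (hb : 0 ≤ b) (hl : |l| * b ≤ 1) (hω : ∀ x, |ω x| ≤ b)
    (hzs : (27 - 1 / 100 + |l| * b) / (E + 15) ≤ q) (hq1 : q < 1) (n : ℕ) :
    Summable fun k : ℕ => (zt E y)⁻¹ ^ (k + 1) *
      (((H.A fun x => l * ω x)^[k] (H.w ω n) x0 : ℝ) : ℂ) := by
  have hq0 : 0 ≤ q := le_trans (by positivity) hzs
  exact Summable.of_norm_bounded ((summable_geometric_of_lt_one hq0 hq1).mul_left b)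
    fun k => H.src_term hE hb hl hω hzs n k

theorem Horn.src_bound (hE : 0 < E) (hb : 0 ≤ b) (hl : |l| * b ≤ 1) (hω : ∀ x, |ω x| ≤ b)
    (hzs : (27 - 1 / 100 + |l| * b) / (E + 15) ≤ q) (hq1 : q < 1) (n : ℕ) :
    ‖H.src l ω (zt E y) x0 n‖ ≤ b * q ^ (n - H.sh x0) / (1 - q) := by
  have h1 := norm_sub_le_of_geometric_bound_of_hasSum hq1
    (fun k => H.src_term (x0 := x0) (y := y) hE hb hl hω hzs n k)
    (H.src_sum (x0 := x0) (y := y) hE hb hl hω hzs hq1 n).hasSum (n - H.sh x0)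
  have h2 : ∑ k ∈ range (n - H.sh x0), (zt E y)⁻¹ ^ (k + 1) *
      (((H.A fun x => l * ω x)^[k] (H.w ω n) x0 : ℝ) : ℂ) = 0 := by
    apply sum_eq_zero
    intro k hk
    rw [mem_range] at hk
    rw [H.w_at_zero (by omega), Complex.ofReal_zero, mul_zero]
  rw [h2, zero_sub, norm_neg] at h1
  exact h1

theorem Horn.src_root (h0 : H.sh x0 = 0) (ζ : ℂ) (n : ℕ) : H.src l ω ζ x0 n = 0 := by
  unfold Horn.src
  have : ∀ k : ℕ, ζ⁻¹ ^ (k + 1) * (((H.A fun x => l * ω x)^[k] (H.w ω n) x0 : ℝ) : ℂ) = 0 := by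
    intro k
    rw [H.zm_root (H.A_iter_zm _ (H.w_zm ω n) k) h0, Complex.ofReal_zero, mul_zero]
  simp only [this, tsum_zero]

variable {a' b' : X → ℝ} {U : ℝ}

/-- the self energy up to exponentially small errors -/
theorem Horn.h_exp (hE : 0 < E) (hb : 0 ≤ b) (hl : |l| * b ≤ 1) (hω : ∀ x, |ω x| ≤ b)
    (hzs : (27 - 1 / 100 + |l| * b) / (E + 15) ≤ q) (hq1 : q < 1)
    (hu : H.SolC l E y ω a' b' (dl x0)) (hU : ∀ R, ∑ x ∈ H.B R, (a' x ^ 2 + b' x ^ 2) ≤ U)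
    (M n : ℕ) :
    ‖(H.hhC ω a' b' n + H.src l ω (zt E y) x0 n) - (l : ℂ) * ∑ m ∈ range (n + M),
      H.SSC (fun x => l * ω x) ω (zt E y) M n m * H.phC a' b' m‖ ≤
      (b / (1 - q) + b * √U) * q ^ M := by
  have hq0 : 0 ≤ q := le_trans (by positivity) hzs
  set V : X → ℝ := fun x => l * ω x with hV
  set R := n + M + 1 + H.sh x0 with hR
  have h1 := H.expandG hE hu (H.w_van ω n) (H.w_zm ω n) M (R := R) (by omega)
  rw [← hV, ← H.hhC_eq n (by omega)] at h1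
  have h2 : ∑ m ∈ range (R + 1), (∑ k ∈ range M, (zt E y)⁻¹ ^ (k + 1) *
        ((∑ x ∈ H.Sh m, H.w ω m x * (H.A V)^[k] (H.w ω n) x : ℝ) : ℂ)) * H.phC a' b' m =
      ∑ m ∈ range (n + M), H.SSC V ω (zt E y) M n m * H.phC a' b' m := by
    have h3 : ∀ m, ∑ k ∈ range M, (zt E y)⁻¹ ^ (k + 1) *
        ((∑ x ∈ H.Sh m, H.w ω m x * (H.A V)^[k] (H.w ω n) x : ℝ) : ℂ) =
        H.SSC V ω (zt E y) M n m := fun m => rfl
    simp only [h3]
    symm
    apply sum_subset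
    · intro m hm
      rw [mem_range] at hm ⊢
      omega
    · intro m _ hm
      rw [mem_range] at hm
      rw [H.SSC_zero V ω _ (by omega), zero_mul]
  have h4 : ∀ k, ∑ x ∈ H.B R, (H.A V)^[k] (H.w ω n) x * dl x0 x = (H.A V)^[k] (H.w ω n) x0 :=
    fun k => sum_dl (H.mem_B.2 (by omega)) _
  simp only [h4] at h1
  rw [h2] at h1
  have e1 : (H.hhC ω a' b' n + H.src l ω (zt E y) x0 n) - (l : ℂ) * ∑ m ∈ range (n + M),
      H.SSC V ω (zt E y) M n m * H.phC a' b' m =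
      (H.src l ω (zt E y) x0 n - ∑ k ∈ range M, (zt E y)⁻¹ ^ (k + 1) *
        (((H.A V)^[k] (H.w ω n) x0 : ℝ) : ℂ)) +
      (zt E y)⁻¹ ^ M * H.cs a' b' ((H.A V)^[M] (H.w ω n)) R := by
    rw [h1]
    ring
  rw [e1]
  refine (norm_add_le _ _).trans ?_
  have f1 := norm_sub_le_of_geometric_bound_of_hasSum hq1
    (fun k => H.src_term (x0 := x0) (y := y) hE hb hl hω hzs n k)
    (H.src_sum (x0 := x0) (y := y) hE hb hl hω hzs hq1 n).hasSum M
  rw [norm_sub_rev] at f1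
  have f2 : ‖(zt E y)⁻¹ ^ M * H.cs a' b' ((H.A V)^[M] (H.w ω n)) R‖ ≤ b * √U * q ^ M := by
    rw [norm_mul, norm_pow]
    have g1 : ‖(zt E y)⁻¹‖ ^ M ≤ (E + 15)⁻¹ ^ M :=
      pow_le_pow_left₀ (norm_nonneg _) (zt_inv hE y) _
    have g2 := H.cs_norm hU ((H.A V)^[M] (H.w ω n)) R
    have g3 : √(∑ x ∈ H.B R, (H.A V)^[M] (H.w ω n) x ^ 2) ≤ (27 - 1 / 100 + |l| * b) ^ M * b := by
      apply Real.sqrt_le_iff.2
      refine ⟨by positivity, ?_⟩
      exact H.A_iter_le hb hl hω (H.w_van ω n) (H.w_zm ω n) (fun R => H.w_sq hb hω n R) M (by omega)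
    have g4 : ‖H.cs a' b' ((H.A V)^[M] (H.w ω n)) R‖ ≤ (27 - 1 / 100 + |l| * b) ^ M * b * √U :=
      g2.trans (mul_le_mul_of_nonneg_right g3 (Real.sqrt_nonneg _))
    have hz0 : 0 < E + 15 := by linarith
    refine (mul_le_mul g1 g4 (norm_nonneg _) (by positivity)).trans ?_
    have g5 : (E + 15)⁻¹ ^ M * ((27 - 1 / 100 + |l| * b) ^ M * b * √U) =
        b * √U * ((27 - 1 / 100 + |l| * b) / (E + 15)) ^ M := by
      rw [div_pow, inv_pow]
      field_simp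
    rw [g5]
    exact mul_le_mul_of_nonneg_left (pow_le_pow_left₀ (by positivity) hzs M) (by positivity)
  refine (add_le_add f1 f2).trans (le_of_eq ?_)
  ring

/-- the value of the resolvent at the source -/
theorem Horn.u_bound (hE : 0 < E) (hb : 0 ≤ b) (hl : |l| * b ≤ 1) (hω : ∀ x, |ω x| ≤ b)
    (hzs : (27 - 1 / 100 + |l| * b) / (E + 15) ≤ q) (hqs : q ≤ s) (hs : 0 < s) (hs1 : s < 1)
    (hu : H.SolC l E y ω a' b' (dl x0)) (hU : ∀ R, ∑ x ∈ H.B R, (a' x ^ 2 + b' x ^ 2) ≤ U)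
    (M : ℕ) (hM : 1 ≤ M) :
    ‖(a' x0 : ℂ) + (b' x0 : ℂ) * Complex.I‖ ≤
      (1 + |l| * (b / (1 - s))) * ∑ m ∈ range (H.sh x0 + M),
        s ^ (m - H.sh x0) * ‖H.phC a' b' m‖ + 1 / (1 - s) + s ^ M * √U := by
  have hq0 : 0 ≤ q := le_trans (by positivity) hzs
  set V : X → ℝ := fun x => l * ω x with hV
  set n0 := H.sh x0 with hn0
  set R := n0 + M + 1 with hR
  set f : X → ℝ := H.Q (dl x0) with hf
  have vf : H.Van f n0 := H.Q_van (H.dl_van x0)
  have zf : H.ZM f := H.Q_zm _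
  have hs2 : 0 < 1 - s := by linarith
  -- the norm of `f`
  have hF : ∀ R', ∑ x ∈ H.B R', f x ^ 2 ≤ 1 ^ 2 := by
    intro R'
    have h1 : ∑ x ∈ H.B R', f x ^ 2 = ∑ x ∈ H.B R', dl x0 x * f x := by
      have h2 : ∑ x ∈ H.B R', f x ^ 2 = ∑ x ∈ H.B R', H.Q (dl x0) x * f x := by
        apply sum_congr rfl
        intro x _
        rw [← hf]
        ring
      rw [h2, H.sum_Q, H.Q_id zf]
    have h2 : ∑ x ∈ H.B R', dl x0 x * f x ≤ |f x0| := by
      by_cases hx : x0 ∈ H.B R'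
      · have h3 : ∑ x ∈ H.B R', dl x0 x * f x = f x0 := by
          rw [← sum_dl hx f]
          exact sum_congr rfl fun x _ => mul_comm _ _
        rw [h3]
        exact le_abs_self _
      · have h3 : ∑ x ∈ H.B R', dl x0 x * f x = 0 := by
          apply sum_eq_zero
          intro x hx'
          unfold dl
          rw [if_neg, zero_mul]
          rintro rfl
          exact hx hx'
        rw [h3]
        exact abs_nonneg _
    have h3 : |f x0| ≤ 1 := by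
      rw [hf]
      unfold Horn.Q Horn.avg dl
      rw [sum_ite_eq', if_pos rfl, if_pos ((H.mem _ _).2 rfl)]
      have h4 : (1 : ℝ) ≤ 4 ^ H.e (H.sh x0) := one_le_pow₀ (by norm_num)
      have h5 : 1 / (4 : ℝ) ^ H.e (H.sh x0) ≤ 1 := by
        rw [div_le_one (by positivity)]
        exact h4
      have h6 : 0 < 1 / (4 : ℝ) ^ H.e (H.sh x0) := by positivity
      rw [abs_le]
      constructor <;> linarith
    rw [h1, one_pow]
    exact h2.trans h3
  have h1 := H.expandG hE hu vf zf M (R := R) (by omega)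
  rw [← hV] at h1
  -- value at `x0`
  have h2 : (a' x0 : ℂ) + (b' x0 : ℂ) * Complex.I = H.cs a' b' f R +
      ((1 / 2 ^ H.e n0 : ℝ) : ℂ) * H.phC a' b' n0 := by
    have g1 : ∀ u : X → ℝ, u x0 = ∑ x ∈ H.B R, f x * u x + 1 / 2 ^ H.e n0 * H.ph u n0 := by
      intro u
      have g2 : ∑ x ∈ H.B R, f x * u x = ∑ x ∈ H.B R, dl x0 x * u x -
          ∑ x ∈ H.B R, H.avg (dl x0) x * u x := by
        rw [← sum_sub_distrib]
        apply sum_congr rfl
        intro x _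
        rw [hf]
        unfold Horn.Q
        ring
      have g3 : ∑ x ∈ H.B R, dl x0 x * u x = u x0 := by
        rw [← sum_dl (H.mem_B.2 (by omega) : x0 ∈ H.B R) u]
        exact sum_congr rfl fun x _ => mul_comm _ _
      have g4 : ∑ x ∈ H.B R, H.avg (dl x0) x * u x = 1 / 2 ^ H.e n0 * H.ph u n0 := by
        rw [H.sum_B, sum_eq_single n0]
        · rw [H.sum_avg_mul]
          have g5 : ∑ x ∈ H.Sh n0, dl x0 x = 1 := by
            unfold dl
            rw [sum_ite_eq', if_pos ((H.mem _ _).2 rfl)]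
          rw [g5]
          unfold Horn.ph
          have h5 : (4 : ℝ) ^ H.e n0 = 2 ^ H.e n0 * 2 ^ H.e n0 := by
            rw [← mul_pow]
            norm_num
          rw [h5]
          field_simp
        · intro m _ hm
          rw [H.sum_avg_mul]
          have g5 : ∑ x ∈ H.Sh m, dl x0 x = 0 := by
            apply sum_eq_zero
            intro x hx
            unfold dl
            rw [if_neg]
            rintro rfl
            rw [H.mem] at hx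
            exact hm hx.symm
          rw [g5]
          ring
        · intro h
          exact absurd (mem_range.2 (by omega)) h
      rw [g2, g3, g4]
      ring
    have c1 := congrArg (fun t : ℝ => (t : ℂ)) (g1 a')
    have c2 := congrArg (fun t : ℝ => (t : ℂ)) (g1 b')
    simp only [Complex.ofReal_add, Complex.ofReal_mul] at c1 c2
    unfold Horn.cs Horn.phC
    linear_combination c1 + Complex.I * c2
  rw [h2, h1]
  -- the kernel
  set Ψ : ℕ → ℂ := fun m => ∑ k ∈ range M, (zt E y)⁻¹ ^ (k + 1) *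
        ((∑ x ∈ H.Sh m, H.w ω m x * (H.A V)^[k] f x : ℝ) : ℂ) with hΨ
  have hΨ0 : ∀ m k, n0 + k < m → ∑ x ∈ H.Sh m, H.w ω m x * (H.A V)^[k] f x = 0 := by
    intro m k hm
    apply sum_eq_zero
    intro x hx
    rw [H.mem] at hx
    rw [H.A_iter_van V vf k x (by omega), mul_zero]
  have hΨb : ∀ m, ‖Ψ m‖ ≤ b / (1 - s) * s ^ (m - n0) := by
    intro m
    rw [hΨ]
    apply geo_tailC hs hs1 hb
    · intro k hk
      rw [hΨ0 m k (by omega), Complex.ofReal_zero, mul_zero]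
    · intro k _
      refine (pow_ratio hE hb hzs y k hb (F := b) ?_).trans
        (mul_le_mul_of_nonneg_left (pow_le_pow_left₀ hq0 hqs k) hb)
      set R' := m + n0 + k + 1 with hR'
      have g1 : ∑ x ∈ H.Sh m, H.w ω m x * (H.A V)^[k] f x =
          ∑ x ∈ H.B R', H.w ω m x * (H.A V)^[k] f x := (H.w_sum ω _ (by omega)).symm
      rw [g1]
      apply abs_le_of_sq_le_sq _ (by positivity)
      refine (sum_mul_sq_le_sq_mul_sq (H.B R') (H.w ω m) ((H.A V)^[k] f)).trans ?_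
      refine (mul_le_mul (H.w_sq hb hω m R') (H.A_iter_le hb hl hω vf zf hF k (by omega))
        (sum_nonneg fun x _ => sq_nonneg _) (by positivity)).trans (le_of_eq ?_)
      ring
  have hS1 : ‖(l : ℂ) * ∑ m ∈ range (R + 1), Ψ m * H.phC a' b' m‖ ≤
      |l| * (b / (1 - s)) * ∑ m ∈ range (n0 + M), s ^ (m - n0) * ‖H.phC a' b' m‖ := by
    have g1 : ∑ m ∈ range (R + 1), Ψ m * H.phC a' b' m =
        ∑ m ∈ range (n0 + M), Ψ m * H.phC a' b' m := by
      symm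
      apply sum_subset
      · intro m hm
        rw [mem_range] at hm ⊢
        omega
      · intro m _ hm
        rw [mem_range] at hm
        have : Ψ m = 0 := by
          rw [hΨ]
          apply sum_eq_zero
          intro k hk
          rw [mem_range] at hk
          rw [hΨ0 m k (by omega), Complex.ofReal_zero, mul_zero]
        rw [this, zero_mul]
    rw [g1, norm_mul, Complex.norm_real, Real.norm_eq_abs, mul_assoc |l|]
    apply mul_le_mul_of_nonneg_left _ (abs_nonneg _)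
    rw [mul_sum]
    refine (norm_sum_le _ _).trans (sum_le_sum fun m _ => ?_)
    rw [norm_mul, ← mul_assoc]
    exact mul_le_mul_of_nonneg_right (hΨb m) (norm_nonneg _)
  have hS2 : ‖∑ k ∈ range M, (zt E y)⁻¹ ^ (k + 1) *
      ((∑ x ∈ H.B R, (H.A V)^[k] f x * dl x0 x : ℝ) : ℂ)‖ ≤ 1 / (1 - s) := by
    have g := geo_tailC (t := fun k => (zt E y)⁻¹ ^ (k + 1) *
      ((∑ x ∈ H.B R, (H.A V)^[k] f x * dl x0 x : ℝ) : ℂ)) (K := 1) (i := 0) hs hs1 zero_le_one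
      (fun k hk => absurd hk (Nat.not_lt_zero k)) (fun k _ => by
        rw [sum_dl (H.mem_B.2 (by omega))]
        refine (pow_ratio hE hb hzs y k zero_le_one (F := 1)
          (H.A_at hb hl hω vf zf zero_le_one hF x0 k)).trans
          (mul_le_mul_of_nonneg_left (pow_le_pow_left₀ hq0 hqs k) zero_le_one)) M
    rw [pow_zero, mul_one] at g
    exact g
  have hS3 : ‖(zt E y)⁻¹ ^ M * H.cs a' b' ((H.A V)^[M] f) R‖ ≤ s ^ M * √U := by
    rw [norm_mul, norm_pow]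
    have g1 : ‖(zt E y)⁻¹‖ ^ M ≤ (E + 15)⁻¹ ^ M :=
      pow_le_pow_left₀ (norm_nonneg _) (zt_inv hE y) _
    have g2 := H.cs_norm hU ((H.A V)^[M] f) R
    have g3 : √(∑ x ∈ H.B R, (H.A V)^[M] f x ^ 2) ≤ (27 - 1 / 100 + |l| * b) ^ M * 1 := by
      apply Real.sqrt_le_iff.2
      refine ⟨by positivity, ?_⟩
      exact H.A_iter_le hb hl hω vf zf hF M (by omega)
    have g4 : ‖H.cs a' b' ((H.A V)^[M] f) R‖ ≤ (27 - 1 / 100 + |l| * b) ^ M * 1 * √U :=
      g2.trans (mul_le_mul_of_nonneg_right g3 (Real.sqrt_nonneg _))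
    have hz0 : 0 < E + 15 := by linarith
    refine (mul_le_mul g1 g4 (norm_nonneg _) (by positivity)).trans ?_
    have g5 : (E + 15)⁻¹ ^ M * ((27 - 1 / 100 + |l| * b) ^ M * 1 * √U) =
        ((27 - 1 / 100 + |l| * b) / (E + 15)) ^ M * √U := by
      rw [div_pow, inv_pow]
      field_simp
    rw [g5]
    exact mul_le_mul_of_nonneg_right (pow_le_pow_left₀ (by positivity) (hzs.trans hqs) M)
      (Real.sqrt_nonneg _)
  have hS4 : ‖((1 / 2 ^ H.e n0 : ℝ) : ℂ) * H.phC a' b' n0‖ ≤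
      ∑ m ∈ range (n0 + M), s ^ (m - n0) * ‖H.phC a' b' m‖ := by
    rw [norm_mul, Complex.norm_real, Real.norm_eq_abs, abs_of_pos (by positivity)]
    have g1 : 1 / (2 : ℝ) ^ H.e n0 ≤ 1 := by
      rw [div_le_one (by positivity)]
      exact one_le_pow₀ (by norm_num)
    have g2 := single_le_sum (f := fun m => s ^ (m - n0) * ‖H.phC a' b' m‖)
      (fun m _ => by positivity) (mem_range.2 (show n0 < n0 + M by omega))
    simp only [Nat.sub_self, pow_zero, one_mul] at g2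
    have g3 : 1 / (2 : ℝ) ^ H.e n0 * ‖H.phC a' b' n0‖ ≤ 1 * ‖H.phC a' b' n0‖ :=
      mul_le_mul_of_nonneg_right g1 (norm_nonneg _)
    linarith
  set T := ∑ m ∈ range (n0 + M), s ^ (m - n0) * ‖H.phC a' b' m‖ with hT
  have t1 := norm_add_le ((l : ℂ) * ∑ m ∈ range (R + 1), Ψ m * H.phC a' b' m -
      ∑ k ∈ range M, (zt E y)⁻¹ ^ (k + 1) *
      ((∑ x ∈ H.B R, (H.A V)^[k] f x * dl x0 x : ℝ) : ℂ) +
      (zt E y)⁻¹ ^ M * H.cs a' b' ((H.A V)^[M] f) R)
      (((1 / 2 ^ H.e n0 : ℝ) : ℂ) * H.phC a' b' n0)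
  have t2 := norm_add_le ((l : ℂ) * ∑ m ∈ range (R + 1), Ψ m * H.phC a' b' m -
      ∑ k ∈ range M, (zt E y)⁻¹ ^ (k + 1) *
      ((∑ x ∈ H.B R, (H.A V)^[k] f x * dl x0 x : ℝ) : ℂ))
      ((zt E y)⁻¹ ^ M * H.cs a' b' ((H.A V)^[M] f) R)
  have t3 := norm_sub_le ((l : ℂ) * ∑ m ∈ range (R + 1), Ψ m * H.phC a' b' m)
      (∑ k ∈ range M, (zt E y)⁻¹ ^ (k + 1) *
      ((∑ x ∈ H.B R, (H.A V)^[k] f x * dl x0 x : ℝ) : ℂ))
  have t4 : (1 + |l| * (b / (1 - s))) * T = T + |l| * (b / (1 - s)) * T := by ring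
  rw [t4]
  linarith

end

end Pool.Agent.Helper32.PG
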