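import Pool.Agent.Helper32.PG.MainW
import Pool.Agent.Helper32.PG.SrcC
import Pool.Agent.Helper32.PG.Stm6

/-!
The virial estimate for the resolvent at complex energies.
-/

set_option autoImplicit false
set_option linter.unusedSectionVars false

namespace Pool.Agent.Helper32.PG

open Finset MeasureTheory Filter Topology

variable {X : Type} [DecidableEq X] (H : Horn X)

theorem Horn.phC_sq (a b : X → ℝ) (n : ℕ) : ‖H.phC a b n‖ ^ 2 = H.ph a n ^ 2 + H.ph b n ^ 2 := by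
  unfold Horn.phC
  rw [← Complex.normSq_eq_norm_sq, Complex.normSq_add_mul_I]

theorem Horn.phC_sum {a b : X → ℝ} {U : ℝ} (hU : ∀ R, ∑ x ∈ H.B R, (a x ^ 2 + b x ^ 2) ≤ U) (N : ℕ) :
    ∑ n ∈ range N, ‖H.phC a b n‖ ^ 2 ≤ U := by
  cases N with
  | zero =>
    rw [sum_range_zero]
    exact (sum_nonneg fun x _ => by positivity).trans (hU 0)
  | succ N =>
    have h := hU N
    rw [H.sum_B] at h
    refine le_trans (sum_le_sum fun n _ => ?_) h
    rw [H.phC_sq, sum_add_distrib]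
    exact add_le_add (H.sum_sq_ph a n) (H.sum_sq_ph b n)

/-- the source of the Jacobi equation -/
noncomputable def Horn.gs (l : ℝ) (ω : X → ℝ) (ζ : ℂ) (x0 : X) (n : ℕ) : ℂ :=
  if n = 0 then 0 else ((H.ph (dl x0) n / 2 : ℝ) : ℂ) + (l : ℂ) / 2 * H.src l ω ζ x0 n

theorem Horn.gs_root {l : ℝ} {ω : X → ℝ} {ζ : ℂ} {x0 : X} (h0 : H.sh x0 = 0) (n : ℕ) :
    H.gs l ω ζ x0 n = 0 := by
  unfold Horn.gs
  split_ifs with hn
  · rfl
  · rw [H.src_root h0]
    have : H.ph (dl x0) n = 0 := by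
      unfold Horn.ph
      rw [sum_eq_zero, zero_div]
      intro x hx
      rw [H.mem] at hx
      exact H.dl_van x0 x (by omega)
    rw [this]
    simp

theorem Horn.gs_bound {l b E q s : ℝ} {ω : X → ℝ} (hE : 0 < E) (hb : 0 ≤ b) (hl : |l| * b ≤ 1)
    (hω : ∀ x, |ω x| ≤ b) (hzs : (27 - 1 / 100 + |l| * b) / (E + 15) ≤ q) (hqs : q ≤ s)
    (hs : 0 < s) (hs1 : s < 1) (y : ℝ) (x0 : X) (n : ℕ) :
    ‖H.gs l ω (zt E y) x0 n‖ ≤ ((1 + |l| * (b / (1 - s))) / s ^ H.sh x0) * s ^ n := by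
  have hq0 : 0 ≤ q := le_trans (by positivity) hzs
  have hs2 : 0 < 1 - s := by linarith
  have hG : 0 ≤ ((1 + |l| * (b / (1 - s))) / s ^ H.sh x0) * s ^ n := by positivity
  unfold Horn.gs
  split_ifs with hn
  · rw [norm_zero]
    exact hG
  · refine (norm_add_le _ _).trans ?_
    have hpow : s ^ (n - H.sh x0) ≤ s ^ n / s ^ H.sh x0 := by
      rw [le_div_iff₀ (by positivity), ← pow_add]
      exact pow_le_pow_of_le_one hs.le hs1.le (by omega)
    have h1 : ‖((H.ph (dl x0) n / 2 : ℝ) : ℂ)‖ ≤ s ^ n / s ^ H.sh x0 := by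
      rw [Complex.norm_real, Real.norm_eq_abs]
      by_cases hx : H.sh x0 = n
      · rw [hx, div_self (by positivity)]
        unfold Horn.ph dl
        rw [sum_ite_eq', if_pos ((H.mem _ _).2 hx), abs_of_pos (by positivity)]
        have : (1 : ℝ) ≤ 2 ^ H.e n := one_le_pow₀ (by norm_num)
        rw [div_div, div_le_one (by positivity)]
        linarith
      · have : H.ph (dl x0) n = 0 := by
          unfold Horn.ph
          rw [sum_eq_zero, zero_div]
          intro x hx'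
          unfold dl
          rw [if_neg]
          rintro rfl
          exact hx ((H.mem _ _).1 hx')
        rw [this, zero_div, abs_zero]
        positivity
    have h2 : ‖(l : ℂ) / 2 * H.src l ω (zt E y) x0 n‖ ≤
        |l| * (b / (1 - s)) * (s ^ n / s ^ H.sh x0) := by
      rw [norm_mul, norm_div, Complex.norm_real, Real.norm_eq_abs]
      have h3 := H.src_bound (x0 := x0) (y := y) hE hb hl hω hzs (by linarith) n
      have h4 : b * q ^ (n - H.sh x0) / (1 - q) ≤ b / (1 - s) * (s ^ n / s ^ H.sh x0) := by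
        have h5 : q ^ (n - H.sh x0) ≤ s ^ n / s ^ H.sh x0 :=
          (pow_le_pow_left₀ hq0 hqs _).trans hpow
        have h6 : b * q ^ (n - H.sh x0) ≤ b * (s ^ n / s ^ H.sh x0) := mul_le_mul_of_nonneg_left h5 hb
        calc b * q ^ (n - H.sh x0) / (1 - q) ≤ b * (s ^ n / s ^ H.sh x0) / (1 - s) :=
              div_le_div₀ (by positivity) h6 hs2 (by linarith)
          _ = b / (1 - s) * (s ^ n / s ^ H.sh x0) := by ring
      have h7 : |l| / ‖(2 : ℂ)‖ ≤ |l| := by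
        rw [RCLike.norm_ofNat]
        have := abs_nonneg l
        linarith
      calc |l| / ‖(2 : ℂ)‖ * ‖H.src l ω (zt E y) x0 n‖ ≤ |l| * (b / (1 - s) * (s ^ n / s ^ H.sh x0)) :=
            mul_le_mul h7 (h3.trans h4) (norm_nonneg _) (abs_nonneg _)
        _ = |l| * (b / (1 - s)) * (s ^ n / s ^ H.sh x0) := by ring
    refine (add_le_add h1 h2).trans (le_of_eq ?_)
    ring

/-- **the virial estimate** -/
theorem Horn.estC [Countable X] (hV : S_Virial4) (hMean : S_Mean) (hSum : S_Sum) (hConv : S_Conv)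
    {σ : ℝ} (hσ : 2 < σ) (P : ParW σ) {C0 : ℝ} (hC0 : 1 ≤ C0)
    (hj1 : ∀ n : ℕ, (4 : ℝ) ^ H.e n ≤ C0 * ((n : ℝ) + 1) ^ σ)
    (hj2 : ∀ n : ℕ, ((n : ℝ) + 1) ^ σ ≤ C0 * 4 ^ H.e n)
    {b : ℝ} (hb : 0 < b) {ε : ℝ} (hε : 0 < ε) : ∃ l0 > (0 : ℝ), ∃ C3 > (0 : ℝ), ∀ l : ℝ, |l| ≤ l0 →
      |l| * b ≤ P.β ∧
      ∀ (μ : Measure ℝ) [IsProbabilityMeasure μ], μ (Set.Icc (-b) b)ᶜ = 0 →
      ∀ᵐ ω ∂(PX X μ), (∀ x, |ω x| ≤ b) → ∃ K > (0 : ℝ), ∀ E y : ℝ, P.E₁ < E → E < P.E₂ →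
        0 ≤ y → y ≤ 1 → ∀ (x0 : X) (a' b' : X → ℝ) (U G : ℝ), 0 ≤ G →
        (∀ R, ∑ x ∈ H.B R, (a' x ^ 2 + b' x ^ 2) ≤ U) → H.SolC l E y ω a' b' (dl x0) →
        (∀ n, ‖H.gs l ω (zt E y) x0 n‖ ≤ G * P.s ^ n) → ∀ R : ℕ, 1 ≤ R →
        ‖H.phC a' b' 0‖ ^ 2 + ‖H.phC a' b' 1‖ ^ 2 +
          ∑ n ∈ range R, P.s ^ n * ‖H.phC a' b' n‖ ^ 2 ≤
          C3 * (K * (2 * (R : ℝ) + 1) ^ ε * (1 / R + y) * U + G ^ 2) := by
  obtain ⟨E₁, E₂, β, q, s, w, r, c, N0, hE1', hE12', hE2', hβ, hβ1, hβ2, hE, hzs, hqw, hs, hs1, hw,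
    hw1, hc, hr, hr1, hrw, hrs4, hN, hN2, hw2, hw3⟩ := P
  simp only
  -- growth with a natural exponent
  have hgrow : ∀ n : ℕ, (2 : ℝ) ^ H.e n ≤ C0 * ((n : ℝ) + 1) ^ (⌈σ⌉₊) := by
    intro n
    have h1 : (2 : ℝ) ^ H.e n ≤ 4 ^ H.e n := pow_le_pow_left₀ (by norm_num) (by norm_num) _
    refine h1.trans ((hj1 n).trans ?_)
    apply mul_le_mul_of_nonneg_left _ (by linarith)
    rw [← Real.rpow_natCast]
    exact Real.rpow_le_rpow_of_exponent_le (by linarith [Nat.cast_nonneg (α := ℝ) n])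
      (Nat.le_ceil σ)
  obtain ⟨hd1, hd2, hdn, hd, A, hA⟩ := hSum r hr hr1 H.e ⌈σ⌉₊ C0 H.e0 H.estep hgrow
  -- comparison of shells
  set Γ : ℝ := C0 ^ 2 * 2 ^ σ with hΓdef
  have h2σ : (1 : ℝ) ≤ 2 ^ σ := Real.one_le_rpow (by norm_num) (by linarith)
  have hΓ1 : 1 ≤ Γ := by
    rw [hΓdef]
    exact nx8 hC0 h2σ
  have hΓ : ∀ n i, n ≤ 2 * i → i ≤ 2 * n → (4 : ℝ) ^ H.e n ≤ Γ * 4 ^ H.e i := by
    intro n i hni _
    have h1 : ((n : ℝ) + 1) ^ σ ≤ (2 * ((i : ℝ) + 1)) ^ σ := by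
      apply Real.rpow_le_rpow (by positivity) _ (by linarith)
      have : (n : ℝ) ≤ 2 * i := by exact_mod_cast hni
      linarith
    rw [Real.mul_rpow (by norm_num) (by positivity)] at h1
    have h2 : (2 : ℝ) ^ σ * ((i : ℝ) + 1) ^ σ ≤ 2 ^ σ * (C0 * 4 ^ H.e i) :=
      mul_le_mul_of_nonneg_left (hj2 i) (by positivity)
    have h3 := mul_le_mul_of_nonneg_left (h1.trans h2) (by linarith : (0 : ℝ) ≤ C0)
    refine (hj1 n).trans (h3.trans (le_of_eq ?_))
    rw [hΓdef]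
    ring
  -- the parameter τ
  set τ : ℝ := min ((1 - r ^ 2) / 15) (ε / (|A| + N0)) with hτ
  have hN0 : (1 : ℝ) ≤ N0 := by exact_mod_cast hN
  have hr2 : 0 < 1 - r ^ 2 := by
    have : r ^ 2 < 1 := pow_lt_one₀ hr.le hr1 (by norm_num)
    linarith
  have hτ0 : 0 < τ := lt_min (by positivity) (by positivity)
  have hτ1 : τ ≤ (1 - r ^ 2) / 15 := min_le_left _ _
  have hτ2 : τ * (|A| + N0) ≤ ε := by
    have h1 : τ ≤ ε / (|A| + N0) := min_le_right _ _
    rwa [le_div_iff₀ (by positivity)] at h1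
  set θ : ℝ := r⁻¹ * (1 + 3 * τ) with hθ
  have hri : 1 < r⁻¹ := (one_lt_inv₀ hr).2 hr1
  have hθ1 : 1 < θ := by rw [hθ]; exact nx9 hri hτ0
  have hθs : s * θ ^ 2 < 1 := by
    rw [hθ, hrs4]
    exact nx7 hr hτ0 hτ1
  have hs2 : 0 < 1 - s := by linarith
  have hw4 : 0 < 1 - w := by linarith
  set κ : ℝ := (2 + 8 * b ^ 2) / (1 - s) + (2 * b + 1) + b ^ 2 / (1 - w) / (1 - s) with hκ
  have hκ0 : 0 < κ := by positivity
  have hκ4 : b ^ 2 / (1 - w) / (1 - s) ≤ κ := by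
    rw [hκ]
    have : 0 ≤ (2 + 8 * b ^ 2) / (1 - s) + (2 * b + 1) := by positivity
    linarith
  have hpos : 0 ≤ b ^ 2 / (1 - w) / (1 - s) := by positivity
  have hκ2 : (2 + 8 * b ^ 2) / (1 - s) ≤ κ := by rw [hκ]; linarith
  have hκ1 : b ^ 2 / (1 - s) ≤ κ := by
    have : b ^ 2 / (1 - s) ≤ (2 + 8 * b ^ 2) / (1 - s) := by
      apply div_le_div_of_nonneg_right _ hs2.le
      nlinarith [sq_nonneg b]
    linarith
  have hκ3 : 2 * b + 1 ≤ κ := by
    rw [hκ]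
    have : 0 < (2 + 8 * b ^ 2) / (1 - s) := by positivity
    linarith
  set δ : ℝ := (12 - E₂) / 8 with hδ
  have hδ0 : 0 < δ := by rw [hδ]; linarith
  obtain ⟨l1, hl1, C3, hC3, hVir⟩ := hV s θ κ δ τ hs hs1 hθ1 hθs hκ0 hδ0 hτ0
  refine ⟨min l1 (β / b), lt_min hl1 (by positivity), C3, hC3, fun l hl => ?_⟩
  have hll : |l| ≤ l1 := hl.trans (min_le_left _ _)
  have hlβ : |l| * b ≤ β := by
    have := hl.trans (min_le_right _ _)
    rwa [le_div_iff₀ hb] at this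
  refine ⟨hlβ, fun μ _ hμ => ?_⟩
  have hlb1 : |l| * b ≤ 1 := hlβ.trans hβ1
  have hlb0 : 0 ≤ |l| * b := by positivity
  have hz0 : 1 ≤ E₁ + 15 := by linarith
  have hsum := sum_par (e := H.e) hσ hw2 hw3 hC0 hj2
  filter_upwards [H.ae_sum (c := c) hMean hb.le hμ hlβ hβ1 hΓ1 hΓ hz0 hs hw2 hsum] with ω hsumω hω
  set f : ℕ → ℝ := fun n => |H.v ω n - mean μ| + H.Dn μ l c (E₁ + 15) s ω n with hf
  have hDn0 : ∀ n, 0 ≤ H.Dn μ l c (E₁ + 15) s ω n := H.Dn_nonneg (by linarith) hs ω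
  have hf0 : ∀ n, 0 ≤ f n := fun n => add_nonneg (abs_nonneg _) (hDn0 n)
  obtain ⟨Y, Cy, hy1, hy0, hy2, hy3, hyC⟩ := hConv r hr hr1 (fun n => f n + f (n + 1))
    (fun n => add_nonneg (hf0 n) (hf0 (n + 1)))
    (hsumω.add ((summable_nat_add_iff 1).2 hsumω))
  have hyD : ∀ n, H.Dn μ l c (E₁ + 15) s ω n + H.Dn μ l c (E₁ + 15) s ω (n + 1) ≤ Y n := by
    intro n
    have h1 := hy1 n
    simp only [hf] at h1
    have h2 := abs_nonneg (H.v ω n - mean μ)
    have h3 := abs_nonneg (H.v ω (n + 1) - mean μ)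
    linarith
  have hyv : ∀ n, |H.v ω n - mean μ| ≤ Y n := by
    intro n
    have h1 := hy1 n
    simp only [hf] at h1
    have h2 := abs_nonneg (H.v ω (n + 1) - mean μ)
    linarith [hDn0 n, hDn0 (n + 1)]
  obtain ⟨K, hK, hprod⟩ := prod_boundC (N0 := N0) (y := Y) hr hN hτ0 hy0 hA hyC hτ2
  have hmean : |mean μ| ≤ b := by
    have h1 : ∀ᵐ t ∂μ, ‖t‖ ≤ b := by
      rw [ae_iff]
      refine measure_mono_null ?_ hμ
      intro t ht
      rw [Set.mem_ofPred_eq] at ht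
      intro h
      apply ht
      rw [Real.norm_eq_abs]
      exact abs_le.2 h
    have h2 := norm_integral_le_of_norm_le_const h1
    unfold mean
    rw [Real.norm_eq_abs] at h2
    simpa using h2
  have hqs : q ≤ s := nx6 hqw hs hw1
  have hrs : s ≤ r := by
    rw [hrs4]
    calc r ^ 4 ≤ r ^ 1 := pow_le_pow_of_le_one hr.le hr1.le (by norm_num)
      _ = r := pow_one r
  have hep := etw_pos (e := H.e) hr hN hy0
  have hsη : ∀ n, s ^ n ≤ etw r N0 H.e Y n := by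
    intro n
    have h1 : s ^ n ≤ r ^ dist H.e n := by
      calc s ^ n ≤ r ^ n := pow_le_pow_left₀ hs.le hrs n
        _ ≤ r ^ dist H.e n := pow_le_pow_of_le_one hr.le hr1.le (hdn n)
    refine h1.trans ?_
    unfold etw
    have h2 : 0 ≤ min 1 (Y n) := le_min zero_le_one (hy0 n)
    have : 0 ≤ (N0 : ℝ) / ((n : ℝ) + N0) := by positivity
    linarith
  refine ⟨K, hK, fun E y hE1 hE2 hy hyy x0 a' b' U G hG hU hu hgs R hR => ?_⟩
  have hz : 1 ≤ E + 15 := by linarith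
  have hEp : 0 < E := by linarith
  have hz2 := hzs (|l| * b) E hlb0 hlβ hE1
  have hU0 : 0 ≤ U := (sum_nonneg fun x _ => by positivity).trans (hU 0)
  have key := hVir l ((E - 8) / 4 - l * mean μ / 4) y hll (by
    have h1 : |l * mean μ| ≤ β := by
      rw [abs_mul]
      exact (mul_le_mul_of_nonneg_left hmean (abs_nonneg _)).trans hlβ
    have h2 := abs_le.1 h1
    rw [abs_le, hδ]
    constructor <;> linarith [h2.1, h2.2]) hy hyy
    (H.phC a' b') (fun n => H.hhC ω a' b' n + H.src l ω (zt E y) x0 n) (H.gs l ω (zt E y) x0)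
    (fun n => H.v ω n - mean μ) (etw r N0 H.e Y)
    (fun M n m => H.SSC (fun x => l * ω x) ω (zt E y) M n m) (b / (1 - q) + b * √U) U G hG
    (H.phC_sum hU)
    (fun n => by
      have h1 := H.rec_succC hu n
      rw [h1]
      unfold Horn.gs
      rw [if_neg (Nat.succ_ne_zero n)]
      push_cast
      ring)
    hgs
    (fun M n => by
      have h1 := H.h_exp hEp hb.le hlb1 hω hz2 (by linarith) hu hU M n
      refine h1.trans ?_
      have hq0 : 0 ≤ q := le_trans (by positivity) hz2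
      have hq1 : 0 < 1 - q := by linarith
      apply mul_le_mul_of_nonneg_left (pow_le_pow_left₀ hq0 hqs M) (by positivity))
    (fun M n m => H.SSC_symm _ _ _ _ _ _)
    (fun M n k => (H.SSC_bound hb.le hlb1 hEp hz2 hqs hs hs1 hω M n k).trans (by gcongr))
    (fun M n k => (H.SSC_im hb.le hlb1 hEp hy hz2 hqw hs hs1 hw hw1 hω M n k).trans (by gcongr))
    (fun M n k => by
      have h1 := (H.SSC_diff (μ := μ) (y := y) hb.le hlb1 hz0 (by linarith) hEp hz2 hqw hs hs1 hw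
        hw1 hω hc hr hr1 hrw hN hy0 hyD hd hdn M n k).1
      refine h1.trans (le_of_eq_of_le (by ring) (mul_le_mul_of_nonneg_right
        (mul_le_mul_of_nonneg_right hκ2 (hep n).le) (by positivity))))
    (fun M n k => by
      have h1 := (H.SSC_diff (μ := μ) (y := y) hb.le hlb1 hz0 (by linarith) hEp hz2 hqw hs hs1 hw
        hw1 hω hc hr hr1 hrw hN hy0 hyD hd hdn M n k).2
      refine h1.trans (le_of_eq_of_le (by ring) (mul_le_mul_of_nonneg_right
        (mul_le_mul_of_nonneg_right hκ2 (hep (n + k)).le) (by positivity))))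
    (fun n => hep n)
    (fun n => etw_le hr hr1 hN n)
    (fun n => by
      have hp := hep n
      by_cases hn : Y n ≤ 1
      · have h1 : Y n ≤ etw r N0 H.e Y n := by
          unfold etw
          rw [min_eq_right hn]
          have : 0 ≤ r ^ dist H.e n + (N0 : ℝ) / ((n : ℝ) + N0) := by positivity
          linarith
        exact nx2 ((hyv n).trans h1) hκ3 hb hp
      · have h1 : |H.v ω n - mean μ| ≤ 2 * b := by
          refine (abs_sub _ _).trans ?_
          have := H.v_abs hω n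
          linarith
        have h2 : 1 ≤ etw r N0 H.e Y n := by
          unfold etw
          rw [min_eq_left (by linarith)]
          have : 0 ≤ r ^ dist H.e n + (N0 : ℝ) / ((n : ℝ) + N0) := by positivity
          linarith
        exact nx3 h1 hκ3 hb h2)
    hsη
    (fun n => by
      have h1 := etw_up hr hr1 hN hd1 hy2 n
      have h2 := etw_le (e := H.e) (y := Y) hr hr1 hN n
      have h3 := hep n
      have h4 : 1 + τ * etw r N0 H.e Y n ≤ 1 + 3 * τ := nx1 hτ0 h2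
      refine (mul_le_mul h1 h4 (by positivity) (by positivity)).trans (le_of_eq ?_)
      rw [hθ]
      ring)
    (fun n => by
      have h1 := etw_dn hr hr1 hN hN2 hd2 hy3 n
      have h3 := hep (n + 1)
      refine h1.trans ?_
      apply mul_le_mul_of_nonneg_right _ h3.le
      rw [hθ]
      exact nx4 hri hτ0)
    (fun n => by
      have h2 := etw_le (e := H.e) (y := Y) hr hr1 hN n
      rw [hθ]
      exact nx5 hri hτ0 h2) R hR
  have hR0 : (0 : ℝ) < R := by exact_mod_cast hR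
  have hle : ∑ n ∈ range R, s ^ n * ‖H.phC a' b' n‖ ^ 2 ≤
      ∑ n ∈ range R, etw r N0 H.e Y n * ‖H.phC a' b' n‖ ^ 2 :=
    sum_le_sum fun n _ => mul_le_mul_of_nonneg_right (hsη n) (sq_nonneg _)
  have hle2 : C3 * ((∏ n ∈ range (2 * R), (1 + τ * etw r N0 H.e Y n)) * (1 / R + y) * U + G ^ 2) ≤
      C3 * (K * (2 * (R : ℝ) + 1) ^ ε * (1 / R + y) * U + G ^ 2) := by
    have h1 := hprod (2 * R)
    push_cast at h1
    have h2 : 0 ≤ 1 / (R : ℝ) + y := by positivity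
    gcongr
  linarith

end Pool.Agent.Helper32.PG
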