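import Pool.Agent.Helper32.PG.KerW

/-!
Absence of eigenvalues for all growth rates `σ > 2` of the shells.
-/

set_option autoImplicit false
set_option linter.unusedSectionVars false

namespace Pool.Agent.Helper32.PG

open Finset MeasureTheory Filter Topology

theorem nx1 {τ x : ℝ} (h : 0 < τ) (hx : x ≤ 3) : 1 + τ * x ≤ 1 + 3 * τ := by nlinarith

theorem nx2 {κ a x b : ℝ} (h : x ≤ a) (hκ : 2 * b + 1 ≤ κ) (hb : 0 < b) (ha : 0 < a) :
    x ≤ κ * a := by nlinarith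

theorem nx3 {κ a x b : ℝ} (h : x ≤ 2 * b) (hκ : 2 * b + 1 ≤ κ) (hb : 0 < b) (ha : 1 ≤ a) :
    x ≤ κ * a := by nlinarith

theorem nx4 {ρ τ : ℝ} (h : 1 < ρ) (hτ : 0 < τ) : ρ ≤ ρ * (1 + 3 * τ) := by nlinarith

theorem nx5 {ρ τ x : ℝ} (h : 1 < ρ) (hτ : 0 < τ) (hx : x ≤ 3) : 1 + τ * x ≤ ρ * (1 + 3 * τ) := by
  nlinarith

theorem nx6 {q s w : ℝ} (h : q ≤ s * w) (hs : 0 < s) (hw : w < 1) : q ≤ s := by nlinarith

theorem nx7 {r τ : ℝ} (hr : 0 < r) (h0 : 0 < τ) (h1 : τ ≤ (1 - r ^ 2) / 15) :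
    r ^ 4 * (r⁻¹ * (1 + 3 * τ)) ^ 2 < 1 := by
  have h2 : r ^ 4 * (r⁻¹ * (1 + 3 * τ)) ^ 2 = r ^ 2 * (1 + 3 * τ) ^ 2 := by
    field_simp
  rw [h2]
  have h6 : τ ≤ 1 / 15 := by nlinarith [sq_nonneg r]
  have h3 : (1 + 3 * τ) ^ 2 ≤ 1 + 15 * τ := by nlinarith
  have h4 : 0 < r ^ 2 := by positivity
  have h7 : r ^ 2 * (1 + 3 * τ) ^ 2 ≤ r ^ 2 * (1 + 15 * τ) := mul_le_mul_of_nonneg_left h3 h4.le
  have h5 : r ^ 2 * (1 + 15 * τ) ≤ r ^ 2 * (1 + (1 - r ^ 2)) :=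
    mul_le_mul_of_nonneg_left (by linarith) h4.le
  have h8 : 0 < 1 - r ^ 2 := by linarith
  nlinarith [mul_pos h8 h8]

theorem nx8 {C g : ℝ} (hC : 1 ≤ C) (hg : 1 ≤ g) : 1 ≤ C ^ 2 * g := by nlinarith

theorem nx9 {ρ τ : ℝ} (h : 1 < ρ) (hτ : 0 < τ) : 1 < ρ * (1 + 3 * τ) := by nlinarith

/-- parameters which depend on the growth rate of the shells only -/
structure ParW (σ : ℝ) where
  E₁ : ℝ
  E₂ : ℝ
  β : ℝ
  q : ℝ
  s : ℝ
  w : ℝ
  r : ℝ
  c : ℕ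
  N0 : ℕ
  hE1 : 11 < E₁
  hE12 : E₁ < E₂
  hE2 : E₂ < 12
  hβ : 0 < β
  hβ1 : β ≤ 1
  hβ2 : β ≤ (12 - E₂) / 2
  hE : 12 - 1 / 100 + β < E₁
  hzs : ∀ x E : ℝ, 0 ≤ x → x ≤ β → E₁ < E → (27 - 1 / 100 + x) / (E + 15) ≤ q
  hqw : q ≤ s * w
  hs : 0 < s
  hs1 : s < 1
  hw : 0 < w
  hw1 : w < 1
  hc : w ^ c ≤ 1 / 2
  hr : 0 < r
  hr1 : r < 1
  hrw : w ≤ r ^ 2
  hrs : s = r ^ 4
  hN : 1 ≤ N0
  hN2 : 1 + 3 / (N0 : ℝ) ≤ r⁻¹
  hw2 : 1 ≤ (27 + 2 * β) / ((E₁ + 15) * s)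
  hw3 : ((27 + 2 * β) / ((E₁ + 15) * s)) ^ c ≤ 2 ^ ((σ - 2) / 8)

theorem exists_parW {σ : ℝ} (hσ : 2 < σ) : Nonempty (ParW σ) := by
  obtain ⟨c, hc⟩ := exists_pow_lt_of_lt_one (by norm_num : (0 : ℝ) < 1 / 2)
    (by norm_num : (9998 / 10000 : ℝ) < 1)
  have hcont : ContinuousAt (fun t : ℝ => ((27 + t / 2) / ((27 - t) * Real.exp (-t))) ^ c) 0 := by
    apply ContinuousAt.pow
    apply ContinuousAt.div
    · fun_prop
    · fun_prop
    · simp
  have hval : ((27 + (0 : ℝ) / 2) / ((27 - 0) * Real.exp (-0))) ^ c < 2 ^ ((σ - 2) / 8) := by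
    simp only [zero_div, add_zero, sub_zero, neg_zero, Real.exp_zero, mul_one]
    rw [div_self (by norm_num), one_pow]
    exact Real.one_lt_rpow (by norm_num) (by linarith)
  have hev : ∀ᶠ t in 𝓝 (0 : ℝ), ((27 + t / 2) / ((27 - t) * Real.exp (-t))) ^ c <
      2 ^ ((σ - 2) / 8) := hcont.eventually (gt_mem_nhds hval)
  obtain ⟨t, ht1, ht0, ht2⟩ : ∃ t : ℝ, ((27 + t / 2) / ((27 - t) * Real.exp (-t))) ^ c <
      2 ^ ((σ - 2) / 8) ∧ 0 < t ∧ t ≤ 1 / 10000 := by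
    have h1 : ∀ᶠ t in 𝓝[>] (0 : ℝ), ((27 + t / 2) / ((27 - t) * Real.exp (-t))) ^ c <
      2 ^ ((σ - 2) / 8) := hev.filter_mono nhdsWithin_le_nhds
    have h2 : ∀ᶠ t in 𝓝[>] (0 : ℝ), t ∈ Set.Ioc (0 : ℝ) (1 / 10000) :=
      Ioc_mem_nhdsGT (by norm_num)
    obtain ⟨t, ht⟩ := (h1.and h2).exists
    exact ⟨t, ht.1, ht.2.1, ht.2.2⟩
  have hexp : 1 - t ≤ Real.exp (-t) := by
    have := Real.add_one_le_exp (-t)
    linarith
  have hexp2 : 1 - t / 2 ≤ Real.exp (-(t / 2)) := by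
    have := Real.add_one_le_exp (-(t / 2))
    linarith
  have hexp1 : Real.exp (-t) < 1 := by
    rw [Real.exp_lt_one_iff]
    linarith
  have hE0 : 0 < Real.exp (-t) := Real.exp_pos _
  set r : ℝ := Real.exp (-(t / 4)) with hr
  have hr0 : 0 < r := Real.exp_pos _
  have hr1 : r < 1 := by
    rw [hr, Real.exp_lt_one_iff]
    linarith
  have hr4 : Real.exp (-t) = r ^ 4 := by
    rw [hr, ← Real.exp_nat_mul]
    congr 1
    push_cast
    ring
  have hr2 : Real.exp (-(t / 2)) = r ^ 2 := by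
    rw [hr, ← Real.exp_nat_mul]
    congr 1
    push_cast
    ring
  set q : ℝ := (27 - 1 / 100 + t / 4) / (27 - t) with hq
  have hq0 : 0 < q := by
    rw [hq]
    apply div_pos <;> linarith
  have hqw0 : q ≤ 9998 / 10000 * (1 - t) := by
    rw [hq, div_le_iff₀ (by linarith)]
    nlinarith
  have hww : q / Real.exp (-t) ≤ 9998 / 10000 := by
    rw [div_le_iff₀ hE0]
    nlinarith
  have hri : 0 < r⁻¹ - 1 := by
    have := (one_lt_inv₀ hr0).2 hr1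
    linarith
  obtain ⟨N, hN⟩ := exists_nat_gt (3 / (r⁻¹ - 1))
  have hw0 : 0 < q / Real.exp (-t) := by positivity
  refine ⟨⟨12 - t, 12 - t / 2, t / 4, q, Real.exp (-t), q / Real.exp (-t), r, c, N + 1,
    by linarith, by linarith, by linarith, by linarith, by linarith, by linarith, by linarith,
    ?_, ?_, hE0, hexp1, hw0, by linarith, ?_, hr0, hr1, ?_, hr4, by omega, ?_, ?_, ?_⟩⟩
  · intro x E hx hxβ hE
    rw [hq, div_le_div_iff₀ (by linarith) (by linarith)]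
    nlinarith
  · rw [mul_div_cancel₀ _ hE0.ne']
  · exact (pow_le_pow_left₀ hw0.le hww c).trans hc.le
  · rw [← hr2]
    linarith
  · have h5 : 3 / ((N + 1 : ℕ) : ℝ) ≤ r⁻¹ - 1 := by
      rw [div_le_iff₀ (by positivity)]
      rw [div_lt_iff₀ hri] at hN
      push_cast
      linarith
    linarith
  · rw [one_le_div (by nlinarith)]
    nlinarith
  · refine le_trans (le_of_eq ?_) ht1.le
    congr 2
    · ring
    · ring

theorem log_nat_le (n : ℕ) {δ : ℝ} (hδ : 0 < δ) :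
    (Nat.log 2 (n + 1) : ℝ) ≤ 2 / δ * ((n : ℝ) + 1) ^ δ := by
  have h1 : (Nat.log 2 (n + 1) : ℝ) * Real.log 2 ≤ Real.log ((n : ℝ) + 1) := by
    rw [← Real.log_pow]
    apply Real.log_le_log (by positivity)
    have h2 := Nat.pow_log_le_self 2 (show n + 1 ≠ 0 by omega)
    exact_mod_cast h2
  have h2 := Real.log_le_rpow_div (by positivity : (0 : ℝ) ≤ (n : ℝ) + 1) hδ
  have h3 : (1 : ℝ) / 2 ≤ Real.log 2 := by
    have := Real.log_two_gt_d9
    linarith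
  have h4 : (0 : ℝ) ≤ Nat.log 2 (n + 1) := Nat.cast_nonneg _
  have h5 : (Nat.log 2 (n + 1) : ℝ) * (1 / 2) ≤ ((n : ℝ) + 1) ^ δ / δ := by nlinarith
  have h6 : 2 / δ * ((n : ℝ) + 1) ^ δ = 2 * (((n : ℝ) + 1) ^ δ / δ) := by ring
  linarith

theorem sum_par {σ w1 C0 : ℝ} {c : ℕ} {e : ℕ → ℕ} (hσ : 2 < σ) (hw1 : 1 ≤ w1)
    (hw2 : w1 ^ c ≤ 2 ^ ((σ - 2) / 8)) (hC0 : 1 ≤ C0)
    (he : ∀ n : ℕ, ((n : ℝ) + 1) ^ σ ≤ C0 * 4 ^ e n) :
    Summable fun n : ℕ => ((c * Nat.log 2 (n + 1) + 1 : ℕ) : ℝ) ^ 4 *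
      w1 ^ (c * Nat.log 2 (n + 1)) / 2 ^ e n := by
  set ε : ℝ := (σ - 2) / 8 with hε
  have hε0 : 0 < ε := by rw [hε]; linarith
  set δ : ℝ := ε / 4 with hδ
  have hδ0 : 0 < δ := by rw [hδ]; linarith
  have hs : Summable fun n : ℕ => ((n : ℝ) + 1) ^ (-((σ + 2) / 4)) := by
    have h1 : Summable fun n : ℕ => ((n : ℝ)) ^ (-((σ + 2) / 4)) :=
      Real.summable_nat_rpow.2 (by linarith)
    refine ((summable_nat_add_iff 1).2 h1).congr fun n => ?_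
    push_cast
    rfl
  refine Summable.of_nonneg_of_le (fun n => by positivity) (fun n => ?_)
    (hs.mul_left ((2 * c / δ + 1) ^ 4 * C0))
  have hn : (1 : ℝ) ≤ (n : ℝ) + 1 := by linarith [Nat.cast_nonneg (α := ℝ) n]
  have hn0 : (0 : ℝ) < (n : ℝ) + 1 := by linarith
  have a1 : ((c * Nat.log 2 (n + 1) + 1 : ℕ) : ℝ) ^ 4 ≤
      (2 * c / δ + 1) ^ 4 * ((n : ℝ) + 1) ^ ε := by
    have h1 : ((c * Nat.log 2 (n + 1) + 1 : ℕ) : ℝ) ≤ (2 * c / δ + 1) * ((n : ℝ) + 1) ^ δ := by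
      push_cast
      have h2 := mul_le_mul_of_nonneg_left (log_nat_le n hδ0) (Nat.cast_nonneg (α := ℝ) c)
      have h3 : (1 : ℝ) ≤ ((n : ℝ) + 1) ^ δ := Real.one_le_rpow hn hδ0.le
      have h4 : (2 * (c : ℝ) / δ + 1) * ((n : ℝ) + 1) ^ δ =
          c * (2 / δ * ((n : ℝ) + 1) ^ δ) + ((n : ℝ) + 1) ^ δ := by ring
      linarith
    have h2 := pow_le_pow_left₀ (by positivity) h1 4
    refine h2.trans (le_of_eq ?_)
    rw [mul_pow, ← Real.rpow_natCast (((n : ℝ) + 1) ^ δ) 4, ← Real.rpow_mul hn0.le]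
    congr 2
    rw [hδ]
    push_cast
    ring
  have a2 : w1 ^ (c * Nat.log 2 (n + 1)) ≤ ((n : ℝ) + 1) ^ ε := by
    rw [pow_mul]
    have h1 : (w1 ^ c) ^ Nat.log 2 (n + 1) ≤ ((2 : ℝ) ^ ε) ^ Nat.log 2 (n + 1) :=
      pow_le_pow_left₀ (by positivity) hw2 _
    refine h1.trans ?_
    rw [← Real.rpow_natCast, ← Real.rpow_mul (by norm_num), mul_comm, Real.rpow_mul (by norm_num),
      Real.rpow_natCast]
    apply Real.rpow_le_rpow (by positivity) _ hε0.le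
    have h2 := Nat.pow_log_le_self 2 (show n + 1 ≠ 0 by omega)
    exact_mod_cast h2
  have a3 : 1 / (2 : ℝ) ^ e n ≤ C0 * ((n : ℝ) + 1) ^ (-(σ / 2)) := by
    have h1 : (((n : ℝ) + 1) ^ (σ / 2)) ^ 2 ≤ (C0 * 2 ^ e n) ^ 2 := by
      rw [← Real.rpow_natCast (((n : ℝ) + 1) ^ (σ / 2)) 2, ← Real.rpow_mul hn0.le]
      have h2 : σ / 2 * ((2 : ℕ) : ℝ) = σ := by push_cast; ring
      rw [h2, mul_pow, ← pow_mul, mul_comm (e n) 2, pow_mul]
      norm_num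
      refine (he n).trans ?_
      have h3 : C0 ≤ C0 ^ 2 := by nlinarith
      exact mul_le_mul_of_nonneg_right h3 (by positivity)
    have h2 : ((n : ℝ) + 1) ^ (σ / 2) ≤ C0 * 2 ^ e n :=
      le_of_sq_le_sq h1 (by positivity)
    rw [Real.rpow_neg hn0.le, div_le_iff₀ (by positivity), ← div_eq_mul_inv, div_mul_eq_mul_div,
      le_div_iff₀ (by positivity), one_mul]
    exact h2
  have h1 : ((c * Nat.log 2 (n + 1) + 1 : ℕ) : ℝ) ^ 4 * w1 ^ (c * Nat.log 2 (n + 1)) / 2 ^ e n ≤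
      ((2 * c / δ + 1) ^ 4 * ((n : ℝ) + 1) ^ ε) * ((n : ℝ) + 1) ^ ε *
        (C0 * ((n : ℝ) + 1) ^ (-(σ / 2))) := by
    rw [div_eq_mul_one_div]
    apply mul_le_mul (mul_le_mul a1 a2 (by positivity) (by positivity)) a3 (by positivity)
      (by positivity)
  refine h1.trans (le_of_eq ?_)
  have h2 : ((n : ℝ) + 1) ^ ε * ((n : ℝ) + 1) ^ ε * ((n : ℝ) + 1) ^ (-(σ / 2)) =
      ((n : ℝ) + 1) ^ (-((σ + 2) / 4)) := by
    rw [← Real.rpow_add hn0, ← Real.rpow_add hn0]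
    congr 1
    rw [hε]
    ring
  rw [← h2]
  ring

variable {X : Type} [DecidableEq X] (H : Horn X)

/-- absence of eigenvalues in the window `(E₁, E₂)` -/
theorem Horn.no_eigW [Countable X] (hV : S_Virial) (hMean : S_Mean) (hSum : S_Sum) (hConv : S_Conv)
    {σ : ℝ} (hσ : 2 < σ) (P : ParW σ) {C0 : ℝ} (hC0 : 1 ≤ C0)
    (hj1 : ∀ n : ℕ, (4 : ℝ) ^ H.e n ≤ C0 * ((n : ℝ) + 1) ^ σ)
    (hj2 : ∀ n : ℕ, ((n : ℝ) + 1) ^ σ ≤ C0 * 4 ^ H.e n)
    {b : ℝ} (hb : 0 < b) : ∃ l0 > (0 : ℝ), ∀ l : ℝ, |l| ≤ l0 →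
      ∀ (μ : Measure ℝ) [IsProbabilityMeasure μ], μ (Set.Icc (-b) b)ᶜ = 0 →
      ∀ᵐ ω ∂(PX X μ), (∀ x, |ω x| ≤ b) → ∀ E, P.E₁ < E → E < P.E₂ → ∀ (u : X → ℝ) (U : ℝ),
        (∀ R, ∑ x ∈ H.B R, u x ^ 2 ≤ U) → H.Sol l E ω u → ∀ x, u x = 0 := by
  obtain ⟨E₁, E₂, β, q, s, w, r, c, N0, hE1', hE12', hE2', hβ, hβ1, hβ2, hE, hzs, hqw, hs, hs1, hw,
    hw1, hc, hr, hr1, hrw, hrs4, hN, hN2, hw2, hw3⟩ := P
  -- growth with a natural exponent
  have hgrow : ∀ n : ℕ, (2 : ℝ) ^ H.e n ≤ C0 * ((n : ℝ) + 1) ^ (⌈σ⌉₊) := by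
    intro n
    have h1 : (2 : ℝ) ^ H.e n ≤ 4 ^ H.e n := pow_le_pow_left₀ (by norm_num) (by norm_num) _
    refine h1.trans ((hj1 n).trans ?_)
    apply mul_le_mul_of_nonneg_left _ (by linarith)
    rw [← Real.rpow_natCast]
    exact Real.rpow_le_rpow_of_exponent_le (by linarith [Nat.cast_nonneg (α := ℝ) n])
      (Nat.le_ceil σ)
  obtain ⟨hd1, hd2, hdn, hd, A, hA⟩ := hSum r hr hr1 H.e ⌈σ⌉₊ C0 H.e0 H.estep hgrow
  -- comparison of shells
  set Γ : ℝ := C0 ^ 2 * 2 ^ σ with hΓdef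
  have h2σ : (1 : ℝ) ≤ 2 ^ σ := Real.one_le_rpow (by norm_num) (by linarith)
  have hΓ1 : 1 ≤ Γ := by
    rw [hΓdef]
    exact nx8 hC0 h2σ
  have hΓ : ∀ n i, n ≤ 2 * i → i ≤ 2 * n → (4 : ℝ) ^ H.e n ≤ Γ * 4 ^ H.e i := by
    intro n i hni _
    have h1 : ((n : ℝ) + 1) ^ σ ≤ (2 * ((i : ℝ) + 1)) ^ σ := by
      apply Real.rpow_le_rpow (by positivity) _ (by linarith)
      have : (n : ℝ) ≤ 2 * i := by exact_mod_cast hni
      linarith
    rw [Real.mul_rpow (by norm_num) (by positivity)] at h1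
    have h2 : (2 : ℝ) ^ σ * ((i : ℝ) + 1) ^ σ ≤ 2 ^ σ * (C0 * 4 ^ H.e i) :=
      mul_le_mul_of_nonneg_left (hj2 i) (by positivity)
    have h3 := mul_le_mul_of_nonneg_left (h1.trans h2) (by linarith : (0 : ℝ) ≤ C0)
    refine (hj1 n).trans (h3.trans (le_of_eq ?_))
    rw [hΓdef]
    ring
  -- the parameter τ
  set τ : ℝ := min ((1 - r ^ 2) / 15) (1 / (|A| + N0)) with hτ
  have hN0 : (1 : ℝ) ≤ N0 := by exact_mod_cast hN
  have hr2 : 0 < 1 - r ^ 2 := by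
    have : r ^ 2 < 1 := pow_lt_one₀ hr.le hr1 (by norm_num)
    linarith
  have hτ0 : 0 < τ := lt_min (by positivity) (by positivity)
  have hτ1 : τ ≤ (1 - r ^ 2) / 15 := min_le_left _ _
  have hτ2 : τ * (|A| + N0) ≤ 1 := by
    have h1 : τ ≤ 1 / (|A| + N0) := min_le_right _ _
    rwa [le_div_iff₀ (by positivity)] at h1
  set θ : ℝ := r⁻¹ * (1 + 3 * τ) with hθ
  have hri : 1 < r⁻¹ := (one_lt_inv₀ hr).2 hr1
  have hθ1 : 1 < θ := by rw [hθ]; exact nx9 hri hτ0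
  have hθs : s * θ ^ 2 < 1 := by
    rw [hθ, hrs4]
    exact nx7 hr hτ0 hτ1
  set κ : ℝ := (2 + 8 * b ^ 2) / (1 - s) + (2 * b + 1) with hκ
  have hs2 : 0 < 1 - s := by linarith
  have hκ0 : 0 < κ := by positivity
  have hκ1 : b ^ 2 / (1 - s) ≤ κ := by
    rw [hκ]
    have : b ^ 2 / (1 - s) ≤ (2 + 8 * b ^ 2) / (1 - s) := by
      apply div_le_div_of_nonneg_right _ hs2.le
      nlinarith [sq_nonneg b]
    linarith
  have hκ2 : (2 + 8 * b ^ 2) / (1 - s) ≤ κ := by rw [hκ]; linarith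
  have hκ3 : 2 * b + 1 ≤ κ := by
    rw [hκ]
    have : 0 < (2 + 8 * b ^ 2) / (1 - s) := by positivity
    linarith
  set δ : ℝ := (12 - E₂) / 8 with hδ
  have hδ0 : 0 < δ := by rw [hδ]; linarith
  obtain ⟨l1, hl1, hVir⟩ := hV s θ κ δ τ hs hs1 hθ1 hθs hκ0 hδ0 hτ0
  refine ⟨min l1 (β / b), lt_min hl1 (by positivity), fun l hl μ _ hμ => ?_⟩
  have hll : |l| ≤ l1 := hl.trans (min_le_left _ _)
  have hlβ : |l| * b ≤ β := by
    have := hl.trans (min_le_right _ _)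
    rwa [le_div_iff₀ hb] at this
  have hlb1 : |l| * b ≤ 1 := hlβ.trans hβ1
  have hlb0 : 0 ≤ |l| * b := by positivity
  have hz0 : 1 ≤ E₁ + 15 := by linarith
  have hsum := sum_par (e := H.e) hσ hw2 hw3 hC0 hj2
  filter_upwards [H.ae_sum (c := c) hMean hb.le hμ hlβ hβ1 hΓ1 hΓ hz0 hs hw2 hsum] with ω hsumω hω E
    hE1 hE2 u U hU hu
  set f : ℕ → ℝ := fun n => |H.v ω n - mean μ| + H.Dn μ l c (E₁ + 15) s ω n with hf
  have hDn0 : ∀ n, 0 ≤ H.Dn μ l c (E₁ + 15) s ω n := H.Dn_nonneg (by linarith) hs ω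
  have hf0 : ∀ n, 0 ≤ f n := fun n => add_nonneg (abs_nonneg _) (hDn0 n)
  obtain ⟨y, Cy, hy1, hy0, hy2, hy3, hyC⟩ := hConv r hr hr1 (fun n => f n + f (n + 1))
    (fun n => add_nonneg (hf0 n) (hf0 (n + 1)))
    (hsumω.add ((summable_nat_add_iff 1).2 hsumω))
  have hz : 1 ≤ E + 15 := by linarith
  have hz2 := hzs (|l| * b) E hlb0 hlβ hE1
  have hyD : ∀ n, H.Dn μ l c (E₁ + 15) s ω n + H.Dn μ l c (E₁ + 15) s ω (n + 1) ≤ y n := by
    intro n
    have h1 := hy1 n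
    simp only [hf] at h1
    have h2 := abs_nonneg (H.v ω n - mean μ)
    have h3 := abs_nonneg (H.v ω (n + 1) - mean μ)
    linarith
  have hyv : ∀ n, |H.v ω n - mean μ| ≤ y n := by
    intro n
    have h1 := hy1 n
    simp only [hf] at h1
    have h2 := abs_nonneg (H.v ω (n + 1) - mean μ)
    linarith [hDn0 n, hDn0 (n + 1)]
  obtain ⟨C1, hC1, hprod⟩ := prod_boundW (N0 := N0) (y := y) hr hN hτ0 hy0 hA hyC hτ2
  have hU0 : 0 ≤ U := (sum_nonneg fun x _ => sq_nonneg _).trans (hU 0)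
  have hmean : |mean μ| ≤ b := by
    have h1 : ∀ᵐ t ∂μ, ‖t‖ ≤ b := by
      rw [ae_iff]
      refine measure_mono_null ?_ hμ
      intro t ht
      rw [Set.mem_ofPred_eq] at ht
      intro h
      apply ht
      rw [Real.norm_eq_abs]
      exact abs_le.2 h
    have h2 := norm_integral_le_of_norm_le_const h1
    unfold mean
    rw [Real.norm_eq_abs] at h2
    simpa using h2
  have hqs : q ≤ s := nx6 hqw hs hw1
  have hrs : s ≤ r := by
    rw [hrs4]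
    calc r ^ 4 ≤ r ^ 1 := pow_le_pow_of_le_one hr.le hr1.le (by norm_num)
      _ = r := pow_one r
  have hep := etw_pos (e := H.e) hr hN hy0
  have key := hVir l ((E - 8) / 4 - l * mean μ / 4) hll (by
    have h1 : |l * mean μ| ≤ β := by
      rw [abs_mul]
      exact (mul_le_mul_of_nonneg_left hmean (abs_nonneg _)).trans hlβ
    have h2 := abs_le.1 h1
    rw [abs_le, hδ]
    constructor <;> linarith [h2.1, h2.2])
    (H.ph u) (fun n => H.v ω n - mean μ) (H.hh ω u) (etw r N0 H.e y)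
    (fun M n m => H.SS (fun x => l * ω x) ω (E + 15) M n m) (b * √U + C1)
    (H.ph_summable hU)
    (fun n => by
      have := H.rec_succ hu n
      linear_combination this)
    (by
      have := H.rec_zero hu
      linear_combination this)
    (fun M n => by
      have h1 := H.hh_bound (by linarith) hlb1 hb.le hω hu hU M n
      refine h1.trans ?_
      apply mul_le_mul (by linarith) _ (by positivity) (by positivity)
      exact pow_le_pow_left₀ (by positivity) (hz2.trans hqs) M)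
    (fun M n m => H.SS_symm _ _ _ _ _ _)
    (fun M n k => (H.SS_boundW hb.le hlb1 hz hz2 hqs hs hs1 hω M n k).trans (by gcongr))
    (fun M n k => by
      have h1 := (H.SS_diffW (μ := μ) hb.le hlb1 hz0 (by linarith) hz2 hqw hs hs1 hw hw1 hω hc hr
        hr1 hrw hN hy0 hyD hd hdn M n k).1
      refine h1.trans (le_of_eq_of_le (by ring) (mul_le_mul_of_nonneg_right
        (mul_le_mul_of_nonneg_right hκ2 (hep n).le) (by positivity))))
    (fun M n k => by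
      have h1 := (H.SS_diffW (μ := μ) hb.le hlb1 hz0 (by linarith) hz2 hqw hs hs1 hw hw1 hω hc hr
        hr1 hrw hN hy0 hyD hd hdn M n k).2
      refine h1.trans (le_of_eq_of_le (by ring) (mul_le_mul_of_nonneg_right
        (mul_le_mul_of_nonneg_right hκ2 (hep (n + k)).le) (by positivity))))
    (fun n => hep n)
    (fun n => etw_le hr hr1 hN n)
    (fun n => by
      have hp := hep n
      by_cases hn : y n ≤ 1
      · have h1 : y n ≤ etw r N0 H.e y n := by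
          unfold etw
          rw [min_eq_right hn]
          have : 0 ≤ r ^ dist H.e n + (N0 : ℝ) / ((n : ℝ) + N0) := by positivity
          linarith
        exact nx2 ((hyv n).trans h1) hκ3 hb hp
      · have h1 : |H.v ω n - mean μ| ≤ 2 * b := by
          refine (abs_sub _ _).trans ?_
          have := H.v_abs hω n
          linarith
        have h2 : 1 ≤ etw r N0 H.e y n := by
          unfold etw
          rw [min_eq_left (by linarith)]
          have : 0 ≤ r ^ dist H.e n + (N0 : ℝ) / ((n : ℝ) + N0) := by positivity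
          linarith
        exact nx3 h1 hκ3 hb h2)
    (fun n => by
      have h1 : s ^ n ≤ r ^ dist H.e n := by
        calc s ^ n ≤ r ^ n := pow_le_pow_left₀ hs.le hrs n
          _ ≤ r ^ dist H.e n := pow_le_pow_of_le_one hr.le hr1.le (hdn n)
      refine h1.trans ?_
      unfold etw
      have h2 : 0 ≤ min 1 (y n) := le_min zero_le_one (hy0 n)
      have : 0 ≤ (N0 : ℝ) / ((n : ℝ) + N0) := by positivity
      linarith)
    (fun n => by
      have h1 := etw_up hr hr1 hN hd1 hy2 n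
      have h2 := etw_le (e := H.e) (y := y) hr hr1 hN n
      have h3 := hep n
      have h4 : 1 + τ * etw r N0 H.e y n ≤ 1 + 3 * τ := nx1 hτ0 h2
      refine (mul_le_mul h1 h4 (by positivity) (by positivity)).trans (le_of_eq ?_)
      rw [hθ]
      ring)
    (fun n => by
      have h1 := etw_dn hr hr1 hN hN2 hd2 hy3 n
      have h3 := hep (n + 1)
      refine h1.trans ?_
      apply mul_le_mul_of_nonneg_right _ h3.le
      rw [hθ]
      exact nx4 hri hτ0)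
    (fun n => by
      have h2 := etw_le (e := H.e) (y := y) hr hr1 hN n
      rw [hθ]
      exact nx5 hri hτ0 h2)
    (fun N => (hprod N).trans (by
      apply mul_le_mul_of_nonneg_right _ (by positivity)
      have : 0 ≤ b * √U := by positivity
      linarith))
  exact H.final (by linarith) hlb1 hb.le hω hu hU key

end Pool.Agent.Helper32.PG
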