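import Pool.Agent.Helper32.PG.Alg

/-!
The compression of the Hamiltonian to the vectors of zero shell averages, and the resolvent
expansion of the self energy.
-/

set_option autoImplicit false
set_option linter.unusedSectionVars false

namespace Pool.Agent.Helper32.PG

open Finset

variable {X : Type} [DecidableEq X] (H : Horn X)

/-- shell average -/
noncomputable def Horn.avg (f : X → ℝ) (x : X) : ℝ :=
  (∑ y ∈ H.Sh (H.sh x), f y) / 4 ^ H.e (H.sh x)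

/-- projection to zero shell averages -/
noncomputable def Horn.Q (f : X → ℝ) (x : X) : ℝ := f x - H.avg f x

/-- shifted Hamiltonian -/
noncomputable def Horn.T (V f : X → ℝ) (x : X) : ℝ := H.L f x + (V x + 15) * f x

/-- compressed shifted Hamiltonian -/
noncomputable def Horn.A (V f : X → ℝ) : X → ℝ := H.Q (H.T V f)

/-- shell average of the potential -/
noncomputable def Horn.v (ω : X → ℝ) (n : ℕ) : ℝ := (∑ y ∈ H.Sh n, ω y) / 4 ^ H.e n

/-- the non uniform part of the potential applied to the uniform vector of the shell -/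
noncomputable def Horn.w (ω : X → ℝ) (n : ℕ) (x : X) : ℝ :=
  if H.sh x = n then (ω x - H.v ω n) / 2 ^ H.e n else 0

/-- iterates -/
noncomputable def Horn.g (V ω : X → ℝ) (n k : ℕ) : X → ℝ := (H.A V)^[k] (H.w ω n)

/-- moments -/
noncomputable def Horn.p (V ω : X → ℝ) (k n m : ℕ) : ℝ := ∑ x ∈ H.Sh m, H.w ω m x * H.g V ω n k x

theorem Horn.avg_of {x : X} {n : ℕ} (hx : x ∈ H.Sh n) (f : X → ℝ) :
    H.avg f x = (∑ y ∈ H.Sh n, f y) / 4 ^ H.e n := by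
  rw [H.mem] at hx
  unfold Horn.avg
  rw [hx]

theorem Horn.sum_const_shell (n : ℕ) (c : ℝ) : ∑ _x ∈ H.Sh n, c = 4 ^ H.e n * c := by
  rw [sum_const, H.card, nsmul_eq_mul]
  push_cast
  ring

theorem Horn.sum_avg (f : X → ℝ) (n : ℕ) : ∑ x ∈ H.Sh n, H.avg f x = ∑ x ∈ H.Sh n, f x := by
  rw [sum_congr rfl fun x hx => H.avg_of hx f, H.sum_const_shell]
  field_simp

theorem Horn.sum_avg_mul (f g : X → ℝ) (n : ℕ) : ∑ x ∈ H.Sh n, H.avg f x * g x =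
    (∑ x ∈ H.Sh n, f x) / 4 ^ H.e n * ∑ x ∈ H.Sh n, g x := by
  rw [sum_congr rfl fun x hx => by rw [H.avg_of hx f], ← mul_sum]

theorem Horn.Q_zm (f : X → ℝ) : H.ZM (H.Q f) := by
  intro n
  unfold Horn.Q
  rw [sum_sub_distrib, H.sum_avg, sub_self]

theorem Horn.Q_id {f : X → ℝ} (hf : H.ZM f) : H.Q f = f := by
  funext x
  unfold Horn.Q Horn.avg
  rw [hf, zero_div, sub_zero]

theorem Horn.Q_van {f : X → ℝ} {r : ℕ} (hf : H.Van f r) : H.Van (H.Q f) r := by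
  intro x hx
  unfold Horn.Q Horn.avg
  rw [hf x hx, sum_eq_zero, zero_div, sub_zero]
  intro y hy
  rw [H.mem] at hy
  exact hf y (by omega)

theorem Horn.sum_Q_shell (f g : X → ℝ) (n : ℕ) :
    ∑ x ∈ H.Sh n, H.Q f x * g x = ∑ x ∈ H.Sh n, f x * H.Q g x := by
  unfold Horn.Q
  have h1 : ∑ x ∈ H.Sh n, (f x - H.avg f x) * g x = ∑ x ∈ H.Sh n, f x * g x -
      ∑ x ∈ H.Sh n, H.avg f x * g x := by
    rw [← sum_sub_distrib]
    exact sum_congr rfl fun x _ => by ring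
  have h2 : ∑ x ∈ H.Sh n, f x * (g x - H.avg g x) = ∑ x ∈ H.Sh n, f x * g x -
      ∑ x ∈ H.Sh n, H.avg g x * f x := by
    rw [← sum_sub_distrib]
    exact sum_congr rfl fun x _ => by ring
  rw [h1, h2, H.sum_avg_mul, H.sum_avg_mul]
  ring

theorem Horn.sum_Q (f g : X → ℝ) (R : ℕ) :
    ∑ x ∈ H.B R, H.Q f x * g x = ∑ x ∈ H.B R, f x * H.Q g x := by
  rw [H.sum_B, H.sum_B]
  exact sum_congr rfl fun n _ => H.sum_Q_shell f g n

theorem Horn.T_van (V : X → ℝ) {f : X → ℝ} {r : ℕ} (hf : H.Van f r) : H.Van (H.T V f) (r + 1) := by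
  intro x hx
  unfold Horn.T
  rw [H.L_van hf x hx, hf x (by omega)]
  ring

theorem Horn.A_van (V : X → ℝ) {f : X → ℝ} {r : ℕ} (hf : H.Van f r) : H.Van (H.A V f) (r + 1) :=
  H.Q_van (H.T_van V hf)

theorem Horn.A_zm (V f : X → ℝ) : H.ZM (H.A V f) := H.Q_zm _

theorem Horn.T_sym (V : X → ℝ) {f : X → ℝ} (g : X → ℝ) {r R : ℕ} (hf : H.Van f r) (hR : r + 1 ≤ R) :
    ∑ x ∈ H.B R, H.T V f x * g x = ∑ x ∈ H.B R, f x * H.T V g x := by
  unfold Horn.T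
  simp only [add_mul (H.L _ _), mul_add _ (H.L _ _), sum_add_distrib]
  rw [H.L_sym g hf hR]
  congr 1
  exact sum_congr rfl fun x _ => by ring

theorem Horn.A_sym (V : X → ℝ) {f g : X → ℝ} {r R : ℕ} (hf : H.Van f r) (hR : r + 1 ≤ R)
    (zf : H.ZM f) (zg : H.ZM g) :
    ∑ x ∈ H.B R, H.A V f x * g x = ∑ x ∈ H.B R, f x * H.A V g x := by
  unfold Horn.A
  rw [H.sum_Q, H.Q_id zg, H.T_sym V g hf hR, ← H.sum_Q, H.Q_id zf]

theorem Horn.A_iter_van (V : X → ℝ) {f : X → ℝ} {r : ℕ} (hf : H.Van f r) (k : ℕ) :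
    H.Van ((H.A V)^[k] f) (r + k) := by
  induction k with
  | zero => exact hf
  | succ k ih =>
    rw [Function.iterate_succ_apply']
    exact H.A_van V ih

theorem Horn.A_iter_zm (V : X → ℝ) {f : X → ℝ} (hf : H.ZM f) (k : ℕ) : H.ZM ((H.A V)^[k] f) := by
  cases k with
  | zero => exact hf
  | succ k =>
    rw [Function.iterate_succ_apply']
    exact H.A_zm V _

theorem Horn.A_iter_sym (V : X → ℝ) {f g : X → ℝ} {r : ℕ} (hf : H.Van f r) (k : ℕ)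
    (zf : H.ZM f) (zg : H.ZM g) {R : ℕ} (hR : r + k + 1 ≤ R) :
    ∑ x ∈ H.B R, (H.A V)^[k] f x * g x = ∑ x ∈ H.B R, f x * (H.A V)^[k] g x := by
  induction k generalizing g with
  | zero => rfl
  | succ k ih =>
    rw [Function.iterate_succ_apply' (H.A V) k f,
      H.A_sym V (H.A_iter_van V hf k) (by omega) (H.A_iter_zm V zf k) zg, ih (H.A_zm V g) (by omega),
      Function.iterate_succ_apply]

theorem Horn.L_add (f g : X → ℝ) (c : ℝ) (x : X) :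
    H.L (fun y => f y + c * g y) x = H.L f x + c * H.L g x := by
  unfold Horn.L
  rw [mul_sum, ← sum_add_distrib]
  exact sum_congr rfl fun y _ => by ring

theorem Horn.A_add (V f g : X → ℝ) (c : ℝ) :
    H.A V (fun y => f y + c * g y) = fun y => H.A V f y + c * H.A V g y := by
  have h1 : H.T V (fun y => f y + c * g y) = fun y => H.T V f y + c * H.T V g y := by
    funext x
    unfold Horn.T
    rw [H.L_add]
    ring
  unfold Horn.A
  rw [h1]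
  funext x
  unfold Horn.Q Horn.avg
  rw [sum_add_distrib, ← mul_sum]
  ring

/-- form of `A` -/
theorem Horn.form_A (V : X → ℝ) {f : X → ℝ} (zf : H.ZM f) (R : ℕ) :
    ∑ x ∈ H.B R, f x * H.A V f x = ∑ x ∈ H.B R, f x * H.L f x +
      ∑ x ∈ H.B R, (V x + 15) * f x ^ 2 := by
  unfold Horn.A
  rw [← H.sum_Q, H.Q_id zf]
  unfold Horn.T
  rw [← sum_add_distrib]
  exact sum_congr rfl fun x _ => by ring

theorem Horn.A_form_nonneg {V : X → ℝ} {β : ℝ} (hV : ∀ x, |V x| ≤ β) (hβ : β ≤ 1) {f : X → ℝ}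
    {r R : ℕ} (hf : H.Van f r) (hR : r ≤ R) (zf : H.ZM f) :
    0 ≤ ∑ x ∈ H.B R, f x * H.A V f x := by
  rw [H.form_A V zf]
  have h1 := H.L_lower hf hR
  have h2 : 14 * ∑ x ∈ H.B R, f x ^ 2 ≤ ∑ x ∈ H.B R, (V x + 15) * f x ^ 2 := by
    rw [mul_sum]
    apply sum_le_sum
    intro x _
    apply mul_le_mul_of_nonneg_right _ (sq_nonneg _)
    have := (abs_le.1 (hV x)).1
    linarith
  have h3 : 0 ≤ ∑ x ∈ H.B R, f x ^ 2 := sum_nonneg fun x _ => sq_nonneg _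
  linarith

theorem Horn.A_form_le {V : X → ℝ} {β : ℝ} (hV : ∀ x, |V x| ≤ β) {f : X → ℝ}
    {r R : ℕ} (hf : H.Van f r) (hR : r ≤ R) (zf : H.ZM f) :
    ∑ x ∈ H.B R, f x * H.A V f x ≤ (27 - 1 / 100 + β) * ∑ x ∈ H.B R, f x ^ 2 := by
  rw [H.form_A V zf]
  have h1 := H.L_upper hf hR zf
  have h2 : ∑ x ∈ H.B R, (V x + 15) * f x ^ 2 ≤ (15 + β) * ∑ x ∈ H.B R, f x ^ 2 := by
    rw [mul_sum]
    apply sum_le_sum
    intro x _
    apply mul_le_mul_of_nonneg_right _ (sq_nonneg _)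
    have := (abs_le.1 (hV x)).2
    linarith
  linarith

theorem Horn.A_norm {V : X → ℝ} {β : ℝ} (hV : ∀ x, |V x| ≤ β) (hβ : β ≤ 1) (hβ0 : 0 ≤ β)
    {f : X → ℝ} {r R : ℕ} (hf : H.Van f r) (hR : r + 2 ≤ R) (zf : H.ZM f) :
    ∑ x ∈ H.B R, H.A V f x ^ 2 ≤ (27 - 1 / 100 + β) ^ 2 * ∑ x ∈ H.B R, f x ^ 2 := by
  set ρ : ℝ := 27 - 1 / 100 + β with hρ
  have hρ0 : 0 < ρ := by rw [hρ]; linarith
  set G := H.A V f with hG
  have zG : H.ZM G := H.A_zm V f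
  have vG : H.Van G (r + 1) := H.A_van V hf
  have h1 : 0 ≤ ∑ x ∈ H.B R, (f x + (-ρ⁻¹) * G x) * H.A V (fun y => f y + (-ρ⁻¹) * G y) x := by
    apply H.A_form_nonneg (f := fun y => f y + (-ρ⁻¹) * G y) hV hβ (r := r + 1)
    · intro x hx
      show f x + (-ρ⁻¹) * G x = 0
      rw [hf x (by omega), vG x hx]
      ring
    · omega
    · intro n
      rw [sum_add_distrib, ← mul_sum, zf, zG]
      ring
  rw [H.A_add] at h1
  have h2 : ∑ x ∈ H.B R, (f x + (-ρ⁻¹) * G x) * (H.A V f x + (-ρ⁻¹) * H.A V G x) =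
      ∑ x ∈ H.B R, f x * H.A V f x - ρ⁻¹ * ∑ x ∈ H.B R, G x * H.A V f x -
      ρ⁻¹ * ∑ x ∈ H.B R, f x * H.A V G x + ρ⁻¹ ^ 2 * ∑ x ∈ H.B R, G x * H.A V G x := by
    rw [mul_sum, mul_sum, mul_sum, ← sum_sub_distrib, ← sum_sub_distrib, ← sum_add_distrib]
    exact sum_congr rfl fun x _ => by ring
  rw [h2, ← H.A_sym V hf (by omega) zf zG, ← hG] at h1
  have h3 : ∑ x ∈ H.B R, G x * G x = ∑ x ∈ H.B R, G x ^ 2 :=
    sum_congr rfl fun x _ => by ring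
  rw [h3] at h1
  have h4 := H.A_form_le hV vG (by omega : r + 1 ≤ R) zG
  have h5 := H.A_form_le hV hf (by omega : r ≤ R) zf
  rw [← hρ] at h4 h5
  rw [← hG] at h5
  have h6 : ρ⁻¹ ^ 2 * ∑ x ∈ H.B R, G x * H.A V G x ≤ ρ⁻¹ * ∑ x ∈ H.B R, G x ^ 2 := by
    have := mul_le_mul_of_nonneg_left h4 (by positivity : (0 : ℝ) ≤ ρ⁻¹ ^ 2)
    refine this.trans (le_of_eq ?_)
    field_simp
  have h7 : ρ⁻¹ * ∑ x ∈ H.B R, G x ^ 2 ≤ ρ * ∑ x ∈ H.B R, f x ^ 2 := by linarith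
  have h8 := mul_le_mul_of_nonneg_left h7 hρ0.le
  have h9 : ρ * (ρ⁻¹ * ∑ x ∈ H.B R, G x ^ 2) = ∑ x ∈ H.B R, G x ^ 2 := by
    field_simp
  rw [h9] at h8
  linarith

theorem Horn.A_iter_norm {V : X → ℝ} {β : ℝ} (hV : ∀ x, |V x| ≤ β) (hβ : β ≤ 1) (hβ0 : 0 ≤ β)
    {f : X → ℝ} {r : ℕ} (hf : H.Van f r) (zf : H.ZM f) (k : ℕ) {R : ℕ} (hR : r + k + 1 ≤ R) :
    ∑ x ∈ H.B R, (H.A V)^[k] f x ^ 2 ≤ (27 - 1 / 100 + β) ^ (2 * k) * ∑ x ∈ H.B R, f x ^ 2 := by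
  induction k with
  | zero => simp
  | succ k ih =>
    rw [Function.iterate_succ_apply']
    refine (H.A_norm hV hβ hβ0 (H.A_iter_van V hf k) (by omega) (H.A_iter_zm V zf k)).trans ?_
    have h := mul_le_mul_of_nonneg_left (ih (by omega)) (sq_nonneg (27 - 1 / 100 + β))
    refine h.trans (le_of_eq ?_)
    ring

theorem Horn.w_van (ω : X → ℝ) (n : ℕ) : H.Van (H.w ω n) n := by
  intro x hx
  unfold Horn.w
  rw [if_neg (by omega)]

theorem Horn.w_zm (ω : X → ℝ) (n : ℕ) : H.ZM (H.w ω n) := by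
  intro m
  by_cases h : m = n
  · subst h
    have h1 : ∑ x ∈ H.Sh m, H.w ω m x = ∑ x ∈ H.Sh m, (ω x - H.v ω m) / 2 ^ H.e m := by
      apply sum_congr rfl
      intro x hx
      unfold Horn.w
      rw [if_pos ((H.mem _ _).1 hx)]
    rw [h1, ← sum_div, sum_sub_distrib, H.sum_const_shell]
    unfold Horn.v
    field_simp
    ring
  · apply sum_eq_zero
    intro x hx
    unfold Horn.w
    rw [if_neg]
    rw [H.mem] at hx
    omega

theorem Horn.w_sq {ω : X → ℝ} {b : ℝ} (hb : 0 ≤ b) (hω : ∀ x, |ω x| ≤ b) (n R : ℕ) :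
    ∑ x ∈ H.B R, H.w ω n x ^ 2 ≤ b ^ 2 := by
  have h0 : ∑ x ∈ H.B R, H.w ω n x ^ 2 ≤ ∑ x ∈ H.Sh n, H.w ω n x ^ 2 := by
    rw [← sum_filter_add_sum_filter_not (H.B R) (fun x => H.sh x = n)]
    have h1 : ∑ x ∈ (H.B R).filter (fun x => ¬ H.sh x = n), H.w ω n x ^ 2 = 0 := by
      apply sum_eq_zero
      intro x hx
      rw [mem_filter] at hx
      unfold Horn.w
      rw [if_neg hx.2]
      ring
    rw [h1, add_zero]
    apply sum_le_sum_of_subset_of_nonneg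
    · intro x hx
      rw [mem_filter] at hx
      exact (H.mem _ _).2 hx.2
    · intro x _ _
      exact sq_nonneg _
  refine h0.trans ?_
  have h1 : ∑ x ∈ H.Sh n, H.w ω n x ^ 2 = ((∑ x ∈ H.Sh n, ω x ^ 2) - 4 ^ H.e n * H.v ω n ^ 2) /
      4 ^ H.e n := by
    have h2 : ∑ x ∈ H.Sh n, H.w ω n x ^ 2 = ∑ x ∈ H.Sh n, (ω x ^ 2 - 2 * H.v ω n * ω x +
        H.v ω n ^ 2) / 4 ^ H.e n := by
      apply sum_congr rfl
      intro x hx
      unfold Horn.w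
      rw [if_pos ((H.mem _ _).1 hx), div_pow, ← pow_mul, mul_comm (H.e n) 2, pow_mul]
      norm_num
      ring
    rw [h2, ← sum_div, sum_add_distrib, sum_sub_distrib, ← mul_sum, H.sum_const_shell]
    have h3 : ∑ x ∈ H.Sh n, ω x = 4 ^ H.e n * H.v ω n := by
      unfold Horn.v
      field_simp
    rw [h3]
    ring
  rw [h1, div_le_iff₀ (by positivity)]
  have h2 : ∑ x ∈ H.Sh n, ω x ^ 2 ≤ ∑ _x ∈ H.Sh n, b ^ 2 := by
    apply sum_le_sum
    intro x _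
    exact sq_le_sq.2 (by rw [abs_of_nonneg hb]; exact hω x)
  rw [H.sum_const_shell] at h2
  have h3 : (0 : ℝ) ≤ 4 ^ H.e n * H.v ω n ^ 2 := by positivity
  linarith

theorem Horn.g_van (V ω : X → ℝ) (n k : ℕ) : H.Van (H.g V ω n k) (n + k) :=
  H.A_iter_van V (H.w_van ω n) k

theorem Horn.g_zm (V ω : X → ℝ) (n k : ℕ) : H.ZM (H.g V ω n k) :=
  H.A_iter_zm V (H.w_zm ω n) k

theorem Horn.g_succ (V ω : X → ℝ) (n k : ℕ) : H.g V ω n (k + 1) = H.A V (H.g V ω n k) := by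
  unfold Horn.g
  rw [Function.iterate_succ_apply']

theorem Horn.w_sum (ω f : X → ℝ) {m R : ℕ} (hR : m ≤ R) :
    ∑ x ∈ H.B R, H.w ω m x * f x = ∑ x ∈ H.Sh m, H.w ω m x * f x := by
  rw [H.sum_B]
  rw [sum_eq_single m]
  · intro i _ hi
    apply sum_eq_zero
    intro x hx
    unfold Horn.w
    rw [H.mem] at hx
    rw [if_neg (by omega), zero_mul]
  · intro h
    rw [mem_range] at h
    omega

theorem Horn.p_eq (V ω : X → ℝ) (k n m : ℕ) {R : ℕ} (hR : m ≤ R) :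
    H.p V ω k n m = ∑ x ∈ H.B R, H.w ω m x * H.g V ω n k x := by
  rw [H.w_sum ω _ hR]
  rfl

theorem Horn.p_symm (V ω : X → ℝ) (k n m : ℕ) : H.p V ω k n m = H.p V ω k m n := by
  rw [H.p_eq V ω k n m (R := n + m + k + 1) (by omega),
    H.p_eq V ω k m n (R := n + m + k + 1) (by omega)]
  unfold Horn.g
  rw [← H.A_iter_sym V (H.w_van ω m) k (H.w_zm ω m) (H.w_zm ω n) (by omega)]
  exact sum_congr rfl fun x _ => mul_comm _ _

theorem Horn.p_zero (V ω : X → ℝ) {k n m : ℕ} (h : n + k < m) : H.p V ω k n m = 0 := by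
  unfold Horn.p
  apply sum_eq_zero
  intro x hx
  rw [H.mem] at hx
  rw [H.g_van V ω n k x (by omega), mul_zero]

theorem Horn.p_bound {V ω : X → ℝ} {β b : ℝ} (hV : ∀ x, |V x| ≤ β) (hβ : β ≤ 1) (hβ0 : 0 ≤ β)
    (hb : 0 ≤ b) (hω : ∀ x, |ω x| ≤ b) (k n m : ℕ) :
    |H.p V ω k n m| ≤ b ^ 2 * (27 - 1 / 100 + β) ^ k := by
  set R := n + m + k + 1 with hR
  rw [H.p_eq V ω k n m (R := R) (by omega)]
  have h1 := sum_mul_sq_le_sq_mul_sq (H.B R) (H.w ω m) (H.g V ω n k)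
  have h2 := H.w_sq hb hω m R
  have h3 : ∑ x ∈ H.B R, H.g V ω n k x ^ 2 ≤ (27 - 1 / 100 + β) ^ (2 * k) * b ^ 2 := by
    refine (H.A_iter_norm hV hβ hβ0 (H.w_van ω n) (H.w_zm ω n) k (by omega)).trans ?_
    exact mul_le_mul_of_nonneg_left (H.w_sq hb hω n R) (by positivity)
  have h4 : (∑ x ∈ H.B R, H.w ω m x * H.g V ω n k x) ^ 2 ≤
      (b ^ 2 * (27 - 1 / 100 + β) ^ k) ^ 2 := by
    refine h1.trans ((mul_le_mul h2 h3 (sum_nonneg fun x _ => sq_nonneg _) (by positivity)).trans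
      (le_of_eq ?_))
    ring
  exact abs_le_of_sq_le_sq h4 (by positivity)

end Pool.Agent.Helper32.PG
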