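import Pool.Agent.Helper32.PG.Loc
import Pool.Agent.Helper32.BS.Env

/-!
The moments under the product law: means are shift invariant, fluctuations are summable.
-/

set_option autoImplicit false
set_option linter.unusedSectionVars false

namespace Pool.Agent.Helper32.PG

open Finset MeasureTheory Filter

variable {X : Type} [DecidableEq X] (H : Horn X)

theorem Horn.meas_A {F : (X → ℝ) → X → ℝ} (hF : ∀ x, Measurable fun ω => F ω x) (l : ℝ) (x : X) :
    Measurable fun ω : X → ℝ => H.A (fun y => l * ω y) (F ω) x := by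
  have h1 : ∀ x, Measurable fun ω : X → ℝ => H.T (fun y => l * ω y) (F ω) x := by
    intro x
    unfold Horn.T Horn.L
    apply Measurable.add
    · exact Finset.measurable_sum _ fun y _ => (hF y).const_mul _
    · exact (((measurable_pi_apply x).const_mul l).add_const 15).mul (hF x)
  unfold Horn.A Horn.Q Horn.avg
  exact (h1 x).sub ((Finset.measurable_sum _ fun y _ => h1 y).div_const _)

theorem Horn.meas_v (n : ℕ) : Measurable fun ω : X → ℝ => H.v ω n := by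
  unfold Horn.v
  exact (Finset.measurable_sum _ fun y _ => measurable_pi_apply y).div_const _

theorem Horn.meas_w (n : ℕ) (x : X) : Measurable fun ω : X → ℝ => H.w ω n x := by
  unfold Horn.w
  split_ifs
  · exact ((measurable_pi_apply x).sub (H.meas_v n)).div_const _
  · exact measurable_const

theorem Horn.meas_g (l : ℝ) (n k : ℕ) (x : X) :
    Measurable fun ω : X → ℝ => H.g (fun y => l * ω y) ω n k x := by
  induction k generalizing x with
  | zero => exact H.meas_w n x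
  | succ k ih =>
    simp only [H.g_succ]
    exact H.meas_A ih l x

theorem Horn.meas_p (l : ℝ) (k n m : ℕ) :
    Measurable fun ω : X → ℝ => H.p (fun y => l * ω y) ω k n m := by
  unfold Horn.p
  exact Finset.measurable_sum _ fun x _ => (H.meas_w m x).mul (H.meas_g l n k x)

/-- law of the potential -/
noncomputable def PX (X : Type) (μ : Measure ℝ) [IsProbabilityMeasure μ] : Measure (X → ℝ) :=
  Measure.infinitePi (fun _ : X => μ)

/-- mean moments -/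
noncomputable def Horn.Ep (μ : Measure ℝ) [IsProbabilityMeasure μ] (l : ℝ) (k n m : ℕ) : ℝ :=
  ∫ ω, H.p (fun y => l * ω y) ω k n m ∂(PX X μ)

theorem Horn.Ep_shift (μ : Measure ℝ) [IsProbabilityMeasure μ] (l : ℝ) {a c n m k : ℕ}
    (he : ∀ i, a ≤ i → i ≤ c → H.e (i + 1) = H.e i)
    (h1 : a ≤ n) (h2 : n ≤ c) (h3 : a + k ≤ m) (h4 : m + k ≤ c) :
    H.Ep μ l k n m = H.Ep μ l k (n + 1) (m + 1) := by
  unfold Horn.Ep PX
  have h := Pool.Agent.Helper32.BS.pi_mp μ H.tau H.tinj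
  have h5 : ∀ ω : X → ℝ, H.p (fun y => l * ω y) ω k (n + 1) (m + 1) =
      (fun ω : X → ℝ => H.p (fun y => l * ω y) ω k n m) (fun x => ω (H.tau x)) := by
    intro ω
    exact (H.p_shift he l ω h1 h2 h3 h4).symm
  rw [integral_congr_ae (Eventually.of_forall h5)]
  rw [← h.map_eq, integral_map h.measurable.aemeasurable]
  · rw [h.map_eq]
  · exact (H.meas_p l k n m).aestronglyMeasurable

theorem Horn.Ep_zero (μ : Measure ℝ) [IsProbabilityMeasure μ] (l : ℝ) {n m k : ℕ}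
    (h : n + k < m ∨ m + k < n) : H.Ep μ l k n m = 0 := by
  unfold Horn.Ep
  have h1 : ∀ ω : X → ℝ, H.p (fun y => l * ω y) ω k n m = 0 := by
    intro ω
    rcases h with h | h
    · exact H.p_zero _ _ h
    · rw [H.p_symm]
      exact H.p_zero _ _ h
  simp only [h1, integral_zero]

theorem Horn.e_far (n k : ℕ) : (2 : ℝ) ^ H.e (n + k) ≤ 2 ^ k * 2 ^ H.e n := by
  induction k with
  | zero => simp
  | succ k ih =>
    refine (H.e_step_le (n + k)).trans ?_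
    rw [pow_succ]
    linarith

theorem Horn.e_mono' {n m : ℕ} (h : n ≤ m) : (2 : ℝ) ^ H.e n ≤ 2 ^ H.e m := by
  induction m, h using Nat.le_induction with
  | base => exact le_rfl
  | succ m _ ih => exact ih.trans (H.e_mono m)

theorem Horn.card_B (R : ℕ) : ((H.B R).card : ℝ) ≤ (R + 1) * 4 ^ H.e R := by
  have h1 : ((H.B R).card : ℝ) = ∑ x ∈ H.B R, (1 : ℝ) := by simp
  rw [h1, H.sum_B]
  have h2 : ∀ n ∈ range (R + 1), ∑ _x ∈ H.Sh n, (1 : ℝ) ≤ 4 ^ H.e R := by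
    intro n hn
    rw [mem_range] at hn
    rw [H.sum_const_shell, mul_one]
    have h3 := H.e_mono' (show n ≤ R by omega)
    have h4 : ∀ i, (4 : ℝ) ^ i = 2 ^ i * 2 ^ i := fun i => by rw [← mul_pow]; norm_num
    rw [h4, h4]
    exact mul_le_mul h3 h3 (by positivity) (by positivity)
  refine (sum_le_sum h2).trans ?_
  rw [sum_const, card_range, nsmul_eq_mul]
  push_cast
  exact le_rfl

/-- the variance of a moment -/
theorem Horn.var_bound (b : ℝ) (k n m : ℕ) (h1 : m ≤ n + k) (h2 : n ≤ m + k) :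
    (((H.B (n + k)).card : ℝ)) * (8 * b ^ 2 * (k + 2) * 60 ^ k / (2 ^ H.e n * 2 ^ H.e m)) ^ 2 ≤
      256 * b ^ 4 * (n + 1) * (2 ^ 19) ^ k / 4 ^ H.e n := by
  have c1 := H.card_B (n + k)
  have e1 : (0 : ℝ) < 2 ^ H.e n := by positivity
  have e2 : (0 : ℝ) < 2 ^ H.e m := by positivity
  have h4 : ∀ i, (4 : ℝ) ^ i = 2 ^ i * 2 ^ i := fun i => by rw [← mul_pow]; norm_num
  have c2 : (4 : ℝ) ^ H.e (n + k) ≤ 4 ^ k * 4 ^ H.e n := by
    rw [h4, h4, h4]
    have := mul_le_mul (H.e_far n k) (H.e_far n k) (by positivity) (by positivity)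
    linarith
  have c3 : (2 : ℝ) ^ H.e n ≤ 2 ^ k * 2 ^ H.e m := (H.e_mono' h2).trans (H.e_far m k)
  have c4 : ((n : ℝ) + k + 1) ≤ (n + 1) * 2 ^ k := by
    have h5 : (k : ℝ) + 1 ≤ 2 ^ k := by
      have := Nat.lt_two_pow_self (n := k)
      exact_mod_cast this
    have h6 : (0 : ℝ) ≤ n := Nat.cast_nonneg n
    have h7 : (0 : ℝ) ≤ k := Nat.cast_nonneg k
    nlinarith
  have c5 : ((k : ℝ) + 2) ^ 2 ≤ 4 * 4 ^ k := by
    have h5 : (k : ℝ) + 2 ≤ 2 * 2 ^ k := by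
      have := Nat.lt_two_pow_self (n := k)
      have h8 : (k : ℝ) + 1 ≤ 2 ^ k := by exact_mod_cast this
      have h7 : (0 : ℝ) ≤ k := Nat.cast_nonneg k
      linarith
    have h7 : (0 : ℝ) ≤ (k : ℝ) + 2 := by positivity
    rw [h4]
    nlinarith
  set s := (2 : ℝ) ^ H.e n with hs
  set s' := (2 : ℝ) ^ H.e m with hs'
  have hs4 : (4 : ℝ) ^ H.e n = s * s := h4 _
  rw [hs4] at c2 ⊢
  have c6 : s * s ≤ 4 ^ k * (s' * s') := by
    rw [h4 k]
    have := mul_le_mul c3 c3 e1.le (by positivity)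
    linarith
  rw [div_pow, mul_div_assoc', div_le_div_iff₀ (by positivity) (by positivity)]
  have d1 : ((H.B (n + k)).card : ℝ) ≤ (n + 1) * 2 ^ k * (4 ^ k * (s * s)) := by
    refine c1.trans ?_
    push_cast
    exact mul_le_mul c4 c2 (by positivity) (by positivity)
  have d2 : (8 * b ^ 2 * ((k : ℝ) + 2) * 60 ^ k) ^ 2 ≤ 64 * b ^ 4 * (4 * 4 ^ k) * 3600 ^ k := by
    have : (8 * b ^ 2 * ((k : ℝ) + 2) * 60 ^ k) ^ 2 = 64 * b ^ 4 * ((k : ℝ) + 2) ^ 2 * 3600 ^ k := by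
      rw [show (3600 : ℝ) ^ k = (60 ^ k) ^ 2 by rw [← pow_mul, mul_comm, pow_mul]; norm_num]
      ring
    rw [this]
    gcongr
  have d3 : ((H.B (n + k)).card : ℝ) * (8 * b ^ 2 * ((k : ℝ) + 2) * 60 ^ k) ^ 2 * (s * s) ≤
      ((n + 1) * 2 ^ k * (4 ^ k * (s * s))) * (64 * b ^ 4 * (4 * 4 ^ k) * 3600 ^ k) *
        (4 ^ k * (s' * s')) := by
    apply mul_le_mul (mul_le_mul d1 d2 (by positivity) (by positivity)) c6 (by positivity)
      (by positivity)
  refine d3.trans ?_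
  have d4 : (2 : ℝ) ^ k * 4 ^ k * (4 ^ k) * 3600 ^ k * 4 ^ k ≤ (2 ^ 19) ^ k := by
    rw [← mul_pow, ← mul_pow, ← mul_pow, ← mul_pow]
    exact pow_le_pow_left₀ (by norm_num) (by norm_num) k
  have d5 : ((n : ℝ) + 1) * 2 ^ k * (4 ^ k * (s * s)) * (64 * b ^ 4 * (4 * 4 ^ k) * 3600 ^ k) *
        (4 ^ k * (s' * s')) = (256 * b ^ 4 * (n + 1)) * (2 ^ k * 4 ^ k * (4 ^ k) * 3600 ^ k * 4 ^ k) *
          (s * s') ^ 2 := by ring
  rw [d5]
  gcongr

theorem log_pow_le (c n k : ℕ) (hk : k ≤ c * Nat.log 2 (n + 1)) :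
    (2 : ℝ) ^ k ≤ ((n : ℝ) + 1) ^ c := by
  have h1 : (2 : ℝ) ^ k ≤ 2 ^ (c * Nat.log 2 (n + 1)) := pow_le_pow_right₀ (by norm_num) hk
  refine h1.trans ?_
  rw [mul_comm, pow_mul]
  apply pow_le_pow_left₀ (by positivity)
  have h2 := Nat.pow_log_le_self 2 (show n + 1 ≠ 0 by omega)
  exact_mod_cast h2

section fluct

variable {μ : Measure ℝ} [IsProbabilityMeasure μ] {b l C0 : ℝ} {c j : ℕ}

theorem Horn.dev_p [Countable X] (hDev : S_Dev) (hb : 0 ≤ b) (hμ : μ (Set.Icc (-b) b)ᶜ = 0)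
    (hl : |l| * b ≤ 1) (hj : ∀ n : ℕ, ((n : ℝ) + 1) ^ j ≤ C0 * 2 ^ H.e n) (hcj : 19 * c + 9 ≤ 2 * j)
    (n k m : ℕ) (hk : k ≤ c * Nat.log 2 (n + 1)) :
    PX X μ {ω | 1 / ((n : ℝ) + 1) ^ 2 ≤ |H.p (fun y => l * ω y) ω k n m - H.Ep μ l k n m|} ≤
      ENNReal.ofReal (256 * b ^ 4 * C0 ^ 2 / ((n : ℝ) + 1) ^ 4) := by
  have hn : (0 : ℝ) < (n : ℝ) + 1 := by positivity
  by_cases hm : n + k < m ∨ m + k < n
  · have h1 : {ω : X → ℝ | 1 / ((n : ℝ) + 1) ^ 2 ≤
        |H.p (fun y => l * ω y) ω k n m - H.Ep μ l k n m|} = ∅ := by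
      ext ω
      rw [Set.mem_ofPred_eq, H.Ep_zero μ l hm]
      have h2 : H.p (fun y => l * ω y) ω k n m = 0 := by
        rcases hm with h | h
        · exact H.p_zero _ _ h
        · rw [H.p_symm]
          exact H.p_zero _ _ h
      rw [h2, sub_zero, abs_zero, Set.mem_empty_iff_false, iff_false, not_le]
      positivity
    rw [h1, measure_empty]
    exact bot_le
  · push Not at hm
    obtain ⟨hm1, hm2⟩ := hm
    have hl0 : 0 ≤ |l| * b := by positivity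
    have h1 := hDev X μ b hμ (fun ω => H.p (fun y => l * ω y) ω k n m) (H.B (n + k))
      (8 * b ^ 2 * (k + 2) * 60 ^ k / (2 ^ H.e n * 2 ^ H.e m))
      (b ^ 2 * (27 - 1 / 100 + |l| * b) ^ k) (H.meas_p l k n m) (by positivity)
      (fun ω hω => H.p_bound (fun x => by
        rw [abs_mul]
        exact mul_le_mul_of_nonneg_left (hω x) (abs_nonneg _)) hl hl0 hb hω k n m)
      (fun ω ω' h => H.p_congr h)
      (fun ω x t hω ht => H.p_diff hb hl hω ht k n m)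
      (1 / ((n : ℝ) + 1) ^ 2) (by positivity)
    refine h1.trans (ENNReal.ofReal_le_ofReal ?_)
    have h2 := H.var_bound b k n m hm1 hm2
    rw [one_div, inv_pow, div_inv_eq_mul]
    refine (mul_le_mul_of_nonneg_right h2 (by positivity)).trans ?_
    have h3 : ((2 : ℝ) ^ 19) ^ k ≤ ((n : ℝ) + 1) ^ (19 * c) := by
      rw [← pow_mul, mul_comm 19 k, pow_mul, mul_comm 19 c, pow_mul]
      exact pow_le_pow_left₀ (by positivity) (log_pow_le c n k hk) 19
    have h4 : (4 : ℝ) ^ H.e n = 2 ^ H.e n * 2 ^ H.e n := by rw [← mul_pow]; norm_num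
    have h5 := hj n
    have h6 : (((n : ℝ) + 1) ^ j) ^ 2 ≤ C0 ^ 2 * 4 ^ H.e n := by
      rw [h4]
      have := mul_le_mul h5 h5 (by positivity) (le_trans (by positivity) h5)
      nlinarith
    rw [div_mul_eq_mul_div, div_le_div_iff₀ (by positivity) (by positivity)]
    have h7 : ((n : ℝ) + 1) ^ (19 * c + 9) ≤ (((n : ℝ) + 1) ^ j) ^ 2 := by
      rw [← pow_mul, mul_comm j 2]
      exact pow_le_pow_right₀ (by linarith [Nat.cast_nonneg (α := ℝ) n]) hcj
    have h8 : 256 * b ^ 4 * ((n : ℝ) + 1) * (2 ^ 19) ^ k * (((n : ℝ) + 1) ^ 2) ^ 2 *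
        ((n : ℝ) + 1) ^ 4 ≤ 256 * b ^ 4 * ((n : ℝ) + 1) * ((n : ℝ) + 1) ^ (19 * c) *
          (((n : ℝ) + 1) ^ 2) ^ 2 * ((n : ℝ) + 1) ^ 4 := by
      gcongr
    refine h8.trans ?_
    have h9 : 256 * b ^ 4 * ((n : ℝ) + 1) * ((n : ℝ) + 1) ^ (19 * c) *
          (((n : ℝ) + 1) ^ 2) ^ 2 * ((n : ℝ) + 1) ^ 4 = 256 * b ^ 4 * ((n : ℝ) + 1) ^ (19 * c + 9) := by
      ring
    rw [h9]
    have h10 : 256 * b ^ 4 * ((n : ℝ) + 1) ^ (19 * c + 9) ≤ 256 * b ^ 4 * (C0 ^ 2 * 4 ^ H.e n) := by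
      have := h7.trans h6
      gcongr
    refine h10.trans (le_of_eq (by ring))

theorem Horn.v_diff {ω : X → ℝ} {t : ℝ} {x0 : X} (hω : ∀ x, |ω x| ≤ b) (ht : |t| ≤ b) (n : ℕ) :
    |H.v (Function.update ω x0 t) n - H.v ω n| ≤ 2 * b / 4 ^ H.e n := by
  have hb : 0 ≤ b := (abs_nonneg _).trans ht
  unfold Horn.v
  rw [← sub_div, abs_div, abs_of_pos (by positivity : (0 : ℝ) < 4 ^ H.e n)]
  apply div_le_div_of_nonneg_right _ (by positivity)
  rw [← sum_sub_distrib]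
  refine (abs_sum_le_sum_abs _ _).trans ?_
  have h3 : ∀ x ∈ H.Sh n, |Function.update ω x0 t x - ω x| =
      if x = x0 then |t - ω x0| else 0 := by
    intro x _
    by_cases h : x = x0
    · subst h
      simp
    · simp [h]
  rw [sum_congr rfl h3, sum_ite_eq']
  split_ifs
  · refine (abs_sub _ _).trans ?_
    have := hω x0
    linarith
  · positivity

/-- mean of the law -/
noncomputable def mean (μ : Measure ℝ) : ℝ := ∫ t, t ∂μ

theorem Horn.Ev (hμ : μ (Set.Icc (-b) b)ᶜ = 0) (n : ℕ) :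
    ∫ ω, H.v ω n ∂(PX X μ) = mean μ := by
  have hi : Integrable (fun t : ℝ => t) μ := by
    refine Integrable.of_bound (C := b) measurable_id.aestronglyMeasurable ?_
    rw [ae_iff]
    refine measure_mono_null ?_ hμ
    intro t ht
    rw [Set.mem_ofPred_eq] at ht
    intro h
    apply ht
    rw [Real.norm_eq_abs]
    exact abs_le.2 h
  have h1 : ∀ x : X, MeasurePreserving (fun ω : X → ℝ => ω x) (PX X μ) μ := fun x =>
    measurePreserving_eval_infinitePi (fun _ : X => μ) x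
  have h2 : ∀ x : X, ∫ ω, ω x ∂(PX X μ) = mean μ := by
    intro x
    have e1 := (h1 x).map_eq
    have e2 : ∫ ω, ω x ∂(PX X μ) = ∫ t, t ∂(Measure.map (fun ω : X → ℝ => ω x) (PX X μ)) :=
      (integral_map (h1 x).measurable.aemeasurable measurable_id.aestronglyMeasurable).symm
    rw [e2, e1]
    rfl
  have h3 : ∀ x : X, Integrable (fun ω : X → ℝ => ω x) (PX X μ) := by
    intro x
    have := (h1 x).integrable_comp_of_integrable hi
    exact this
  unfold Horn.v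
  rw [integral_div, integral_finsetSum _ fun x _ => h3 x, sum_congr rfl fun x _ => h2 x,
    H.sum_const_shell]
  field_simp

theorem Horn.dev_v [Countable X] (hDev : S_Dev) (hb : 0 ≤ b) (hμ : μ (Set.Icc (-b) b)ᶜ = 0)
    (hj : ∀ n : ℕ, ((n : ℝ) + 1) ^ j ≤ C0 * 2 ^ H.e n) (hcj : 19 * c + 9 ≤ 2 * j) (n : ℕ) :
    PX X μ {ω | 1 / ((n : ℝ) + 1) ^ 2 ≤ |H.v ω n - mean μ|} ≤
      ENNReal.ofReal (4 * b ^ 2 * C0 ^ 2 / ((n : ℝ) + 1) ^ 4) := by
  have h1 := hDev X μ b hμ (fun ω => H.v ω n) (H.Sh n) (2 * b / 4 ^ H.e n) b (H.meas_v n)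
    (by positivity) (fun ω hω => H.v_abs hω n)
    (fun ω ω' h => by unfold Horn.v; rw [sum_congr rfl h])
    (fun ω x t hω ht => H.v_diff hω ht n)
    (1 / ((n : ℝ) + 1) ^ 2) (by positivity)
  have h0 : ∫ ω', H.v ω' n ∂(Measure.infinitePi (fun _ : X => μ)) = mean μ := H.Ev hμ n
  rw [h0] at h1
  refine h1.trans (ENNReal.ofReal_le_ofReal ?_)
  rw [H.card]
  have h4 : (4 : ℝ) ^ H.e n = 2 ^ H.e n * 2 ^ H.e n := by rw [← mul_pow]; norm_num
  have h5 := hj n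
  have h6 : (((n : ℝ) + 1) ^ j) ^ 2 ≤ C0 ^ 2 * 4 ^ H.e n := by
    rw [h4]
    have := mul_le_mul h5 h5 (by positivity) (le_trans (by positivity) h5)
    nlinarith
  have h7 : ((n : ℝ) + 1) ^ 8 ≤ (((n : ℝ) + 1) ^ j) ^ 2 := by
    rw [← pow_mul, mul_comm j 2]
    exact pow_le_pow_right₀ (by linarith [Nat.cast_nonneg (α := ℝ) n]) (by omega)
  rw [one_div, inv_pow, div_inv_eq_mul]
  push_cast
  rw [div_pow, mul_div_assoc', div_mul_eq_mul_div, div_le_div_iff₀ (by positivity) (by positivity)]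
  have h8 := mul_le_mul_of_nonneg_left (h7.trans h6)
    (by positivity : (0 : ℝ) ≤ 4 ^ H.e n * (4 * b ^ 2))
  nlinarith [h8]

/-- almost surely the moments and the shell averages are close to their means -/
def Horn.Good (μ : Measure ℝ) [IsProbabilityMeasure μ] (l : ℝ) (c : ℕ) (ω : X → ℝ) (n0 : ℕ) : Prop :=
  ∀ n, n0 ≤ n → |H.v ω n - mean μ| ≤ 1 / ((n : ℝ) + 1) ^ 2 ∧
    ∀ k, k ≤ c * Nat.log 2 (n + 1) → ∀ m,
      |H.p (fun y => l * ω y) ω k n m - H.Ep μ l k n m| ≤ 1 / ((n : ℝ) + 1) ^ 2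

theorem Horn.ae_good [Countable X] (hDev : S_Dev) (hb : 0 ≤ b) (hμ : μ (Set.Icc (-b) b)ᶜ = 0)
    (hl : |l| * b ≤ 1) (hj : ∀ n : ℕ, ((n : ℝ) + 1) ^ j ≤ C0 * 2 ^ H.e n)
    (hcj : 19 * c + 9 ≤ 2 * j) : ∀ᵐ ω ∂(PX X μ), ∃ n0, H.Good μ l c ω n0 := by
  set Bad : ℕ → Set (X → ℝ) := fun n =>
    {ω | 1 / ((n : ℝ) + 1) ^ 2 ≤ |H.v ω n - mean μ|} ∪
      ⋃ k ∈ range (c * Nat.log 2 (n + 1) + 1), ⋃ m ∈ range (n + k + 1),
        {ω | 1 / ((n : ℝ) + 1) ^ 2 ≤ |H.p (fun y => l * ω y) ω k n m - H.Ep μ l k n m|} with hBad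
  set K : ℝ := 4 * b ^ 2 * C0 ^ 2 + (c + 1) ^ 2 * (256 * b ^ 4 * C0 ^ 2) with hK
  have hK0 : 0 ≤ K := by positivity
  have h1 : ∀ n : ℕ, PX X μ (Bad n) ≤ ENNReal.ofReal (K / ((n : ℝ) + 1) ^ 2) := by
    intro n
    set D : ℝ := 256 * b ^ 4 * C0 ^ 2 / ((n : ℝ) + 1) ^ 4 with hD
    have hD0 : 0 ≤ D := by positivity
    have hN : (1 : ℝ) ≤ (n : ℝ) + 1 := by linarith [Nat.cast_nonneg (α := ℝ) n]
    have hL : (Nat.log 2 (n + 1) : ℝ) ≤ (n : ℝ) := by
      have := Nat.log_lt_self 2 (show n + 1 ≠ 0 by omega)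
      exact_mod_cast Nat.lt_succ_iff.1 this
    have e1 : PX X μ (⋃ k ∈ range (c * Nat.log 2 (n + 1) + 1), ⋃ m ∈ range (n + k + 1),
        {ω | 1 / ((n : ℝ) + 1) ^ 2 ≤ |H.p (fun y => l * ω y) ω k n m - H.Ep μ l k n m|}) ≤
        ENNReal.ofReal ((c + 1) ^ 2 * ((n : ℝ) + 1) ^ 2 * D) := by
      refine (measure_biUnion_finset_le _ _).trans ?_
      have e2 : ∀ k ∈ range (c * Nat.log 2 (n + 1) + 1), PX X μ (⋃ m ∈ range (n + k + 1),
          {ω | 1 / ((n : ℝ) + 1) ^ 2 ≤ |H.p (fun y => l * ω y) ω k n m - H.Ep μ l k n m|}) ≤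
          ENNReal.ofReal ((c + 1) * ((n : ℝ) + 1) * D) := by
        intro k hk
        rw [mem_range] at hk
        refine (measure_biUnion_finset_le _ _).trans ?_
        refine (sum_le_sum fun m _ => H.dev_p hDev hb hμ hl hj hcj n k m (by omega)).trans ?_
        rw [sum_const, card_range, nsmul_eq_mul, ← ENNReal.ofReal_natCast,
          ← ENNReal.ofReal_mul (by positivity)]
        apply ENNReal.ofReal_le_ofReal
        apply mul_le_mul_of_nonneg_right _ hD0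
        have h2 : (k : ℝ) ≤ c * n := by
          have h3 : (k : ℝ) ≤ c * Nat.log 2 (n + 1) := by exact_mod_cast Nat.lt_succ_iff.1 hk
          refine h3.trans (mul_le_mul_of_nonneg_left hL (Nat.cast_nonneg c))
        push_cast
        have h4 : (0 : ℝ) ≤ c := Nat.cast_nonneg c
        nlinarith
      refine (sum_le_sum e2).trans ?_
      rw [sum_const, card_range, nsmul_eq_mul, ← ENNReal.ofReal_natCast,
        ← ENNReal.ofReal_mul (by positivity)]
      apply ENNReal.ofReal_le_ofReal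
      have h2 : ((c * Nat.log 2 (n + 1) + 1 : ℕ) : ℝ) ≤ (c + 1) * ((n : ℝ) + 1) := by
        push_cast
        have h4 : (0 : ℝ) ≤ c := Nat.cast_nonneg c
        nlinarith
      have h5 := mul_le_mul_of_nonneg_right h2
        (by positivity : (0 : ℝ) ≤ (c + 1) * ((n : ℝ) + 1) * D)
      refine h5.trans (le_of_eq (by ring))
    refine (measure_union_le _ _).trans ((add_le_add (H.dev_v hDev hb hμ hj hcj n) e1).trans ?_)
    rw [← ENNReal.ofReal_add (by positivity) (by positivity)]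
    apply ENNReal.ofReal_le_ofReal
    rw [hD, hK]
    have hN0 : (0 : ℝ) < (n : ℝ) + 1 := by linarith
    have e3 : 4 * b ^ 2 * C0 ^ 2 / ((n : ℝ) + 1) ^ 4 ≤ 4 * b ^ 2 * C0 ^ 2 / ((n : ℝ) + 1) ^ 2 := by
      apply div_le_div_of_nonneg_left (by positivity) (by positivity)
      exact pow_le_pow_right₀ hN (by norm_num)
    have e4 : ((c : ℝ) + 1) ^ 2 * ((n : ℝ) + 1) ^ 2 * (256 * b ^ 4 * C0 ^ 2 / ((n : ℝ) + 1) ^ 4) =
        ((c : ℝ) + 1) ^ 2 * (256 * b ^ 4 * C0 ^ 2) / ((n : ℝ) + 1) ^ 2 := by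
      field_simp
    rw [e4, add_div]
    linarith
  have h2 : ∑' n, PX X μ (Bad n) ≠ ⊤ := by
    have h3 : Summable fun n : ℕ => K / ((n : ℝ) + 1) ^ 2 := by
      have h4 : Summable fun n : ℕ => 1 / ((n : ℝ)) ^ 2 := Real.summable_one_div_nat_pow.2 (by norm_num)
      have h5 := (summable_nat_add_iff 1).2 h4
      refine (h5.mul_left K).congr fun n => ?_
      push_cast
      ring
    have h4 : ∑' n, PX X μ (Bad n) ≤ ∑' n : ℕ, ENNReal.ofReal (K / ((n : ℝ) + 1) ^ 2) :=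
      ENNReal.tsum_le_tsum h1
    refine ne_top_of_le_ne_top ?_ h4
    rw [← ENNReal.ofReal_tsum_of_nonneg (fun n => by positivity) h3]
    exact ENNReal.ofReal_ne_top
  have h3 := ae_eventually_notMem h2
  filter_upwards [h3] with ω hω
  rw [eventually_atTop] at hω
  obtain ⟨n0, hn0⟩ := hω
  refine ⟨n0, fun n hn => ?_⟩
  have h4 := hn0 n hn
  rw [hBad] at h4
  simp only [Set.mem_union, not_or, Set.mem_iUnion, not_exists, Set.mem_ofPred_eq, not_le] at h4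
  refine ⟨h4.1.le, fun k hk m => ?_⟩
  by_cases hm : m < n + k + 1
  · exact (h4.2 k (mem_range.2 (by omega)) m (mem_range.2 hm)).le
  · rw [H.p_zero _ _ (by omega), H.Ep_zero μ l (Or.inl (by omega)), sub_zero, abs_zero]
    positivity

end fluct

end Pool.Agent.Helper32.PG
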