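import Pool.Agent.Helper32.PG.Alg

/-!
Statements of the packages for the version with every growth exponent `D > 3` (helper32).
-/

set_option autoImplicit false

namespace Pool.Agent.Helper32.PG

open Finset MeasureTheory

/-- N1. exponents for a real growth rate -/
def S_ExpR : Prop := ∀ σ : ℝ, 0 < σ → ∃ e : ℕ → ℕ, ∃ C0 : ℝ, 1 ≤ C0 ∧ e 0 = 0 ∧
    (∀ n, e (n + 1) = e n ∨ e (n + 1) = e n + 1) ∧
    (∀ n : ℕ, (4 : ℝ) ^ e n ≤ C0 * ((n : ℝ) + 1) ^ σ) ∧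
    (∀ n : ℕ, ((n : ℝ) + 1) ^ σ ≤ C0 * (4 : ℝ) ^ e n)

/-- N2. mean deviation from the Efron-Stein inequality on an infinite product -/
def S_Mean : Prop := ∀ (X : Type) [Countable X] [DecidableEq X] (μ : Measure ℝ)
    [IsProbabilityMeasure μ] (b : ℝ), μ (Set.Icc (-b) b)ᶜ = 0 →
    ∀ (G : (X → ℝ) → ℝ) (S : Finset X) (D K : ℝ),
    Measurable G → 0 ≤ D → (∀ ω, (∀ x, |ω x| ≤ b) → |G ω| ≤ K) →
    (∀ ω ω', (∀ x ∈ S, ω x = ω' x) → G ω = G ω') →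
    (∀ ω x t, x ∈ S → (∀ y, |ω y| ≤ b) → |t| ≤ b → |G (Function.update ω x t) - G ω| ≤ D) →
    Integrable G (Measure.infinitePi (fun _ : X => μ)) ∧
    ∫ ω, |G ω - ∫ ω', G ω' ∂(Measure.infinitePi (fun _ : X => μ))|
      ∂(Measure.infinitePi (fun _ : X => μ)) ≤ √S.card * D

/-- N3. balls of the graph of a horn -/
def S_Ball : Prop := ∀ (X : Type) [DecidableEq X] (H : Horn X) (o : X), H.sh o = 0 →
    (SimpleGraph.fromRel fun x y => 0 < H.a x y).Connected ∧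
    (∀ n, {x | (SimpleGraph.fromRel fun x y => 0 < H.a x y).dist o x ≤ n} = ↑(H.B n)) ∧
    ∀ (σ C0 : ℝ), 0 < σ → 1 ≤ C0 → (∀ n : ℕ, (4 : ℝ) ^ H.e n ≤ C0 * ((n : ℝ) + 1) ^ σ) →
      (∀ n : ℕ, ((n : ℝ) + 1) ^ σ ≤ C0 * (4 : ℝ) ^ H.e n) →
      ∃ c > (0 : ℝ), ∃ C : ℝ, ∀ n : ℕ, 1 ≤ n →
        c * (n : ℝ) ^ (σ + 1) ≤ (H.B n).card ∧ ((H.B n).card : ℝ) ≤ C * (n : ℝ) ^ (σ + 1)

/-- N4. slowly varying majorant of a summable sequence -/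
def S_Conv : Prop := ∀ (r : ℝ), 0 < r → r < 1 → ∀ x : ℕ → ℝ, (∀ n, 0 ≤ x n) → Summable x →
    ∃ (y : ℕ → ℝ) (C : ℝ), (∀ n, x n ≤ y n) ∧ (∀ n, 0 ≤ y n) ∧ (∀ n, y (n + 1) ≤ r⁻¹ * y n) ∧
      (∀ n, y n ≤ r⁻¹ * y (n + 1)) ∧ ∀ N, ∑ n ∈ range N, y n ≤ C

end Pool.Agent.Helper32.PG
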