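import Pool.Agent.Helper32.PG.LocW
import Pool.Agent.Helper32.PG.Prob
import Pool.Agent.Helper32.PG.Stm3

/-!
Mean deviations of the moments; almost surely the deviations are summable.
-/

set_option autoImplicit false
set_option linter.unusedSectionVars false

namespace Pool.Agent.Helper32.PG

open Finset MeasureTheory Filter

variable {X : Type} [DecidableEq X] (H : Horn X)

theorem ae_summable {Ω : Type} [MeasurableSpace Ω] {P : Measure Ω} {f : ℕ → Ω → ℝ} {a : ℕ → ℝ}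
    (hf : ∀ n, Integrable (f n) P) (h0 : ∀ n ω, 0 ≤ f n ω) (h1 : ∀ n, ∫ ω, f n ω ∂P ≤ a n)
    (ha : Summable a) : ∀ᵐ ω ∂P, Summable fun n => f n ω := by
  have hm : ∀ n, AEMeasurable (fun ω => ENNReal.ofReal (f n ω)) P := fun n =>
    (hf n).aestronglyMeasurable.aemeasurable.ennreal_ofReal
  have h2 : ∫⁻ ω, ∑' n, ENNReal.ofReal (f n ω) ∂P < ⊤ := by
    rw [lintegral_tsum hm]
    have h3 : ∀ n, ∫⁻ ω, ENNReal.ofReal (f n ω) ∂P = ENNReal.ofReal (∫ ω, f n ω ∂P) := fun n =>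
      (ofReal_integral_eq_lintegral_ofReal (hf n) (Eventually.of_forall (h0 n))).symm
    simp only [h3]
    have h4 : ∑' n, ENNReal.ofReal (∫ ω, f n ω ∂P) ≤ ∑' n, ENNReal.ofReal (a n) :=
      ENNReal.tsum_le_tsum fun n => ENNReal.ofReal_le_ofReal (h1 n)
    refine lt_of_le_of_lt h4 ?_
    have ha0 : ∀ n, 0 ≤ a n := fun n => (integral_nonneg (h0 n)).trans (h1 n)
    rw [← ENNReal.ofReal_tsum_of_nonneg ha0 ha]
    exact ENNReal.ofReal_lt_top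
  have h3 := ae_lt_top' (AEMeasurable.tsum hm) h2.ne
  filter_upwards [h3] with ω hω
  have h4 : Summable fun n => (ENNReal.ofReal (f n ω)).toReal := ENNReal.summable_toReal hω.ne
  refine h4.congr fun n => ?_
  rw [ENNReal.toReal_ofReal (h0 n ω)]

section fluct

variable {μ : Measure ℝ} [IsProbabilityMeasure μ] {b l β Γ : ℝ} {c : ℕ}

theorem Horn.mean_p [Countable X] (hMean : S_Mean) (hb : 0 ≤ b) (hμ : μ (Set.Icc (-b) b)ᶜ = 0)
    (hl : |l| * b ≤ β) (hβ : β ≤ 1) (hΓ1 : 1 ≤ Γ)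
    (hΓ : ∀ n i, n ≤ 2 * i → i ≤ 2 * n → (4 : ℝ) ^ H.e n ≤ Γ * 4 ^ H.e i)
    (n k m : ℕ) (hk : 2 * k ≤ n) (hm1 : m ≤ n + k) (hm2 : n ≤ m + k) :
    Integrable (fun ω : X → ℝ => |H.p (fun y => l * ω y) ω k n m - H.Ep μ l k n m|) (PX X μ) ∧
    ∫ ω, |H.p (fun y => l * ω y) ω k n m - H.Ep μ l k n m| ∂(PX X μ) ≤
      24 * b ^ 2 * Γ ^ 2 * (k + 1) ^ 2 * (27 + 2 * β) ^ k / 2 ^ H.e n := by
  have hl0 : 0 ≤ |l| * b := by positivity
  have hβ0 : 0 ≤ β := hl0.trans hl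
  have e1 : (0 : ℝ) < 2 ^ H.e n := by positivity
  have h4 : (4 : ℝ) ^ H.e n = 2 ^ H.e n * 2 ^ H.e n := by rw [← mul_pow]; norm_num
  obtain ⟨h1, h2⟩ := hMean X μ b hμ (fun ω => H.p (fun y => l * ω y) ω k n m) (H.Win n k)
    (24 * b ^ 2 * (k + 1) * Γ * (27 + 2 * β) ^ k / 4 ^ H.e n)
    (b ^ 2 * (27 - 1 / 100 + β) ^ k) (H.meas_p l k n m) (by positivity)
    (fun ω hω => H.p_bound (fun x => by
      rw [abs_mul]
      exact (mul_le_mul_of_nonneg_left (hω x) (abs_nonneg _)).trans hl) hβ hβ0 hb hω k n m)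
    (fun ω ω' h => H.p_congr2 hm1 hm2 h)
    (fun ω x t hx hω ht => by
      rw [H.mem_Win] at hx
      exact H.p_diffW hb hl hβ hω ht hΓ1 (hΓ n _ (by omega) (by omega))
        (hΓ n m (by omega) (by omega)))
  refine ⟨(h1.sub (integrable_const _)).abs, h2.trans ?_⟩
  have h3 := H.card_Win (n := n) (k := k) (Γ := Γ) (by omega)
    (fun i hi1 hi2 => hΓ i n (by omega) (by omega))
  have h5 : √((H.Win n k).card : ℝ) ≤ (k + 1) * Γ * 2 ^ H.e n := by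
    rw [Real.sqrt_le_left (by positivity)]
    refine h3.trans ?_
    rw [h4]
    have h6 : (2 * (k : ℝ) + 1) * Γ ≤ ((k + 1) * Γ) ^ 2 := by
      have h7 : (0 : ℝ) ≤ k := Nat.cast_nonneg k
      have h8 : Γ ≤ Γ ^ 2 := by nlinarith
      have h9 : (2 * (k : ℝ) + 1) ≤ (k + 1) ^ 2 := by nlinarith
      calc (2 * (k : ℝ) + 1) * Γ ≤ (k + 1) ^ 2 * Γ ^ 2 :=
            mul_le_mul h9 h8 (by positivity) (by positivity)
        _ = _ := by ring
    have h10 := mul_le_mul_of_nonneg_right h6 (by positivity : (0 : ℝ) ≤ 2 ^ H.e n * 2 ^ H.e n)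
    refine le_trans (le_of_eq (by ring)) (h10.trans (le_of_eq (by ring)))
  have h6 := mul_le_mul_of_nonneg_right h5 (by positivity :
    (0 : ℝ) ≤ 24 * b ^ 2 * (k + 1) * Γ * (27 + 2 * β) ^ k / 4 ^ H.e n)
  refine h6.trans (le_of_eq ?_)
  rw [h4]
  field_simp

theorem Horn.mean_v [Countable X] (hMean : S_Mean) (hb : 0 ≤ b) (hμ : μ (Set.Icc (-b) b)ᶜ = 0)
    (n : ℕ) : Integrable (fun ω : X → ℝ => |H.v ω n - mean μ|) (PX X μ) ∧
    ∫ ω, |H.v ω n - mean μ| ∂(PX X μ) ≤ 2 * b / 2 ^ H.e n := by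
  obtain ⟨h1, h2⟩ := hMean X μ b hμ (fun ω => H.v ω n) (H.Sh n) (2 * b / 4 ^ H.e n) b (H.meas_v n)
    (by positivity) (fun ω hω => H.v_abs hω n)
    (fun ω ω' h => by unfold Horn.v; rw [sum_congr rfl h])
    (fun ω x t _ hω ht => H.v_diff hω ht n)
  have h0 : ∫ ω', H.v ω' n ∂(Measure.infinitePi (fun _ : X => μ)) = mean μ := H.Ev hμ n
  rw [h0] at h2
  refine ⟨(h1.sub (integrable_const _)).abs, h2.trans (le_of_eq ?_)⟩
  rw [H.card]
  push_cast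
  have h4 : (4 : ℝ) ^ H.e n = 2 ^ H.e n * 2 ^ H.e n := by rw [← mul_pow]; norm_num
  rw [h4, Real.sqrt_mul_self (by positivity)]
  field_simp

/-- weighted deviation at the shell `n` -/
noncomputable def Horn.Dn (μ : Measure ℝ) [IsProbabilityMeasure μ] (l : ℝ) (c : ℕ) (z0 s : ℝ)
    (ω : X → ℝ) (n : ℕ) : ℝ :=
  ∑ k ∈ range (c * Nat.log 2 (n + 1) + 1), if 2 * k ≤ n then ∑ i ∈ range (2 * k + 1),
    z0⁻¹ ^ (k + 1) * s⁻¹ ^ k * |H.p (fun y => l * ω y) ω k n (n - k + i) -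
      H.Ep μ l k n (n - k + i)| else 0

variable {z0 s : ℝ}

theorem Horn.Dn_nonneg (hz : 0 < z0) (hs : 0 < s) (ω : X → ℝ) (n : ℕ) :
    0 ≤ H.Dn μ l c z0 s ω n := by
  unfold Horn.Dn
  apply sum_nonneg
  intro k _
  split_ifs
  · exact sum_nonneg fun i _ => by positivity
  · exact le_rfl

theorem Horn.Dn_ge (hz : 0 < z0) (hs : 0 < s) (ω : X → ℝ) {n k m : ℕ}
    (hk : k ≤ c * Nat.log 2 (n + 1)) (hk2 : 2 * k ≤ n) (hm1 : m ≤ n + k) (hm2 : n ≤ m + k) :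
    z0⁻¹ ^ (k + 1) * |H.p (fun y => l * ω y) ω k n m - H.Ep μ l k n m| ≤
      s ^ k * H.Dn μ l c z0 s ω n := by
  have h1 : z0⁻¹ ^ (k + 1) * s⁻¹ ^ k * |H.p (fun y => l * ω y) ω k n m - H.Ep μ l k n m| ≤
      H.Dn μ l c z0 s ω n := by
    unfold Horn.Dn
    have hk3 : k ∈ range (c * Nat.log 2 (n + 1) + 1) := mem_range.2 (by omega)
    have hi : m + k - n ∈ range (2 * k + 1) := mem_range.2 (by omega)
    refine le_trans ?_ (single_le_sum (f := fun k => if 2 * k ≤ n then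
      ∑ i ∈ range (2 * k + 1), z0⁻¹ ^ (k + 1) * s⁻¹ ^ k *
        |H.p (fun y => l * ω y) ω k n (n - k + i) - H.Ep μ l k n (n - k + i)| else 0)
      (fun k _ => ?_) hk3)
    · rw [if_pos hk2]
      refine le_trans (le_of_eq ?_) (single_le_sum (f := fun i => z0⁻¹ ^ (k + 1) * s⁻¹ ^ k *
        |H.p (fun y => l * ω y) ω k n (n - k + i) - H.Ep μ l k n (n - k + i)|)
        (fun i _ => by positivity) hi)
      rw [show n - k + (m + k - n) = m by omega]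
    · split_ifs
      · exact sum_nonneg fun i _ => by positivity
      · exact le_rfl
  have h2 := mul_le_mul_of_nonneg_left h1 (by positivity : (0 : ℝ) ≤ s ^ k)
  refine le_trans (le_of_eq ?_) h2
  rw [inv_pow s k]
  field_simp

theorem Horn.mean_Dn [Countable X] (hMean : S_Mean) (hb : 0 ≤ b) (hμ : μ (Set.Icc (-b) b)ᶜ = 0)
    (hl : |l| * b ≤ β) (hβ : β ≤ 1) (hΓ1 : 1 ≤ Γ)
    (hΓ : ∀ n i, n ≤ 2 * i → i ≤ 2 * n → (4 : ℝ) ^ H.e n ≤ Γ * 4 ^ H.e i)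
    (hz : 1 ≤ z0) (hs : 0 < s) (hw : 1 ≤ (27 + 2 * β) / (z0 * s)) (n : ℕ) :
    Integrable (fun ω : X → ℝ => H.Dn μ l c z0 s ω n) (PX X μ) ∧
    ∫ ω, H.Dn μ l c z0 s ω n ∂(PX X μ) ≤ 48 * b ^ 2 * Γ ^ 2 *
      (((c * Nat.log 2 (n + 1) + 1 : ℕ) : ℝ) ^ 4 *
        ((27 + 2 * β) / (z0 * s)) ^ (c * Nat.log 2 (n + 1)) / 2 ^ H.e n) := by
  set Kn := c * Nat.log 2 (n + 1) with hKn
  set w1 := (27 + 2 * β) / (z0 * s) with hw1
  have hz0 : 0 < z0 := by linarith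
  have hl0 : 0 ≤ |l| * b := by positivity
  have hβ0 : 0 ≤ β := hl0.trans hl
  have hint : ∀ k, 2 * k ≤ n → ∀ i ∈ range (2 * k + 1), Integrable (fun ω : X → ℝ =>
      z0⁻¹ ^ (k + 1) * s⁻¹ ^ k * |H.p (fun y => l * ω y) ω k n (n - k + i) -
        H.Ep μ l k n (n - k + i)|) (PX X μ) := by
    intro k hk i hi
    rw [mem_range] at hi
    exact (H.mean_p hMean hb hμ hl hβ hΓ1 hΓ n k (n - k + i) hk (by omega) (by omega)).1.const_mul _
  have hint2 : ∀ k ∈ range (Kn + 1), Integrable (fun ω : X → ℝ => if 2 * k ≤ n then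
      ∑ i ∈ range (2 * k + 1), z0⁻¹ ^ (k + 1) * s⁻¹ ^ k *
        |H.p (fun y => l * ω y) ω k n (n - k + i) - H.Ep μ l k n (n - k + i)| else 0)
      (PX X μ) := by
    intro k _
    by_cases hk : 2 * k ≤ n
    · simp only [if_pos hk]
      exact integrable_finsetSum _ (hint k hk)
    · simp only [if_neg hk]
      exact integrable_zero _ _ _
  constructor
  · unfold Horn.Dn
    exact integrable_finsetSum _ hint2
  · unfold Horn.Dn
    rw [integral_finsetSum _ hint2]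
    have hterm : ∀ k ∈ range (Kn + 1), ∫ ω, (if 2 * k ≤ n then
        ∑ i ∈ range (2 * k + 1), z0⁻¹ ^ (k + 1) * s⁻¹ ^ k *
        |H.p (fun y => l * ω y) ω k n (n - k + i) - H.Ep μ l k n (n - k + i)| else 0) ∂(PX X μ) ≤
        48 * b ^ 2 * Γ ^ 2 * (((Kn + 1 : ℕ) : ℝ) ^ 3 * w1 ^ Kn / 2 ^ H.e n) := by
      intro k hk
      rw [mem_range] at hk
      by_cases hk2 : 2 * k ≤ n
      · simp only [if_pos hk2]
        rw [integral_finsetSum _ (hint k hk2)]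
        have h1 : ∀ i ∈ range (2 * k + 1), ∫ ω, z0⁻¹ ^ (k + 1) * s⁻¹ ^ k *
            |H.p (fun y => l * ω y) ω k n (n - k + i) - H.Ep μ l k n (n - k + i)| ∂(PX X μ) ≤
            z0⁻¹ ^ (k + 1) * s⁻¹ ^ k *
              (24 * b ^ 2 * Γ ^ 2 * (k + 1) ^ 2 * (27 + 2 * β) ^ k / 2 ^ H.e n) := by
          intro i hi
          rw [mem_range] at hi
          rw [integral_const_mul]
          exact mul_le_mul_of_nonneg_left
            (H.mean_p hMean hb hμ hl hβ hΓ1 hΓ n k (n - k + i) hk2 (by omega) (by omega)).2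
            (by positivity)
        refine (sum_le_sum h1).trans ?_
        rw [sum_const, card_range, nsmul_eq_mul]
        push_cast
        have h2 : z0⁻¹ ^ (k + 1) * s⁻¹ ^ k *
            (24 * b ^ 2 * Γ ^ 2 * (k + 1) ^ 2 * (27 + 2 * β) ^ k / 2 ^ H.e n) =
            z0⁻¹ * (24 * b ^ 2 * Γ ^ 2 * ((k : ℝ) + 1) ^ 2 * w1 ^ k / 2 ^ H.e n) := by
          rw [hw1, div_pow, mul_pow, inv_pow, inv_pow, pow_succ]
          field_simp
        rw [h2]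
        have h3 : z0⁻¹ ≤ 1 := inv_le_one_of_one_le₀ hz
        have h4 : (k : ℝ) + 1 ≤ (Kn : ℝ) + 1 := by
          have : (k : ℝ) ≤ Kn := by exact_mod_cast Nat.lt_succ_iff.1 hk
          linarith
        have h5 : w1 ^ k ≤ w1 ^ Kn := pow_le_pow_right₀ hw (by omega)
        have hk0 : (0 : ℝ) ≤ k := Nat.cast_nonneg k
        have h6 : (2 * (k : ℝ) + 1) * (z0⁻¹ * (24 * b ^ 2 * Γ ^ 2 * ((k : ℝ) + 1) ^ 2 *
            w1 ^ k / 2 ^ H.e n)) ≤ (2 * ((Kn : ℝ) + 1)) * (1 * (24 * b ^ 2 * Γ ^ 2 *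
              ((Kn : ℝ) + 1) ^ 2 * w1 ^ Kn / 2 ^ H.e n)) := by
          gcongr
          linarith
        refine h6.trans (le_of_eq ?_)
        ring
      · simp only [if_neg hk2, integral_zero]
        positivity
    refine (sum_le_sum hterm).trans ?_
    rw [sum_const, card_range, nsmul_eq_mul]
    apply le_of_eq
    push_cast
    ring

theorem Horn.ae_sum [Countable X] (hMean : S_Mean) (hb : 0 ≤ b) (hμ : μ (Set.Icc (-b) b)ᶜ = 0)
    (hl : |l| * b ≤ β) (hβ : β ≤ 1) (hΓ1 : 1 ≤ Γ)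
    (hΓ : ∀ n i, n ≤ 2 * i → i ≤ 2 * n → (4 : ℝ) ^ H.e n ≤ Γ * 4 ^ H.e i)
    (hz : 1 ≤ z0) (hs : 0 < s) (hw : 1 ≤ (27 + 2 * β) / (z0 * s))
    (hsum : Summable fun n : ℕ => ((c * Nat.log 2 (n + 1) + 1 : ℕ) : ℝ) ^ 4 *
        ((27 + 2 * β) / (z0 * s)) ^ (c * Nat.log 2 (n + 1)) / 2 ^ H.e n) :
    ∀ᵐ ω ∂(PX X μ), Summable fun n => |H.v ω n - mean μ| + H.Dn μ l c z0 s ω n := by
  have h1 : Summable fun n : ℕ => 2 * b / (2 : ℝ) ^ H.e n := by
    refine Summable.of_nonneg_of_le (fun n => by positivity) (fun n => ?_) (hsum.mul_left (2 * b))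
    rw [mul_div_assoc', mul_comm (2 * b)]
    apply div_le_div_of_nonneg_right _ (by positivity)
    have h2 : (1 : ℝ) ≤ ((c * Nat.log 2 (n + 1) + 1 : ℕ) : ℝ) ^ 4 := by
      apply one_le_pow₀
      push_cast
      have : (0 : ℝ) ≤ c * Nat.log 2 (n + 1) := by positivity
      linarith
    have h3 : 1 ≤ ((27 + 2 * β) / (z0 * s)) ^ (c * Nat.log 2 (n + 1)) := one_le_pow₀ hw
    have h4 : 1 ≤ ((c * Nat.log 2 (n + 1) + 1 : ℕ) : ℝ) ^ 4 *
        ((27 + 2 * β) / (z0 * s)) ^ (c * Nat.log 2 (n + 1)) := by nlinarith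
    nlinarith
  refine ae_summable (a := fun n => 2 * b / (2 : ℝ) ^ H.e n + 48 * b ^ 2 * Γ ^ 2 *
      (((c * Nat.log 2 (n + 1) + 1 : ℕ) : ℝ) ^ 4 *
        ((27 + 2 * β) / (z0 * s)) ^ (c * Nat.log 2 (n + 1)) / 2 ^ H.e n))
    (fun n => (H.mean_v hMean hb hμ n).1.add (H.mean_Dn hMean hb hμ hl hβ hΓ1 hΓ hz hs hw n).1)
    (fun n ω => add_nonneg (abs_nonneg _) (H.Dn_nonneg (by linarith) hs ω n)) (fun n => ?_)
    (h1.add (hsum.mul_left _))
  rw [integral_add (H.mean_v hMean hb hμ n).1 (H.mean_Dn hMean hb hμ hl hβ hΓ1 hΓ hz hs hw n).1]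
  exact add_le_add (H.mean_v hMean hb hμ n).2 (H.mean_Dn hMean hb hμ hl hβ hΓ1 hΓ hz hs hw n).2

end fluct

end Pool.Agent.Helper32.PG
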