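import Mathlib

/-!
Statements of the packages of the polynomial growth project (helper32).
-/

set_option autoImplicit false

namespace Pool.Agent.Helper32.PG

open Finset MeasureTheory

/-- P1. Gap of the Margulis graphs on the discrete torus. -/
def S_Gap : Prop := ∀ (m : ℕ) [NeZero m] (f : ZMod m × ZMod m → ℝ), ∑ p, f p = 0 →
  ∑ p : ZMod m × ZMod m, f p * (f (p.1 + 1, p.2) + f (p.1 - 1, p.2) + f (p.1, p.2 + 1) +
      f (p.1, p.2 - 1) + f (p.1 + p.2, p.2) + f (p.1 - p.2, p.2) + f (p.1, p.2 + p.1) +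
      f (p.1, p.2 - p.1)) ≤ (8 - 1 / 100) * ∑ p, f p ^ 2

/-- P2. Virial lemma: a square summable solution of a slowly perturbed free Jacobi equation
vanishes. `h` is the self energy term, given up to exponentially small errors by band kernels. -/
def S_Virial : Prop := ∀ (q θ κ δ τ : ℝ), 0 < q → q < 1 → 1 < θ → q * θ ^ 2 < 1 → 0 < κ → 0 < δ →
    0 < τ → ∃ l0 > (0 : ℝ), ∀ (l c : ℝ), |l| ≤ l0 → |c| ≤ 1 - δ →
  ∀ (φ v h η : ℕ → ℝ) (S : ℕ → ℕ → ℕ → ℝ) (C : ℝ),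
    (Summable fun n => φ n ^ 2) →
    (∀ n, φ (n + 2) + φ n = 2 * c * φ (n + 1) - l / 2 * (v (n + 1) * φ (n + 1) + h (n + 1))) →
    (φ 1 = 2 * c * φ 0 - l / 2 * (v 0 * φ 0 + h 0)) →
    (∀ M n, |h n - l * ∑ m ∈ range (n + M), S M n m * φ m| ≤ C * q ^ M) →
    (∀ M n m, S M n m = S M m n) →
    (∀ M n k, |S M n (n + k)| ≤ κ * q ^ k) →
    (∀ M n k, |S M n (n + k) - S M (n + 1) (n + 1 + k)| ≤ κ * η n * q ^ k) →
    (∀ M n k, |S M n (n + k) - S M (n + 1) (n + 1 + k)| ≤ κ * η (n + k) * q ^ k) →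
    (∀ n, 0 < η n) → (∀ n, η n ≤ 3) → (∀ n, |v n| ≤ κ * η n) → (∀ n, q ^ n ≤ η n) →
    (∀ n, η (n + 1) * (1 + τ * η n) ≤ θ * η n) → (∀ n, η n ≤ θ * η (n + 1)) →
    (∀ n, 1 + τ * η n ≤ θ) →
    (∀ N, ∏ n ∈ range N, (1 + τ * η n) ≤ C * (N + 1)) →
    ∀ n, φ n = 0

/-- P3. Chebyshev with the Efron-Stein inequality on an infinite product. -/
def S_Dev : Prop := ∀ (X : Type) [Countable X] [DecidableEq X] (μ : Measure ℝ) [IsProbabilityMeasure μ]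
    (b : ℝ), μ (Set.Icc (-b) b)ᶜ = 0 → ∀ (G : (X → ℝ) → ℝ) (S : Finset X) (D K : ℝ),
    Measurable G → 0 ≤ D → (∀ ω, (∀ x, |ω x| ≤ b) → |G ω| ≤ K) →
    (∀ ω ω', (∀ x ∈ S, ω x = ω' x) → G ω = G ω') →
    (∀ ω x t, (∀ y, |ω y| ≤ b) → |t| ≤ b → |G (Function.update ω x t) - G ω| ≤ D) →
    ∀ t > 0, (Measure.infinitePi (fun _ : X => μ))
      {ω | t ≤ |G ω - ∫ ω', G ω' ∂(Measure.infinitePi (fun _ : X => μ))|} ≤
        ENNReal.ofReal (S.card * D ^ 2 / t ^ 2)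

/-- distance to the nearest change of `e` (or to the origin) -/
noncomputable def dist (e : ℕ → ℕ) (n : ℕ) : ℕ :=
  Nat.findGreatest (fun k => e (n - k) = e (n + k)) n

/-- P4. sums of the weights. -/
def S_Sum : Prop := ∀ (r : ℝ), 0 < r → r < 1 → ∀ (e : ℕ → ℕ) (j : ℕ) (C0 : ℝ), e 0 = 0 →
    (∀ n, e (n + 1) = e n ∨ e (n + 1) = e n + 1) →
    (∀ n : ℕ, (2 : ℝ) ^ e n ≤ C0 * ((n : ℝ) + 1) ^ j) →
    (∀ n, dist e n ≤ dist e (n + 1) + 1) ∧ (∀ n, dist e (n + 1) ≤ dist e n + 1) ∧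
    (∀ n, dist e n ≤ n) ∧
    (∀ n i, n ≤ i + dist e n → i ≤ n + dist e n → e i = e n) ∧
    ∃ A : ℝ, ∀ N : ℕ, ∑ n ∈ range N, r ^ dist e n ≤ A * (1 + Real.log ((N : ℝ) + 1))

/-- P5. the exponents -/
def S_Exp : Prop := ∀ j : ℕ, 1 ≤ j → ∃ e : ℕ → ℕ, ∃ C0 : ℝ, e 0 = 0 ∧
    (∀ n, e (n + 1) = e n ∨ e (n + 1) = e n + 1) ∧
    (∀ n : ℕ, (2 : ℝ) ^ e n ≤ C0 * ((n : ℝ) + 1) ^ j) ∧
    (∀ n : ℕ, ((n : ℝ) + 1) ^ j ≤ C0 * (2 : ℝ) ^ e n)

/-- A horn: a weighted graph on `X` whose vertex set is cut into shells `Sh n` of size `4 ^ e n`,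
with edges inside shells and between consecutive shells only, regular in the sense that the uniform
vector of a shell is mapped to a combination of uniform vectors, with a spectral gap in each shell,
and with an embedding `tau` moving each shell into the next one, an isomorphism where `e` is
constant. -/
structure Horn (X : Type) where
  Sh : ℕ → Finset X
  sh : X → ℕ
  e : ℕ → ℕ
  a : X → X → ℝ
  tau : X → X
  mem : ∀ n x, x ∈ Sh n ↔ sh x = n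
  card : ∀ n, (Sh n).card = 4 ^ e n
  e0 : e 0 = 0
  estep : ∀ n, e (n + 1) = e n ∨ e (n + 1) = e n + 1
  nn : ∀ x y, 0 ≤ a x y
  symm : ∀ x y, a x y = a y x
  loc : ∀ x y, sh x + 1 < sh y → a x y = 0
  row0 : ∀ x, ∑ y ∈ Sh (sh x), a x y = 8
  rowup : ∀ x, ∑ y ∈ Sh (sh x + 1), a x y = 2 * 2 ^ e (sh x + 1) / 2 ^ e (sh x)
  rowdn : ∀ x n, sh x = n + 1 → ∑ y ∈ Sh n, a x y = 2 * 2 ^ e n / 2 ^ e (n + 1)
  gap : ∀ n (f : X → ℝ), ∑ x ∈ Sh n, f x = 0 →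
    ∑ x ∈ Sh n, ∑ y ∈ Sh n, a x y * f x * f y ≤ (8 - 1 / 100) * ∑ x ∈ Sh n, f x ^ 2
  tinj : Function.Injective tau
  tsh : ∀ x, sh (tau x) = sh x + 1
  ta : ∀ x y, e (sh x) = e (sh x + 1) → e (sh y) = e (sh y + 1) → a (tau x) (tau y) = a x y

/-- P6. the model: shells `(ZMod (2 ^ e n)) ^ 2` with the Margulis moves, joined by reduction. -/
def S_Model : Prop := S_Gap → ∀ e : ℕ → ℕ, e 0 = 0 →
    (∀ n, e (n + 1) = e n ∨ e (n + 1) = e n + 1) →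
    ∃ (X : Type) (_ : DecidableEq X) (_ : Countable X) (H : Horn X) (o : X), H.e = e ∧
      H.sh o = 0 ∧ (∀ x y, ∃ k : ℕ, H.a x y = k) ∧
      ∀ x, Relation.ReflTransGen (fun x y => 0 < H.a x y) o x

end Pool.Agent.Helper32.PG
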