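import Pool.Agent.Helper32.PG.Stm2

/-!
Statements of the packages for the full support of the spectral measure of the root (helper32).
-/

set_option autoImplicit false

open scoped BigOperators InnerProductSpace Topology ENNReal

namespace Pool.Agent.Helper32.PG

open Finset MeasureTheory
open Pool.Agent.Y662.TR (LL dv Mw)
open Pool.Agent.TH369.MU (SpM)

/-- V2. The virial lemma without the equation at the origin. -/
def S_Virial2 : Prop := ∀ (q θ κ δ τ : ℝ), 0 < q → q < 1 → 1 < θ → q * θ ^ 2 < 1 → 0 < κ → 0 < δ →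
    0 < τ → ∃ l0 > (0 : ℝ), ∀ (l c : ℝ), |l| ≤ l0 → |c| ≤ 1 - δ →
  ∀ (φ v h η : ℕ → ℝ) (S : ℕ → ℕ → ℕ → ℝ) (C : ℝ),
    (Summable fun n => φ n ^ 2) →
    (∀ n, φ (n + 2) + φ n = 2 * c * φ (n + 1) - l / 2 * (v (n + 1) * φ (n + 1) + h (n + 1))) →
    (∀ M n, |h n - l * ∑ m ∈ range (n + M), S M n m * φ m| ≤ C * q ^ M) →
    (∀ M n m, S M n m = S M m n) →
    (∀ M n k, |S M n (n + k)| ≤ κ * q ^ k) →
    (∀ M n k, |S M n (n + k) - S M (n + 1) (n + 1 + k)| ≤ κ * η n * q ^ k) →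
    (∀ M n k, |S M n (n + k) - S M (n + 1) (n + 1 + k)| ≤ κ * η (n + k) * q ^ k) →
    (∀ n, 0 < η n) → (∀ n, η n ≤ 3) → (∀ n, |v n| ≤ κ * η n) → (∀ n, q ^ n ≤ η n) →
    (∀ n, η (n + 1) * (1 + τ * η n) ≤ θ * η n) → (∀ n, η n ≤ θ * η (n + 1)) →
    (∀ n, 1 + τ * η n ≤ θ) →
    (∀ N, ∏ n ∈ range N, (1 + τ * η n) ≤ C * (N + 1)) →
    ∀ n, φ n = 0

/-- R1. If the spectral measure of `f` does not charge a neighbourhood of `E`, then `(T - E) u = f`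
has a solution. -/
def S_Sol : Prop := ∀ (V : Type) (T : LL V →L[ℂ] LL V), IsSelfAdjoint T → ∀ (f : LL V)
    (m : Measure ℝ), SpM T f m → ∀ (E ε : ℝ), 0 < ε → m (Set.Ioo (E - ε) (E + ε)) = 0 →
    ∃ u : LL V, T u - (E : ℂ) • u = f

end Pool.Agent.Helper32.PG
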