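import Mathlib

/-!
The quantitative virial lemma for complex energies (helper32).
-/

set_option autoImplicit false

namespace Pool.Agent.Helper32.PG

open Finset

/-- V3. Quantitative virial lemma: `y` is the imaginary part of the energy, there is no equation at
the origin, and the solution at the origin is controlled by `F_{2R} (1/R + y) U`. -/
def S_Virial3 : Prop := ∀ (q θ κ δ τ : ℝ), 0 < q → q < 1 → 1 < θ → q * θ ^ 2 < 1 → 0 < κ → 0 < δ →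
    0 < τ → ∃ l0 > (0 : ℝ), ∃ C3 > (0 : ℝ), ∀ (l c y : ℝ), |l| ≤ l0 → |c| ≤ 1 - δ → 0 ≤ y → y ≤ 1 →
  ∀ (φ h : ℕ → ℂ) (v η : ℕ → ℝ) (S : ℕ → ℕ → ℕ → ℂ) (C U : ℝ),
    (∀ N, ∑ n ∈ range N, ‖φ n‖ ^ 2 ≤ U) →
    (∀ n, φ (n + 2) + φ n = (2 * (c : ℂ) + (y : ℂ) * Complex.I / 2) * φ (n + 1) -
      (l : ℂ) / 2 * ((v (n + 1) : ℂ) * φ (n + 1) + h (n + 1))) →
    (∀ M n, ‖h n - (l : ℂ) * ∑ m ∈ range (n + M), S M n m * φ m‖ ≤ C * q ^ M) →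
    (∀ M n m, S M n m = S M m n) →
    (∀ M n k, ‖S M n (n + k)‖ ≤ κ * q ^ k) →
    (∀ M n k, |(S M n (n + k)).im| ≤ κ * y * q ^ k) →
    (∀ M n k, ‖S M n (n + k) - S M (n + 1) (n + 1 + k)‖ ≤ κ * η n * q ^ k) →
    (∀ M n k, ‖S M n (n + k) - S M (n + 1) (n + 1 + k)‖ ≤ κ * η (n + k) * q ^ k) →
    (∀ n, 0 < η n) → (∀ n, η n ≤ 3) → (∀ n, |v n| ≤ κ * η n) → (∀ n, q ^ n ≤ η n) →
    (∀ n, η (n + 1) * (1 + τ * η n) ≤ θ * η n) → (∀ n, η n ≤ θ * η (n + 1)) →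
    (∀ n, 1 + τ * η n ≤ θ) →
    ∀ R : ℕ, 1 ≤ R → ‖φ 0‖ ^ 2 + ‖φ 1‖ ^ 2 + ∑ n ∈ range R, η n * ‖φ n‖ ^ 2 ≤
      C3 * (∏ n ∈ range (2 * R), (1 + τ * η n)) * (1 / R + y) * U

end Pool.Agent.Helper32.PG
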