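import Pool.Agent.Helper32.PG.Stm2

/-!
Statements of the packages on spectral measures of all vectors (helper32).
-/

set_option autoImplicit false

open scoped BigOperators InnerProductSpace Topology ENNReal

namespace Pool.Agent.Helper32.PG

open Finset MeasureTheory
open Pool.Agent.Y662.TR (LL dv Mw)
open Pool.Agent.TH369.MU (SpM)

/-- A1. A set which is null for the spectral measures of all unit vectors is null for all the
spectral measures. -/
def S_AllVec : Prop := ∀ (V : Type) (T : LL V →L[ℂ] LL V), IsSelfAdjoint T → ∀ S : Set ℝ,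
    (∀ (v : V) (m : Measure ℝ), SpM T (dv v) m → m S = 0) →
    ∀ (f : LL V) (m : Measure ℝ), SpM T f m → m S = 0

/-- A2. A measure which is Hoelder continuous of exponent `α` in an interval vanishes on the subsets
of the interval with Hausdorff dimension less than `α`. -/
def S_Dim : Prop := ∀ (E₁ E₂ α C : ℝ) (m : Measure ℝ) [IsFiniteMeasure m], 0 < α → 0 < C →
    (∀ s t, E₁ < s → s < t → t < E₂ → m (Set.Ioo s t) ≤ ENNReal.ofReal (C * (t - s) ^ α)) →
    ∀ S ⊆ Set.Ioo E₁ E₂, dimH S < ENNReal.ofReal α → m S = 0

end Pool.Agent.Helper32.PG
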